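import Pool.Agent.H62.Om

/-!
The sums `S b X = sum_n b n * om (X / n)` and their bound by partial summation.
-/

namespace Pool.Agent.H62

open Real Finset Filter Topology

/-- The weighted sum. -/
noncomputable def S (b : ℕ → ℂ) (X : ℝ) : ℂ := ∑' n : ℕ, b n * (om (X / n) : ℂ)

lemma norm_term_le {b : ℕ → ℂ} (hb : ∀ n, ‖b n‖ ≤ 1) (X : ℝ) (n : ℕ) :
    ‖b n * (om (X / n) : ℂ)‖ ≤ 2 * X ^ 2 * (1 / (n : ℝ) ^ 2) := by
  rw [norm_mul, Complex.norm_real, Real.norm_eq_abs, abs_of_nonneg (om_nonneg _)]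
  calc ‖b n‖ * om (X / n) ≤ 1 * (2 * (X / n) ^ 2) :=
        mul_le_mul (hb n) (om_le _) (om_nonneg _) zero_le_one
    _ = 2 * X ^ 2 * (1 / (n : ℝ) ^ 2) := by rw [div_pow]; ring

lemma summable_bound (X : ℝ) : Summable (fun n : ℕ => 2 * X ^ 2 * (1 / (n : ℝ) ^ 2)) :=
  (Real.summable_one_div_nat_pow.mpr (by norm_num)).mul_left _

lemma summable_term {b : ℕ → ℂ} (hb : ∀ n, ‖b n‖ ≤ 1) (X : ℝ) :
    Summable (fun n : ℕ => b n * (om (X / n) : ℂ)) :=
  Summable.of_norm_bounded (summable_bound X) (norm_term_le hb X)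

lemma norm_S_le_sq {b : ℕ → ℂ} (hb : ∀ n, ‖b n‖ ≤ 1) (X : ℝ) : ‖S b X‖ ≤ 4 * X ^ 2 := by
  have h1 : ‖S b X‖ ≤ ∑' n : ℕ, 2 * X ^ 2 * (1 / (n : ℝ) ^ 2) :=
    tsum_of_norm_bounded (summable_bound X).hasSum (norm_term_le hb X)
  rw [tsum_mul_left, hasSum_zeta_two.tsum_eq] at h1
  have hpi : π < 3.15 := Real.pi_lt_d2
  have hpi0 := Real.pi_pos
  have : π ^ 2 / 6 ≤ 2 := by nlinarith
  nlinarith [sq_nonneg X, mul_le_mul_of_nonneg_left this (sq_nonneg X)]

/-- Partial summation bound. -/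
theorem abel_bound {b : ℕ → ℂ} (hb0 : b 0 = 0) (hb : ∀ n, ‖b n‖ ≤ 1) {K β X : ℝ} {n₀ : ℕ}
    (hK : 0 ≤ K) (hβ : 0 ≤ β) (hX : 1 ≤ X) (hn₀ : (n₀ : ℝ) ≤ X)
    (h1 : ∀ n : ℕ, ‖∑ k ∈ range (n + 1), b k‖ ≤ K * (n : ℝ) ^ (3 / 4 : ℝ))
    (h2 : ∀ n : ℕ, n₀ ≤ n → (n : ℝ) ≤ X ^ 2 →
      ‖∑ k ∈ range (n + 1), b k‖ ≤ β * Real.sqrt n) :
    ‖S b X‖ ≤ 48 * β * Real.sqrt X + 32 * K * n₀ ^ 2 / X + 16 * K / Real.sqrt X := by
  have hX0 : 0 < X := by linarith
  have hsX : 0 < Real.sqrt X := Real.sqrt_pos.mpr hX0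
  have hsX1 : 1 ≤ Real.sqrt X := by rw [Real.one_le_sqrt]; exact hX
  have hsq : Real.sqrt X * Real.sqrt X = X := Real.mul_self_sqrt hX0.le
  set B : ℕ → ℂ := fun n => ∑ k ∈ range (n + 1), b k with hB
  set w : ℕ → ℝ := fun n => om (X / n) with hw
  set m : ℕ := ⌊X⌋₊ with hm
  set m2 : ℕ := ⌊X ^ 2⌋₊ with hm2
  have hm1 : 1 ≤ m := Nat.le_floor (by simpa using hX)
  have hmX : (m : ℝ) ≤ X := Nat.floor_le hX0.le
  have hmX' : X / 2 ≤ m := by
    have := Nat.lt_floor_add_one X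
    have h : (1:ℝ) ≤ m := by exact_mod_cast hm1
    rw [← hm] at this
    linarith
  have hm2X : (m2 : ℝ) ≤ X ^ 2 := Nat.floor_le (by positivity)
  have hm21 : 1 ≤ m2 := Nat.le_floor (by push_cast; exact one_le_pow₀ hX)
  have hm2X' : X ^ 2 / 2 ≤ m2 := by
    have := Nat.lt_floor_add_one (X ^ 2)
    have h : (1:ℝ) ≤ m2 := by exact_mod_cast hm21
    rw [← hm2] at this
    linarith
  -- termwise bound
  have hterm : ∀ n : ℕ, ‖B n‖ * |w n - w (n + 1)| ≤
      (if n ∈ Ioc 0 m then 32 * β / Real.sqrt X else 0)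
      + (if m < n then 4 * β * X * Real.sqrt X * ((n : ℝ) ^ 2)⁻¹ else 0)
      + (if m2 < n then 4 * K * X * Real.sqrt X * ((n : ℝ) ^ 2)⁻¹ else 0)
      + (if n ∈ range n₀ then 32 * K * n₀ / X else 0) := by
    intro n
    have hnn : 0 ≤ (if n ∈ Ioc 0 m then 32 * β / Real.sqrt X else 0) := by
      split_ifs <;> positivity
    have hnn2 : 0 ≤ (if m < n then 4 * β * X * Real.sqrt X * ((n : ℝ) ^ 2)⁻¹ else 0) := by
      split_ifs <;> positivity
    have hnn3 : 0 ≤ (if m2 < n then 4 * K * X * Real.sqrt X * ((n : ℝ) ^ 2)⁻¹ else 0) := by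
      split_ifs <;> positivity
    have hnn4 : 0 ≤ (if n ∈ range n₀ then 32 * K * n₀ / X else 0) := by
      split_ifs <;> positivity
    rcases Nat.eq_zero_or_pos n with h0 | hn
    · subst h0
      have : B 0 = 0 := by simp [hB, hb0]
      rw [this]
      simp only [norm_zero, zero_mul]
      linarith
    have hn1 : (1:ℝ) ≤ n := by exact_mod_cast hn
    have hn0 : (0:ℝ) < n := by linarith
    by_cases hc0 : n < n₀
    · -- small n
      have hnX : (n : ℝ) ≤ X := le_trans (by exact_mod_cast hc0.le) hn₀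
      have e1 : ‖B n‖ ≤ K * n₀ := by
        refine (h1 n).trans ?_
        gcongr
        calc (n : ℝ) ^ (3 / 4 : ℝ) ≤ (n : ℝ) ^ (1 : ℝ) :=
              Real.rpow_le_rpow_of_exponent_le hn1 (by norm_num)
          _ = n := Real.rpow_one _
          _ ≤ n₀ := by exact_mod_cast hc0.le
      have e2 := om_diff_le2 X n hn hnX
      have : ‖B n‖ * |w n - w (n + 1)| ≤ K * n₀ * (32 / X) := by
        gcongr
      have h4 : (if n ∈ range n₀ then 32 * K * n₀ / X else 0) = 32 * K * n₀ / X := by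
        rw [if_pos (mem_range.mpr hc0)]
      rw [h4]
      have e3 : K * n₀ * (32 / X) = 32 * K * n₀ / X := by ring
      linarith
    push Not at hc0
    by_cases hc1 : n ≤ m
    · have hnX : (n : ℝ) ≤ X := le_trans (by exact_mod_cast hc1) hmX
      have hnX2 : (n : ℝ) ≤ X ^ 2 := hnX.trans (by nlinarith)
      have e1 : ‖B n‖ ≤ β * Real.sqrt X := (h2 n hc0 hnX2).trans (by gcongr)
      have e2 := om_diff_le2 X n hn hnX
      have : ‖B n‖ * |w n - w (n + 1)| ≤ β * Real.sqrt X * (32 / X) := by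
        gcongr
      have h4 : (if n ∈ Ioc 0 m then 32 * β / Real.sqrt X else 0) = 32 * β / Real.sqrt X := by
        rw [if_pos (mem_Ioc.mpr ⟨hn, hc1⟩)]
      rw [h4]
      have e3 : β * Real.sqrt X * (32 / X) = 32 * β / Real.sqrt X := by
        rw [mul_div_assoc', div_eq_div_iff hX0.ne' hsX.ne']
        linear_combination (32 * β) * hsq
      linarith
    push Not at hc1
    have hnX : X ≤ n := by
      have := Nat.lt_floor_add_one X
      rw [← hm] at this
      have h5 : ((m + 1 : ℕ) : ℝ) ≤ n := by exact_mod_cast hc1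
      push_cast at h5
      linarith
    have e2 := om_diff_le1 X hX0.le n hn
    by_cases hc2 : n ≤ m2
    · have hnX2 : (n : ℝ) ≤ X ^ 2 := le_trans (by exact_mod_cast hc2) hm2X
      have e1 : ‖B n‖ ≤ β * Real.sqrt n := h2 n hc0 hnX2
      have h3 : ‖B n‖ * |w n - w (n + 1)| ≤ β * Real.sqrt n * (4 * X ^ 2 / (n : ℝ) ^ 3) := by
        gcongr
      have h4 : (if m < n then 4 * β * X * Real.sqrt X * ((n : ℝ) ^ 2)⁻¹ else 0)
          = 4 * β * X * Real.sqrt X * ((n : ℝ) ^ 2)⁻¹ := by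
        rw [if_pos hc1]
      rw [h4]
      have e3 : β * Real.sqrt n * (4 * X ^ 2 / (n : ℝ) ^ 3) ≤
          4 * β * X * Real.sqrt X * ((n : ℝ) ^ 2)⁻¹ := by
        have hsn : Real.sqrt n * Real.sqrt n = n := Real.mul_self_sqrt hn0.le
        have hsn0 : 0 < Real.sqrt n := Real.sqrt_pos.mpr hn0
        have hsnX : Real.sqrt X ≤ Real.sqrt n := Real.sqrt_le_sqrt hnX
        have e5 : Real.sqrt n * X ≤ Real.sqrt X * n := by
          calc Real.sqrt n * X = Real.sqrt n * Real.sqrt X * Real.sqrt X := by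
                rw [mul_assoc, hsq]
            _ ≤ Real.sqrt n * Real.sqrt X * Real.sqrt n := by gcongr
            _ = Real.sqrt X * (Real.sqrt n * Real.sqrt n) := by ring
            _ = Real.sqrt X * n := by rw [hsn]
        have e6 : β * Real.sqrt n * (4 * X ^ 2 / (n : ℝ) ^ 3)
            = 4 * β * X * (Real.sqrt n * X) / (n : ℝ) ^ 3 := by ring
        rw [e6]
        have e7 : 4 * β * X * Real.sqrt X * ((n : ℝ) ^ 2)⁻¹
            = 4 * β * X * (Real.sqrt X * n) / (n : ℝ) ^ 3 := by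
          field_simp
        rw [e7]
        gcongr
      linarith
    push Not at hc2
    have hnX2 : X ^ 2 ≤ n := by
      have := Nat.lt_floor_add_one (X ^ 2)
      rw [← hm2] at this
      have h5 : ((m2 + 1 : ℕ) : ℝ) ≤ n := by exact_mod_cast hc2
      push_cast at h5
      linarith
    have h3 : ‖B n‖ * |w n - w (n + 1)| ≤
        K * (n : ℝ) ^ (3 / 4 : ℝ) * (4 * X ^ 2 / (n : ℝ) ^ 3) := by
      gcongr
      exact h1 n
    have h4 : (if m2 < n then 4 * K * X * Real.sqrt X * ((n : ℝ) ^ 2)⁻¹ else 0)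
        = 4 * K * X * Real.sqrt X * ((n : ℝ) ^ 2)⁻¹ := by
      rw [if_pos hc2]
    rw [h4]
    have e3 : K * (n : ℝ) ^ (3 / 4 : ℝ) * (4 * X ^ 2 / (n : ℝ) ^ 3) ≤
        4 * K * X * Real.sqrt X * ((n : ℝ) ^ 2)⁻¹ := by
      have e5 : (n : ℝ) ^ (3 / 4 : ℝ) * X ≤ Real.sqrt X * n := by
        have e51 : Real.sqrt X ≤ (n : ℝ) ^ (1 / 4 : ℝ) := by
          have : Real.sqrt X = (X ^ 2) ^ (1 / 4 : ℝ) := by
            rw [Real.sqrt_eq_rpow, ← Real.rpow_natCast, ← Real.rpow_mul hX0.le]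
            norm_num
          rw [this]
          gcongr
        calc (n : ℝ) ^ (3 / 4 : ℝ) * X = (n : ℝ) ^ (3 / 4 : ℝ) * Real.sqrt X * Real.sqrt X := by
              rw [mul_assoc, hsq]
          _ ≤ (n : ℝ) ^ (3 / 4 : ℝ) * Real.sqrt X * (n : ℝ) ^ (1 / 4 : ℝ) := by gcongr
          _ = Real.sqrt X * ((n : ℝ) ^ (3 / 4 : ℝ) * (n : ℝ) ^ (1 / 4 : ℝ)) := by ring
          _ = Real.sqrt X * n := by
              rw [← Real.rpow_add hn0]; norm_num
      have e6 : K * (n : ℝ) ^ (3 / 4 : ℝ) * (4 * X ^ 2 / (n : ℝ) ^ 3)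
          = 4 * K * X * ((n : ℝ) ^ (3 / 4 : ℝ) * X) / (n : ℝ) ^ 3 := by ring
      rw [e6]
      have e7 : 4 * K * X * Real.sqrt X * ((n : ℝ) ^ 2)⁻¹
          = 4 * K * X * (Real.sqrt X * n) / (n : ℝ) ^ 3 := by
        field_simp
      rw [e7]
      gcongr
    linarith
  -- sum of the majorants
  have hsum : ∀ M : ℕ, ∑ n ∈ range (M + 1), ‖B n‖ * |w n - w (n + 1)| ≤
      48 * β * Real.sqrt X + 32 * K * n₀ ^ 2 / X + 16 * K / Real.sqrt X := by
    intro M
    refine (Finset.sum_le_sum (fun n _ => hterm n)).trans ?_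
    rw [sum_add_distrib, sum_add_distrib, sum_add_distrib]
    have s1 : ∑ n ∈ range (M + 1), (if n ∈ Ioc 0 m then 32 * β / Real.sqrt X else 0)
        ≤ 32 * β * Real.sqrt X := by
      rw [← sum_filter]
      rw [sum_const, nsmul_eq_mul]
      have hc : ((filter (fun n => n ∈ Ioc 0 m) (range (M + 1))).card : ℝ) ≤ X := by
        have : (filter (fun n => n ∈ Ioc 0 m) (range (M + 1))).card ≤ (Ioc 0 m).card := by
          apply card_le_card
          intro x hx
          exact (mem_filter.mp hx).2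
        rw [Nat.card_Ioc, Nat.sub_zero] at this
        exact le_trans (by exact_mod_cast this) hmX
      calc ((filter (fun n => n ∈ Ioc 0 m) (range (M + 1))).card : ℝ) * (32 * β / Real.sqrt X)
          ≤ X * (32 * β / Real.sqrt X) := by gcongr
        _ = 32 * β * Real.sqrt X := by
            nth_rewrite 1 [← hsq]; field_simp
    have gsum : ∀ k : ℕ, ∑ n ∈ range (M + 1), (if k < n then ((n : ℝ) ^ 2)⁻¹ else 0)
        ≤ 2 / (k + 1) := by
      intro k
      rw [← sum_filter]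
      have : filter (fun n => k < n) (range (M + 1)) = Ioo k (M + 1) := by
        ext x; simp [and_comm]
      rw [this]
      exact sum_Ioo_inv_sq_le k (M + 1)
    have s2 : ∑ n ∈ range (M + 1),
        (if m < n then 4 * β * X * Real.sqrt X * ((n : ℝ) ^ 2)⁻¹ else 0)
        ≤ 16 * β * Real.sqrt X := by
      have : ∀ n : ℕ, (if m < n then 4 * β * X * Real.sqrt X * ((n : ℝ) ^ 2)⁻¹ else 0)
          = 4 * β * X * Real.sqrt X * (if m < n then ((n : ℝ) ^ 2)⁻¹ else 0) := by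
        intro n; split_ifs <;> simp
      rw [sum_congr rfl (fun n _ => this n), ← mul_sum]
      calc 4 * β * X * Real.sqrt X * ∑ n ∈ range (M + 1), (if m < n then ((n : ℝ) ^ 2)⁻¹ else 0)
          ≤ 4 * β * X * Real.sqrt X * (2 / (m + 1)) := by gcongr; exact gsum m
        _ ≤ 4 * β * X * Real.sqrt X * (4 / X) := by
            gcongr 4 * β * X * Real.sqrt X * ?_
            rw [div_le_div_iff₀ (by positivity) hX0]
            linarith
        _ = 16 * β * Real.sqrt X := by field_simp; ring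
    have s3 : ∑ n ∈ range (M + 1),
        (if m2 < n then 4 * K * X * Real.sqrt X * ((n : ℝ) ^ 2)⁻¹ else 0)
        ≤ 16 * K / Real.sqrt X := by
      have : ∀ n : ℕ, (if m2 < n then 4 * K * X * Real.sqrt X * ((n : ℝ) ^ 2)⁻¹ else 0)
          = 4 * K * X * Real.sqrt X * (if m2 < n then ((n : ℝ) ^ 2)⁻¹ else 0) := by
        intro n; split_ifs <;> simp
      rw [sum_congr rfl (fun n _ => this n), ← mul_sum]
      calc 4 * K * X * Real.sqrt X * ∑ n ∈ range (M + 1), (if m2 < n then ((n : ℝ) ^ 2)⁻¹ else 0)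
          ≤ 4 * K * X * Real.sqrt X * (2 / (m2 + 1)) := by gcongr; exact gsum m2
        _ ≤ 4 * K * X * Real.sqrt X * (4 / X ^ 2) := by
            gcongr 4 * K * X * Real.sqrt X * ?_
            rw [div_le_div_iff₀ (by positivity) (by positivity)]
            linarith
        _ = 16 * K / Real.sqrt X := by
            have : X ^ 2 = X * (Real.sqrt X * Real.sqrt X) := by rw [hsq]; ring
            rw [this]; field_simp; ring
    have s4 : ∑ n ∈ range (M + 1), (if n ∈ range n₀ then 32 * K * n₀ / X else 0)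
        ≤ 32 * K * n₀ ^ 2 / X := by
      rw [← sum_filter]
      rw [sum_const, nsmul_eq_mul]
      have hc : ((filter (fun n => n ∈ range n₀) (range (M + 1))).card : ℝ) ≤ n₀ := by
        have : (filter (fun n => n ∈ range n₀) (range (M + 1))).card ≤ (range n₀).card := by
          apply card_le_card
          intro x hx
          exact (mem_filter.mp hx).2
        rw [card_range] at this
        exact_mod_cast this
      calc ((filter (fun n => n ∈ range n₀) (range (M + 1))).card : ℝ) * (32 * K * n₀ / X)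
          ≤ n₀ * (32 * K * n₀ / X) := by gcongr
        _ = 32 * K * n₀ ^ 2 / X := by ring
    linarith
  -- limit
  have hlim : Tendsto (fun M : ℕ => ‖∑ n ∈ range (M + 1), b n * (w n : ℂ)‖) atTop
      (𝓝 ‖S b X‖) := by
    have := (summable_term hb X).hasSum.tendsto_sum_nat
    exact ((tendsto_add_atTop_iff_nat 1).mpr this).norm
  have hlim2 : Tendsto (fun M : ℕ => 48 * β * Real.sqrt X + 32 * K * n₀ ^ 2 / X
      + 16 * K / Real.sqrt X + K * (2 * X ^ 2) * (((M + 1 : ℕ) : ℝ))⁻¹) atTop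
      (𝓝 (48 * β * Real.sqrt X + 32 * K * n₀ ^ 2 / X + 16 * K / Real.sqrt X
        + K * (2 * X ^ 2) * 0)) := by
    refine tendsto_const_nhds.add (tendsto_const_nhds.mul ?_)
    exact tendsto_inv_atTop_zero.comp
      (tendsto_natCast_atTop_atTop.comp (tendsto_add_atTop_nat 1))
  rw [mul_zero, add_zero] at hlim2
  refine le_of_tendsto_of_tendsto' hlim hlim2 (fun M => ?_)
  rw [abel_finite b hb0 w M]
  refine (norm_add_le _ _).trans ?_
  have t1 : ‖∑ n ∈ range (M + 1), (∑ k ∈ range (n + 1), b k) * ((w n - w (n + 1) : ℝ) : ℂ)‖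
      ≤ ∑ n ∈ range (M + 1), ‖B n‖ * |w n - w (n + 1)| := by
    refine (norm_sum_le _ _).trans (sum_le_sum (fun n _ => ?_))
    rw [norm_mul, Complex.norm_real, Real.norm_eq_abs]
  have t2 : ‖(∑ k ∈ range (M + 1), b k) * (w (M + 1) : ℂ)‖ ≤
      K * (2 * X ^ 2) * (((M + 1 : ℕ) : ℝ))⁻¹ := by
    rw [norm_mul, Complex.norm_real, Real.norm_eq_abs, abs_of_nonneg (om_nonneg _)]
    have hM1 : (1:ℝ) ≤ ((M + 1 : ℕ) : ℝ) := by push_cast; linarith [Nat.cast_nonneg (α := ℝ) M]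
    have hM0 : (0:ℝ) < ((M + 1 : ℕ) : ℝ) := by linarith
    have t3 : ‖∑ k ∈ range (M + 1), b k‖ ≤ K * ((M + 1 : ℕ) : ℝ) := by
      refine (h1 M).trans ?_
      gcongr
      calc (M : ℝ) ^ (3 / 4 : ℝ) ≤ ((M + 1 : ℕ) : ℝ) ^ (3 / 4 : ℝ) := by
            gcongr; push_cast; linarith
        _ ≤ ((M + 1 : ℕ) : ℝ) ^ (1 : ℝ) := Real.rpow_le_rpow_of_exponent_le hM1 (by norm_num)
        _ = _ := Real.rpow_one _
    have t4 : om (X / ((M + 1 : ℕ) : ℝ)) ≤ 2 * (X / ((M + 1 : ℕ) : ℝ)) ^ 2 := om_le _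
    calc ‖∑ k ∈ range (M + 1), b k‖ * w (M + 1)
        ≤ K * ((M + 1 : ℕ) : ℝ) * (2 * (X / ((M + 1 : ℕ) : ℝ)) ^ 2) := by
          gcongr
          exact om_nonneg _
      _ = K * (2 * X ^ 2) * (((M + 1 : ℕ) : ℝ))⁻¹ := by
          field_simp
  have := hsum M
  linarith

end Pool.Agent.H62
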