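import Pool.Agent.H62.Duality

/-!
The main analytic inequality.
-/

namespace Pool.Agent.H62

open Real Filter Topology MeasureTheory Set DirichletCharacter

variable {q : ℕ} [NeZero q]

lemma card_char_le : ((Finset.univ : Finset (DirichletCharacter ℂ q)).card : ℝ) ≤ q := by
  have h1 : (Finset.univ : Finset (DirichletCharacter ℂ q)).card ≤ q := by
    rw [Finset.card_univ, ← Nat.card_eq_fintype_card,
      DirichletCharacter.card_eq_totient_of_hasEnoughRootsOfUnity ℂ q]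
    exact Nat.totient_le q
  exact_mod_cast h1

theorem main_ineq (c : DirichletCharacter ℂ q → ℂ) (hc : ∀ χ, c χ ≠ 0 → χ.IsPrimitive ∧ χ.Odd)
    (hc1 : ∀ χ, ‖c χ‖ ≤ 1)
    {b₁ b₂ : ℕ → ℂ} (h₁ : ∀ n, ‖b₁ n‖ ≤ 1) (h₂ : ∀ n, ‖b₂ n‖ ≤ 1) {κ K : ℝ} (hκ : 0 ≤ κ)
    (hK : 1 ≤ K)
    (hb₁ : ∀ n, b₁ n = ∑ χ : DirichletCharacter ℂ q, c χ * bchi χ n)
    (hb₂ : ∀ n, κ * b₂ n = ∑ χ : DirichletCharacter ℂ q, (c χ * rootNumber χ⁻¹) * bchi χ⁻¹ n)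
    (hg₁ : Growth b₁ K) (hg₂ : Growth b₂ K)
    (hg : ∀ χ : DirichletCharacter ℂ q, χ.Odd → Growth (bchi χ) K) {T : ℝ} (hT : 0 < T)
    {t₀ : ℝ} (ht₀ : Real.exp (t₀ + 1) ≤ Real.sqrt q) (ht₀' : Real.exp (-t₀ + 1) ≤ Real.sqrt q)
    {S₁ : ℝ} (hS0 : 0 < S₁) (hS : 2 ≤ t₀ + S₁) {m : ℕ} (hm : 0 < m) {n : ℕ}
    (hn : 288 * (q : ℝ) ^ 2 * (T + 5) ^ 2 ≤ n) :
    ∃ t₁ : ℝ, t₀ + S₁ ≤ t₁ ∧ t₁ ≤ t₀ + S₁ * (m : ℝ) ^ n ∧
      ∀ β : ℝ, 0 ≤ β → (∀ u, t₁ / 2 ≤ u → u ≤ 3 * t₁ / 2 → ‖gg q b₁ b₂ κ u‖ ≤ β) →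
      cphi * ‖gg q b₁ b₂ κ t₀‖ ≤ cphi * β +
        ((1 + κ) * 32 + 14 * ((1 + κ) * (64 * K)) * rho t₀) * (Jmom * T ^ (-(3 / 4) : ℝ)) +
        q * ((288 * q * (T + 5) ^ 2) * ((256 * MM q T / c1 q K T ^ 2) * (π * (2 * π / m)))) := by
  obtain ⟨s, hs1, hs2, hs3⟩ := PT_rec hK hg hT t₀ hS0 hm hn
  refine ⟨t₀ + s, by linarith, by linarith, fun β hβ hgb => ?_⟩
  have hcg := continuous_gg (q := q) h₁ h₂ κ
  have hgG := gg_le (q := q) h₁ h₂ hκ hK hg₁ hg₂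
  set G : ℝ := (1 + κ) * (64 * K) with hG
  have hG0 : 0 ≤ G := by positivity
  have hsq : (0:ℝ) < Real.sqrt q := lt_of_lt_of_le one_pos (one_le_sqrt_q (q := q))
  have hL : ∀ v, |v| ≤ 1 → ‖gg q b₁ b₂ κ (t₀ - v) - gg q b₁ b₂ κ t₀‖ ≤ ((1 + κ) * 32) * |v| := by
    intro v hv
    have hv' := abs_le.mp hv
    unfold gg
    have e1 : hb b₁ (Real.sqrt q) (t₀ - v) - κ * hb b₂ (Real.sqrt q) (-(t₀ - v)) -
        (hb b₁ (Real.sqrt q) t₀ - κ * hb b₂ (Real.sqrt q) (-t₀)) =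
        (hb b₁ (Real.sqrt q) (t₀ - v) - hb b₁ (Real.sqrt q) t₀) -
        κ * (hb b₂ (Real.sqrt q) (-(t₀ - v)) - hb b₂ (Real.sqrt q) (-t₀)) := by ring
    rw [e1]
    refine (norm_sub_le _ _).trans ?_
    rw [norm_mul, Complex.norm_real, Real.norm_eq_abs, abs_of_nonneg hκ]
    have hx1 : Real.exp (t₀ - v) ≤ Real.sqrt q :=
      (Real.exp_le_exp.mpr (by linarith)).trans ht₀
    have hx2 : Real.exp t₀ ≤ Real.sqrt q :=
      (Real.exp_le_exp.mpr (by linarith)).trans ht₀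
    have hx3 : Real.exp (-(t₀ - v)) ≤ Real.sqrt q :=
      (Real.exp_le_exp.mpr (by linarith)).trans ht₀'
    have hx4 : Real.exp (-t₀) ≤ Real.sqrt q :=
      (Real.exp_le_exp.mpr (by linarith)).trans ht₀'
    have l1 := hb_lip h₁ hsq hx1 hx2
    have l2 := hb_lip h₂ hsq hx3 hx4
    have a1 : |t₀ - v - t₀| = |v| := by
      rw [show t₀ - v - t₀ = -v by ring, abs_neg]
    have a2 : |-(t₀ - v) - -t₀| = |v| := by
      rw [show -(t₀ - v) - -t₀ = v by ring]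
    rw [a1] at l1
    rw [a2] at l2
    have l3 : κ * ‖hb b₂ (Real.sqrt q) (-(t₀ - v)) - hb b₂ (Real.sqrt q) (-t₀)‖ ≤
      κ * (32 * |v|) := by gcongr
    nlinarith
  have hA := fejA hcg hG0 hgG hT (t₀ := t₀) (Λ := (1 + κ) * 32) (by positivity) hL
  have hB := fejB hcg hG0 hgG hT (t₁ := t₀ + s) (β := β) (by linarith) hβ hgb
  rw [← sum_PT_eq c hc hK hb₁ hb₂ hg hT] at hA hB
  set E : ℝ := (288 * q * (T + 5) ^ 2) * ((256 * MM q T / c1 q K T ^ 2) * (π * (2 * π / m))) with hE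
  have hE0 : 0 ≤ E := by
    have hM1 : 0 ≤ MM q T := by
      rw [MM]; positivity
    have hc0 := c1_pos (q := q) hK T
    positivity
  have hD : ‖∑ χ : DirichletCharacter ℂ q, c χ * PT χ T (t₀ + s) -
      ∑ χ : DirichletCharacter ℂ q, c χ * PT χ T t₀‖ ≤ q * E := by
    rw [← Finset.sum_sub_distrib]
    refine (norm_sum_le _ _).trans ?_
    calc ∑ χ : DirichletCharacter ℂ q, ‖c χ * PT χ T (t₀ + s) - c χ * PT χ T t₀‖
        ≤ ∑ _χ : DirichletCharacter ℂ q, E := by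
          apply Finset.sum_le_sum
          intro χ _
          by_cases h0 : c χ = 0
          · rw [h0]; simpa using hE0
          rw [← mul_sub, norm_mul]
          have h1 := hs3 χ (hc χ h0).1 (hc χ h0).2
          calc ‖c χ‖ * ‖PT χ T (t₀ + s) - PT χ T t₀‖ ≤ 1 * E :=
                mul_le_mul (hc1 χ) h1 (norm_nonneg _) zero_le_one
            _ = E := one_mul E
      _ = ((Finset.univ : Finset (DirichletCharacter ℂ q)).card : ℝ) * E := by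
          rw [Finset.sum_const, nsmul_eq_mul]
      _ ≤ q * E := mul_le_mul_of_nonneg_right (card_char_le (q := q)) hE0
  set P₀ := ∑ χ : DirichletCharacter ℂ q, c χ * PT χ T t₀
  set P₁ := ∑ χ : DirichletCharacter ℂ q, c χ * PT χ T (t₀ + s)
  have hcp := cphi_pos
  have hn1 : cphi * ‖gg q b₁ b₂ κ t₀‖ = ‖(cphi : ℂ) * gg q b₁ b₂ κ t₀‖ := by
    rw [norm_mul, Complex.norm_real, Real.norm_eq_abs, abs_of_pos hcp]
  have hn2 : ‖(cphi : ℂ) * gg q b₁ b₂ κ t₀‖ ≤ ‖(cphi : ℂ) * gg q b₁ b₂ κ t₀ - P₀‖ + ‖P₁ - P₀‖ + ‖P₁‖ := by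
    have e : (cphi : ℂ) * gg q b₁ b₂ κ t₀ = ((cphi : ℂ) * gg q b₁ b₂ κ t₀ - P₀) -
        (P₁ - P₀) + P₁ := by ring
    calc ‖(cphi : ℂ) * gg q b₁ b₂ κ t₀‖ = ‖((cphi : ℂ) * gg q b₁ b₂ κ t₀ - P₀) -
        (P₁ - P₀) + P₁‖ := by rw [← e]
      _ ≤ ‖((cphi : ℂ) * gg q b₁ b₂ κ t₀ - P₀) - (P₁ - P₀)‖ + ‖P₁‖ := norm_add_le _ _
      _ ≤ _ := by
          have := norm_sub_le ((cphi : ℂ) * gg q b₁ b₂ κ t₀ - P₀) (P₁ - P₀)
          linarith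
  have hJ : 0 ≤ Jmom * T ^ (-(3 / 4) : ℝ) := mul_nonneg Jmom_nonneg (by positivity)
  have hr := one_le_rho t₀
  have h8 : 8 * G * (Jmom * T ^ (-(3 / 4) : ℝ)) ≤ 8 * G * rho t₀ * (Jmom * T ^ (-(3 / 4) : ℝ)) := by
    apply mul_le_mul_of_nonneg_right _ hJ
    nlinarith
  rw [hn1]
  calc ‖(cphi : ℂ) * gg q b₁ b₂ κ t₀‖
      ≤ ((1 + κ) * 32 + 6 * G * rho t₀) * (Jmom * T ^ (-(3 / 4) : ℝ)) + q * E +
        (cphi * β + 8 * G * (Jmom * T ^ (-(3 / 4) : ℝ))) := by linarith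
    _ ≤ ((1 + κ) * 32 + 6 * G * rho t₀) * (Jmom * T ^ (-(3 / 4) : ℝ)) + q * E +
        (cphi * β + 8 * G * rho t₀ * (Jmom * T ^ (-(3 / 4) : ℝ))) := by linarith
    _ = _ := by ring

end Pool.Agent.H62
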