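import Pool.Agent.H62.YY
import Pool.Agent.H62.MainIneq

/-!
The test function and its dual.
-/

namespace Pool.Agent.H62

open Finset ZMod DirichletCharacter

lemma char_inv_unit {q : ℕ} (χ : DirichletCharacter ℂ q) (u : (ZMod q)ˣ) :
    χ ((u⁻¹ : (ZMod q)ˣ) : ZMod q) = χ⁻¹ (u : ZMod q) := by
  rw [MulChar.inv_apply_eq_inv']
  apply eq_inv_of_mul_eq_one_left
  rw [← map_mul, Units.inv_mul, map_one]

/-- coefficients of `k` in the basis of characters -/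
noncomputable def cc {q : ℕ} [NeZero q] (k : ZMod q → ℂ) (χ : DirichletCharacter ℂ q) : ℂ :=
  (q.totient : ℂ)⁻¹ * ∑ x : ZMod q, χ⁻¹ x * k x

lemma sum_cc {q : ℕ} [NeZero q] (k : ZMod q → ℂ) (hk : ∀ x, ¬ IsUnit x → k x = 0) (b : ZMod q) :
    ∑ χ : DirichletCharacter ℂ q, cc k χ * χ b = k b := by
  classical
  have hφ : (q.totient : ℂ) ≠ 0 := by
    have := Nat.totient_pos.mpr (Nat.pos_of_ne_zero (NeZero.ne q))
    exact_mod_cast this.ne'
  unfold cc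
  have h1 : ∀ χ : DirichletCharacter ℂ q, (q.totient : ℂ)⁻¹ * (∑ x : ZMod q, χ⁻¹ x * k x) * χ b =
      (q.totient : ℂ)⁻¹ * ∑ x : ZMod q, k x * (χ⁻¹ x * χ b) := by
    intro χ
    rw [mul_assoc, Finset.sum_mul]
    congr 1
    refine Finset.sum_congr rfl (fun x _ => by ring)
  simp_rw [h1]
  rw [← Finset.mul_sum, Finset.sum_comm]
  simp_rw [← Finset.mul_sum]
  have h2 : ∀ x : ZMod q, k x * ∑ χ : DirichletCharacter ℂ q, χ⁻¹ x * χ b =
      if x = b then k x * q.totient else 0 := by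
    intro x
    by_cases hx : IsUnit x
    · have h3 : ∀ χ : DirichletCharacter ℂ q, χ⁻¹ x * χ b = χ x⁻¹ * χ b := by
        intro χ
        obtain ⟨u, rfl⟩ := hx
        rw [← char_inv_unit, ZMod.inv_coe_unit]
      simp_rw [h3]
      rw [DirichletCharacter.sum_char_inv_mul_char_eq ℂ hx b]
      split_ifs <;> simp
    · rw [hk x hx]; simp
  simp_rw [h2]
  rw [Finset.sum_ite_eq' univ b, if_pos (Finset.mem_univ b)]
  field_simp

lemma norm_cc_le {q : ℕ} [NeZero q] (k : ZMod q → ℂ) (hk : ∀ x, ¬ IsUnit x → k x = 0)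
    (hk1 : ∀ x, ‖k x‖ ≤ 1) (χ : DirichletCharacter ℂ q) : ‖cc k χ‖ ≤ 1 := by
  classical
  have hφ : (0 : ℝ) < (q.totient : ℝ) := by
    have := Nat.totient_pos.mpr (Nat.pos_of_ne_zero (NeZero.ne q))
    exact_mod_cast this
  unfold cc
  rw [norm_mul, norm_inv, Complex.norm_natCast, inv_mul_le_iff₀ hφ, mul_one]
  refine (norm_sum_le _ _).trans ?_
  calc ∑ x : ZMod q, ‖χ⁻¹ x * k x‖ ≤ ∑ x : ZMod q, if IsUnit x then (1:ℝ) else 0 := by
        apply Finset.sum_le_sum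
        intro x _
        split_ifs with hx
        · rw [norm_mul]
          exact mul_le_one₀ (DirichletCharacter.norm_le_one _ _) (norm_nonneg _) (hk1 x)
        · rw [hk x hx]; simp
    _ = (q.totient : ℝ) := by
        rw [Finset.sum_boole]
        congr 1
        rw [← ZMod.card_units_eq_totient q]
        rw [← Finset.card_univ]
        symm
        apply Finset.card_bij (fun (u : (ZMod q)ˣ) _ => (u : ZMod q))
        · intro u _; simp
        · intro u _ v _ h; exact Units.ext h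
        · intro x hx
          rw [Finset.mem_filter] at hx
          obtain ⟨u, rfl⟩ := hx.2
          exact ⟨u, Finset.mem_univ _, rfl⟩

lemma cc_even {q : ℕ} [NeZero q] (k : ZMod q → ℂ) (hk : ∀ x, k (-x) = - k x)
    {χ : DirichletCharacter ℂ q} (he : χ.Even) : cc k χ = 0 := by
  unfold cc
  have h1 : ∑ x : ZMod q, χ⁻¹ x * k x = - ∑ x : ZMod q, χ⁻¹ x * k x := by
    have h0 := Equiv.sum_comp (Equiv.neg (ZMod q)) (fun x => χ⁻¹ x * k x)
    nth_rewrite 1 [← h0]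
    rw [← Finset.sum_neg_distrib]
    refine Finset.sum_congr rfl (fun x _ => ?_)
    simp only [Equiv.neg_apply]
    rw [hk, MulChar.inv_apply_eq_inv' χ (-x), MulChar.inv_apply_eq_inv' χ x]
    have : χ (-x) = χ x := by
      have h2 : -x = (-1) * x := by ring
      rw [h2, map_mul, he, one_mul]
    rw [this]
    ring
  have h2 : ∑ x : ZMod q, χ⁻¹ x * k x = 0 := by
    have h3 : (2 : ℂ) * ∑ x : ZMod q, χ⁻¹ x * k x = 0 := by linear_combination h1
    rcases mul_eq_zero.mp h3 with h | h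
    · norm_num at h
    · exact h
  rw [h2, mul_zero]

variable {N : ℕ} [NeZero N]

open Classical in
/-- the test function `sin (2 π a x / N²)` on units -/
noncomputable def kf (N : ℕ) [NeZero N] (a : ZMod (N ^ 2)) (x : ZMod (N ^ 2)) : ℂ :=
  if IsUnit x then (stdAddChar (a * x) - stdAddChar (-(a * x))) / (2 * Complex.I) else 0

lemma kf_zero (a : ZMod (N ^ 2)) (x : ZMod (N ^ 2)) (hx : ¬ IsUnit x) : kf N a x = 0 := by
  unfold kf; rw [if_neg hx]

lemma norm_kf_le (a : ZMod (N ^ 2)) (x : ZMod (N ^ 2)) : ‖kf N a x‖ ≤ 1 := by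
  unfold kf
  split_ifs
  · rw [norm_div, norm_mul, Complex.norm_I, Complex.norm_ofNat, mul_one]
    have h := norm_sub_le (stdAddChar (a * x) : ℂ) (stdAddChar (-(a * x)))
    rw [norm_stdAddChar, norm_stdAddChar] at h
    linarith
  · simp

lemma kf_neg (a : ZMod (N ^ 2)) (x : ZMod (N ^ 2)) : kf N a (-x) = - kf N a x := by
  unfold kf
  by_cases hx : IsUnit x
  · rw [if_pos hx, if_pos hx.neg, mul_neg, neg_neg]; ring
  · rw [if_neg hx, if_neg (fun h => hx ((IsUnit.neg_iff x).mp h))]; simp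

/-- the coefficients vanish on imprimitive characters -/
lemma cc_imprimitive {a : ZMod (N ^ 2)} (ha : IsUnit a) {χ : DirichletCharacter ℂ (N ^ 2)}
    (hχ : ¬ χ.IsPrimitive) : cc (kf N a) χ = 0 := by
  classical
  have hN0 : 0 < N := Nat.pos_of_ne_zero (NeZero.ne N)
  -- find the prime
  obtain ⟨ℓ, hp, hℓ, hd⟩ : ∃ ℓ : ℕ, ℓ.Prime ∧ ℓ ∣ N ∧ χ.conductor ∣ N * (N / ℓ) := by
    obtain ⟨m, hm⟩ := conductor_dvd_level χ
    have hm1 : m ≠ 1 := by
      rintro rfl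
      apply hχ
      rw [isPrimitive_def]
      rw [mul_one] at hm
      exact hm.symm
    obtain ⟨ℓ, hp, hℓm⟩ := Nat.exists_prime_and_dvd hm1
    have h1 : ℓ ∣ N ^ 2 := by rw [hm]; exact Dvd.dvd.mul_left hℓm _
    have h2 : ℓ ∣ N := hp.dvd_of_dvd_pow h1
    refine ⟨ℓ, hp, h2, ?_⟩
    obtain ⟨m', rfl⟩ := hℓm
    obtain ⟨N', rfl⟩ := h2
    rw [Nat.mul_div_cancel_left N' hp.pos]
    have h3 : ℓ * (ℓ * N' * N') = ℓ * (χ.conductor * m') := by
      calc ℓ * (ℓ * N' * N') = (ℓ * N') ^ 2 := by ring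
        _ = χ.conductor * (ℓ * m') := hm
        _ = _ := by ring
    have h4 : ℓ * N' * N' = χ.conductor * m' := Nat.eq_of_mul_eq_mul_left hp.pos h3
    rw [h4]
    exact Dvd.intro _ rfl
  have hcast : ∀ t : ℕ, χ ((uu N ((N / ℓ) * t) : (ZMod (N ^ 2))ˣ) : ZMod (N ^ 2)) = 1 := by
    intro t
    have hf := factorsThrough_conductor χ
    rw [hf.eq_changeLevel, changeLevel_eq_cast_of_dvd]
    have h1 : (ZMod.cast ((uu N ((N / ℓ) * t) : (ZMod (N ^ 2))ˣ) : ZMod (N ^ 2)) :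
        ZMod χ.conductor) = 1 := by
      rw [← ZMod.castHom_apply (h := hf.dvd)]
      unfold uu
      simp only
      rw [map_add, map_one, ← Nat.cast_mul, map_natCast]
      have h2 : ((N * ((N / ℓ) * t) : ℕ) : ZMod χ.conductor) = 0 := by
        rw [ZMod.natCast_eq_zero_iff, ← mul_assoc]
        exact Dvd.dvd.mul_right hd _
      rw [h2, add_zero]
    rw [h1, map_one]
  unfold cc
  have hshift : ∀ t : ℕ, ∑ x : ZMod (N ^ 2), χ⁻¹ x * kf N a x =
      ∑ x : ZMod (N ^ 2), χ⁻¹ x * kf N a (x * (uu N ((N / ℓ) * t) : (ZMod (N ^ 2))ˣ)) := by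
    intro t
    rw [← Equiv.sum_comp (Units.mulRight (uu N ((N / ℓ) * t))) (fun x => χ⁻¹ x * kf N a x)]
    refine Finset.sum_congr rfl (fun x _ => ?_)
    rw [Units.mulRight_apply, map_mul]
    have h1 : χ⁻¹ ((uu N ((N / ℓ) * t) : (ZMod (N ^ 2))ˣ) : ZMod (N ^ 2)) = 1 := by
      rw [MulChar.inv_apply_eq_inv', hcast t, inv_one]
    rw [h1, mul_one]
  have hℓ0 : (ℓ : ℂ) ≠ 0 := by exact_mod_cast hp.ne_zero
  have hinner : ∀ x : ZMod (N ^ 2), χ⁻¹ x * ∑ t ∈ range ℓ,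
      kf N a (x * (uu N ((N / ℓ) * t) : (ZMod (N ^ 2))ˣ)) = 0 := by
    intro x
    by_cases hx : IsUnit x
    · have hz : ∀ ε : ZMod (N ^ 2), IsUnit ε → (∑ t ∈ range ℓ, stdAddChar ((t : ZMod (N ^ 2)) *
          (ε * ((N : ZMod (N ^ 2)) * ((N / ℓ : ℕ) : ZMod (N ^ 2))))) : ℂ) = 0 := by
        intro ε hε
        rw [geo_sum]
        · rw [if_neg]
          intro h0
          rw [hε.mul_right_eq_zero, ← Nat.cast_mul, ZMod.natCast_eq_zero_iff, sq] at h0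
          have h1 : N ∣ N / ℓ := Nat.dvd_of_mul_dvd_mul_left hN0 h0
          have h2 : 0 < N / ℓ := Nat.div_pos (Nat.le_of_dvd hN0 hℓ) hp.pos
          have h3 : N / ℓ < N := Nat.div_lt_self hN0 hp.one_lt
          exact absurd (Nat.le_of_dvd h2 h1) (not_le.mpr h3)
        · have h1 : ((ℓ * (N * (N / ℓ)) : ℕ) : ZMod (N ^ 2)) = 0 := by
            rw [ZMod.natCast_eq_zero_iff]
            have : ℓ * (N * (N / ℓ)) = N ^ 2 := by
              rw [mul_left_comm, Nat.mul_div_cancel' hℓ, sq]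
            rw [this]
          push_cast at h1 ⊢
          linear_combination ε * h1
      have hkt : ∀ t : ℕ, kf N a (x * (uu N ((N / ℓ) * t) : (ZMod (N ^ 2))ˣ)) =
          (stdAddChar (a * x) * stdAddChar ((t : ZMod (N ^ 2)) * ((a * x) * ((N : ZMod (N ^ 2)) * ((N / ℓ : ℕ) : ZMod (N ^ 2))))) -
          stdAddChar (-(a * x)) * stdAddChar ((t : ZMod (N ^ 2)) *
            ((-(a * x)) * ((N : ZMod (N ^ 2)) * ((N / ℓ : ℕ) : ZMod (N ^ 2)))))) / (2 * Complex.I) := by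
        intro t
        unfold kf
        rw [if_pos (hx.mul (Units.isUnit _)), ← AddChar.map_add_eq_mul, ← AddChar.map_add_eq_mul]
        unfold uu
        simp only
        congr 3
        · push_cast; ring
        · push_cast; ring
      simp_rw [hkt]
      rw [← Finset.sum_div, Finset.sum_sub_distrib, ← Finset.mul_sum, ← Finset.mul_sum,
        hz _ (ha.mul hx), hz _ (ha.mul hx).neg]
      simp
    · rw [MulChar.map_nonunit _ hx, zero_mul]
  have hfin : (ℓ : ℂ) * ∑ x : ZMod (N ^ 2), χ⁻¹ x * kf N a x = 0 := by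
    calc (ℓ : ℂ) * ∑ x : ZMod (N ^ 2), χ⁻¹ x * kf N a x =
        ∑ t ∈ range ℓ, ∑ x : ZMod (N ^ 2), χ⁻¹ x * kf N a x := by simp
      _ = ∑ t ∈ range ℓ, ∑ x : ZMod (N ^ 2), χ⁻¹ x *
          kf N a (x * (uu N ((N / ℓ) * t) : (ZMod (N ^ 2))ˣ)) :=
          Finset.sum_congr rfl (fun t _ => hshift t)
      _ = ∑ x : ZMod (N ^ 2), χ⁻¹ x * ∑ t ∈ range ℓ,
          kf N a (x * (uu N ((N / ℓ) * t) : (ZMod (N ^ 2))ˣ)) := by
          rw [Finset.sum_comm]
          refine Finset.sum_congr rfl (fun x _ => by rw [Finset.mul_sum])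
      _ = 0 := Finset.sum_eq_zero (fun x _ => hinner x)
  rcases mul_eq_zero.mp hfin with h | h
  · exact absurd h hℓ0
  · rw [h, mul_zero]

lemma cc_ne_zero {a : ZMod (N ^ 2)} (ha : IsUnit a) {χ : DirichletCharacter ℂ (N ^ 2)}
    (h : cc (kf N a) χ ≠ 0) : χ.IsPrimitive ∧ χ.Odd := by
  constructor
  · by_contra hp
    exact h (cc_imprimitive ha hp)
  · rcases χ.even_or_odd with he | ho
    · exact absurd (cc_even _ (kf_neg a) he) h
    · exact ho

/-- the dual function -/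
noncomputable def kt (N : ℕ) [NeZero N] (a : ZMod (N ^ 2)) (m : ZMod (N ^ 2)) : ℂ :=
  ∑ χ : DirichletCharacter ℂ (N ^ 2), (cc (kf N a) χ * rootNumber χ⁻¹) * χ⁻¹ m

lemma kt_nonunit {a m : ZMod (N ^ 2)} (hm : ¬ IsUnit m) : kt N a m = 0 := by
  unfold kt
  apply Finset.sum_eq_zero
  intro χ _
  rw [MulChar.map_nonunit _ hm, mul_zero]

theorem kt_unit {a : ZMod (N ^ 2)} (ha : IsUnit a) (m : (ZMod (N ^ 2))ˣ) :
    kt N a m = -(1 / (2 * (N : ℂ))) *
      (K1 N (a * ((m⁻¹ : (ZMod (N ^ 2))ˣ) : ZMod (N ^ 2))) -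
        K1 N (-(a * ((m⁻¹ : (ZMod (N ^ 2))ˣ) : ZMod (N ^ 2))))) := by
  classical
  have hN : (N : ℂ) ≠ 0 := by exact_mod_cast NeZero.ne N
  have hsqrt : (((N ^ 2 : ℕ) : ℂ)) ^ (1 / 2 : ℂ) = N := by
    have e1 : (((N ^ 2 : ℕ) : ℂ)) ^ (1 / 2 : ℂ) = ((((N : ℝ) ^ 2) ^ (1 / 2 : ℝ) : ℝ) : ℂ) := by
      rw [Complex.ofReal_cpow (by positivity)]
      push_cast
      rfl
    rw [e1, ← Real.sqrt_eq_rpow, Real.sqrt_sq (by positivity)]
    simp
  have h1 : ∀ χ : DirichletCharacter ℂ (N ^ 2), cc (kf N a) χ * rootNumber χ⁻¹ =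
      cc (kf N a) χ * ((1 / (Complex.I * N)) * ∑ x : ZMod (N ^ 2), χ⁻¹ x * stdAddChar x) := by
    intro χ
    by_cases h0 : cc (kf N a) χ = 0
    · rw [h0]; simp
    congr 1
    have ho := odd_inv (cc_ne_zero ha h0).2
    unfold rootNumber gaussSum
    rw [if_neg ho.not_even, hsqrt, pow_one]
    field_simp
  unfold kt
  have h2 : ∀ χ : DirichletCharacter ℂ (N ^ 2), (cc (kf N a) χ * rootNumber χ⁻¹) * χ⁻¹ m =
      (1 / (Complex.I * N)) * ∑ x : ZMod (N ^ 2), stdAddChar x *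
        (cc (kf N a) χ * χ⁻¹ (x * m)) := by
    intro χ
    rw [h1, Finset.mul_sum, Finset.mul_sum, Finset.mul_sum, Finset.sum_mul]
    refine Finset.sum_congr rfl (fun x _ => ?_)
    rw [map_mul]
    ring
  simp_rw [h2]
  rw [← Finset.mul_sum, Finset.sum_comm]
  simp_rw [← Finset.mul_sum]
  -- restrict to units
  have h3 : ∑ x : ZMod (N ^ 2), (stdAddChar x : ℂ) * ∑ χ : DirichletCharacter ℂ (N ^ 2),
      cc (kf N a) χ * χ⁻¹ (x * m) = ∑ x : (ZMod (N ^ 2))ˣ,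
      (stdAddChar (x : ZMod (N ^ 2)) : ℂ) * kf N a (((x * m)⁻¹ : (ZMod (N ^ 2))ˣ) : ZMod (N ^ 2)) := by
    symm
    apply Finset.sum_of_injOn (fun (x : (ZMod (N ^ 2))ˣ) => (x : ZMod (N ^ 2)))
    · intro x _ y _ h; exact Units.ext h
    · intro x _; simp
    · intro x _ hx
      have hxu : ¬ IsUnit x := by
        intro hu
        apply hx
        obtain ⟨u, rfl⟩ := hu
        exact ⟨u, by simp, rfl⟩
      have : ∀ χ : DirichletCharacter ℂ (N ^ 2), χ⁻¹ (x * (m : ZMod (N ^ 2))) = 0 := by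
        intro χ
        rw [map_mul, MulChar.map_nonunit _ hxu, zero_mul]
      simp only [this, mul_zero, Finset.sum_const_zero]
    · intro x _
      congr 1
      rw [← sum_cc (kf N a) (kf_zero a)]
      refine Finset.sum_congr rfl (fun χ _ => ?_)
      congr 1
      rw [char_inv_unit, Units.val_mul]
  rw [h3]
  have h4 : ∀ x : (ZMod (N ^ 2))ˣ, (stdAddChar (x : ZMod (N ^ 2)) : ℂ) *
      kf N a (((x * m)⁻¹ : (ZMod (N ^ 2))ˣ) : ZMod (N ^ 2)) =
      (stdAddChar ((x : ZMod (N ^ 2)) + a * ((m⁻¹ : (ZMod (N ^ 2))ˣ) : ZMod (N ^ 2)) *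
        ((x⁻¹ : (ZMod (N ^ 2))ˣ) : ZMod (N ^ 2))) -
      stdAddChar ((x : ZMod (N ^ 2)) + (-(a * ((m⁻¹ : (ZMod (N ^ 2))ˣ) : ZMod (N ^ 2)))) *
        ((x⁻¹ : (ZMod (N ^ 2))ˣ) : ZMod (N ^ 2)))) / (2 * Complex.I) := by
    intro x
    unfold kf
    rw [if_pos (Units.isUnit _), AddChar.map_add_eq_mul, AddChar.map_add_eq_mul, mul_inv,
      Units.val_mul]
    have e1 : a * (((x⁻¹ : (ZMod (N ^ 2))ˣ) : ZMod (N ^ 2)) *
        ((m⁻¹ : (ZMod (N ^ 2))ˣ) : ZMod (N ^ 2))) =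
        a * ((m⁻¹ : (ZMod (N ^ 2))ˣ) : ZMod (N ^ 2)) *
        ((x⁻¹ : (ZMod (N ^ 2))ˣ) : ZMod (N ^ 2)) := by ring
    rw [e1, neg_mul]
    ring
  simp_rw [h4]
  rw [← Finset.sum_div, Finset.sum_sub_distrib]
  unfold K1
  have hI : Complex.I ^ 2 = -1 := Complex.I_sq
  have hI0 : Complex.I ≠ 0 := Complex.I_ne_zero
  field_simp
  rw [hI]
  ring

/-- the size of the dual function -/
noncomputable def kap (N : ℕ) [NeZero N] (hsq : Squarefree N) : ℝ :=
  ((Xs N ((y0 N hsq : ZMod (N ^ 2)) ^ 2)).card : ℝ) / (2 * N)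

lemma kap_ge (hsq : Squarefree N) (hodd : Odd N) :
    (2 : ℝ) ^ N.primeFactors.card / 2 ≤ kap N hsq := by
  unfold kap
  have h := card_Xs_ge hsq hodd
  have hN : (0 : ℝ) < N := by exact_mod_cast Nat.pos_of_ne_zero (NeZero.ne N)
  rw [div_le_div_iff₀ (by norm_num) (by positivity)]
  have h' : ((2 : ℝ) ^ N.primeFactors.card * N) ≤
      ((Xs N ((y0 N hsq : ZMod (N ^ 2)) ^ 2)).card : ℝ) := by exact_mod_cast h
  linarith

lemma kap_pos (hsq : Squarefree N) (hodd : Odd N) : 0 < kap N hsq :=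
  lt_of_lt_of_le (by positivity) (kap_ge hsq hodd)

lemma kap_le (hsq : Squarefree N) : kap N hsq ≤ N / 2 := by
  unfold kap
  have hN : (0 : ℝ) < N := by exact_mod_cast Nat.pos_of_ne_zero (NeZero.ne N)
  rw [div_le_div_iff₀ (by positivity) (by norm_num)]
  have h1 : (Xs N ((y0 N hsq : ZMod (N ^ 2)) ^ 2)).card ≤ N ^ 2 := by
    refine (Finset.card_le_univ _).trans ?_
    rw [ZMod.card_units_eq_totient]
    exact Nat.totient_le _
  have h2 : ((Xs N ((y0 N hsq : ZMod (N ^ 2)) ^ 2)).card : ℝ) ≤ (N : ℝ) ^ 2 := by exact_mod_cast h1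
  nlinarith

lemma isUnit_a (hsq : Squarefree N) : IsUnit ((y0 N hsq : ZMod (N ^ 2)) ^ 2) :=
  (Units.isUnit _).pow 2

theorem norm_kt_le (hsq : Squarefree N) {ℓ : ℕ} (hp : ℓ.Prime) (hℓ : ℓ ∣ N) (h3 : ℓ % 4 = 3)
    (m : ZMod (N ^ 2)) : ‖kt N ((y0 N hsq : ZMod (N ^ 2)) ^ 2) m‖ ≤ kap N hsq := by
  have hN : (0 : ℝ) < N := by exact_mod_cast Nat.pos_of_ne_zero (NeZero.ne N)
  by_cases hm : IsUnit m
  · obtain ⟨u, rfl⟩ := hm
    rw [kt_unit (isUnit_a hsq), norm_mul, norm_neg, norm_div, norm_one, norm_mul,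
      Complex.norm_ofNat, Complex.norm_natCast]
    have h1 := norm_K1_sub_le hp hℓ h3 ((y0 N hsq : ZMod (N ^ 2)) ^ 2 *
      ((u⁻¹ : (ZMod (N ^ 2))ˣ) : ZMod (N ^ 2))) (y0 N hsq)
    unfold kap
    rw [div_mul_eq_mul_div, one_mul]
    gcongr
  · rw [kt_nonunit hm, norm_zero]
    unfold kap
    positivity

theorem norm_kt_one_ge (hsq : Squarefree N) (hodd : Odd N) {ℓ : ℕ} (hp : ℓ.Prime) (hℓ : ℓ ∣ N)
    (h3 : ℓ % 4 = 3) :
    (1 - (4 * Real.pi * sig N) ^ 2 / 2) * kap N hsq ≤ ‖kt N ((y0 N hsq : ZMod (N ^ 2)) ^ 2) 1‖ := by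
  have hN : (0 : ℝ) < N := by exact_mod_cast Nat.pos_of_ne_zero (NeZero.ne N)
  have h1 := kt_unit (isUnit_a hsq) (1 : (ZMod (N ^ 2))ˣ)
  rw [inv_one, Units.val_one, mul_one] at h1
  have h2 : K1 N (-((y0 N hsq : ZMod (N ^ 2)) ^ 2)) = 0 := by
    have h4 := norm_K1_le (-((y0 N hsq : ZMod (N ^ 2)) ^ 2))
    have h5 : Xs N (-((y0 N hsq : ZMod (N ^ 2)) ^ 2)) = ∅ := by
      by_contra hne
      have hne' := Finset.nonempty_iff_ne_empty.mpr hne
      refine Xs_neg hp hℓ h3 (c := (y0 N hsq : ZMod (N ^ 2)) ^ 2) ⟨y0 N hsq, ?_⟩ hne'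
      rw [mem_Xs]; ring
    rw [h5] at h4
    simpa using h4
  rw [h1, h2, sub_zero, norm_mul, norm_neg, norm_div, norm_one, norm_mul,
      Complex.norm_ofNat, Complex.norm_natCast]
  have h6 := K1_re_ge hsq hodd
  have h7 := Complex.re_le_norm (K1 N ((y0 N hsq : ZMod (N ^ 2)) ^ 2))
  unfold kap
  rw [div_mul_eq_mul_div, one_mul, ← mul_div_assoc]
  gcongr
  linarith

end Pool.Agent.H62
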