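import Pool.Agent.H62.Hb

/-!
Analytic continuation of the Mellin transform under the growth condition, and its consequences
for the Dirichlet L-function.
-/

namespace Pool.Agent.H62

open Real Filter Topology MeasureTheory Set

lemma isBigO_S_top {b : ℕ → ℂ} {K : ℝ} (hK : 0 ≤ K) (hg : Growth b K) (hb : ∀ n, ‖b n‖ ≤ 1)
    {ε : ℝ} (hε : 0 < ε) : S b =O[atTop] (fun X : ℝ => X ^ (-(-(1 / 2 + ε)))) := by
  refine Asymptotics.IsBigO.of_bound (64 * K * (1 + 2 / ε)) ?_
  filter_upwards [eventually_ge_atTop 1] with X hX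
  have hX0 : 0 < X := by linarith
  have h1 := norm_S_le_of_growth hK hg hb hX
  have hlog : 0 ≤ Real.log X := Real.log_nonneg hX
  have h2 : (1 + 2 * Real.log X) ^ (1 / 4 : ℝ) ≤ (1 + 2 / ε) * X ^ ε := by
    have h3 : (1 + 2 * Real.log X) ^ (1 / 4 : ℝ) ≤ (1 + 2 * Real.log X) ^ (1 : ℝ) :=
      Real.rpow_le_rpow_of_exponent_le (by linarith) (by norm_num)
    rw [Real.rpow_one] at h3
    have h4 := Real.log_le_rpow_div hX0.le hε
    have h5 : 1 ≤ X ^ ε := Real.one_le_rpow hX hε.le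
    calc (1 + 2 * Real.log X) ^ (1 / 4 : ℝ) ≤ 1 + 2 * Real.log X := h3
      _ ≤ X ^ ε + 2 * (X ^ ε / ε) := by gcongr
      _ = (1 + 2 / ε) * X ^ ε := by ring
  rw [Real.norm_eq_abs, abs_of_nonneg (by positivity), neg_neg, Real.rpow_add hX0,
    ← Real.sqrt_eq_rpow]
  calc ‖S b X‖ ≤ 64 * K * (1 + 2 * Real.log X) ^ (1 / 4 : ℝ) * Real.sqrt X := h1
    _ ≤ 64 * K * ((1 + 2 / ε) * X ^ ε) * Real.sqrt X := by gcongr
    _ = _ := by ring

lemma isBigO_S_zero {b : ℕ → ℂ} (hb : ∀ n, ‖b n‖ ≤ 1) :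
    S b =O[𝓝[>] 0] (fun X : ℝ => X ^ (-(-2 : ℝ))) := by
  refine Asymptotics.IsBigO.of_bound 4 ?_
  filter_upwards [self_mem_nhdsWithin] with X hX
  rw [neg_neg, Real.rpow_two, Real.norm_eq_abs, abs_of_nonneg (by positivity)]
  exact norm_S_le_sq hb X

lemma locInt_S {b : ℕ → ℂ} (hb : ∀ n, ‖b n‖ ≤ 1) : LocallyIntegrableOn (S b) (Ioi 0) :=
  (continuous_S hb).locallyIntegrable.locallyIntegrableOn _

theorem differentiableAt_mellin_S {b : ℕ → ℂ} {K : ℝ} (hK : 0 ≤ K) (hg : Growth b K)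
    (hb : ∀ n, ‖b n‖ ≤ 1) {s : ℂ} (h1 : 1 / 2 < s.re) (h2 : s.re < 2) :
    DifferentiableAt ℂ (mellin (S b)) (-s) := by
  have hε : 0 < (s.re - 1 / 2) / 2 := by linarith
  refine mellin_differentiableAt_of_isBigO_rpow (locInt_S hb)
    (isBigO_S_top hK hg hb hε) ?_ (isBigO_S_zero hb) ?_
  · simp; linarith
  · simp; linarith

theorem mellinConvergent_S {b : ℕ → ℂ} {K : ℝ} (hK : 0 ≤ K) (hg : Growth b K)
    (hb : ∀ n, ‖b n‖ ≤ 1) {s : ℂ} (h1 : 1 / 2 < s.re) (h2 : s.re < 2) :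
    MellinConvergent (S b) (-s) := by
  have hε : 0 < (s.re - 1 / 2) / 2 := by linarith
  refine mellinConvergent_of_isBigO_rpow (locInt_S hb)
    (isBigO_S_top hK hg hb hε) ?_ (isBigO_S_zero hb) ?_
  · simp; linarith
  · simp; linarith

variable {q : ℕ} [NeZero q]

/-- Moebius times a Dirichlet character. -/
noncomputable def bchi (χ : DirichletCharacter ℂ q) (n : ℕ) : ℂ :=
  χ n * (ArithmeticFunction.moebius n : ℂ)

omit [NeZero q] in
lemma bchi_zero (χ : DirichletCharacter ℂ q) : bchi χ 0 = 0 := by simp [bchi]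

lemma norm_moebius_le (n : ℕ) : ‖((ArithmeticFunction.moebius n : ℤ) : ℂ)‖ ≤ 1 := by
  rw [Complex.norm_intCast]
  exact_mod_cast ArithmeticFunction.abs_moebius_le_one

omit [NeZero q] in
lemma norm_bchi_le (χ : DirichletCharacter ℂ q) (n : ℕ) : ‖bchi χ n‖ ≤ 1 := by
  unfold bchi
  rw [norm_mul]
  exact mul_le_one₀ (DirichletCharacter.norm_le_one χ _) (norm_nonneg _) (norm_moebius_le n)

lemma mellin_mul_LFunction_aux (χ : DirichletCharacter ℂ q) {s : ℂ}
    (h1 : 1 < s.re) (h2 : s.re < 2) :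
    mellin (S (bchi χ)) (-s) * DirichletCharacter.LFunction χ s = Complex.Gammaℝ (2 - s) := by
  rw [mellin_S (bchi_zero χ) (norm_bchi_le χ) h1 h2, DirichletCharacter.LFunction_eq_LSeries χ h1]
  have h3 := DirichletCharacter.LSeries.mul_mu_eq_one χ h1
  have h4 : LSeries (bchi χ) s = LSeries ((fun n : ℕ => χ n) *
      (fun n : ℕ => ((ArithmeticFunction.moebius n : ℤ) : ℂ))) s := by
    refine LSeries_congr (fun {n} _ => ?_) s
    simp [bchi]
  rw [h4, mul_assoc, mul_comm (LSeries _ s), h3, mul_one]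

theorem mellin_mul_LFunction {χ : DirichletCharacter ℂ q} (hχ : χ ≠ 1) {K : ℝ} (hK : 0 ≤ K)
    (hg : Growth (bchi χ) K) {s : ℂ} (h1 : 1 / 2 < s.re) (h2 : s.re < 2) :
    mellin (S (bchi χ)) (-s) * DirichletCharacter.LFunction χ s = Complex.Gammaℝ (2 - s) := by
  set U : Set ℂ := {s : ℂ | 1 / 2 < s.re} ∩ {s : ℂ | s.re < 2} with hU
  have hUo : IsOpen U := (isOpen_lt continuous_const Complex.continuous_re).inter
    (isOpen_lt Complex.continuous_re continuous_const)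
  have hUc : IsPreconnected U :=
    ((convex_halfSpace_re_gt _).inter (convex_halfSpace_re_lt _)).isPreconnected
  set f : ℂ → ℂ := fun s => mellin (S (bchi χ)) (-s) * DirichletCharacter.LFunction χ s *
    (Complex.Gammaℝ (2 - s))⁻¹ with hf
  have hfd : DifferentiableOn ℂ f U := by
    intro s hs
    apply DifferentiableAt.differentiableWithinAt
    have e1 : DifferentiableAt ℂ (fun s : ℂ => mellin (S (bchi χ)) (-s)) s :=
      DifferentiableAt.comp (g := mellin (S (bchi χ))) s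
        (differentiableAt_mellin_S hK hg (norm_bchi_le χ) hs.1 hs.2)
        (differentiable_neg.differentiableAt)
    have e2 : DifferentiableAt ℂ (DirichletCharacter.LFunction χ) s :=
      (DirichletCharacter.differentiable_LFunction hχ) s
    have e3 : DifferentiableAt ℂ (fun s : ℂ => (Complex.Gammaℝ (2 - s))⁻¹) s :=
      DifferentiableAt.comp (g := fun s => (Complex.Gammaℝ s)⁻¹) s
        (Complex.differentiable_Gammaℝ_inv _) (by fun_prop)
    exact (e1.mul e2).mul e3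
  have hfa : AnalyticOnNhd ℂ f U := hfd.analyticOnNhd hUo
  have hga : AnalyticOnNhd ℂ (fun _ : ℂ => (1:ℂ)) U := analyticOnNhd_const
  have hΓ : ∀ s : ℂ, s.re < 2 → Complex.Gammaℝ (2 - s) ≠ 0 := fun s hs =>
    Complex.Gammaℝ_ne_zero_of_re_pos (by simp; linarith)
  have hnear : f =ᶠ[𝓝 (3 / 2 : ℂ)] (fun _ : ℂ => (1:ℂ)) := by
    have hV : IsOpen ({s : ℂ | 1 < s.re} ∩ {s : ℂ | s.re < 2}) :=
      (isOpen_lt continuous_const Complex.continuous_re).inter
        (isOpen_lt Complex.continuous_re continuous_const)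
    have hmem : (3 / 2 : ℂ) ∈ ({s : ℂ | 1 < s.re} ∩ {s : ℂ | s.re < 2}) := by
      constructor <;> simp <;> norm_num
    filter_upwards [hV.mem_nhds hmem] with s hs
    simp only [hf]
    rw [mellin_mul_LFunction_aux χ hs.1 hs.2, mul_inv_cancel₀ (hΓ s hs.2)]
  have hU0 : (3 / 2 : ℂ) ∈ U := by constructor <;> simp <;> norm_num
  have h := hfa.eqOn_of_preconnected_of_eventuallyEq hga hUc hU0 hnear
    (show s ∈ U from ⟨h1, h2⟩)
  simp only [hf] at h
  rw [← mul_inv_eq_one₀ (hΓ s h2)]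
  exact h

theorem LFunction_ne_zero_of_growth {χ : DirichletCharacter ℂ q} (hχ : χ ≠ 1) {K : ℝ} (hK : 0 ≤ K)
    (hg : Growth (bchi χ) K) {s : ℂ} (h1 : 1 / 2 < s.re) (h2 : s.re < 2) :
    DirichletCharacter.LFunction χ s ≠ 0 := by
  intro h
  have h3 := mellin_mul_LFunction hχ hK hg h1 h2
  rw [h, mul_zero] at h3
  exact Complex.Gammaℝ_ne_zero_of_re_pos (by simp; linarith) h3.symm

end Pool.Agent.H62
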