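import Pool.Agent.H62.PTform

/-!
Simultaneous Diophantine approximation and recurrence of the Fejer means.
-/

namespace Pool.Agent.H62

open Real Filter Topology MeasureTheory Set DirichletCharacter

/-- Dirichlet's simultaneous approximation theorem, in exponential form. -/
theorem dirichlet_simul (Γ : Finset ℝ) {m : ℕ} (hm : 0 < m) {S₁ : ℝ} (hS : 0 < S₁) :
    ∃ s : ℝ, S₁ ≤ s ∧ s ≤ S₁ * (m : ℝ) ^ Γ.card ∧
      ∀ γ ∈ Γ, ‖Complex.exp (Complex.I * γ * s) - 1‖ ≤ 2 * π / m := by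
  classical
  have hm0 : (0 : ℝ) < m := by exact_mod_cast hm
  set θ : ℝ → ℕ → ℝ := fun γ j => γ * (j * S₁) / (2 * π) with hθ
  have hlt : ∀ γ j, ⌊(m : ℝ) * Int.fract (θ γ j)⌋₊ < m := by
    intro γ j
    rw [Nat.floor_lt (by positivity)]
    have h1 := Int.fract_lt_one (θ γ j)
    nlinarith
  set F : Fin (m ^ Γ.card + 1) → (Γ → Fin m) := fun j γ =>
    ⟨⌊(m : ℝ) * Int.fract (θ γ j)⌋₊, hlt γ j⟩ with hF
  obtain ⟨i, j, hij, hFij⟩ := Fintype.exists_ne_map_eq_of_card_lt F (by simp)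
  wlog hlt' : i < j generalizing i j with H
  · exact H j i hij.symm hFij.symm (lt_of_le_of_ne (not_lt.mp hlt') hij.symm)
  set d : ℕ := j.val - i.val with hd
  have hd1 : 1 ≤ d := by
    have : i.val < j.val := hlt'
    omega
  have hd2 : d ≤ m ^ Γ.card := by
    have := j.isLt
    omega
  have hd3 : (d : ℝ) = (j.val : ℝ) - (i.val : ℝ) := by
    rw [hd, Nat.cast_sub (by have : i.val < j.val := hlt'; omega)]
  refine ⟨d * S₁, ?_, ?_, ?_⟩
  · have : (1 : ℝ) ≤ d := by exact_mod_cast hd1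
    nlinarith
  · have : (d : ℝ) ≤ (m : ℝ) ^ Γ.card := by exact_mod_cast hd2
    nlinarith
  · intro γ hγ
    have hc := congrFun hFij ⟨γ, hγ⟩
    have hc2 : ⌊(m : ℝ) * Int.fract (θ γ i)⌋₊ = ⌊(m : ℝ) * Int.fract (θ γ j)⌋₊ := by
      have := congrArg Fin.val hc
      exact this
    set η : ℝ := Int.fract (θ γ j) - Int.fract (θ γ i) with hη
    have habs : |η| ≤ 1 / m := by
      have a1 := Nat.floor_le (a := (m : ℝ) * Int.fract (θ γ i)) (by positivity)
      have a2 := Nat.lt_floor_add_one ((m : ℝ) * Int.fract (θ γ i))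
      have a3 := Nat.floor_le (a := (m : ℝ) * Int.fract (θ γ j)) (by positivity)
      have a4 := Nat.lt_floor_add_one ((m : ℝ) * Int.fract (θ γ j))
      rw [hc2] at a1 a2
      have h1 : |η * m| ≤ 1 := by
        rw [abs_le, hη]
        constructor <;> nlinarith
      rw [abs_mul, abs_of_pos hm0] at h1
      rwa [le_div_iff₀ hm0]
    have hsum : γ * (d * S₁) = 2 * π * η + ((⌊θ γ j⌋ - ⌊θ γ i⌋ : ℤ) : ℝ) * (2 * π) := by
      have e1 : θ γ j - θ γ i = γ * (d * S₁) / (2 * π) := by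
        rw [hθ, hd3]; ring
      have e2 := Int.floor_add_fract (θ γ j)
      have e3 := Int.floor_add_fract (θ γ i)
      have e4 : γ * (d * S₁) = (θ γ j - θ γ i) * (2 * π) := by
        rw [e1]; field_simp
      rw [hη]
      push_cast
      linear_combination e4 - (2 * π) * e2 + (2 * π) * e3
    have hexp : Complex.exp (Complex.I * γ * ((d * S₁ : ℝ) : ℂ)) =
        Complex.exp (Complex.I * ((2 * π * η : ℝ) : ℂ)) := by
      have e5 : Complex.I * γ * ((d * S₁ : ℝ) : ℂ) = Complex.I * ((2 * π * η : ℝ) : ℂ) +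
          ((⌊θ γ j⌋ - ⌊θ γ i⌋ : ℤ) : ℂ) * (2 * π * Complex.I) := by
        have e6 : Complex.I * γ * ((d * S₁ : ℝ) : ℂ) =
            Complex.I * ((γ * (d * S₁) : ℝ) : ℂ) := by push_cast; ring
        rw [e6, hsum]
        push_cast
        ring
      rw [e5, Complex.exp_add, Complex.exp_int_mul_two_pi_mul_I, mul_one]
    rw [hexp]
    refine (Real.norm_exp_I_mul_ofReal_sub_one_le).trans ?_
    rw [Real.norm_eq_abs, abs_mul, abs_of_pos (by positivity : (0:ℝ) < 2 * π)]
    calc 2 * π * |η| ≤ 2 * π * (1 / m) := by gcongr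
      _ = _ := by ring

variable {q : ℕ} [NeZero q]

/-- Recurrence of all Fejer means modulo `q` simultaneously. -/
theorem PT_rec {K : ℝ} (hK : 1 ≤ K)
    (hg : ∀ χ : DirichletCharacter ℂ q, χ.Odd → Growth (bchi χ) K) {T : ℝ} (hT : 0 < T)
    (t₀ : ℝ) {S₁ : ℝ} (hS : 0 < S₁) {m : ℕ} (hm : 0 < m) {n : ℕ}
    (hn : 288 * (q : ℝ) ^ 2 * (T + 5) ^ 2 ≤ n) :
    ∃ s : ℝ, S₁ ≤ s ∧ s ≤ S₁ * (m : ℝ) ^ n ∧
      ∀ χ : DirichletCharacter ℂ q, χ.IsPrimitive → χ.Odd →
        ‖PT χ T (t₀ + s) - PT χ T t₀‖ ≤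
          (288 * q * (T + 5) ^ 2) * ((256 * MM q T / c1 q K T ^ 2) * (π * (2 * π / m))) := by
  classical
  have hq1 : (1 : ℝ) ≤ q := by exact_mod_cast Nat.one_le_iff_ne_zero.mpr (NeZero.ne q)
  have hm1 : (1 : ℝ) ≤ m := by exact_mod_cast hm
  set Γ : Finset ℝ := (Finset.univ.filter (fun χ : DirichletCharacter ℂ q => χ ≠ 1)).biUnion
    (fun χ => ZT χ T) with hΓ
  have hcard : Γ.card ≤ n := by
    have h1 : (Γ.card : ℝ) ≤ n := by
      calc (Γ.card : ℝ) ≤ ∑ χ ∈ Finset.univ.filter (fun χ : DirichletCharacter ℂ q => χ ≠ 1),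
            ((ZT χ T).card : ℝ) := by exact_mod_cast Finset.card_biUnion_le
        _ ≤ ∑ χ ∈ Finset.univ.filter (fun χ : DirichletCharacter ℂ q => χ ≠ 1),
            288 * (q : ℝ) * (T + 5) ^ 2 := by
            apply Finset.sum_le_sum
            intro χ hχ
            rw [Finset.mem_filter] at hχ
            exact card_ZT hχ.2 hT.le
        _ = ((Finset.univ.filter (fun χ : DirichletCharacter ℂ q => χ ≠ 1)).card : ℝ) *
            (288 * (q : ℝ) * (T + 5) ^ 2) := by rw [Finset.sum_const, nsmul_eq_mul]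
        _ ≤ (q : ℝ) * (288 * (q : ℝ) * (T + 5) ^ 2) := by
            gcongr
            refine (Finset.card_le_univ _).trans ?_
            rw [← Nat.card_eq_fintype_card, DirichletCharacter.card_eq_totient_of_hasEnoughRootsOfUnity ℂ q]
            exact Nat.totient_le q
        _ = 288 * (q : ℝ) ^ 2 * (T + 5) ^ 2 := by ring
        _ ≤ n := hn
    exact_mod_cast h1
  obtain ⟨s, hs1, hs2, hs3⟩ := dirichlet_simul Γ hm hS
  refine ⟨s, hs1, hs2.trans ?_, ?_⟩
  · have : (m : ℝ) ^ Γ.card ≤ (m : ℝ) ^ n := pow_le_pow_right₀ hm1 hcard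
    nlinarith
  · intro χ hp ho
    have hχ := odd_ne_one ho
    rw [PT_eq hp ho hK (hg χ ho) (hg _ (odd_inv ho)) hT, PT_eq hp ho hK (hg χ ho)
      (hg _ (odd_inv ho)) hT, ← Finset.sum_sub_distrib]
    refine (norm_sum_le _ _).trans ?_
    have hc0 : 0 < c1 q K T := c1_pos hK T
    have hM1 : 0 ≤ MM q T := by
      rw [MM]; positivity
    calc ∑ γ ∈ ZT χ T, ‖rc χ γ * (π * ((tri T γ : ℂ) *
          Complex.exp (Complex.I * γ * ((t₀ + s : ℝ) : ℂ)))) -
          rc χ γ * (π * ((tri T γ : ℂ) * Complex.exp (Complex.I * γ * t₀)))‖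
        ≤ ∑ γ ∈ ZT χ T, (256 * MM q T / c1 q K T ^ 2) * (π * (2 * π / m)) := by
          apply Finset.sum_le_sum
          intro γ hγ
          have hγΓ : γ ∈ Γ := by
            rw [hΓ, Finset.mem_biUnion]
            exact ⟨χ, Finset.mem_filter.mpr ⟨Finset.mem_univ _, hχ⟩, hγ⟩
          have e1 : rc χ γ * (π * ((tri T γ : ℂ) *
              Complex.exp (Complex.I * γ * ((t₀ + s : ℝ) : ℂ)))) -
              rc χ γ * (π * ((tri T γ : ℂ) * Complex.exp (Complex.I * γ * t₀))) =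
              rc χ γ * (π * ((tri T γ : ℂ) * Complex.exp (Complex.I * γ * t₀) *
              (Complex.exp (Complex.I * γ * s) - 1))) := by
            have : Complex.I * γ * ((t₀ + s : ℝ) : ℂ) =
              Complex.I * γ * t₀ + Complex.I * γ * s := by push_cast; ring
            rw [this, Complex.exp_add]; ring
          rw [e1, norm_mul, norm_mul, norm_mul, norm_mul, norm_exp_I_mul, mul_one,
            Complex.norm_real, Complex.norm_real, Real.norm_eq_abs, Real.norm_eq_abs,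
            abs_of_pos Real.pi_pos, abs_of_nonneg (tri_nonneg T γ)]
          have e2 := norm_rc_le hχ hK (hg χ ho) hγ
          have e3 := hs3 γ hγΓ
          have e4 := tri_le_one hT γ
          have e5 := tri_nonneg T γ
          have e6 : tri T γ * ‖Complex.exp (Complex.I * γ * s) - 1‖ ≤ 2 * π / m := by
            calc tri T γ * ‖Complex.exp (Complex.I * γ * s) - 1‖ ≤
                1 * ‖Complex.exp (Complex.I * γ * s) - 1‖ := by gcongr
              _ ≤ _ := by rw [one_mul]; exact e3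
          gcongr
      _ = ((ZT χ T).card : ℝ) * ((256 * MM q T / c1 q K T ^ 2) * (π * (2 * π / m))) := by
          rw [Finset.sum_const, nsmul_eq_mul]
      _ ≤ _ := by
          gcongr
          exact card_ZT hχ hT.le

end Pool.Agent.H62
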