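import Pool.Agent.H62.FejAB
import Pool.Agent.H62.Rec

/-!
The analytic part of the proof, assembled.
-/

namespace Pool.Agent.H62

open Real Filter Topology MeasureTheory Set DirichletCharacter

lemma abs_exp_sub_le {a b : ℝ} (ha : a ≤ 0) (hb : b ≤ 0) :
    |Real.exp a - Real.exp b| ≤ |a - b| := by
  wlog h : b ≤ a generalizing a b with H
  · rw [abs_sub_comm, abs_sub_comm a b]
    exact H hb ha (le_of_lt (not_le.mp h))
  rw [abs_of_nonneg (by have := Real.exp_le_exp.mpr h; linarith), abs_of_nonneg (by linarith)]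
  have h1 : Real.exp b = Real.exp a * Real.exp (b - a) := by
    rw [← Real.exp_add]; congr 1; ring
  have h2 := Real.add_one_le_exp (b - a)
  have h3 : Real.exp a ≤ 1 := Real.exp_le_one_iff.mpr ha
  have h4 := Real.exp_pos a
  rw [h1]
  nlinarith

lemma phi_lip {w w' : ℝ} (hw : w ≤ 0) (hw' : w' ≤ 0) (n : ℕ) :
    |Real.exp (-w / 2) * om (Real.exp w / n) - Real.exp (-w' / 2) * om (Real.exp w' / n)| ≤
      16 * |w - w'| * (1 / (n : ℝ) ^ 2) := by
  rcases Nat.eq_zero_or_pos n with h0 | hn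
  · subst h0; simp
  have hn1 : (1 : ℝ) ≤ n := by exact_mod_cast hn
  have hn0 : (0 : ℝ) < n := by linarith
  have key : ∀ x : ℝ, Real.exp (-x / 2) * om (Real.exp x / n) =
      (2 / (n : ℝ) ^ 2) * (Real.exp (3 / 2 * x) * Real.exp (-(π * Real.exp (2 * x) / (n : ℝ) ^ 2))) := by
    intro x
    unfold om
    have e1 : Real.exp (2 * x) = Real.exp x ^ 2 := by
      rw [← Real.exp_nat_mul]; norm_num
    have e2 : Real.exp (3 / 2 * x) = Real.exp (-x / 2) * Real.exp x ^ 2 := by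
      rw [← e1, ← Real.exp_add]; congr 1; ring
    rw [e1, e2, div_pow, mul_div_assoc π]
    ring
  rw [key, key, ← mul_sub, abs_mul, abs_of_pos (by positivity : (0:ℝ) < 2 / (n : ℝ) ^ 2)]
  set A := Real.exp (3 / 2 * w)
  set A' := Real.exp (3 / 2 * w')
  set B := Real.exp (-(π * Real.exp (2 * w) / (n : ℝ) ^ 2))
  set B' := Real.exp (-(π * Real.exp (2 * w') / (n : ℝ) ^ 2))
  have hA : |A - A'| ≤ 3 / 2 * |w - w'| := by
    have := abs_exp_sub_le (a := 3 / 2 * w) (b := 3 / 2 * w') (by linarith) (by linarith)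
    rw [← mul_sub, abs_mul, abs_of_pos (by norm_num : (0:ℝ) < 3 / 2)] at this
    exact this
  have hB : |B - B'| ≤ π * (2 * |w - w'|) := by
    have h1 := abs_exp_sub_le (a := -(π * Real.exp (2 * w) / (n : ℝ) ^ 2))
      (b := -(π * Real.exp (2 * w') / (n : ℝ) ^ 2))
      (by have : 0 ≤ π * Real.exp (2 * w) / (n : ℝ) ^ 2 := by positivity
          linarith)
      (by have : 0 ≤ π * Real.exp (2 * w') / (n : ℝ) ^ 2 := by positivity
          linarith)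
    refine h1.trans ?_
    have h2 := abs_exp_sub_le (a := 2 * w) (b := 2 * w') (by linarith) (by linarith)
    rw [← mul_sub, abs_mul, abs_of_pos (by norm_num : (0:ℝ) < 2)] at h2
    have h3 : -(π * Real.exp (2 * w) / (n : ℝ) ^ 2) - -(π * Real.exp (2 * w') / (n : ℝ) ^ 2) =
        -((π / (n : ℝ) ^ 2) * (Real.exp (2 * w) - Real.exp (2 * w'))) := by ring
    rw [h3, abs_neg, abs_mul, abs_of_pos (by positivity : (0:ℝ) < π / (n : ℝ) ^ 2)]
    have h4 : π / (n : ℝ) ^ 2 ≤ π := by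
      apply div_le_self Real.pi_pos.le
      nlinarith
    gcongr
  have hB1 : |B| ≤ 1 := by
    rw [abs_of_pos (Real.exp_pos _), Real.exp_le_one_iff]
    have : 0 ≤ π * Real.exp (2 * w) / (n : ℝ) ^ 2 := by positivity
    linarith
  have hA1 : |A'| ≤ 1 := by
    rw [abs_of_pos (Real.exp_pos _), Real.exp_le_one_iff]
    linarith
  have hAB : |A * B - A' * B'| ≤ 8 * |w - w'| := by
    have e1 : A * B - A' * B' = (A - A') * B + A' * (B - B') := by ring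
    rw [e1]
    refine (abs_add_le _ _).trans ?_
    rw [abs_mul, abs_mul]
    have h1 : |A - A'| * |B| ≤ (3 / 2 * |w - w'|) * 1 := by gcongr
    have h2 : |A'| * |B - B'| ≤ 1 * (π * (2 * |w - w'|)) := by gcongr
    have h3 : π < 3.15 := Real.pi_lt_d2
    have h4 := abs_nonneg (w - w')
    nlinarith
  calc 2 / (n : ℝ) ^ 2 * |A * B - A' * B'| ≤ 2 / (n : ℝ) ^ 2 * (8 * |w - w'|) := by gcongr
    _ = _ := by ring

lemma hb_term {b : ℕ → ℂ} {L : ℝ} (hL : 0 < L) (u : ℝ) :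
    hb b L u = ∑' n : ℕ, b n * ((Real.exp (-(u - Real.log L) / 2) *
      om (Real.exp (u - Real.log L) / n) : ℝ) : ℂ) := by
  unfold hb S
  rw [← tsum_mul_left]
  congr 1
  ext n
  have h1 : Real.exp (u - Real.log L) = Real.exp u / L := by
    rw [Real.exp_sub, Real.exp_log hL]
  have h2 : Real.exp (-(u - Real.log L) / 2) = Real.sqrt L * Real.exp (-u / 2) := by
    have h3 : Real.sqrt L = Real.exp (Real.log L / 2) := by
      rw [Real.exp_half, Real.exp_log hL]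
    rw [h3, ← Real.exp_add]; congr 1; ring
  rw [h1, h2]
  push_cast
  ring

lemma hb_lip {b : ℕ → ℂ} (h : ∀ n, ‖b n‖ ≤ 1) {L : ℝ} (hL : 0 < L) {u u' : ℝ}
    (hu : Real.exp u ≤ L) (hu' : Real.exp u' ≤ L) :
    ‖hb b L u - hb b L u'‖ ≤ 32 * |u - u'| := by
  have hw : u - Real.log L ≤ 0 := by
    have := (Real.le_log_iff_exp_le hL).mpr hu; linarith
  have hw' : u' - Real.log L ≤ 0 := by
    have := (Real.le_log_iff_exp_le hL).mpr hu'; linarith
  have hs : ∀ x : ℝ, Summable (fun n : ℕ => b n * ((Real.exp (-x / 2) *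
      om (Real.exp x / n) : ℝ) : ℂ)) := by
    intro x
    have := (summable_term h (Real.exp x)).mul_left ((Real.exp (-x / 2) : ℝ) : ℂ)
    refine this.congr (fun n => ?_)
    push_cast
    ring
  rw [hb_term hL, hb_term hL, ← (hs _).tsum_sub (hs _)]
  have hbd : ∀ n : ℕ, ‖b n * ((Real.exp (-(u - Real.log L) / 2) *
      om (Real.exp (u - Real.log L) / n) : ℝ) : ℂ) - b n * ((Real.exp (-(u' - Real.log L) / 2) *
      om (Real.exp (u' - Real.log L) / n) : ℝ) : ℂ)‖ ≤ (16 * |u - u'|) * (1 / (n : ℝ) ^ 2) := by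
    intro n
    rw [← mul_sub, ← Complex.ofReal_sub, norm_mul, Complex.norm_real, Real.norm_eq_abs]
    have h1 := phi_lip hw hw' n
    have e : u - Real.log L - (u' - Real.log L) = u - u' := by ring
    rw [e] at h1
    calc _ ≤ 1 * _ := mul_le_mul (h n) h1 (abs_nonneg _) zero_le_one
      _ = _ := by ring
  have hsum : Summable (fun n : ℕ => (16 * |u - u'|) * (1 / (n : ℝ) ^ 2)) :=
    (Real.summable_one_div_nat_pow.mpr (by norm_num)).mul_left _
  have h1 := tsum_of_norm_bounded hsum.hasSum hbd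
  rw [tsum_mul_left, hasSum_zeta_two.tsum_eq] at h1
  have hpi : π < 3.15 := Real.pi_lt_d2
  have hpi0 := Real.pi_pos
  have h2 : π ^ 2 / 6 ≤ 2 := by nlinarith
  refine h1.trans ?_
  calc 16 * |u - u'| * (π ^ 2 / 6) ≤ 16 * |u - u'| * 2 := by gcongr
    _ = _ := by ring

lemma hb_sum {ι : Type*} (s : Finset ι) (c : ι → ℂ) (b : ι → ℕ → ℂ)
    (h : ∀ i ∈ s, ∀ n, ‖b i n‖ ≤ 1) (L u : ℝ) :
    hb (fun n => ∑ i ∈ s, c i * b i n) L u = ∑ i ∈ s, c i * hb (b i) L u := by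
  unfold hb S
  have h1 : ∀ n : ℕ, (∑ i ∈ s, c i * b i n) * (om (Real.exp u / L / n) : ℂ) =
      ∑ i ∈ s, c i * (b i n * (om (Real.exp u / L / n) : ℂ)) := by
    intro n
    rw [Finset.sum_mul]
    refine Finset.sum_congr rfl (fun i _ => by ring)
  simp_rw [h1]
  rw [Summable.tsum_finsetSum (fun i hi => (summable_term (h i hi) _).mul_left _), Finset.mul_sum]
  refine Finset.sum_congr rfl (fun i _ => ?_)
  rw [tsum_mul_left]
  ring

lemma hb_const_mul (c : ℂ) (b : ℕ → ℂ) (L u : ℝ) :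
    hb (fun n => c * b n) L u = c * hb b L u := by
  unfold hb S
  simp_rw [mul_assoc]
  rw [tsum_mul_left]
  ring

variable {q : ℕ} [NeZero q]

/-- The dual function -/
noncomputable def gg (q : ℕ) (b₁ b₂ : ℕ → ℂ) (κ : ℝ) (u : ℝ) : ℂ :=
  hb b₁ (Real.sqrt q) u - κ * hb b₂ (Real.sqrt q) (-u)

lemma continuous_gg {b₁ b₂ : ℕ → ℂ} (h₁ : ∀ n, ‖b₁ n‖ ≤ 1) (h₂ : ∀ n, ‖b₂ n‖ ≤ 1) (κ : ℝ) :
    Continuous (gg q b₁ b₂ κ) := by
  unfold gg
  have c1 := continuous_hb h₁ (Real.sqrt q)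
  have c2 := continuous_hb h₂ (Real.sqrt q)
  fun_prop

lemma hb_le_rho {b : ℕ → ℂ} {K : ℝ} (hK : 1 ≤ K) (hg : Growth b K)
    (h : ∀ n, ‖b n‖ ≤ 1) {L : ℝ} (hL : 1 ≤ L) (u : ℝ) :
    ‖hb b L u‖ ≤ 64 * K * rho u := by
  have := hb_exp_bound hK hg h hL (le_refl 0) zero_le_one u
  simpa using this

lemma gg_le {b₁ b₂ : ℕ → ℂ} (h₁ : ∀ n, ‖b₁ n‖ ≤ 1) (h₂ : ∀ n, ‖b₂ n‖ ≤ 1) {κ K : ℝ}
    (hκ : 0 ≤ κ) (hK : 1 ≤ K) (hg₁ : Growth b₁ K) (hg₂ : Growth b₂ K) (u : ℝ) :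
    ‖gg q b₁ b₂ κ u‖ ≤ (1 + κ) * (64 * K) * rho u := by
  unfold gg
  refine (norm_sub_le _ _).trans ?_
  rw [norm_mul, Complex.norm_real, Real.norm_eq_abs, abs_of_nonneg hκ]
  have e1 := hb_le_rho hK hg₁ h₁ (one_le_sqrt_q (q := q)) u
  have e2 := hb_le_rho hK hg₂ h₂ (one_le_sqrt_q (q := q)) (-u)
  rw [rho_neg] at e2
  have e3 : κ * ‖hb b₂ (Real.sqrt q) (-u)‖ ≤ κ * (64 * K * rho u) := by gcongr
  nlinarith

theorem sum_PT_eq (c : DirichletCharacter ℂ q → ℂ) (hc : ∀ χ, c χ ≠ 0 → χ.IsPrimitive ∧ χ.Odd)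
    {b₁ b₂ : ℕ → ℂ} {κ K : ℝ} (hK : 1 ≤ K)
    (hb₁ : ∀ n, b₁ n = ∑ χ : DirichletCharacter ℂ q, c χ * bchi χ n)
    (hb₂ : ∀ n, κ * b₂ n = ∑ χ : DirichletCharacter ℂ q, (c χ * rootNumber χ⁻¹) * bchi χ⁻¹ n)
    (hg : ∀ χ : DirichletCharacter ℂ q, χ.Odd → Growth (bchi χ) K) {T : ℝ} (hT : 0 < T) (t : ℝ) :
    ∑ χ : DirichletCharacter ℂ q, c χ * PT χ T t = ∫ u : ℝ, (fej T (t - u) : ℂ) * gg q b₁ b₂ κ u := by
  have h1 : ∀ u, gg q b₁ b₂ κ u = ∑ χ : DirichletCharacter ℂ q, c χ * gfun χ u := by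
    intro u
    unfold gg gfun
    have e1 : b₁ = fun n => ∑ χ : DirichletCharacter ℂ q, c χ * bchi χ n := funext hb₁
    have e2 : (fun n => (κ : ℂ) * b₂ n) =
      fun n => ∑ χ : DirichletCharacter ℂ q, (c χ * rootNumber χ⁻¹) * bchi χ⁻¹ n := funext hb₂
    rw [← hb_const_mul, e2, e1, hb_sum _ _ _ (fun χ _ => norm_bchi_le χ),
      hb_sum _ _ _ (fun χ _ => norm_bchi_le χ⁻¹), ← Finset.sum_sub_distrib]
    refine Finset.sum_congr rfl (fun χ _ => by ring)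
  have hcg : ∀ χ : DirichletCharacter ℂ q, Continuous (gfun χ) := by
    intro χ
    unfold gfun
    have c1 := continuous_hb (norm_bchi_le χ) (Real.sqrt q)
    have c2 := continuous_hb (norm_bchi_le χ⁻¹) (Real.sqrt q)
    fun_prop
  have hint : ∀ χ : DirichletCharacter ℂ q, Integrable (fun u : ℝ => c χ * ((fej T (t - u) : ℂ) * gfun χ u)) := by
    intro χ
    by_cases h0 : c χ = 0
    · rw [h0]; simp
    have ho := (hc χ h0).2
    refine Integrable.const_mul ?_ _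
    refine integrable_fej_g (hcg χ) (G := 64 * K + ‖rootNumber χ⁻¹‖ * (64 * K)) (fun u => ?_) hT t
    unfold gfun
    refine (norm_sub_le _ _).trans ?_
    rw [norm_mul]
    have e1 := hb_le_rho hK (hg χ ho) (norm_bchi_le χ) (one_le_sqrt_q (q := q)) u
    have e2 := hb_le_rho hK (hg χ⁻¹ (odd_inv ho)) (norm_bchi_le χ⁻¹) (one_le_sqrt_q (q := q)) (-u)
    rw [rho_neg] at e2
    have e3 : ‖rootNumber χ⁻¹‖ * ‖hb (bchi χ⁻¹) (Real.sqrt q) (-u)‖ ≤
      ‖rootNumber χ⁻¹‖ * (64 * K * rho u) := by gcongr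
    linarith
  have h2 : ∀ u : ℝ, (fej T (t - u) : ℂ) * gg q b₁ b₂ κ u =
      ∑ χ : DirichletCharacter ℂ q, c χ * ((fej T (t - u) : ℂ) * gfun χ u) := by
    intro u
    rw [h1, Finset.mul_sum]
    refine Finset.sum_congr rfl (fun χ _ => by ring)
  simp_rw [h2]
  rw [integral_finsetSum _ (fun χ _ => hint χ)]
  refine Finset.sum_congr rfl (fun χ _ => ?_)
  rw [integral_const_mul]
  rfl

end Pool.Agent.H62
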