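import Pool.Agent.H62.PT

/-!
Approximation properties of the Fejer means.
-/

namespace Pool.Agent.H62

open Real Filter Topology MeasureTheory Set

/-- fractional moment of the Fejer kernel -/
noncomputable def Jmom : ℝ := ∫ w : ℝ, fej 1 w * |w| ^ (3 / 4 : ℝ)

lemma integrable_fej_mom {T : ℝ} (hT : 0 < T) :
    Integrable (fun v : ℝ => fej T v * |v| ^ (3 / 4 : ℝ)) := by
  have h1 : Integrable (fun v : ℝ => (1 + ‖v‖) ^ (-(5 / 4) : ℝ)) :=
    integrable_one_add_norm (by simp; norm_num)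
  refine (h1.const_mul (4 * T + 8 / T)).mono'
    ((continuous_fej hT).mul (Continuous.rpow_const continuous_abs
      (fun u => Or.inr (by norm_num)))).aestronglyMeasurable (ae_of_all _ fun v => ?_)
  have hp : 0 < 1 + |v| := by positivity
  have h0 := fej_nonneg hT v
  rw [Real.norm_eq_abs, abs_of_nonneg (mul_nonneg h0 (by positivity)), Real.norm_eq_abs]
  have h2 : |v| ^ (3 / 4 : ℝ) ≤ (1 + |v|) ^ (3 / 4 : ℝ) :=
    Real.rpow_le_rpow (abs_nonneg _) (by linarith) (by norm_num)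
  calc fej T v * |v| ^ (3 / 4 : ℝ)
      ≤ ((4 * T + 8 / T) * (1 + |v|) ^ (-2 : ℝ)) * (1 + |v|) ^ (3 / 4 : ℝ) := by
        apply mul_le_mul (fej_le_pow hT v) h2 (by positivity) (by positivity)
    _ = (4 * T + 8 / T) * (1 + |v|) ^ (-(5 / 4) : ℝ) := by
        rw [mul_assoc, ← Real.rpow_add hp]; norm_num

lemma Jmom_nonneg : 0 ≤ Jmom := by
  unfold Jmom
  exact integral_nonneg (fun w => mul_nonneg (fej_nonneg one_pos w) (by positivity))

lemma integral_fej_mom {T : ℝ} (hT : 0 < T) :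
    ∫ v : ℝ, fej T v * |v| ^ (3 / 4 : ℝ) = Jmom * T ^ (-(3 / 4) : ℝ) := by
  have h1 : ∀ v : ℝ, fej T v * |v| ^ (3 / 4 : ℝ) =
      (T * T ^ (-(3 / 4) : ℝ)) * (fun w : ℝ => fej 1 w * |w| ^ (3 / 4 : ℝ)) (T * v) := by
    intro v
    simp only
    rw [fej_scale hT, abs_mul, abs_of_pos hT, Real.mul_rpow hT.le (abs_nonneg v)]
    have : T ^ (-(3 / 4) : ℝ) * T ^ (3 / 4 : ℝ) = 1 := by
      rw [← Real.rpow_add hT]; norm_num
    calc T * fej 1 (T * v) * |v| ^ (3 / 4 : ℝ)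
        = T * fej 1 (T * v) * |v| ^ (3 / 4 : ℝ) * 1 := by ring
      _ = T * fej 1 (T * v) * |v| ^ (3 / 4 : ℝ) * (T ^ (-(3 / 4) : ℝ) * T ^ (3 / 4 : ℝ)) := by
          rw [this]
      _ = _ := by ring
  simp_rw [h1]
  rw [integral_const_mul, Measure.integral_comp_mul_left
    (fun w : ℝ => fej 1 w * |w| ^ (3 / 4 : ℝ)) T, abs_of_pos (inv_pos.mpr hT), smul_eq_mul]
  unfold Jmom
  field_simp

lemma integrable_fej_g {g : ℝ → ℂ} (hc : Continuous g) {G : ℝ} (hG : ∀ u, ‖g u‖ ≤ G * rho u)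
    {T : ℝ} (hT : 0 < T) (t : ℝ) : Integrable (fun u : ℝ => (fej T (t - u) : ℂ) * g u) := by
  refine ((integrable_fej_rho_shift hT t).const_mul G).mono' ?_ (ae_of_all _ fun u => ?_)
  · have := continuous_fej hT
    exact Continuous.aestronglyMeasurable (by fun_prop)
  · rw [norm_mul, Complex.norm_real, Real.norm_eq_abs, abs_of_nonneg (fej_nonneg hT _)]
    calc fej T (t - u) * ‖g u‖ ≤ fej T (t - u) * (G * rho u) := by
          gcongr
          · exact fej_nonneg hT _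
          · exact hG u
      _ = _ := by ring

lemma fej_int_shift (g : ℝ → ℂ) (T t : ℝ) :
    ∫ u : ℝ, (fej T (t - u) : ℂ) * g u = ∫ v : ℝ, (fej T v : ℂ) * g (t - v) := by
  rw [← integral_sub_left_eq_self (fun u : ℝ => (fej T (t - u) : ℂ) * g u) volume t]
  congr 1
  ext v
  congr 3
  ring

lemma rho_le_mul {v : ℝ} (hv : 1 ≤ |v|) : rho v ≤ 3 * |v| ^ (3 / 4 : ℝ) := by
  have h1 : 1 + 2 * |v| ≤ 3 * |v| := by linarith
  have h3 : (3 : ℝ) ^ (1 / 4 : ℝ) ≤ 3 := by
    calc (3 : ℝ) ^ (1 / 4 : ℝ) ≤ 3 ^ (1 : ℝ) :=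
          Real.rpow_le_rpow_of_exponent_le (by norm_num) (by norm_num)
      _ = 3 := Real.rpow_one 3
  unfold rho
  calc (1 + 2 * |v|) ^ (1 / 4 : ℝ) ≤ (3 * |v|) ^ (1 / 4 : ℝ) :=
        Real.rpow_le_rpow (by positivity) h1 (by norm_num)
    _ = 3 ^ (1 / 4 : ℝ) * |v| ^ (1 / 4 : ℝ) := Real.mul_rpow (by norm_num) (abs_nonneg v)
    _ ≤ 3 * |v| ^ (3 / 4 : ℝ) := by
        apply mul_le_mul h3 _ (by positivity) (by norm_num)
        exact Real.rpow_le_rpow_of_exponent_le hv (by norm_num)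

/-- local approximation -/
theorem fejA {g : ℝ → ℂ} (hc : Continuous g) {G : ℝ} (hG0 : 0 ≤ G)
    (hG : ∀ u, ‖g u‖ ≤ G * rho u)
    {T : ℝ} (hT : 0 < T) {t₀ Λ : ℝ} (hΛ : 0 ≤ Λ)
    (hL : ∀ v, |v| ≤ 1 → ‖g (t₀ - v) - g t₀‖ ≤ Λ * |v|) :
    ‖(cphi : ℂ) * g t₀ - ∫ u : ℝ, (fej T (t₀ - u) : ℂ) * g u‖ ≤
      (Λ + 6 * G * rho t₀) * (Jmom * T ^ (-(3 / 4) : ℝ)) := by
  have hA : ∀ v, ‖g (t₀ - v) - g t₀‖ ≤ (Λ + 6 * G * rho t₀) * |v| ^ (3 / 4 : ℝ) := by
    intro v
    have hr0 := rho_nonneg t₀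
    have hv0 : 0 ≤ |v| ^ (3 / 4 : ℝ) := by positivity
    by_cases hv : |v| ≤ 1
    · have h1 : |v| ≤ |v| ^ (3 / 4 : ℝ) := by
        rcases eq_or_lt_of_le (abs_nonneg v) with h | h
        · rw [← h]; norm_num
        · calc |v| = |v| ^ (1 : ℝ) := (Real.rpow_one _).symm
            _ ≤ _ := Real.rpow_le_rpow_of_exponent_ge h hv (by norm_num)
      calc ‖g (t₀ - v) - g t₀‖ ≤ Λ * |v| := hL v hv
        _ ≤ Λ * |v| ^ (3 / 4 : ℝ) := by gcongr
        _ ≤ _ := by
            apply mul_le_mul_of_nonneg_right _ hv0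
            have : 0 ≤ 6 * G * rho t₀ := by positivity
            linarith
    · push Not at hv
      have h1 := hG (t₀ - v)
      have h2 := hG t₀
      have h3 : rho (t₀ - v) ≤ rho t₀ * rho v := by
        have := rho_add_le t₀ (-v)
        rw [rho_neg] at this
        exact this
      have h4 := rho_le_mul hv.le
      have h5 : 1 ≤ |v| ^ (3 / 4 : ℝ) := Real.one_le_rpow hv.le (by norm_num)
      calc ‖g (t₀ - v) - g t₀‖ ≤ ‖g (t₀ - v)‖ + ‖g t₀‖ := norm_sub_le _ _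
        _ ≤ G * (rho t₀ * (3 * |v| ^ (3 / 4 : ℝ))) + G * rho t₀ * |v| ^ (3 / 4 : ℝ) := by
            apply add_le_add
            · refine h1.trans ?_
              gcongr
              exact h3.trans (by gcongr)
            · refine h2.trans ?_
              exact le_mul_of_one_le_right (by positivity) h5
        _ = 4 * G * rho t₀ * |v| ^ (3 / 4 : ℝ) := by ring
        _ ≤ _ := by
            apply mul_le_mul_of_nonneg_right _ hv0
            have : 0 ≤ G * rho t₀ := by positivity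
            linarith
  have h1 : (cphi : ℂ) * g t₀ = ∫ v : ℝ, (fej T v : ℂ) * g t₀ := by
    rw [integral_mul_const, integral_complex_ofReal, integral_fej hT]
  have hi1 : Integrable (fun v : ℝ => (fej T v : ℂ) * g t₀) :=
    (integrable_fej hT).ofReal.mul_const _
  have hi2 : Integrable (fun v : ℝ => (fej T v : ℂ) * g (t₀ - v)) := by
    have := (integrable_fej_g hc hG hT t₀).comp_sub_left t₀
    refine this.congr (ae_of_all _ fun v => ?_)
    simp
  rw [fej_int_shift, h1, ← integral_sub hi1 hi2]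
  have h2 : ‖∫ v : ℝ, ((fej T v : ℂ) * g t₀ - (fej T v : ℂ) * g (t₀ - v))‖ ≤
      ∫ v : ℝ, (Λ + 6 * G * rho t₀) * (fej T v * |v| ^ (3 / 4 : ℝ)) := by
    apply norm_integral_le_of_norm_le ((integrable_fej_mom hT).const_mul _)
    refine ae_of_all _ fun v => ?_
    rw [← mul_sub, norm_mul, Complex.norm_real, Real.norm_eq_abs, abs_of_nonneg (fej_nonneg hT _),
      norm_sub_rev]
    calc fej T v * ‖g (t₀ - v) - g t₀‖ ≤ fej T v * ((Λ + 6 * G * rho t₀) * |v| ^ (3 / 4 : ℝ)) := by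
          gcongr
          · exact fej_nonneg hT v
          · exact hA v
      _ = _ := by ring
  rw [integral_const_mul, integral_fej_mom hT] at h2
  exact h2

/-- upper bound far away -/
theorem fejB {g : ℝ → ℂ} (hc : Continuous g) {G : ℝ} (hG0 : 0 ≤ G)
    (hG : ∀ u, ‖g u‖ ≤ G * rho u)
    {T : ℝ} (hT : 0 < T) {t₁ β : ℝ} (ht : 2 ≤ t₁) (hβ : 0 ≤ β)
    (hL : ∀ u, t₁ / 2 ≤ u → u ≤ 3 * t₁ / 2 → ‖g u‖ ≤ β) :
    ‖∫ u : ℝ, (fej T (t₁ - u) : ℂ) * g u‖ ≤
      cphi * β + 8 * G * (Jmom * T ^ (-(3 / 4) : ℝ)) := by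
  have hA : ∀ v, ‖g (t₁ - v)‖ ≤ β + 8 * G * |v| ^ (3 / 4 : ℝ) := by
    intro v
    have hv0 : 0 ≤ |v| ^ (3 / 4 : ℝ) := by positivity
    by_cases hv : |v| ≤ t₁ / 2
    · have h1 := abs_le.mp hv
      have h2 := hL (t₁ - v) (by linarith) (by linarith)
      have : 0 ≤ 8 * G * |v| ^ (3 / 4 : ℝ) := by positivity
      linarith
    · push Not at hv
      have hv1 : 1 ≤ |v| := by linarith
      have h3 : rho (t₁ - v) ≤ rho t₁ * rho v := by
        have := rho_add_le t₁ (-v)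
        rw [rho_neg] at this
        exact this
      have h4 : rho t₁ ≤ 2 * |v| ^ (1 / 4 : ℝ) := by
        unfold rho
        rw [abs_of_nonneg (by linarith : 0 ≤ t₁)]
        calc (1 + 2 * t₁) ^ (1 / 4 : ℝ) ≤ (16 * |v|) ^ (1 / 4 : ℝ) :=
              Real.rpow_le_rpow (by linarith) (by linarith) (by norm_num)
          _ = 16 ^ (1 / 4 : ℝ) * |v| ^ (1 / 4 : ℝ) := Real.mul_rpow (by norm_num) (abs_nonneg v)
          _ = _ := by
              congr 1
              rw [show (16 : ℝ) = 2 ^ (4 : ℝ) by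
                rw [show (4 : ℝ) = ((4 : ℕ) : ℝ) by norm_num, Real.rpow_natCast]; norm_num,
                ← Real.rpow_mul (by norm_num)]
              norm_num
      have h5 : rho v ≤ 2 * |v| ^ (1 / 4 : ℝ) := by
        unfold rho
        calc (1 + 2 * |v|) ^ (1 / 4 : ℝ) ≤ (16 * |v|) ^ (1 / 4 : ℝ) :=
              Real.rpow_le_rpow (by linarith) (by linarith) (by norm_num)
          _ = 16 ^ (1 / 4 : ℝ) * |v| ^ (1 / 4 : ℝ) := Real.mul_rpow (by norm_num) (abs_nonneg v)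
          _ = _ := by
              congr 1
              rw [show (16 : ℝ) = 2 ^ (4 : ℝ) by
                rw [show (4 : ℝ) = ((4 : ℕ) : ℝ) by norm_num, Real.rpow_natCast]; norm_num,
                ← Real.rpow_mul (by norm_num)]
              norm_num
      have h6 : |v| ^ (1 / 4 : ℝ) * |v| ^ (1 / 4 : ℝ) ≤ |v| ^ (3 / 4 : ℝ) := by
        rw [← Real.rpow_add (by linarith)]
        exact Real.rpow_le_rpow_of_exponent_le hv1 (by norm_num)
      calc ‖g (t₁ - v)‖ ≤ G * rho (t₁ - v) := hG _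
        _ ≤ G * ((2 * |v| ^ (1 / 4 : ℝ)) * (2 * |v| ^ (1 / 4 : ℝ))) := by
            gcongr
            refine h3.trans ?_
            exact mul_le_mul h4 h5 (rho_nonneg v) (by positivity)
        _ = 4 * G * (|v| ^ (1 / 4 : ℝ) * |v| ^ (1 / 4 : ℝ)) := by ring
        _ ≤ 4 * G * |v| ^ (3 / 4 : ℝ) := by gcongr
        _ ≤ _ := by
            have : 0 ≤ G * |v| ^ (3 / 4 : ℝ) := by positivity
            nlinarith
  rw [fej_int_shift]
  have h2 : ‖∫ v : ℝ, ((fej T v : ℂ) * g (t₁ - v))‖ ≤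
      ∫ v : ℝ, (β * fej T v + 8 * G * (fej T v * |v| ^ (3 / 4 : ℝ))) := by
    apply norm_integral_le_of_norm_le
      (((integrable_fej hT).const_mul _).add ((integrable_fej_mom hT).const_mul _))
    refine ae_of_all _ fun v => ?_
    rw [norm_mul, Complex.norm_real, Real.norm_eq_abs, abs_of_nonneg (fej_nonneg hT _)]
    calc fej T v * ‖g (t₁ - v)‖ ≤ fej T v * (β + 8 * G * |v| ^ (3 / 4 : ℝ)) := by
          gcongr
          · exact fej_nonneg hT v
          · exact hA v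
      _ = _ := by simp only [Pi.add_apply]; ring
  rw [integral_add ((integrable_fej hT).const_mul _) ((integrable_fej_mom hT).const_mul _),
    integral_const_mul, integral_const_mul, integral_fej_mom hT, integral_fej hT] at h2
  linarith

end Pool.Agent.H62
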