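import Mathlib

/-!
The Fejer kernel and its Fourier representation.
-/

namespace Pool.Agent.H62

open Real Filter Topology MeasureTheory Set

/-- triangle function -/
noncomputable def tri (T τ : ℝ) : ℝ := max 0 (1 - |τ| / T)

lemma tri_nonneg (T τ : ℝ) : 0 ≤ tri T τ := le_max_left _ _

lemma tri_le_one {T : ℝ} (hT : 0 < T) (τ : ℝ) : tri T τ ≤ 1 := by
  unfold tri
  apply max_le zero_le_one
  have : 0 ≤ |τ| / T := by positivity
  linarith

lemma tri_neg (T τ : ℝ) : tri T (-τ) = tri T τ := by simp [tri]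

lemma tri_abs (T τ : ℝ) : tri T |τ| = tri T τ := by simp [tri]

lemma tri_eq_zero {T τ : ℝ} (hT : 0 < T) (h : T ≤ |τ|) : tri T τ = 0 := by
  unfold tri
  apply max_eq_left
  have : 1 ≤ |τ| / T := by rwa [le_div_iff₀ hT, one_mul]
  linarith

lemma continuous_tri (T : ℝ) : Continuous (tri T) := by unfold tri; fun_prop

lemma hasCompactSupport_tri {T : ℝ} (hT : 0 < T) : HasCompactSupport (tri T) := by
  apply HasCompactSupport.of_support_subset_isCompact (isCompact_Icc (a := -T) (b := T))
  intro x hx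
  by_contra h
  apply hx
  apply tri_eq_zero hT
  rw [mem_Icc, ← abs_le] at h
  push Not at h
  exact h.le

lemma integrable_tri {T : ℝ} (hT : 0 < T) : Integrable (tri T) :=
  (continuous_tri T).integrable_of_hasCompactSupport (hasCompactSupport_tri hT)

/-- Fejer kernel (normalised so that its integral is `cphi`, independent of `T`). -/
noncomputable def fej (T v : ℝ) : ℝ := (1 / 2) * ∫ τ : ℝ, tri T τ * Real.cos (τ * v)

lemma fej_neg (T v : ℝ) : fej T (-v) = fej T v := by
  unfold fej
  simp

lemma fej_eq_interval {T : ℝ} (hT : 0 < T) (v : ℝ) :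
    fej T v = ∫ τ in (0:ℝ)..T, (1 - τ / T) * Real.cos (τ * v) := by
  unfold fej
  have h1 : ∀ τ : ℝ, tri T τ * Real.cos (τ * v) =
      (fun x : ℝ => tri T x * Real.cos (x * v)) |τ| := by
    intro τ
    simp only [tri_abs]
    rcases abs_choice τ with h | h
    · rw [h]
    · rw [h, neg_mul, Real.cos_neg]
  have h2 : (∫ τ : ℝ, tri T τ * Real.cos (τ * v)) =
      2 * ∫ τ in Ioi (0:ℝ), tri T τ * Real.cos (τ * v) := by
    rw [← integral_comp_abs (f := fun x : ℝ => tri T x * Real.cos (x * v))]
    congr 1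
    ext τ
    exact h1 τ
  rw [h2, ← mul_assoc]
  norm_num
  rw [intervalIntegral.integral_of_le hT.le]
  have h3 : ∫ τ in Ioi (0:ℝ), tri T τ * Real.cos (τ * v)
      = ∫ τ in Ioc (0:ℝ) T, tri T τ * Real.cos (τ * v) := by
    apply setIntegral_eq_of_subset_of_forall_diff_eq_zero measurableSet_Ioi
    · exact Ioc_subset_Ioi_self
    · intro x hx
      have hx1 : 0 < x := hx.1
      have hx2 : T < x := by
        by_contra hc
        push Not at hc
        exact hx.2 ⟨hx1, hc⟩
      rw [tri_eq_zero hT (by rw [abs_of_pos hx1]; exact hx2.le), zero_mul]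
  rw [h3]
  refine setIntegral_congr_fun measurableSet_Ioc (fun x hx => ?_)
  congr 1
  unfold tri
  rw [abs_of_pos hx.1]
  apply max_eq_right
  have : x / T ≤ 1 := by rw [div_le_one hT]; exact hx.2
  linarith

lemma fej_eq {T : ℝ} (hT : 0 < T) {v : ℝ} (hv : v ≠ 0) :
    fej T v = (1 - Real.cos (T * v)) / (T * v ^ 2) := by
  rw [fej_eq_interval hT]
  have hder : ∀ τ ∈ Set.uIcc 0 T, HasDerivAt
      (fun τ : ℝ => (1 - τ / T) * (Real.sin (τ * v) / v) - Real.cos (τ * v) / (T * v ^ 2))
      ((1 - τ / T) * Real.cos (τ * v)) τ := by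
    intro τ _
    have e1 : HasDerivAt (fun τ : ℝ => 1 - τ / T) (-(1 / T)) τ :=
      ((hasDerivAt_id τ).div_const T).const_sub 1
    have e2 : HasDerivAt (fun τ : ℝ => τ * v) v τ := by
      simpa using (hasDerivAt_id τ).mul_const v
    have e3 : HasDerivAt (fun τ : ℝ => Real.sin (τ * v) / v) (Real.cos (τ * v) * v / v) τ :=
      e2.sin.div_const v
    have e4 : HasDerivAt (fun τ : ℝ => Real.cos (τ * v) / (T * v ^ 2))
        (-Real.sin (τ * v) * v / (T * v ^ 2)) τ := e2.cos.div_const _
    have e5 := (e1.fun_mul e3).fun_sub e4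
    refine e5.congr_deriv ?_
    field_simp
    ring
  rw [intervalIntegral.integral_eq_sub_of_hasDerivAt hder
    (Continuous.intervalIntegrable (by fun_prop) _ _)]
  have hT' : T / T = 1 := div_self hT.ne'
  rw [hT']
  simp only [sub_self, zero_mul, Real.sin_zero, Real.cos_zero, zero_div, mul_zero, zero_sub,
    sub_zero]
  ring

lemma fej_nonneg {T : ℝ} (hT : 0 < T) (v : ℝ) : 0 ≤ fej T v := by
  rcases eq_or_ne v 0 with h | h
  · subst h
    unfold fej
    simp only [mul_zero, Real.cos_zero, mul_one]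
    have : 0 ≤ ∫ τ, tri T τ := integral_nonneg (tri_nonneg T)
    linarith
  · rw [fej_eq hT h]
    have : Real.cos (T * v) ≤ 1 := Real.cos_le_one _
    apply div_nonneg
    · linarith
    · positivity

lemma fej_le_T {T : ℝ} (hT : 0 < T) (v : ℝ) : fej T v ≤ T := by
  rw [fej_eq_interval hT]
  have h := intervalIntegral.norm_integral_le_of_norm_le_const (a := 0) (b := T) (C := 1)
    (f := fun τ => (1 - τ / T) * Real.cos (τ * v)) (by
    intro x hx
    rw [uIoc_of_le hT.le] at hx
    rw [norm_mul, Real.norm_eq_abs, Real.norm_eq_abs]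
    have h1 : |1 - x / T| ≤ 1 := by
      have h0 : 0 ≤ x / T := div_nonneg hx.1.le hT.le
      have : x / T ≤ 1 := by rw [div_le_one hT]; exact hx.2
      rw [abs_le]; constructor <;> linarith
    exact mul_le_one₀ h1 (abs_nonneg _) (Real.abs_cos_le_one _))
  rw [Real.norm_eq_abs, one_mul, sub_zero, abs_of_pos hT] at h
  exact (le_abs_self _).trans h

lemma fej_le_inv {T : ℝ} (hT : 0 < T) {v : ℝ} (hv : v ≠ 0) : fej T v ≤ 2 / (T * v ^ 2) := by
  rw [fej_eq hT hv]
  have : -1 ≤ Real.cos (T * v) := Real.neg_one_le_cos _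
  gcongr
  linarith

lemma fej_le_maj {T : ℝ} (hT : 0 < T) (v : ℝ) : fej T v ≤ 4 * T * (1 + (T * v) ^ 2)⁻¹ := by
  rw [← div_eq_mul_inv, le_div_iff₀ (by positivity)]
  by_cases h : (T * v) ^ 2 ≤ 1
  · have := fej_le_T hT v
    have h0 := fej_nonneg hT v
    nlinarith
  · push Not at h
    have hv : v ≠ 0 := by
      rintro rfl
      norm_num at h
    have h1 := fej_le_inv hT hv
    have h0 := fej_nonneg hT v
    have h2 : fej T v * (T * v ^ 2) ≤ 2 := by
      rwa [le_div_iff₀ (by positivity)] at h1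
    have h3 : fej T v * (1 + (T * v) ^ 2) ≤ fej T v * (2 * (T * v) ^ 2) := by
      gcongr
      linarith
    calc fej T v * (1 + (T * v) ^ 2) ≤ fej T v * (2 * (T * v) ^ 2) := h3
      _ = 2 * T * (fej T v * (T * v ^ 2)) := by ring
      _ ≤ 2 * T * 2 := by gcongr
      _ = 4 * T := by ring

lemma fej_complex {T : ℝ} (hT : 0 < T) (v : ℝ) :
    ((fej T v : ℝ) : ℂ) = (1 / 2) * ∫ τ : ℝ, (tri T τ : ℂ) * Complex.exp (Complex.I * τ * v) := by
  have h1 : ∀ τ : ℝ, (tri T τ : ℂ) * Complex.exp (Complex.I * τ * v) =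
      ((tri T τ * Real.cos (τ * v) : ℝ) : ℂ) + ((tri T τ * Real.sin (τ * v) : ℝ) : ℂ) * Complex.I := by
    intro τ
    have : Complex.I * τ * v = ((τ * v : ℝ) : ℂ) * Complex.I := by push_cast; ring
    rw [this, Complex.exp_mul_I]
    push_cast
    ring
  have hc : Integrable (fun τ : ℝ => tri T τ * Real.cos (τ * v)) :=
    (integrable_tri hT).mul_bdd (c := 1) (by fun_prop)
      (ae_of_all _ fun x => by simpa using Real.abs_cos_le_one _)
  have hs : Integrable (fun τ : ℝ => tri T τ * Real.sin (τ * v)) :=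
    (integrable_tri hT).mul_bdd (c := 1) (by fun_prop)
      (ae_of_all _ fun x => by simpa using Real.abs_sin_le_one _)
  have hs0 : ∫ τ : ℝ, tri T τ * Real.sin (τ * v) = 0 := by
    have h2 := integral_neg_eq_self (fun τ : ℝ => tri T τ * Real.sin (τ * v)) volume
    simp only [tri_neg, neg_mul, Real.sin_neg, mul_neg, integral_neg] at h2
    linarith
  simp_rw [h1]
  have hc' : Integrable (fun τ : ℝ => ((tri T τ * Real.cos (τ * v) : ℝ) : ℂ)) := hc.ofReal
  have hs' : Integrable (fun τ : ℝ => ((tri T τ * Real.sin (τ * v) : ℝ) : ℂ)) := hs.ofReal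
  rw [integral_add hc' (hs'.mul_const _), integral_mul_const, integral_complex_ofReal,
    integral_complex_ofReal, hs0]
  unfold fej
  push_cast
  ring

lemma continuous_fej {T : ℝ} (hT : 0 < T) : Continuous (fej T) := by
  unfold fej
  refine continuous_const.mul ?_
  apply continuous_of_dominated (bound := tri T)
  · intro v
    have := continuous_tri T
    fun_prop
  · intro v
    refine ae_of_all _ fun τ => ?_
    rw [norm_mul, Real.norm_eq_abs, Real.norm_eq_abs, abs_of_nonneg (tri_nonneg _ _)]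
    calc tri T τ * |Real.cos (τ * v)| ≤ tri T τ * 1 := by
          gcongr
          · exact tri_nonneg _ _
          · exact Real.abs_cos_le_one _
      _ = tri T τ := mul_one _
  · exact integrable_tri hT
  · refine ae_of_all _ fun τ => ?_
    fun_prop

lemma integrable_maj {T : ℝ} (hT : 0 < T) : Integrable (fun v : ℝ => 4 * T * (1 + (T * v) ^ 2)⁻¹) := by
  have h := (integrable_inv_one_add_sq).comp_mul_left' hT.ne'
  exact h.const_mul _

lemma integrable_fej {T : ℝ} (hT : 0 < T) : Integrable (fej T) := by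
  refine (integrable_maj hT).mono' (continuous_fej hT).aestronglyMeasurable
    (ae_of_all _ fun v => ?_)
  rw [Real.norm_eq_abs, abs_of_nonneg (fej_nonneg hT v)]
  exact fej_le_maj hT v

/-- total mass -/
noncomputable def cphi : ℝ := ∫ v : ℝ, fej 1 v

lemma fej_scale {T : ℝ} (hT : 0 < T) (v : ℝ) : fej T v = T * fej 1 (T * v) := by
  rcases eq_or_ne v 0 with h | h
  · subst h
    rw [fej_eq_interval hT, mul_zero, fej_eq_interval one_pos]
    simp only [mul_zero, Real.cos_zero, mul_one, div_one]
    have h1 : ∀ a : ℝ, 0 < a → ∫ τ in (0:ℝ)..a, (1 - τ / a) = a / 2 := by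
      intro a ha
      rw [intervalIntegral.integral_sub (by simp) (Continuous.intervalIntegrable (by fun_prop) _ _),
        intervalIntegral.integral_div, integral_id]
      simp
      field_simp
      ring
    rw [h1 T hT]
    have h2 := h1 1 one_pos
    simp only [div_one] at h2
    rw [h2]
    ring
  · rw [fej_eq hT h, fej_eq one_pos (mul_ne_zero hT.ne' h)]
    rw [one_mul, one_mul]
    field_simp

lemma integral_fej {T : ℝ} (hT : 0 < T) : ∫ v : ℝ, fej T v = cphi := by
  simp_rw [fej_scale hT]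
  rw [integral_const_mul, Measure.integral_comp_mul_left (fun x => fej 1 x) T, abs_of_pos (inv_pos.mpr hT),
    smul_eq_mul, ← mul_assoc, mul_inv_cancel₀ hT.ne', one_mul]
  rfl

lemma cphi_pos : 0 < cphi := by
  unfold cphi
  rw [integral_pos_iff_support_of_nonneg (fun v => fej_nonneg one_pos v) (integrable_fej one_pos)]
  have : Ioo (0:ℝ) 1 ⊆ Function.support (fej 1) := by
    intro v hv
    rw [Function.mem_support, fej_eq one_pos hv.1.ne']
    have h1 : Real.cos (1 * v) < 1 := by
      rw [one_mul, ← Real.cos_zero]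
      apply Real.cos_lt_cos_of_nonneg_of_le_pi (le_refl _) _ hv.1
      linarith [hv.2, Real.pi_gt_three]
    have h2 : 0 < (1 - Real.cos (1 * v)) / (1 * v ^ 2) := by
      apply div_pos (by linarith)
      have := hv.1
      positivity
    exact h2.ne'
  refine lt_of_lt_of_le ?_ (measure_mono this)
  simp

/-- Fubini: convolution with the Fejer kernel in terms of the Laplace transform. -/
theorem fej_conv {T : ℝ} (hT : 0 < T) (t : ℝ) (h : ℝ → ℂ) (δ : ℝ) (hint : Integrable
    (fun u : ℝ => Complex.exp (-δ * u) * h u)) :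
    ∫ u : ℝ, (fej T (t - u) : ℂ) * (Complex.exp (-δ * u) * h u) =
      (1 / 2) * ∫ τ : ℝ, (tri T τ : ℂ) * Complex.exp (Complex.I * τ * t) *
        ∫ u : ℝ, Complex.exp (-(δ + Complex.I * τ) * u) * h u := by
  have h1 : ∀ u : ℝ, (fej T (t - u) : ℂ) * (Complex.exp (-δ * u) * h u) =
      (1 / 2) * ∫ τ : ℝ, (tri T τ : ℂ) * Complex.exp (Complex.I * τ * (t - u)) *
        (Complex.exp (-δ * u) * h u) := by
    intro u
    rw [fej_complex hT, integral_mul_const]
    push_cast
    ring
  simp_rw [h1]
  rw [integral_const_mul]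
  congr 1
  rw [integral_integral_swap]
  · congr 1
    ext τ
    rw [← integral_const_mul]
    congr 1
    ext u
    have e1 : Complex.exp (Complex.I * τ * (t - u)) * Complex.exp (-δ * u)
        = Complex.exp (Complex.I * τ * t) * Complex.exp (-(δ + Complex.I * τ) * u) := by
      rw [← Complex.exp_add, ← Complex.exp_add]
      congr 1
      ring
    calc (tri T τ : ℂ) * Complex.exp (Complex.I * τ * (t - u)) * (Complex.exp (-δ * u) * h u)
        = (tri T τ : ℂ) * (Complex.exp (Complex.I * τ * (t - u)) * Complex.exp (-δ * u)) * h u := by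
          ring
      _ = _ := by rw [e1]; ring
  · have hi : Integrable (fun τ : ℝ => ((tri T τ : ℝ) : ℂ)) := (integrable_tri hT).ofReal
    have hm := hint.mul_prod hi
    have hb := hm.bdd_mul (c := 1)
      (f := fun z : ℝ × ℝ => Complex.exp (Complex.I * z.2 * (t - z.1))) (by fun_prop)
      (ae_of_all _ fun z => by
        have : Complex.I * z.2 * (t - z.1) = ((z.2 * (t - z.1) : ℝ) : ℂ) * Complex.I := by
          push_cast; ring
        rw [this, Complex.norm_exp_ofReal_mul_I])
    refine hb.congr (ae_of_all _ fun z => ?_)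
    simp only [Function.uncurry]
    push_cast
    ring

end Pool.Agent.H62
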