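import Pool.Agent.H62.Primes

/-!
Final assembly: Omega result for the sup norm of the Moebius exponential sum.
-/

namespace Pool.Agent.H62

open Finset Filter

lemma norm_FF_le (R : ℕ) (x : ℝ) : ‖FF R x‖ ≤ R := by
  unfold FF
  refine (norm_sum_le _ _).trans ?_
  calc ∑ n ∈ Finset.Icc 1 R, ‖((ArithmeticFunction.moebius n : ℤ) : ℂ) *
        Complex.exp (2 * Real.pi * Complex.I * n * x)‖ ≤ ∑ _n ∈ Finset.Icc 1 R, (1 : ℝ) := by
        apply Finset.sum_le_sum
        intro n _
        rw [norm_mul]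
        have h1 : ‖Complex.exp (2 * Real.pi * Complex.I * n * x)‖ = 1 := by
          have : 2 * Real.pi * Complex.I * n * x = ((2 * Real.pi * n * x : ℝ) : ℂ) * Complex.I := by
            push_cast; ring
          rw [this, Complex.norm_exp_ofReal_mul_I]
        rw [h1, mul_one]
        exact norm_moebius_le n
    _ = R := by simp

lemma FF_fract (R : ℕ) (x : ℝ) : FF R x = FF R (Int.fract x) := by
  unfold FF
  refine Finset.sum_congr rfl (fun n _ => ?_)
  congr 1
  have h1 : (x : ℂ) = ((⌊x⌋ : ℤ) : ℂ) + ((Int.fract x : ℝ) : ℂ) := by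
    have := Int.floor_add_fract x
    have h2 : (x : ℂ) = (((⌊x⌋ : ℝ) + Int.fract x : ℝ) : ℂ) := by rw [this]
    rw [h2]; push_cast; rfl
  have h3 : 2 * (Real.pi : ℂ) * Complex.I * n * x = 2 * (Real.pi : ℂ) * Complex.I * n * (Int.fract x : ℝ) +
      ((n * ⌊x⌋ : ℤ) : ℂ) * (2 * Real.pi * Complex.I) := by
    rw [h1]; push_cast; ring
  rw [h3, Complex.exp_add, Complex.exp_int_mul_two_pi_mul_I, mul_one]

/-- the comparison function -/
noncomputable def fR (c : ℝ) (R : ℝ) : ℝ :=
  Real.exp (c * (Real.log (Real.log (Real.log R)) / Real.log (Real.log (Real.log (Real.log R)))))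

lemma div_log_mono {a b : ℝ} (ha : Real.exp 1 ≤ a) (hab : a ≤ b) :
    a / Real.log a ≤ b / Real.log b := by
  have he : (1 : ℝ) < Real.exp 1 := by
    have := Real.add_one_le_exp (1 : ℝ); linarith
  have ha0 : 0 < a := by linarith
  have hb0 : 0 < b := by linarith
  have hla : 1 ≤ Real.log a := by
    rw [← Real.log_exp 1]; exact Real.log_le_log (Real.exp_pos 1) ha
  have hlb : 1 ≤ Real.log b := by
    rw [← Real.log_exp 1]; exact Real.log_le_log (Real.exp_pos 1) (ha.trans hab)
  have h := Real.log_div_self_antitoneOn (a := a) (b := b) ha (ha.trans hab) hab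
  rw [div_le_div_iff₀ hb0 ha0] at h
  rw [div_le_div_iff₀ (by linarith) (by linarith)]
  linarith

theorem omega_aux {R₀ : ℕ} (h : ∀ R : ℕ, R₀ ≤ R → ∀ x : ℝ,
    ‖FF R x‖ ≤ Real.sqrt R * fR (1 / 1000) R) : False := by
  set c : ℝ := 1 / 1000 with hc
  -- enlarge the threshold
  set R₁ : ℕ := max (max R₀ 1) ⌈Real.exp (Real.exp (Real.exp 3))⌉₊ with hR₁
  have hR₁0 : R₀ ≤ R₁ := (le_max_left _ _).trans (le_max_left _ _)
  have hR₁1 : 1 ≤ R₁ := (le_max_right _ _).trans (le_max_left _ _)
  have hR₁1' : (1 : ℝ) ≤ R₁ := by exact_mod_cast hR₁1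
  have hR₁2 : Real.exp (Real.exp (Real.exp 3)) ≤ R₁ :=
    (Nat.le_ceil _).trans (by exact_mod_cast le_max_right _ _)
  have he3 : Real.exp 1 ≤ 3 := by
    have := Real.exp_one_lt_d9; linarith
  have hL : ∀ R : ℕ, R₁ ≤ R → Real.exp (Real.exp 3) ≤ Real.log R ∧
      Real.exp 3 ≤ Real.log (Real.log R) ∧ 3 ≤ Real.log (Real.log (Real.log R)) := by
    intro R hR
    have h1 : Real.exp (Real.exp (Real.exp 3)) ≤ R := hR₁2.trans (by exact_mod_cast hR)
    have h2 : Real.exp (Real.exp 3) ≤ Real.log R := by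
      rw [← Real.log_exp (Real.exp (Real.exp 3))]
      exact Real.log_le_log (Real.exp_pos _) h1
    have h3 : Real.exp 3 ≤ Real.log (Real.log R) := by
      rw [← Real.log_exp (Real.exp 3)]
      exact Real.log_le_log (Real.exp_pos _) h2
    have h4 : 3 ≤ Real.log (Real.log (Real.log R)) := by
      rw [← Real.log_exp 3]
      exact Real.log_le_log (Real.exp_pos _) h3
    exact ⟨h2, h3, h4⟩
  -- growth
  have hgrowth : ∀ (R : ℕ) (x : ℝ), ‖FF R x‖ ≤
      (R₁ : ℝ) * Real.sqrt R * (1 + Real.log R) ^ (1 / 4 : ℝ) := by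
    intro R x
    rcases Nat.eq_zero_or_pos R with h0 | hpos
    · subst h0
      have := norm_FF_le 0 x
      simp at this
      rw [this]; simp
    have hR1 : (1 : ℝ) ≤ R := by exact_mod_cast hpos
    have hlog : 0 ≤ Real.log R := Real.log_nonneg hR1
    have hp1 : 1 ≤ (1 + Real.log R) ^ (1 / 4 : ℝ) := Real.one_le_rpow (by linarith) (by norm_num)
    by_cases hR : R₁ ≤ R
    · obtain ⟨l1, l2, l3⟩ := hL R hR
      have h1 := h R (hR₁0.trans hR) x
      have hL4 : 1 ≤ Real.log (Real.log (Real.log (Real.log R))) := by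
        rw [← Real.log_exp 1]; exact Real.log_le_log (Real.exp_pos 1) (he3.trans l3)
      have h2 : fR c R ≤ (1 + Real.log R) ^ (1 / 4 : ℝ) := by
        unfold fR
        have e1 : c * (Real.log (Real.log (Real.log R)) /
            Real.log (Real.log (Real.log (Real.log R)))) ≤ Real.log (Real.log R) / 4 := by
          have e2 : Real.log (Real.log (Real.log R)) /
            Real.log (Real.log (Real.log (Real.log R))) ≤ Real.log (Real.log (Real.log R)) :=
            div_le_self (by linarith) hL4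
          have e3 : Real.log (Real.log (Real.log R)) ≤ Real.log (Real.log R) := by
            have := Real.log_le_sub_one_of_pos (x := Real.log (Real.log R))
              (lt_of_lt_of_le (Real.exp_pos _) l2)
            linarith
          rw [hc]
          linarith
        calc Real.exp (c * (Real.log (Real.log (Real.log R)) /
            Real.log (Real.log (Real.log (Real.log R))))) ≤ Real.exp (Real.log (Real.log R) / 4) :=
              Real.exp_le_exp.mpr e1
          _ = (Real.log R) ^ (1 / 4 : ℝ) := by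
              rw [Real.rpow_def_of_pos (lt_of_lt_of_le (Real.exp_pos _) l1)]
              congr 1; ring
          _ ≤ (1 + Real.log R) ^ (1 / 4 : ℝ) :=
              Real.rpow_le_rpow (by linarith) (by linarith) (by norm_num)
      have hf0 : 0 ≤ fR c R := (Real.exp_pos _).le
      calc ‖FF R x‖ ≤ 1 * Real.sqrt R * fR c R := by rw [one_mul]; exact h1
        _ ≤ (R₁ : ℝ) * Real.sqrt R * (1 + Real.log R) ^ (1 / 4 : ℝ) :=
            mul_le_mul (mul_le_mul_of_nonneg_right hR₁1' (Real.sqrt_nonneg _)) h2 hf0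
              (by positivity)
    · push Not at hR
      have h1 := norm_FF_le R x
      have h2 : (R : ℝ) ≤ R₁ * Real.sqrt R := by
        have e1 : Real.sqrt R * Real.sqrt R = R := Real.mul_self_sqrt (by positivity)
        have e2 : Real.sqrt R ≤ R := by
          have : 1 ≤ Real.sqrt R := by rw [Real.one_le_sqrt]; exact hR1
          nlinarith
        have e3 : (R : ℝ) ≤ R₁ := by exact_mod_cast hR.le
        nlinarith [Real.sqrt_nonneg (R : ℝ)]
      calc ‖FF R x‖ ≤ R := h1
        _ ≤ R₁ * Real.sqrt R := h2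
        _ = R₁ * Real.sqrt R * 1 := by ring
        _ ≤ _ := by gcongr
  -- choose z
  obtain ⟨z, hz103, hz1, hz2⟩ := exists_z (max (max ((10 : ℝ) ^ 11) R₁)
    (max (2000 * Jmom / cphi) (10 ^ 18 / cphi)))
  have hA1 := (le_max_left _ _).trans ((le_max_left _ _).trans hz1)
  have hA2 := (le_max_right _ _).trans ((le_max_left _ _).trans hz1)
  have hA3 := (le_max_left _ _).trans ((le_max_right _ _).trans hz1)
  have hA4 := (le_max_right _ _).trans ((le_max_right _ _).trans hz1)
  set ω : ℕ := (Pz z).card with hω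
  set N : ℕ := Nz z with hN
  have hNω : (ω : ℝ) ≤ N := by exact_mod_cast Nz_ge z
  have : NeZero N := ⟨Nz_ne_zero z⟩
  have hsq := squarefree_Nz z
  have hodd := odd_Nz z
  have hN11 : (10 : ℝ) ^ 11 ≤ N := hA1.trans (hz2.trans hNω)
  have hN1 : (1 : ℝ) ≤ N := le_trans (by norm_num) hN11
  have hlogN : 0 < Real.log N := Real.log_pos (lt_of_lt_of_le (by norm_num) hN11)
  set s : ℝ := 31 * Real.log N with hs
  set β : ℝ := Real.exp (c * (s / Real.log s)) with hβ
  have hF : ∀ n : ℕ, (n : ℝ) ≤ Real.exp (Real.exp ((N : ℝ) ^ 31)) → ∀ x : ℝ,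
      ‖FF n x‖ ≤ β * Real.sqrt n + R₁ * (n : ℝ) ^ (1 / 4 : ℝ) := by
    intro n hn x
    have hn14 : 0 ≤ (n : ℝ) ^ (1 / 4 : ℝ) := by positivity
    by_cases hR : R₁ ≤ n
    · obtain ⟨l1, l2, l3⟩ := hL n hR
      have h1 := h n (hR₁0.trans hR) x
      have m1 : Real.log n ≤ Real.exp ((N : ℝ) ^ 31) := by
        rw [← Real.log_exp (Real.exp ((N : ℝ) ^ 31))]
        apply Real.log_le_log _ hn
        have : 1 ≤ n := hR₁1.trans hR
        exact_mod_cast this
      have m2 : Real.log (Real.log n) ≤ (N : ℝ) ^ 31 := by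
        rw [← Real.log_exp ((N : ℝ) ^ 31)]
        exact Real.log_le_log (lt_of_lt_of_le (Real.exp_pos _) l1) m1
      have m3 : Real.log (Real.log (Real.log n)) ≤ s := by
        have := Real.log_le_log (lt_of_lt_of_le (Real.exp_pos _) l2) m2
        rw [Real.log_pow] at this
        push_cast at this
        exact this
      have m4 : fR c n ≤ β := by
        unfold fR
        rw [hβ]
        apply Real.exp_le_exp.mpr
        apply mul_le_mul_of_nonneg_left _ (by rw [hc]; norm_num)
        exact div_log_mono (he3.trans l3) m3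
      calc ‖FF n x‖ ≤ Real.sqrt n * fR c n := h1
        _ ≤ Real.sqrt n * β := by gcongr
        _ ≤ β * Real.sqrt n + R₁ * (n : ℝ) ^ (1 / 4 : ℝ) := by
            have : 0 ≤ (R₁ : ℝ) * (n : ℝ) ^ (1 / 4 : ℝ) := by positivity
            linarith
    · push Not at hR
      rcases Nat.eq_zero_or_pos n with h0 | hpos
      · subst h0
        have := norm_FF_le 0 x
        simp at this
        rw [this, norm_zero]; positivity
      have hn1 : (1 : ℝ) ≤ n := by exact_mod_cast hpos
      have h1 := norm_FF_le n x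
      have h2 : (n : ℝ) ≤ R₁ := by exact_mod_cast hR.le
      have h3 : 1 ≤ (n : ℝ) ^ (1 / 4 : ℝ) := Real.one_le_rpow hn1 (by norm_num)
      have h4 : 0 ≤ β * Real.sqrt n := by positivity
      nlinarith
  have hkey := key_final (N := N) (C := R₁) (γ := R₁) hR₁1' (by positivity) hgrowth hsq hodd
    (ℓ := 103) (by norm_num) (dvd_Nz hz103) (by norm_num) (sig_Nz z) (cP4_Nz z) hN11
    (hA2.trans (hz2.trans hNω)) (hA2.trans (hz2.trans hNω)) (hA3.trans (hz2.trans hNω))
    (hA4.trans (hz2.trans hNω)) (β := β) (Real.exp_pos _).le hF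
  -- lower bound for kap
  have hκ := kap_ge hsq hodd
  rw [primeFactors_Nz, ← hω] at hκ
  have hcP := cP2_Nz z
  rw [← hω] at hcP
  -- bound for beta
  have hz0 : (103 : ℝ) ≤ z := by exact_mod_cast hz103
  have hlogz : 1 ≤ Real.log z := by
    rw [← Real.log_exp 1]; exact Real.log_le_log (Real.exp_pos 1) (by linarith)
  have hs1 : s ≤ 43 * z := by
    have h1 : Real.log N ≤ z * Real.log 4 := by
      rw [← Real.log_pow]
      apply Real.log_le_log (by linarith)
      exact_mod_cast Nz_le z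
    have h2 : Real.log 4 ≤ 1.3863 := by
      have : (4 : ℝ) = 2 ^ 2 := by norm_num
      rw [this, Real.log_pow]
      have := Real.log_two_lt_d9
      push_cast; linarith
    have h3 : (z : ℝ) * Real.log 4 ≤ z * 1.3863 := by gcongr
    rw [hs]; linarith
  have hse : Real.exp 1 ≤ s := by
    have h1 : 1 ≤ Real.log N := by
      rw [← Real.log_exp 1]
      apply Real.log_le_log (Real.exp_pos 1)
      exact he3.trans (le_trans (by norm_num) hN11)
    rw [hs]; linarith
  have hω1 : (z : ℝ) / Real.log z ≤ 2 * ω := by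
    have : (z : ℝ) / Real.log z = 2 * ((z : ℝ) / (2 * Real.log z)) := by
      field_simp
    rw [this]; linarith
  have hslog : s / Real.log s ≤ 86 * ω := by
    have h1 := div_log_mono hse hs1
    have h2 : (43 * z : ℝ) / Real.log (43 * z) ≤ 43 * z / Real.log z := by
      apply div_le_div_of_nonneg_left (by positivity) (by linarith)
      apply Real.log_le_log (by linarith)
      linarith
    have h3 : (43 * z : ℝ) / Real.log z = 43 * (z / Real.log z) := by ring
    rw [h3] at h2
    linarith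
  have hβ1 : β ≤ (9 / 8 : ℝ) ^ ω := by
    have h1 : c * (s / Real.log s) ≤ ω * (86 / 1000) := by
      rw [hc]; linarith
    have h2 : Real.exp (86 / 1000 : ℝ) ≤ 9 / 8 := by
      have h3 : (1 : ℝ) - 86 / 1000 ≤ Real.exp (-(86 / 1000)) := by
        have := Real.add_one_le_exp (-(86 / 1000) : ℝ); linarith
      rw [Real.exp_neg] at h3
      have h4 : Real.exp (86 / 1000 : ℝ) ≤ (1 - 86 / 1000)⁻¹ := by
        rw [le_inv_comm₀ (Real.exp_pos _) (by norm_num)]
        exact h3
      refine h4.trans (by norm_num)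
    calc β = Real.exp (c * (s / Real.log s)) := rfl
      _ ≤ Real.exp (ω * (86 / 1000)) := Real.exp_le_exp.mpr h1
      _ = (Real.exp (86 / 1000)) ^ ω := by rw [← Real.exp_nat_mul]
      _ ≤ _ := pow_le_pow_left₀ (Real.exp_pos _).le h2 ω
  have hβc : β * cP N (1 / 2) ≤ (5 / 4 : ℝ) ^ ω := by
    calc β * cP N (1 / 2) ≤ (9 / 8 : ℝ) ^ ω * (10 / 9) ^ ω := by
          apply mul_le_mul hβ1 hcP _ (by positivity)
          have := one_le_cP N (e := 1 / 2) (by norm_num)
          linarith
      _ = (5 / 4 : ℝ) ^ ω := by rw [← mul_pow]; norm_num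
  have hω100 : 100 ≤ ω := by
    have : (100 : ℝ) ≤ ω := le_trans (by norm_num) (hA1.trans hz2)
    exact_mod_cast this
  have hfinal : (2 : ℝ) ^ ω / 80 ≤ 48 * (5 / 4 : ℝ) ^ ω + 51 := by
    linarith
  have h54 : (1 : ℝ) ≤ (5 / 4 : ℝ) ^ ω := one_le_pow₀ (by norm_num)
  have h2 : (2 : ℝ) ^ ω = (8 / 5 : ℝ) ^ ω * (5 / 4) ^ ω := by rw [← mul_pow]; norm_num
  have h85 : (10000 : ℝ) ≤ (8 / 5 : ℝ) ^ ω := by
    calc (10000 : ℝ) ≤ (8 / 5 : ℝ) ^ 100 := by norm_num
      _ ≤ _ := pow_le_pow_right₀ (by norm_num) hω100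
  rw [h2] at hfinal
  nlinarith

end Pool.Agent.H62
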