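import Mathlib.Analysis.SpecialFunctions.Gamma.Deligne
import Mathlib.Analysis.SpecialFunctions.Gamma.BohrMollerup
import Mathlib.Analysis.Real.Pi.Bounds

/-!
Simple bounds for the Gamma function.
-/

namespace Pool.Agent.H62

open Real Filter Topology MeasureTheory Set

lemma norm_Gamma_le {s : ℂ} (hs : 0 < s.re) : ‖Complex.Gamma s‖ ≤ Real.Gamma s.re := by
  rw [Complex.Gamma_eq_integral hs, Real.Gamma_eq_integral hs]
  unfold Complex.GammaIntegral
  apply norm_integral_le_of_norm_le (Real.GammaIntegral_convergent hs)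
  filter_upwards [ae_restrict_mem measurableSet_Ioi] with x hx
  rw [norm_mul, Complex.norm_of_nonneg (Real.exp_pos _).le,
    Complex.norm_cpow_eq_rpow_re_of_pos hx]
  simp

lemma Gamma_le_one {x : ℝ} (h1 : 1 ≤ x) (h2 : x ≤ 2) : Real.Gamma x ≤ 1 := by
  have h := Real.convexOn_Gamma.2 (show (1:ℝ) ∈ Ioi 0 by simp) (show (2:ℝ) ∈ Ioi 0 by simp)
    (show (0:ℝ) ≤ 2 - x by linarith) (show (0:ℝ) ≤ x - 1 by linarith)
    (by ring)
  simp only [smul_eq_mul, Real.Gamma_one, Real.Gamma_two] at h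
  have e : (2 - x) * 1 + (x - 1) * 2 = x := by ring
  rw [e] at h
  linarith

lemma Gamma_le_inv {x : ℝ} (h0 : 0 < x) (h1 : x ≤ 1) : Real.Gamma x ≤ 1 / x := by
  rw [le_div_iff₀ h0, mul_comm, ← Real.Gamma_add_one h0.ne']
  exact Gamma_le_one (by linarith) (by linarith)

lemma norm_sin_le (w : ℂ) : ‖Complex.sin w‖ ≤ Real.exp |w.im| := by
  have h1 : Complex.sin w = (Complex.exp (-w * Complex.I) - Complex.exp (w * Complex.I)) *
      Complex.I / 2 := rfl
  rw [h1, norm_div, norm_mul, Complex.norm_I, mul_one, Complex.norm_ofNat]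
  have h2 : ‖Complex.exp (-w * Complex.I)‖ ≤ Real.exp |w.im| := by
    rw [Complex.norm_exp]
    apply Real.exp_le_exp.mpr
    simp [le_abs_self]
  have h3 : ‖Complex.exp (w * Complex.I)‖ ≤ Real.exp |w.im| := by
    rw [Complex.norm_exp]
    apply Real.exp_le_exp.mpr
    simp [neg_le_abs]
  have h4 := norm_sub_le (Complex.exp (-w * Complex.I)) (Complex.exp (w * Complex.I))
  linarith

/-- lower bound for the Gamma function in the strip `1/4 ≤ re w ≤ 3/4`. -/
lemma norm_Gamma_ge {w : ℂ} (h1 : 1 / 4 ≤ w.re) (h2 : w.re ≤ 3 / 4) :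
    π / 4 * Real.exp (-(π * |w.im|)) ≤ ‖Complex.Gamma w‖ := by
  have hrefl := Complex.Gamma_mul_Gamma_one_sub w
  have hG2 : ‖Complex.Gamma (1 - w)‖ ≤ 4 := by
    have hre : (1 - w).re = 1 - w.re := by simp
    refine (norm_Gamma_le (by rw [hre]; linarith)).trans ?_
    rw [hre]
    refine (Gamma_le_inv (by linarith) (by linarith)).trans ?_
    rw [div_le_iff₀ (by linarith)]
    linarith
  have hsin : ‖Complex.sin (π * w)‖ ≤ Real.exp (π * |w.im|) := by
    refine (norm_sin_le _).trans (le_of_eq ?_)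
    have : (π * w : ℂ).im = π * w.im := by simp
    rw [this, abs_mul, abs_of_pos Real.pi_pos]
  have hG0 : Complex.Gamma w ≠ 0 := Complex.Gamma_ne_zero_of_re_pos (by linarith)
  have hG1 : Complex.Gamma (1 - w) ≠ 0 := Complex.Gamma_ne_zero_of_re_pos (by simp; linarith)
  have hsin0 : Complex.sin (π * w) ≠ 0 := by
    intro h
    rw [h, div_zero] at hrefl
    exact mul_ne_zero hG0 hG1 hrefl
  have h3 := congrArg norm hrefl
  rw [norm_mul, norm_div, Complex.norm_real, Real.norm_eq_abs, abs_of_pos Real.pi_pos,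
    eq_div_iff (norm_ne_zero_iff.mpr hsin0)] at h3
  have h4 : 0 ≤ ‖Complex.Gamma w‖ := norm_nonneg _
  have h5 : π ≤ ‖Complex.Gamma w‖ * 4 * Real.exp (π * |w.im|) := by
    calc π = ‖Complex.Gamma w‖ * ‖Complex.Gamma (1 - w)‖ * ‖Complex.sin (π * w)‖ := h3.symm
      _ ≤ _ := by gcongr
  rw [Real.exp_neg, ← div_eq_mul_inv, div_le_iff₀ (Real.exp_pos _)]
  linarith

/-- Lower bound for `Gammaℝ (3/2 - z)`. -/
lemma norm_Gammaℝ_ge {z : ℂ} (h1 : 0 ≤ z.re) (h2 : z.re ≤ 1) :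
    1 / 4 * Real.exp (-(2 * |z.im|)) ≤ ‖Complex.Gammaℝ (3 / 2 - z)‖ := by
  rw [Complex.Gammaℝ_def, norm_mul, Complex.norm_cpow_eq_rpow_re_of_pos Real.pi_pos]
  have hre : ((3 / 2 - z) / 2 : ℂ).re = (3 / 2 - z.re) / 2 := by
    simp
  have him : ((3 / 2 - z) / 2 : ℂ).im = - z.im / 2 := by
    simp
  have h3 := norm_Gamma_ge (w := (3 / 2 - z) / 2) (by rw [hre]; linarith) (by rw [hre]; linarith)
  rw [him] at h3
  have hre2 : (-(3 / 2 - z) / 2 : ℂ).re = -((3 / 2 - z.re) / 2) := by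
    simp; ring
  rw [hre2]
  have hpi := Real.pi_gt_three
  have hpi4 : π ≤ 4 := Real.pi_le_four
  have h4 : π ^ (-1 : ℝ) ≤ π ^ (-((3 / 2 - z.re) / 2)) := by
    apply Real.rpow_le_rpow_of_exponent_le (by linarith)
    linarith
  rw [Real.rpow_neg_one] at h4
  have h5 : Real.exp (-(2 * |z.im|)) ≤ Real.exp (-(π * |-z.im / 2|)) := by
    apply Real.exp_le_exp.mpr
    rw [abs_div, abs_neg, abs_of_pos (by norm_num : (0:ℝ) < 2)]
    have := abs_nonneg z.im
    nlinarith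
  calc 1 / 4 * Real.exp (-(2 * |z.im|)) ≤ 1 / 4 * Real.exp (-(π * |-z.im / 2|)) := by gcongr
    _ = π⁻¹ * (π / 4 * Real.exp (-(π * |-z.im / 2|))) := by
        field_simp
    _ ≤ _ := by gcongr

/-- Upper bound for `Gammaℝ (3/2 - z)` at `re z = 0`. -/
lemma norm_Gammaℝ_le {z : ℂ} (h1 : z.re = 0) : ‖Complex.Gammaℝ (3 / 2 - z)‖ ≤ 2 := by
  rw [Complex.Gammaℝ_def, norm_mul, Complex.norm_cpow_eq_rpow_re_of_pos Real.pi_pos]
  have hre : ((3 / 2 - z) / 2 : ℂ).re = 3 / 4 := by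
    simp [h1]; norm_num
  have hre2 : (-(3 / 2 - z) / 2 : ℂ).re = -(3 / 4) := by
    simp [h1]; norm_num
  rw [hre2]
  have h3 : ‖Complex.Gamma ((3 / 2 - z) / 2)‖ ≤ 4 / 3 := by
    refine (norm_Gamma_le (by rw [hre]; norm_num)).trans ?_
    rw [hre]
    refine (Gamma_le_inv (by norm_num) (by norm_num)).trans (by norm_num)
  have h4 : π ^ (-(3 / 4) : ℝ) ≤ 1 := by
    apply Real.rpow_le_one_of_one_le_of_nonpos _ (by norm_num)
    have := Real.pi_gt_three
    linarith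
  have h5 : 0 ≤ π ^ (-(3 / 4) : ℝ) := by positivity
  nlinarith [norm_nonneg (Complex.Gamma ((3 / 2 - z) / 2))]

lemma integral_exp_neg_mul_abs {c : ℝ} (hc : 0 < c) :
    ∫ u : ℝ, Real.exp (-c * |u|) = 2 / c := by
  rw [integral_comp_abs (f := fun u : ℝ => Real.exp (-c * u)),
    integral_exp_mul_Ioi (by linarith) 0]
  simp
  ring

end Pool.Agent.H62
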