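import Pool.Agent.H62.Mellin

/-!
Growth of `S b`, the normalised function `hb b L t`, and its Laplace transform.
-/

namespace Pool.Agent.H62

open Real Filter Topology MeasureTheory Set

/-- Growth condition for the partial sums of `b`. -/
def Growth (b : ℕ → ℂ) (K : ℝ) : Prop :=
  ∀ n : ℕ, ‖∑ k ∈ Finset.range (n + 1), b k‖ ≤ K * Real.sqrt n * (1 + Real.log n) ^ (1 / 4 : ℝ)

lemma Growth.b_zero {b : ℕ → ℂ} {K : ℝ} (h : Growth b K) : b 0 = 0 := by
  have := h 0
  simpa using this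

lemma Growth.h1 {b : ℕ → ℂ} {K : ℝ} (hK : 0 ≤ K) (h : Growth b K) (n : ℕ) :
    ‖∑ k ∈ Finset.range (n + 1), b k‖ ≤ K * (n : ℝ) ^ (3 / 4 : ℝ) := by
  rcases Nat.eq_zero_or_pos n with h0 | hn
  · subst h0; simp [h.b_zero]
  have hn' : (1:ℝ) ≤ n := by exact_mod_cast hn
  have hn0 : (0:ℝ) < n := by linarith
  refine (h n).trans ?_
  have h2 : 1 + Real.log n ≤ n := by
    have := Real.log_le_sub_one_of_pos hn0
    linarith
  have h3 : 0 ≤ Real.log n := Real.log_nonneg hn'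
  calc K * Real.sqrt n * (1 + Real.log n) ^ (1 / 4 : ℝ)
      ≤ K * Real.sqrt n * (n : ℝ) ^ (1 / 4 : ℝ) := by gcongr
    _ = K * ((n : ℝ) ^ (1 / 2 : ℝ) * (n : ℝ) ^ (1 / 4 : ℝ)) := by
        rw [Real.sqrt_eq_rpow]; ring
    _ = K * (n : ℝ) ^ (3 / 4 : ℝ) := by
        rw [← Real.rpow_add hn0]; norm_num

lemma Growth.h2 {b : ℕ → ℂ} {K : ℝ} (hK : 0 ≤ K) (h : Growth b K) {X : ℝ} (hX : 1 ≤ X) (n : ℕ)
    (hn : (n : ℝ) ≤ X ^ 2) :
    ‖∑ k ∈ Finset.range (n + 1), b k‖ ≤
      K * (1 + 2 * Real.log X) ^ (1 / 4 : ℝ) * Real.sqrt n := by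
  rcases Nat.eq_zero_or_pos n with h0 | hn1
  · subst h0; simp [h.b_zero]
  have hn' : (1:ℝ) ≤ n := by exact_mod_cast hn1
  have hn0 : (0:ℝ) < n := by linarith
  refine (h n).trans ?_
  have h3 : 0 ≤ Real.log n := Real.log_nonneg hn'
  have h4 : Real.log n ≤ 2 * Real.log X := by
    have := Real.log_le_log hn0 hn
    rwa [Real.log_pow, Nat.cast_ofNat] at this
  calc K * Real.sqrt n * (1 + Real.log n) ^ (1 / 4 : ℝ)
      ≤ K * Real.sqrt n * (1 + 2 * Real.log X) ^ (1 / 4 : ℝ) := by gcongr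
    _ = _ := by ring

lemma one_le_growth_factor {t : ℝ} (ht : 0 ≤ t) : 1 ≤ (1 + 2 * t) ^ (1 / 4 : ℝ) := by
  apply Real.one_le_rpow _ (by norm_num)
  linarith

lemma norm_S_le_of_growth {b : ℕ → ℂ} {K : ℝ} (hK : 0 ≤ K) (h : Growth b K)
    (hb : ∀ n, ‖b n‖ ≤ 1) {X : ℝ} (hX : 1 ≤ X) :
    ‖S b X‖ ≤ 64 * K * (1 + 2 * Real.log X) ^ (1 / 4 : ℝ) * Real.sqrt X := by
  have hlog : 0 ≤ Real.log X := Real.log_nonneg hX
  have hgf := one_le_growth_factor hlog
  have h1 := abel_bound (n₀ := 0) h.b_zero hb hK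
    (β := K * (1 + 2 * Real.log X) ^ (1 / 4 : ℝ)) (by positivity) hX (by push_cast; linarith)
    (h.h1 hK) (fun n _ hn => h.h2 hK hX n hn)
  have hsX : 1 ≤ Real.sqrt X := by rw [Real.one_le_sqrt]; exact hX
  have h2 : 16 * K / Real.sqrt X ≤ 16 * K * (1 + 2 * Real.log X) ^ (1 / 4 : ℝ) * Real.sqrt X := by
    rw [div_le_iff₀ (by linarith)]
    have : 1 ≤ (1 + 2 * Real.log X) ^ (1 / 4 : ℝ) * Real.sqrt X * Real.sqrt X :=
      one_le_mul_of_one_le_of_one_le (one_le_mul_of_one_le_of_one_le hgf hsX) hsX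
    nlinarith
  simp only [Nat.cast_zero, ne_eq, OfNat.ofNat_ne_zero, not_false_eq_true, zero_pow, mul_zero,
    zero_div, add_zero] at h1
  nlinarith

lemma continuous_S {b : ℕ → ℂ} (hb : ∀ n, ‖b n‖ ≤ 1) : Continuous (S b) := by
  rw [continuous_iff_continuousAt]
  intro X₀
  have hopen : Metric.ball (0:ℝ) (|X₀| + 1) ∈ 𝓝 X₀ := by
    apply Metric.isOpen_ball.mem_nhds
    simp
  refine ContinuousOn.continuousAt (s := Metric.ball (0:ℝ) (|X₀| + 1)) ?_ hopen
  unfold S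
  refine continuousOn_tsum (u := fun n : ℕ => 2 * (|X₀| + 1) ^ 2 * (1 / (n : ℝ) ^ 2)) ?_
    (summable_bound _) ?_
  · intro n
    apply Continuous.continuousOn
    have := continuous_om
    fun_prop
  · intro n X hX
    refine (norm_term_le hb X n).trans ?_
    have : |X| ≤ |X₀| + 1 := by
      have := Metric.mem_ball.mp hX
      rw [Real.dist_eq, sub_zero] at this
      exact this.le
    have h2 : X ^ 2 ≤ (|X₀| + 1) ^ 2 := by
      rw [← sq_abs X]; gcongr
    gcongr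

/-- normalised function in the logarithmic variable. -/
noncomputable def hb (b : ℕ → ℂ) (L : ℝ) (t : ℝ) : ℂ :=
  ((Real.sqrt L * Real.exp (-t / 2) : ℝ) : ℂ) * S b (Real.exp t / L)

lemma continuous_hb {b : ℕ → ℂ} (h : ∀ n, ‖b n‖ ≤ 1) (L : ℝ) : Continuous (hb b L) := by
  unfold hb
  have := continuous_S h
  fun_prop

lemma norm_hb (b : ℕ → ℂ) (L t : ℝ) :
    ‖hb b L t‖ = Real.sqrt L * Real.exp (-t / 2) * ‖S b (Real.exp t / L)‖ := by
  unfold hb
  rw [norm_mul, Complex.norm_real, Real.norm_eq_abs, abs_of_nonneg (by positivity)]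

/-- the factor `sqrt L exp (-t/2)` is `1 / sqrt X` with `X = exp t / L`. -/
lemma factor_eq {L : ℝ} (hL : 0 < L) (t : ℝ) :
    Real.sqrt L * Real.exp (-t / 2) * Real.sqrt (Real.exp t / L) = 1 := by
  rw [Real.sqrt_div (Real.exp_pos t).le]
  have h1 : Real.sqrt (Real.exp t) = Real.exp (t / 2) := by
    rw [Real.exp_half]
  rw [h1]
  have h2 : Real.exp (-t / 2) * Real.exp (t / 2) = 1 := by
    rw [← Real.exp_add]; ring_nf; simp
  have h3 : Real.sqrt L ≠ 0 := (Real.sqrt_pos.mpr hL).ne'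
  calc Real.sqrt L * Real.exp (-t / 2) * (Real.exp (t / 2) / Real.sqrt L)
      = (Real.exp (-t / 2) * Real.exp (t / 2)) * (Real.sqrt L / Real.sqrt L) := by ring
    _ = 1 := by rw [h2, div_self h3, one_mul]

lemma norm_hb_le_small {b : ℕ → ℂ} (h : ∀ n, ‖b n‖ ≤ 1) {L : ℝ} (hL : 1 ≤ L) (t : ℝ) :
    ‖hb b L t‖ ≤ 4 * Real.exp (3 * t / 2) / L := by
  have hL0 : 0 < L := by linarith
  rw [norm_hb]
  have h1 := norm_S_le_sq h (Real.exp t / L)
  calc Real.sqrt L * Real.exp (-t / 2) * ‖S b (Real.exp t / L)‖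
      ≤ Real.sqrt L * Real.exp (-t / 2) * (4 * (Real.exp t / L) ^ 2) := by gcongr
    _ = 4 * (Real.sqrt L / L ^ 2) * (Real.exp (-t / 2) * (Real.exp t) ^ 2) := by
        rw [div_pow]; ring
    _ = 4 * (Real.sqrt L / L ^ 2) * Real.exp (3 * t / 2) := by
        congr 1
        rw [← Real.exp_nat_mul, ← Real.exp_add]
        congr 1
        push_cast; ring
    _ ≤ 4 * (1 / L) * Real.exp (3 * t / 2) := by
        have h5 : Real.sqrt L / L ^ 2 ≤ 1 / L := by
          rw [div_le_div_iff₀ (by positivity) hL0]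
          have h6 : Real.sqrt L ≤ L := by
            rw [Real.sqrt_le_left hL0.le]
            nlinarith
          nlinarith
        exact mul_le_mul_of_nonneg_right (mul_le_mul_of_nonneg_left h5 (by norm_num))
          (Real.exp_pos _).le
    _ = _ := by ring

lemma norm_hb_le_of_growth {b : ℕ → ℂ} {K : ℝ} (hK : 1 ≤ K) (hg : Growth b K)
    (h : ∀ n, ‖b n‖ ≤ 1) {L : ℝ} (hL : 1 ≤ L) {t : ℝ} (ht : 0 ≤ t) :
    ‖hb b L t‖ ≤ 64 * K * (1 + 2 * t) ^ (1 / 4 : ℝ) := by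
  have hL0 : 0 < L := by linarith
  by_cases hX : 1 ≤ Real.exp t / L
  · rw [norm_hb]
    have h1 := norm_S_le_of_growth (by linarith) hg h hX
    have h2 : Real.log (Real.exp t / L) ≤ t := by
      rw [Real.log_div (Real.exp_pos t).ne' hL0.ne', Real.log_exp]
      have := Real.log_nonneg hL
      linarith
    have h3 : 0 ≤ Real.log (Real.exp t / L) := Real.log_nonneg hX
    calc Real.sqrt L * Real.exp (-t / 2) * ‖S b (Real.exp t / L)‖
        ≤ Real.sqrt L * Real.exp (-t / 2) * (64 * K * (1 + 2 * Real.log (Real.exp t / L)) ^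
            (1 / 4 : ℝ) * Real.sqrt (Real.exp t / L)) := by gcongr
      _ = 64 * K * (1 + 2 * Real.log (Real.exp t / L)) ^ (1 / 4 : ℝ) *
            (Real.sqrt L * Real.exp (-t / 2) * Real.sqrt (Real.exp t / L)) := by ring
      _ = 64 * K * (1 + 2 * Real.log (Real.exp t / L)) ^ (1 / 4 : ℝ) := by
            rw [factor_eq hL0]; ring
      _ ≤ 64 * K * (1 + 2 * t) ^ (1 / 4 : ℝ) := by gcongr
  · push Not at hX
    have hX0 : 0 < Real.exp t / L := by positivity
    have h1 : ‖hb b L t‖ ≤ 4 := by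
      rw [norm_hb]
      have h1 := norm_S_le_sq h (Real.exp t / L)
      have h4 : (Real.exp t / L) ^ 2 ≤ Real.sqrt (Real.exp t / L) := by
        rw [Real.le_sqrt' (by positivity)]
        calc ((Real.exp t / L) ^ 2) ^ 2 = (Real.exp t / L) ^ 4 := by ring
          _ ≤ (Real.exp t / L) ^ 1 := pow_le_pow_of_le_one hX0.le hX.le (by norm_num)
          _ = _ := pow_one _
      calc Real.sqrt L * Real.exp (-t / 2) * ‖S b (Real.exp t / L)‖
          ≤ Real.sqrt L * Real.exp (-t / 2) * (4 * Real.sqrt (Real.exp t / L)) := by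
            exact mul_le_mul_of_nonneg_left (by linarith) (by positivity)
        _ = 4 * (Real.sqrt L * Real.exp (-t / 2) * Real.sqrt (Real.exp t / L)) := by ring
        _ = 4 := by rw [factor_eq hL0]; ring
    have := one_le_growth_factor ht
    nlinarith

/-- Laplace transform of `hb` in terms of the Mellin transform of `S`. -/
lemma laplace_hb (b : ℕ → ℂ) {L : ℝ} (hL : 0 < L) (z : ℂ) :
    ∫ t : ℝ, Complex.exp (-z * t) * hb b L t =
      Complex.exp (-z * Real.log L) * mellin (S b) (-(1 / 2 + z)) := by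
  rw [mellin_eq_integral_exp]
  have h1 := integral_sub_right_eq_self
    (fun u : ℝ => Complex.exp (-(1 / 2 + z) * u) * S b (Real.exp u)) (Real.log L) (μ := volume)
  rw [← h1, ← integral_const_mul]
  congr 1
  ext t
  unfold hb
  have h2 : Real.exp (t - Real.log L) = Real.exp t / L := by
    rw [Real.exp_sub, Real.exp_log hL]
  rw [h2]
  have h3 : Real.sqrt L = Real.exp (Real.log L / 2) := by
    rw [Real.exp_half, Real.exp_log hL]
  rw [h3]
  push_cast
  rw [← mul_assoc, ← mul_assoc, ← mul_assoc, ← Complex.exp_add, ← Complex.exp_add,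
    ← Complex.exp_add]
  congr 2
  ring

end Pool.Agent.H62
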