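import Pool.Agent.H62.Sieve

/-!
The main inequality for the special test function.
-/

namespace Pool.Agent.H62

open Finset ArithmeticFunction

variable {N : ℕ} [NeZero N]

/-- direct coefficients -/
noncomputable def b1 (N : ℕ) [NeZero N] (hsq : Squarefree N) (n : ℕ) : ℂ :=
  kf N ((y0 N hsq : ZMod (N ^ 2)) ^ 2) (n : ZMod (N ^ 2)) * ((moebius n : ℤ) : ℂ)

/-- dual coefficients, normalised -/
noncomputable def b2 (N : ℕ) [NeZero N] (hsq : Squarefree N) (n : ℕ) : ℂ :=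
  ((kap N hsq : ℂ)⁻¹ * kt N ((y0 N hsq : ZMod (N ^ 2)) ^ 2) (n : ZMod (N ^ 2))) *
    ((moebius n : ℤ) : ℂ)

lemma norm_b1_le (hsq : Squarefree N) (n : ℕ) : ‖b1 N hsq n‖ ≤ 1 := by
  unfold b1
  rw [norm_mul]
  exact mul_le_one₀ (norm_kf_le _ _) (norm_nonneg _) (norm_moebius_le n)

lemma norm_ktn_le (hsq : Squarefree N) (hodd : Odd N) {ℓ : ℕ} (hp : ℓ.Prime) (hℓ : ℓ ∣ N)
    (h3 : ℓ % 4 = 3) (x : ZMod (N ^ 2)) :
    ‖(kap N hsq : ℂ)⁻¹ * kt N ((y0 N hsq : ZMod (N ^ 2)) ^ 2) x‖ ≤ 1 := by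
  have h1 := norm_kt_le hsq hp hℓ h3 x
  have h2 := kap_pos hsq hodd
  rw [norm_mul, norm_inv, Complex.norm_real, Real.norm_eq_abs, abs_of_pos h2,
    inv_mul_le_iff₀ h2, mul_one]
  exact h1

lemma norm_b2_le (hsq : Squarefree N) (hodd : Odd N) {ℓ : ℕ} (hp : ℓ.Prime) (hℓ : ℓ ∣ N)
    (h3 : ℓ % 4 = 3) (n : ℕ) : ‖b2 N hsq n‖ ≤ 1 := by
  unfold b2
  rw [norm_mul]
  exact mul_le_one₀ (norm_ktn_le hsq hodd hp hℓ h3 _) (norm_nonneg _) (norm_moebius_le n)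

lemma b1_eq (hsq : Squarefree N) (n : ℕ) : b1 N hsq n =
    ∑ χ : DirichletCharacter ℂ (N ^ 2), cc (kf N ((y0 N hsq : ZMod (N ^ 2)) ^ 2)) χ * bchi χ n := by
  unfold b1 bchi
  rw [← sum_cc (kf N ((y0 N hsq : ZMod (N ^ 2)) ^ 2)) (kf_zero _), Finset.sum_mul]
  refine Finset.sum_congr rfl (fun χ _ => by ring)

lemma b2_eq (hsq : Squarefree N) (hodd : Odd N) (n : ℕ) : (kap N hsq : ℂ) * b2 N hsq n =
    ∑ χ : DirichletCharacter ℂ (N ^ 2), (cc (kf N ((y0 N hsq : ZMod (N ^ 2)) ^ 2)) χ *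
      DirichletCharacter.rootNumber χ⁻¹) * bchi χ⁻¹ n := by
  have h2 : (kap N hsq : ℂ) ≠ 0 := by exact_mod_cast (kap_pos hsq hodd).ne'
  unfold b2 bchi kt
  rw [← mul_assoc, ← mul_assoc, mul_inv_cancel₀ h2, one_mul, Finset.sum_mul]
  refine Finset.sum_congr rfl (fun χ _ => by ring)

omit [NeZero N] in
lemma sqrt_q : Real.sqrt ((N ^ 2 : ℕ) : ℝ) = N := by
  push_cast
  exact Real.sqrt_sq (by positivity)

/-- lower bound at the special point -/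
lemma hb_b2_ge (hsq : Squarefree N) (hodd : Odd N) {ℓ : ℕ} (hp : ℓ.Prime) (hℓ : ℓ ∣ N)
    (h3 : ℓ % 4 = 3) (hsig : sig N ≤ 1 / 40) :
    27 / 1000 ≤ ‖hb (b2 N hsq) N (-(-Real.log (N / 4)))‖ := by
  have hN : (0 : ℝ) < N := by exact_mod_cast Nat.pos_of_ne_zero (NeZero.ne N)
  have hκ := kap_pos hsq hodd
  have hb2 := norm_b2_le hsq hodd hp hℓ h3
  have hpi3 := Real.pi_gt_three
  have hpi : Real.pi < 3.15 := Real.pi_lt_d2
  rw [neg_neg, norm_hb, Real.exp_log (by positivity)]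
  have hX : (N : ℝ) / 4 / N = 1 / 4 := by field_simp
  have hfac : Real.sqrt N * Real.exp (-Real.log (N / 4) / 2) = 2 := by
    have h1 := factor_eq hN (Real.log (N / 4))
    rw [Real.exp_log (by positivity), hX] at h1
    have h2 : Real.sqrt (1 / 4) = 1 / 2 := by
      rw [show (1 / 4 : ℝ) = (1 / 2) ^ 2 by norm_num, Real.sqrt_sq (by norm_num)]
    rw [h2] at h1
    linarith
  rw [hX, hfac]
  have hsum := summable_term hb2 (1 / 4)
  have hS : S (b2 N hsq) (1 / 4) = b2 N hsq 1 * (om (1 / 4 / (1 : ℕ)) : ℂ) +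
      ∑' n : ℕ, if n = 1 then 0 else b2 N hsq n * (om (1 / 4 / n) : ℂ) := by
    unfold S
    exact hsum.tsum_eq_add_tsum_ite 1
  have hrest : ‖∑' n : ℕ, if n = 1 then 0 else b2 N hsq n * (om (1 / 4 / n) : ℂ)‖ ≤
      (1 / 8) * (Real.pi ^ 2 / 6 - 1) := by
    have hz := hasSum_zeta_two
    have hz2 : HasSum (fun n : ℕ => if n = 1 then (0:ℝ) else 1 / (n : ℝ) ^ 2)
        (Real.pi ^ 2 / 6 - 1) := by
      have := hz.summable.tsum_eq_add_tsum_ite 1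
      rw [hz.tsum_eq] at this
      have hs : Summable (fun n : ℕ => if n = 1 then (0:ℝ) else 1 / (n : ℝ) ^ 2) := by
        refine Summable.of_nonneg_of_le (fun n => ?_) (fun n => ?_) hz.summable
        · split_ifs <;> positivity
        · split_ifs
          · positivity
          · exact le_refl _
      rw [hs.hasSum_iff]
      norm_num at this ⊢
      linarith
    refine tsum_of_norm_bounded (hz2.mul_left (1 / 8)) (fun n => ?_)
    split_ifs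
    · simp
    · have := norm_term_le hb2 (1 / 4) n
      refine this.trans (le_of_eq ?_)
      ring
  have hb1 : 95 / 100 ≤ ‖b2 N hsq 1‖ := by
    unfold b2
    rw [Nat.cast_one, moebius_apply_one, Int.cast_one, mul_one, norm_mul, norm_inv,
      Complex.norm_real, Real.norm_eq_abs, abs_of_pos hκ]
    have h1 := norm_kt_one_ge hsq hodd hp hℓ h3
    rw [le_inv_mul_iff₀ hκ]
    refine le_trans ?_ h1
    rw [mul_comm]
    apply mul_le_mul_of_nonneg_right _ hκ.le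
    have h0 : 0 ≤ sig N := by unfold sig; positivity
    have h4 : 4 * Real.pi * sig N ≤ 0.315 := by nlinarith
    have h5 : 0 ≤ 4 * Real.pi * sig N := by positivity
    nlinarith
  have hom : (803 / 1000) * (1 / 8) ≤ om (1 / 4 / (1 : ℕ)) := by
    unfold om
    have h1 := Real.add_one_le_exp (-(Real.pi * (1 / 4 / ((1 : ℕ) : ℝ)) ^ 2))
    push_cast at h1 ⊢
    have h2 : (803 / 1000 : ℝ) ≤ Real.exp (-(Real.pi * (1 / 4 / 1) ^ 2)) := by
      refine le_trans ?_ h1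
      norm_num
      linarith
    nlinarith
  have hmain : (95 / 100) * ((803 / 1000) * (1 / 8)) ≤
      ‖b2 N hsq 1 * (om (1 / 4 / (1 : ℕ)) : ℂ)‖ := by
    rw [norm_mul, Complex.norm_real, Real.norm_eq_abs, abs_of_nonneg (om_nonneg _)]
    gcongr
  rw [hS]
  have h7 := norm_sub_norm_le (b2 N hsq 1 * (om (1 / 4 / (1 : ℕ)) : ℂ))
    (-∑' n : ℕ, if n = 1 then 0 else b2 N hsq n * (om (1 / 4 / n) : ℂ))
  rw [norm_neg, sub_neg_eq_add] at h7
  nlinarith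

lemma gg_ge (hsq : Squarefree N) (hodd : Odd N) {ℓ : ℕ} (hp : ℓ.Prime) (hℓ : ℓ ∣ N)
    (h3 : ℓ % 4 = 3) (hsig : sig N ≤ 1 / 40) (hN100 : 100 ≤ N) :
    kap N hsq / 40 ≤ ‖gg (N ^ 2) (b1 N hsq) (b2 N hsq) (kap N hsq) (-Real.log (N / 4))‖ := by
  have hN : (100 : ℝ) ≤ N := by exact_mod_cast hN100
  have hκ := kap_pos hsq hodd
  unfold gg
  rw [sqrt_q]
  have h1 := hb_b2_ge hsq hodd hp hℓ h3 hsig
  have h2 := norm_hb_le_small (norm_b1_le hsq) (L := N) (by linarith) (-Real.log (N / 4))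
  have h5 : Real.exp (3 * (-Real.log (N / 4)) / 2) ≤ 1 := by
    rw [Real.exp_le_one_iff]
    have : 0 ≤ Real.log (N / 4) := Real.log_nonneg (by linarith)
    linarith
  have hkap1 : 2 * 1 / 2 ≤ kap N hsq := by
    refine le_trans ?_ (kap_ge hsq hodd)
    have : 1 ≤ N.primeFactors.card := by
      rw [Nat.one_le_iff_ne_zero, Finset.card_ne_zero]
      exact ⟨ℓ, Nat.mem_primeFactors.mpr ⟨hp, hℓ, NeZero.ne N⟩⟩
    have h6 : (2 : ℝ) ^ 1 ≤ 2 ^ N.primeFactors.card := pow_le_pow_right₀ (by norm_num) this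
    linarith
  have h4 : ‖hb (b1 N hsq) N (-Real.log (N / 4))‖ ≤ 1 / 1000 := by
    have h6 : Real.exp (3 * (-Real.log (N / 4)) / 2) ≤ Real.exp (-Real.log (N / 4)) := by
      apply Real.exp_le_exp.mpr
      have : 0 ≤ Real.log (N / 4) := Real.log_nonneg (by linarith)
      linarith
    rw [Real.exp_neg, Real.exp_log (by positivity)] at h6
    have h7 : (N / 4 : ℝ)⁻¹ ≤ (1 / 25) := by
      rw [inv_le_comm₀ (by positivity) (by norm_num)]
      norm_num; linarith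
    refine h2.trans ?_
    rw [div_le_iff₀ (by linarith)]
    -- need sharper bound
    have h8 : Real.exp (3 * (-Real.log (N / 4)) / 2) = (Real.exp (-Real.log (N / 4)) *
        Real.exp (-Real.log (N / 4) / 2)) := by
      rw [← Real.exp_add]; congr 1; ring
    have h9 : Real.exp (-Real.log (N / 4) / 2) ≤ 1 / 5 := by
      have : Real.exp (-Real.log (N / 4) / 2) ^ 2 ≤ (1 / 5) ^ 2 := by
        rw [← Real.exp_nat_mul]
        have e : ((2 : ℕ) : ℝ) * (-Real.log (N / 4) / 2) = -Real.log (N / 4) := by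
          push_cast; ring
        rw [e, Real.exp_neg, Real.exp_log (by positivity)]
        linarith
      exact le_of_sq_le_sq this (by norm_num)
    rw [h8, Real.exp_neg, Real.exp_log (by positivity)]
    have h10 : (N / 4 : ℝ)⁻¹ * Real.exp (-Real.log (N / 4) / 2) ≤ (1 / 25) * (1 / 5) := by
      apply mul_le_mul h7 h9 (Real.exp_pos _).le (by norm_num)
    linarith
  have h6 := norm_sub_norm_le ((kap N hsq : ℂ) * hb (b2 N hsq) N (-(-Real.log (N / 4))))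
    (hb (b1 N hsq) N (-Real.log (N / 4)))
  rw [norm_sub_rev] at h6
  rw [norm_mul, Complex.norm_real, Real.norm_eq_abs, abs_of_pos hκ] at h6
  nlinarith

/-- growth constants -/
lemma growth_all {C : ℝ}
    (hC : ∀ (R : ℕ) (x : ℝ), ‖FF R x‖ ≤ C * Real.sqrt R * (1 + Real.log R) ^ (1 / 4 : ℝ))
    (hsq : Squarefree N) (hodd : Odd N) {ℓ : ℕ} (hp : ℓ.Prime) (hℓ : ℓ ∣ N) (h3 : ℓ % 4 = 3) :
    Growth (b1 N hsq) ((N ^ 2 : ℕ) * C) ∧ Growth (b2 N hsq) ((N ^ 2 : ℕ) * C) ∧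
      ∀ χ : DirichletCharacter ℂ (N ^ 2), Growth (bchi χ) ((N ^ 2 : ℕ) * C) := by
  refine ⟨?_, ?_, fun χ => ?_⟩
  · exact growth_periodic hC (kf N ((y0 N hsq : ZMod (N ^ 2)) ^ 2)) (norm_kf_le _)
  · exact growth_periodic hC (fun x => (kap N hsq : ℂ)⁻¹ *
      kt N ((y0 N hsq : ZMod (N ^ 2)) ^ 2) x) (norm_ktn_le hsq hodd hp hℓ h3)
  · exact growth_periodic hC (fun x => χ x) (DirichletCharacter.norm_le_one χ)

theorem key_ineq {C : ℝ} (hC1 : 1 ≤ C)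
    (hC : ∀ (R : ℕ) (x : ℝ), ‖FF R x‖ ≤ C * Real.sqrt R * (1 + Real.log R) ^ (1 / 4 : ℝ))
    (hsq : Squarefree N) (hodd : Odd N) {ℓ : ℕ} (hp : ℓ.Prime) (hℓ : ℓ ∣ N) (h3 : ℓ % 4 = 3)
    (hsig : sig N ≤ 1 / 40) (hN100 : 100 ≤ N) {T : ℝ} (hT : 0 < T)
    {S₁ : ℝ} (hS0 : 0 < S₁) (hS : 2 ≤ -Real.log (N / 4) + S₁) {m : ℕ} (hm : 0 < m) {n : ℕ}
    (hn : 288 * ((N ^ 2 : ℕ) : ℝ) ^ 2 * (T + 5) ^ 2 ≤ n) :
    ∃ t₁ : ℝ, -Real.log (N / 4) + S₁ ≤ t₁ ∧ t₁ ≤ S₁ * (m : ℝ) ^ n ∧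
      ∀ β : ℝ, 0 ≤ β → (∀ u, t₁ / 2 ≤ u → u ≤ 3 * t₁ / 2 →
        ‖gg (N ^ 2) (b1 N hsq) (b2 N hsq) (kap N hsq) u‖ ≤ β) →
      cphi * (kap N hsq / 40) ≤ cphi * β +
        ((1 + kap N hsq) * 32 + 14 * ((1 + kap N hsq) * (64 * ((N ^ 2 : ℕ) * C))) *
          rho (-Real.log (N / 4))) * (Jmom * T ^ (-(3 / 4) : ℝ)) +
        (N ^ 2 : ℕ) * ((288 * (N ^ 2 : ℕ) * (T + 5) ^ 2) *
          ((256 * MM (N ^ 2) T / c1 (N ^ 2) ((N ^ 2 : ℕ) * C) T ^ 2) * (Real.pi * (2 * Real.pi / m)))) := by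
  have hN : (100 : ℝ) ≤ N := by exact_mod_cast hN100
  obtain ⟨g1, g2, g3⟩ := growth_all hC hsq hodd hp hℓ h3
  have hK : 1 ≤ ((N ^ 2 : ℕ) : ℝ) * C := by
    have : (1 : ℝ) ≤ ((N ^ 2 : ℕ) : ℝ) := by
      push_cast; nlinarith
    nlinarith
  have hlog : 0 ≤ Real.log (N / 4) := Real.log_nonneg (by linarith)
  have ht1 : Real.exp (-Real.log (N / 4) + 1) ≤ Real.sqrt ((N ^ 2 : ℕ) : ℝ) := by
    rw [sqrt_q, Real.exp_add, Real.exp_neg, Real.exp_log (by positivity)]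
    have h1 := Real.exp_one_lt_d9
    have h2 : (N / 4 : ℝ)⁻¹ ≤ 1 := by
      rw [inv_le_one₀ (by positivity)]; linarith
    have h3 : 0 < (N / 4 : ℝ)⁻¹ := by positivity
    have h4 := Real.exp_pos 1
    nlinarith
  have ht2 : Real.exp (-(-Real.log (N / 4)) + 1) ≤ Real.sqrt ((N ^ 2 : ℕ) : ℝ) := by
    rw [sqrt_q, neg_neg, Real.exp_add, Real.exp_log (by positivity)]
    have h1 := Real.exp_one_lt_d9
    nlinarith
  obtain ⟨t₁, h1, h2, h4⟩ := main_ineq (q := N ^ 2)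
    (cc (kf N ((y0 N hsq : ZMod (N ^ 2)) ^ 2)))
    (fun χ h => cc_ne_zero (isUnit_a hsq) h)
    (fun χ => norm_cc_le _ (kf_zero _) (norm_kf_le _) χ)
    (norm_b1_le hsq) (norm_b2_le hsq hodd hp hℓ h3) (kap_pos hsq hodd).le hK
    (b1_eq hsq) (b2_eq hsq hodd) g1 g2 (fun χ _ => g3 χ) hT ht1 ht2 hS0 hS hm hn
  refine ⟨t₁, h1, by linarith, fun β hβ hgb => ?_⟩
  have h5 := h4 β hβ hgb
  refine le_trans ?_ h5
  exact mul_le_mul_of_nonneg_left (gg_ge hsq hodd hp hℓ h3 hsig hN100) cphi_pos.le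

end Pool.Agent.H62
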