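import Mathlib.Analysis.SpecialFunctions.Complex.CircleAddChar
import Mathlib.NumberTheory.LegendreSymbol.Basic
import Mathlib.RingTheory.RootsOfUnity.PrimitiveRoots

/-!
Kloosterman sums modulo `N ^ 2`.
-/

namespace Pool.Agent.H62

open Finset ZMod

lemma geo_sum {q : ℕ} [NeZero q] (n : ℕ) (z : ZMod q) (hz : (n : ZMod q) * z = 0) :
    ∑ t ∈ range n, stdAddChar (t * z : ZMod q) = if z = 0 then (n : ℂ) else 0 := by
  split_ifs with h
  · subst h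
    simp
  · have h1 : ∀ t : ℕ, (stdAddChar (t * z : ZMod q) : ℂ) = stdAddChar z ^ t := by
      intro t
      rw [← AddChar.map_nsmul_eq_pow, nsmul_eq_mul]
    simp_rw [h1]
    have h2 : (stdAddChar z : ℂ) ≠ 1 := by
      intro h3
      apply h
      rw [← (stdAddChar (N := q)).map_zero_eq_one] at h3
      exact injective_stdAddChar h3
    rw [geom_sum_eq h2, ← AddChar.map_nsmul_eq_pow, nsmul_eq_mul, hz, AddChar.map_zero_eq_one]
    simp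

lemma norm_stdAddChar {q : ℕ} [NeZero q] (z : ZMod q) : ‖(stdAddChar z : ℂ)‖ = 1 := by
  rw [stdAddChar_apply]
  exact Circle.norm_coe _

variable {N : ℕ} [NeZero N]

lemma N_sq : ((N : ZMod (N ^ 2)) * (N : ZMod (N ^ 2))) = 0 := by
  rw [← Nat.cast_mul, ← sq]
  exact_mod_cast ZMod.natCast_self (N ^ 2)

/-- the unit `1 + N t` -/
def uu (N t : ℕ) : (ZMod (N ^ 2))ˣ where
  val := 1 + N * t
  inv := 1 - N * t
  val_inv := by
    have h : ((N : ZMod (N ^ 2)) * (N : ZMod (N ^ 2))) = 0 := by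
      rw [← Nat.cast_mul, ← sq]
      exact_mod_cast ZMod.natCast_self (N ^ 2)
    linear_combination (-(t:ZMod (N^2)) * t) * h
  inv_val := by
    have h : ((N : ZMod (N ^ 2)) * (N : ZMod (N ^ 2))) = 0 := by
      rw [← Nat.cast_mul, ← sq]
      exact_mod_cast ZMod.natCast_self (N ^ 2)
    linear_combination (-(t:ZMod (N^2)) * t) * h

/-- Kloosterman sum -/
noncomputable def K1 (N : ℕ) [NeZero N] (c : ZMod (N ^ 2)) : ℂ :=
  ∑ x : (ZMod (N ^ 2))ˣ, stdAddChar ((x : ZMod (N ^ 2)) + c * ((x⁻¹ : (ZMod (N ^ 2))ˣ) : ZMod (N ^ 2)))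

/-- solutions of `x ^ 2 = c` mod `N` -/
noncomputable def Xs (N : ℕ) [NeZero N] (c : ZMod (N ^ 2)) : Finset (ZMod (N ^ 2))ˣ :=
  open Classical in univ.filter (fun x => (N : ZMod (N ^ 2)) * ((x : ZMod (N ^ 2)) ^ 2 - c) = 0)

lemma mem_Xs {c : ZMod (N ^ 2)} {x : (ZMod (N ^ 2))ˣ} :
    x ∈ Xs N c ↔ (N : ZMod (N ^ 2)) * ((x : ZMod (N ^ 2)) ^ 2 - c) = 0 := by
  unfold Xs; simp

theorem K1_eq (c : ZMod (N ^ 2)) :
    K1 N c = ∑ x ∈ Xs N c, stdAddChar ((x : ZMod (N ^ 2)) + c * ((x⁻¹ : (ZMod (N ^ 2))ˣ) : ZMod (N ^ 2))) := by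
  classical
  have hN : (N : ℂ) ≠ 0 := by exact_mod_cast NeZero.ne N
  have h1 : ∀ t : ℕ, K1 N c = ∑ x : (ZMod (N ^ 2))ˣ,
      stdAddChar ((x : ZMod (N ^ 2)) + c * ((x⁻¹ : (ZMod (N ^ 2))ˣ) : ZMod (N ^ 2))) *
        stdAddChar ((t : ZMod (N ^ 2)) * ((N : ZMod (N ^ 2)) *
          ((x : ZMod (N ^ 2)) - c * ((x⁻¹ : (ZMod (N ^ 2))ˣ) : ZMod (N ^ 2))))) := by
    intro t
    unfold K1
    rw [← Equiv.sum_comp (Equiv.mulRight (uu N t))]
    refine Finset.sum_congr rfl (fun x _ => ?_)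
    rw [← AddChar.map_add_eq_mul]
    congr 1
    have e1 : (((Equiv.mulRight (uu N t)) x : (ZMod (N ^ 2))ˣ) : ZMod (N ^ 2)) =
        (x : ZMod (N ^ 2)) * (1 + N * t) := by
      simp [uu]
    have e2 : ((((Equiv.mulRight (uu N t)) x)⁻¹ : (ZMod (N ^ 2))ˣ) : ZMod (N ^ 2)) =
        ((x⁻¹ : (ZMod (N ^ 2))ˣ) : ZMod (N ^ 2)) * (1 - N * t) := by
      simp only [Equiv.coe_mulRight, mul_inv_rev]
      rw [mul_comm, Units.val_mul]
      rfl
    rw [e1, e2]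
    ring
  have h2 : (N : ℂ) * K1 N c = ∑ t ∈ range N, K1 N c := by simp
  have h3 : (N : ℂ) * K1 N c = (N : ℂ) * ∑ x ∈ Xs N c,
      stdAddChar ((x : ZMod (N ^ 2)) + c * ((x⁻¹ : (ZMod (N ^ 2))ˣ) : ZMod (N ^ 2))) := by
    rw [h2, Finset.sum_congr rfl (fun t _ => h1 t), Finset.sum_comm]
    simp_rw [← Finset.mul_sum]
    rw [Finset.mul_sum]
    have h4 : ∀ x : (ZMod (N ^ 2))ˣ, (∑ t ∈ range N, stdAddChar ((t : ZMod (N ^ 2)) *
        ((N : ZMod (N ^ 2)) * ((x : ZMod (N ^ 2)) - c * ((x⁻¹ : (ZMod (N ^ 2))ˣ) : ZMod (N ^ 2))))) : ℂ) =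
        if x ∈ Xs N c then (N : ℂ) else 0 := by
      intro x
      rw [geo_sum N _ (by rw [← mul_assoc, N_sq, zero_mul])]
      congr 1
      rw [mem_Xs, eq_iff_iff]
      have hx : (x : ZMod (N ^ 2)) * ((x⁻¹ : (ZMod (N ^ 2))ˣ) : ZMod (N ^ 2)) = 1 := Units.mul_inv x
      constructor
      · intro h
        linear_combination (x : ZMod (N ^ 2)) * h + N * c * hx
      · intro h
        linear_combination ((x⁻¹ : (ZMod (N ^ 2))ˣ) : ZMod (N ^ 2)) * h - N * x * hx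
    simp_rw [h4]
    rw [← Finset.sum_filter_add_sum_filter_not univ (fun x => x ∈ Xs N c)]
    have h5 : ∑ x ∈ univ.filter (fun x => ¬ x ∈ Xs N c),
        stdAddChar ((x : ZMod (N ^ 2)) + c * ((x⁻¹ : (ZMod (N ^ 2))ˣ) : ZMod (N ^ 2))) *
        (if x ∈ Xs N c then (N : ℂ) else 0) = 0 := by
      apply Finset.sum_eq_zero
      intro x hx
      rw [Finset.mem_filter] at hx
      rw [if_neg hx.2, mul_zero]
    rw [h5, add_zero]
    have h6 : univ.filter (fun x => x ∈ Xs N c) = Xs N c := by ext; simp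
    rw [h6]
    refine Finset.sum_congr rfl (fun x hx => ?_)
    rw [if_pos hx, mul_comm]
  exact mul_left_cancel₀ hN h3

lemma norm_K1_le (c : ZMod (N ^ 2)) : ‖K1 N c‖ ≤ (Xs N c).card := by
  rw [K1_eq]
  refine (norm_sum_le _ _).trans ?_
  simp [norm_stdAddChar]

/-- cardinality of the solution set is maximal for squares of units. -/
lemma card_Xs_le (c : ZMod (N ^ 2)) (y : (ZMod (N ^ 2))ˣ) :
    (Xs N c).card ≤ (Xs N ((y : ZMod (N ^ 2)) ^ 2)).card := by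
  classical
  rcases (Xs N c).eq_empty_or_nonempty with h | ⟨x₁, hx₁⟩
  · rw [h]; simp
  apply Finset.card_le_card_of_injOn (fun x => x * x₁⁻¹ * y)
  · intro x hx
    rw [Finset.mem_coe, mem_Xs] at *
    have h1 : (x₁ : ZMod (N ^ 2)) * ((x₁⁻¹ : (ZMod (N ^ 2))ˣ) : ZMod (N ^ 2)) = 1 := Units.mul_inv x₁
    push_cast
    set X₁ := (x₁ : ZMod (N ^ 2))
    set Y := ((x₁⁻¹ : (ZMod (N ^ 2))ˣ) : ZMod (N ^ 2))
    linear_combination (Y ^ 2 * y ^ 2) * hx - (Y ^ 2 * (y : ZMod (N ^ 2)) ^ 2) * hx₁ +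
      (N : ZMod (N ^ 2)) * y ^ 2 * (X₁ * Y + 1) * h1
  · intro a _ b _ hab
    simpa using hab

/-- reduction mod a prime divisor -/
noncomputable def red {N ℓ : ℕ} (h : ℓ ∣ N ^ 2) : ZMod (N ^ 2) →+* ZMod ℓ := ZMod.castHom h (ZMod ℓ)

lemma red_of_N_mul {N : ℕ} [NeZero N] {ℓ : ℕ} [Fact ℓ.Prime] (hℓ : ℓ ∣ N) {z : ZMod (N ^ 2)}
    (hz : (N : ZMod (N ^ 2)) * z = 0) : red (dvd_pow hℓ (two_ne_zero)) z = 0 := by
  have hN : N ≠ 0 := NeZero.ne N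
  obtain ⟨m, rfl⟩ : ∃ m : ℕ, z = (m : ZMod (N ^ 2)) := ⟨z.val, (ZMod.natCast_zmod_val z).symm⟩
  rw [← Nat.cast_mul, ZMod.natCast_eq_zero_iff, sq] at hz
  have h1 : N ∣ m := Nat.dvd_of_mul_dvd_mul_left (Nat.pos_of_ne_zero hN) hz
  unfold red
  rw [map_natCast, ZMod.natCast_eq_zero_iff]
  exact hℓ.trans h1

/-- at most one of `c`, `-c` is a square mod `N` if `N` has a prime factor `3 mod 4`. -/
lemma Xs_neg {ℓ : ℕ} (hp : ℓ.Prime) (hℓ : ℓ ∣ N) (h3 : ℓ % 4 = 3) {c : ZMod (N ^ 2)}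
    (h1 : (Xs N c).Nonempty) (h2 : (Xs N (-c)).Nonempty) : False := by
  have : Fact ℓ.Prime := ⟨hp⟩
  obtain ⟨x₁, hx₁⟩ := h1
  obtain ⟨x₂, hx₂⟩ := h2
  rw [mem_Xs] at hx₁ hx₂
  have e1 := red_of_N_mul hℓ hx₁
  have e2 := red_of_N_mul hℓ hx₂
  set r := red (dvd_pow hℓ (two_ne_zero))
  rw [map_sub, map_pow, sub_eq_zero] at e1 e2
  rw [map_neg] at e2
  have hu2 : r (x₂ : ZMod (N ^ 2)) ≠ 0 := ((x₂.isUnit).map r).ne_zero
  have hu1 : r (x₁ : ZMod (N ^ 2)) ≠ 0 := ((x₁.isUnit).map r).ne_zero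
  have hsq : IsSquare (-1 : ZMod ℓ) := by
    refine ⟨r (x₂ : ZMod (N ^ 2)) / r (x₁ : ZMod (N ^ 2)), ?_⟩
    rw [div_mul_div_comm, ← sq, ← sq, e1, e2, eq_div_iff (by rw [← e1]; exact pow_ne_zero 2 hu1)]
    ring
  rw [ZMod.exists_sq_eq_neg_one_iff] at hsq
  exact hsq h3

/-- key bound for the difference of the two Kloosterman sums. -/
lemma norm_K1_sub_le {ℓ : ℕ} (hp : ℓ.Prime) (hℓ : ℓ ∣ N) (h3 : ℓ % 4 = 3) (c : ZMod (N ^ 2))
    (y : (ZMod (N ^ 2))ˣ) :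
    ‖K1 N c - K1 N (-c)‖ ≤ (Xs N ((y : ZMod (N ^ 2)) ^ 2)).card := by
  have e1 := card_Xs_le c y
  have e2 := card_Xs_le (-c) y
  have n1 := norm_K1_le c
  have n2 := norm_K1_le (-c)
  rcases (Xs N c).eq_empty_or_nonempty with h | h
  · rw [h] at n1
    have : K1 N c = 0 := by simpa using n1
    rw [this, zero_sub, norm_neg]
    exact n2.trans (by exact_mod_cast e2)
  · rcases (Xs N (-c)).eq_empty_or_nonempty with h' | h'
    · rw [h'] at n2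
      have : K1 N (-c) = 0 := by simpa using n2
      rw [this, sub_zero]
      exact n1.trans (by exact_mod_cast e1)
    · exact (Xs_neg hp hℓ h3 h h').elim

end Pool.Agent.H62
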