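import Mathlib

/-!
Upper bound `‖L(s, chi)‖ ≤ q ‖s‖ / re s` for a nontrivial Dirichlet character and `re s > 0`.
-/

namespace Pool.Agent.H62

open Real Filter Topology MeasureTheory Set DirichletCharacter

variable {q : ℕ} [NeZero q]

lemma sum_range_q {χ : DirichletCharacter ℂ q} (hχ : χ ≠ 1) :
    ∑ k ∈ Finset.range q, χ (k : ZMod q) = 0 := by
  rw [← MulChar.sum_eq_zero_of_ne_one hχ]
  symm
  refine Finset.sum_bij (fun a _ => a.val) ?_ ?_ ?_ ?_
  · intro a _
    exact Finset.mem_range.mpr (ZMod.val_lt a)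
  · intro a _ b _ h
    exact ZMod.val_injective q h
  · intro k hk
    refine ⟨(k : ZMod q), Finset.mem_univ _, ?_⟩
    exact ZMod.val_cast_of_lt (Finset.mem_range.mp hk)
  · intro a _
    rw [ZMod.natCast_zmod_val]

lemma norm_sum_range_le {χ : DirichletCharacter ℂ q} (hχ : χ ≠ 1) (n : ℕ) :
    ‖∑ k ∈ Finset.range n, χ (k : ZMod q)‖ ≤ q := by
  have h1 : ∀ m : ℕ, ∑ k ∈ Finset.range (q * m), χ (k : ZMod q) = 0 := by
    intro m
    induction m with
    | zero => simp
    | succ m ih =>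
      rw [Nat.mul_succ, Finset.sum_range_add, ih, zero_add, ← sum_range_q hχ]
      refine Finset.sum_congr rfl (fun k _ => ?_)
      congr 1
      push_cast
      simp
  have h2 : n = q * (n / q) + n % q := (Nat.div_add_mod n q).symm
  rw [h2, Finset.sum_range_add, h1, zero_add]
  refine (norm_sum_le _ _).trans ?_
  calc ∑ k ∈ Finset.range (n % q), ‖χ ((q * (n / q) + k : ℕ) : ZMod q)‖
      ≤ ∑ k ∈ Finset.range (n % q), (1:ℝ) :=
        Finset.sum_le_sum (fun k _ => norm_le_one χ _)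
    _ = (n % q : ℕ) := by simp
    _ ≤ q := by exact_mod_cast (Nat.mod_lt n (Nat.pos_of_ne_zero (NeZero.ne q))).le

lemma norm_sum_Icc_le {χ : DirichletCharacter ℂ q} (hχ : χ ≠ 1) (hq : q ≠ 1) (n : ℕ) :
    ‖∑ k ∈ Finset.Icc 1 n, χ (k : ZMod q)‖ ≤ q := by
  have : ∑ k ∈ Finset.Icc 1 n, χ (k : ZMod q) = ∑ k ∈ Finset.range (n + 1), χ (k : ZMod q) := by
    rw [Finset.sum_range_eq_add_Ico _ (Nat.succ_pos n)]
    have h0 : χ ((0 : ℕ) : ZMod q) = 0 := by
      rw [Nat.cast_zero]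
      exact χ.map_zero' hq
    rw [h0, zero_add]
    rfl
  rw [this]
  exact norm_sum_range_le hχ _

omit [NeZero q] in
lemma q_ne_one {χ : DirichletCharacter ℂ q} (hχ : χ ≠ 1) : q ≠ 1 := by
  rintro rfl
  exact hχ (level_one χ)

/-- partial sum function, cut at 1 -/
noncomputable def Af (χ : DirichletCharacter ℂ q) (t : ℝ) : ℂ :=
  (Ioi (1:ℝ)).indicator (fun t => ∑ k ∈ Finset.Icc 1 ⌊t⌋₊, χ (k : ZMod q)) t

lemma norm_Af_le {χ : DirichletCharacter ℂ q} (hχ : χ ≠ 1) (t : ℝ) : ‖Af χ t‖ ≤ q := by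
  unfold Af
  by_cases h : t ∈ Ioi (1:ℝ)
  · rw [indicator_of_mem h]
    exact norm_sum_Icc_le hχ (q_ne_one hχ) _
  · rw [indicator_of_notMem h]
    simp

omit [NeZero q] in
lemma measurable_Af (χ : DirichletCharacter ℂ q) : Measurable (Af χ) := by
  unfold Af
  apply Measurable.indicator _ measurableSet_Ioi
  have : (fun t : ℝ => ∑ k ∈ Finset.Icc 1 ⌊t⌋₊, χ (k : ZMod q)) =
      (fun n : ℕ => ∑ k ∈ Finset.Icc 1 n, χ (k : ZMod q)) ∘ (fun t : ℝ => ⌊t⌋₊) := rfl
  rw [this]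
  exact (measurable_from_top).comp Nat.measurable_floor

lemma mellin_Af_diff {χ : DirichletCharacter ℂ q} (hχ : χ ≠ 1) {s : ℂ} (hs : 0 < s.re) :
    DifferentiableAt ℂ (mellin (Af χ)) (-s) := by
  refine mellin_differentiableAt_of_isBigO_rpow (a := 0) (b := -s.re - 1) ?_ ?_ (by simpa) ?_
    (by simp)
  · apply LocallyIntegrable.locallyIntegrableOn
    intro x
    refine ⟨Metric.ball x 1, Metric.ball_mem_nhds x one_pos, ?_⟩
    refine IntegrableOn.of_bound ?_ ((measurable_Af χ).aestronglyMeasurable) q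
      (ae_of_all _ fun t => norm_Af_le hχ t)
    exact measure_ball_lt_top
  · refine Asymptotics.IsBigO.of_bound q ?_
    filter_upwards with t
    simp only [neg_zero, Real.rpow_zero, norm_one, mul_one]
    exact norm_Af_le hχ t
  · refine Asymptotics.IsBigO.of_bound 0 ?_
    have : ∀ᶠ t : ℝ in 𝓝[>] 0, t ∈ Ioo (0:ℝ) 1 := Ioo_mem_nhdsGT one_pos
    filter_upwards [this] with t ht
    unfold Af
    rw [indicator_of_notMem (by simp [ht.2.le])]
    simp

lemma mellin_Af_eq (χ : DirichletCharacter ℂ q) (s : ℂ) :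
    mellin (Af χ) (-s) = ∫ t in Ioi (1 : ℝ),
      (∑ k ∈ Finset.Icc 1 ⌊t⌋₊, χ (k : ZMod q)) * (t : ℂ) ^ (-(s + 1)) := by
  unfold mellin
  have h1 : ∀ t : ℝ, (t : ℂ) ^ (-s - 1) • Af χ t =
      (Ioi (1:ℝ)).indicator (fun t : ℝ => (∑ k ∈ Finset.Icc 1 ⌊t⌋₊, χ (k : ZMod q)) *
        (t : ℂ) ^ (-(s + 1))) t := by
    intro t
    unfold Af
    by_cases h : t ∈ Ioi (1:ℝ)
    · rw [indicator_of_mem h, indicator_of_mem h, smul_eq_mul, mul_comm]
      congr 2
      ring
    · rw [indicator_of_notMem h, indicator_of_notMem h, smul_zero]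
  simp_rw [h1]
  rw [setIntegral_indicator measurableSet_Ioi]
  congr 2
  rw [Ioi_inter_Ioi]
  simp

lemma norm_mellin_Af_le {χ : DirichletCharacter ℂ q} (hχ : χ ≠ 1) {s : ℂ} (hs : 0 < s.re) :
    ‖mellin (Af χ) (-s)‖ ≤ q / s.re := by
  rw [mellin_Af_eq]
  have h1 : IntegrableOn (fun t : ℝ => (q : ℝ) * t ^ (-(s.re + 1))) (Ioi 1) :=
    (integrableOn_Ioi_rpow_of_lt (by linarith) one_pos).const_mul _
  refine (norm_integral_le_of_norm_le h1 ?_).trans (le_of_eq ?_)
  · filter_upwards [ae_restrict_mem measurableSet_Ioi] with t ht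
    have ht0 : (0:ℝ) < t := lt_trans one_pos ht
    rw [norm_mul, Complex.norm_cpow_eq_rpow_re_of_pos ht0]
    have : (-(s + 1)).re = -(s.re + 1) := by simp
    rw [this]
    gcongr
    exact norm_sum_Icc_le hχ (q_ne_one hχ) _
  · rw [integral_const_mul, integral_Ioi_rpow_of_lt (by linarith) one_pos]
    simp
    ring

lemma LFunction_eq_mellin {χ : DirichletCharacter ℂ q} (hχ : χ ≠ 1) {s : ℂ} (hs : 0 < s.re) :
    LFunction χ s = s * mellin (Af χ) (-s) := by
  set U : Set ℂ := {s : ℂ | 0 < s.re} with hU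
  have hUo : IsOpen U := isOpen_lt continuous_const Complex.continuous_re
  have hUc : IsPreconnected U := (convex_halfSpace_re_gt _).isPreconnected
  have hfa : AnalyticOnNhd ℂ (LFunction χ) U :=
    (differentiable_LFunction hχ).differentiableOn.analyticOnNhd hUo
  have hga : AnalyticOnNhd ℂ (fun s : ℂ => s * mellin (Af χ) (-s)) U := by
    apply DifferentiableOn.analyticOnNhd _ hUo
    intro s hs
    apply DifferentiableAt.differentiableWithinAt
    refine differentiableAt_id.mul ?_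
    exact DifferentiableAt.comp (g := mellin (Af χ)) s (mellin_Af_diff hχ hs)
      differentiable_neg.differentiableAt
  have hnear : LFunction χ =ᶠ[𝓝 (2 : ℂ)] (fun s : ℂ => s * mellin (Af χ) (-s)) := by
    have hV : IsOpen {s : ℂ | 1 < s.re} := isOpen_lt continuous_const Complex.continuous_re
    filter_upwards [hV.mem_nhds (show (2:ℂ) ∈ {s : ℂ | 1 < s.re} by simp)] with s hs
    have hs1 : 1 < s.re := hs
    rw [LFunction_eq_LSeries χ hs1, mellin_Af_eq]
    refine LSeries_eq_mul_integral (fun n : ℕ => χ (n : ZMod q)) (r := 0) le_rfl (by linarith)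
      (LSeriesSummable_of_one_lt_re χ hs1) ?_
    refine Asymptotics.IsBigO.of_bound q ?_
    filter_upwards with n
    simp only [Real.rpow_zero, norm_one, mul_one]
    exact norm_sum_Icc_le hχ (q_ne_one hχ) n
  exact hfa.eqOn_of_preconnected_of_eventuallyEq hga hUc (show (2:ℂ) ∈ U by simp [hU]) hnear hs

theorem norm_LFunction_le {χ : DirichletCharacter ℂ q} (hχ : χ ≠ 1) {s : ℂ} (hs : 0 < s.re) :
    ‖LFunction χ s‖ ≤ ‖s‖ * (q / s.re) := by
  rw [LFunction_eq_mellin hχ hs, norm_mul]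
  gcongr
  exact norm_mellin_Af_le hχ hs

/-- lower bound at `re s = 2` -/
theorem norm_LFunction_two_ge (χ : DirichletCharacter ℂ q) {s : ℂ} (hs : s.re = 2) :
    1 / 3 ≤ ‖LFunction χ s‖ := by
  have h1 : 1 < s.re := by rw [hs]; norm_num
  rw [LFunction_eq_LSeries χ h1]
  have hsum := LSeriesSummable_of_one_lt_re χ h1
  have h2 : LSeries (fun n : ℕ => χ (n : ZMod q)) s =
      1 + ∑' n : ℕ, LSeries.term (fun n : ℕ => χ (n : ZMod q)) s (n + 2) := by
    unfold LSeries
    have h3 : Summable (fun n : ℕ => LSeries.term (fun n : ℕ => χ (n : ZMod q)) s n) := hsum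
    rw [← h3.sum_add_tsum_nat_add 2]
    congr 1
    rw [Finset.sum_range_succ, Finset.sum_range_one, LSeries.term_zero,
      LSeries.term_of_ne_zero one_ne_zero]
    simp
  have h4 : Summable (fun n : ℕ => 1 / ((n + 2 : ℕ) : ℝ) ^ 2) := by
    have := (summable_nat_add_iff (f := fun n : ℕ => 1 / (n : ℝ) ^ 2) 2).mpr
      (Real.summable_one_div_nat_pow.mpr (by norm_num))
    exact this
  have h5 : ‖∑' n : ℕ, LSeries.term (fun n : ℕ => χ (n : ZMod q)) s (n + 2)‖ ≤
      ∑' n : ℕ, 1 / ((n + 2 : ℕ) : ℝ) ^ 2 := by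
    refine tsum_of_norm_bounded h4.hasSum (fun n => ?_)
    rw [LSeries.term_of_ne_zero (by omega), norm_div, Complex.norm_natCast_cpow_of_pos (by omega), hs]
    rw [show (2:ℝ) = ((2:ℕ):ℝ) by norm_num, Real.rpow_natCast]
    gcongr
    exact norm_le_one χ _
  have h6 : ∑' n : ℕ, 1 / ((n + 2 : ℕ) : ℝ) ^ 2 = π ^ 2 / 6 - 1 := by
    have h7 := hasSum_zeta_two.summable.sum_add_tsum_nat_add 2
    rw [hasSum_zeta_two.tsum_eq, Finset.sum_range_succ, Finset.sum_range_one] at h7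
    norm_num at h7
    push_cast
    push_cast at h7
    norm_num
    linarith
  have hpi : π < 3.1416 := Real.pi_lt_d4
  have hpi0 := Real.pi_pos
  have h8 : π ^ 2 / 6 - 1 ≤ 2 / 3 := by nlinarith
  rw [h2]
  have h9 := norm_sub_le_norm_add (1:ℂ)
    (∑' n : ℕ, LSeries.term (fun n : ℕ => χ (n : ZMod q)) s (n + 2))
  rw [norm_one] at h9
  rw [h6] at h5
  linarith

end Pool.Agent.H62
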