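import Pool.Agent.H62.Sieve
import Mathlib.RingTheory.Polynomial.Cyclotomic.Roots
import Mathlib.RingTheory.RootsOfUnity.Complex
import Mathlib.NumberTheory.SumPrimeReciprocals

/-!
The sup norm of the Moebius exponential sum is controlled by a short arc around 1/4.
-/

namespace Pool.Agent.H62

open Finset ArithmeticFunction

/-- exponential -/
noncomputable def ee (m : ℕ) (x : ℝ) : ℂ := Complex.exp (2 * Real.pi * Complex.I * m * x)

lemma ee_add (m : ℕ) (x y : ℝ) : ee m (x + y) = ee m x * ee m y := by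
  unfold ee
  rw [← Complex.exp_add]
  congr 1
  push_cast; ring

lemma AA_def (D n : ℕ) (x : ℝ) : AA D n x = ∑ m ∈ Finset.Icc 1 n, if m.Coprime D then
    ((moebius m : ℤ) : ℂ) * ee m x else 0 := rfl

lemma FF_def (n : ℕ) (x : ℝ) : FF n x = ∑ m ∈ Finset.Icc 1 n, ((moebius m : ℤ) : ℂ) * ee m x := rfl

lemma ee_int (m : ℕ) (k : ℤ) : ee m k = 1 := by
  unfold ee
  rw [Complex.exp_eq_one_iff]
  exact ⟨m * k, by push_cast; ring⟩

lemma ee_half {m : ℕ} (hm : m.Coprime 2) : ee m (1 / 2) = -1 := by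
  have h : m % 2 = 1 := by
    rcases Nat.mod_two_eq_zero_or_one m with h | h
    · exfalso
      have : 2 ∣ m := Nat.dvd_of_mod_eq_zero h
      have := Nat.Coprime.eq_one_of_dvd hm.symm this
      omega
    · exact h
  obtain ⟨k, hk⟩ : ∃ k, m = 2 * k + 1 := ⟨m / 2, by omega⟩
  unfold ee
  rw [hk]
  have : 2 * (Real.pi : ℂ) * Complex.I * ((2 * k + 1 : ℕ) : ℂ) * ((1 / 2 : ℝ) : ℂ) =
      Real.pi * Complex.I + ((k : ℤ) : ℂ) * (2 * Real.pi * Complex.I) := by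
    push_cast; ring
  rw [this, Complex.exp_add, Complex.exp_pi_mul_I, Complex.exp_int_mul_two_pi_mul_I, mul_one]

lemma ee_six {m : ℕ} (hm : m.Coprime 6) : ee m (1 / 6) + ee m (-(1 / 6)) = 1 := by
  have h2 : ¬ 2 ∣ m := by
    intro h
    have := Nat.Coprime.eq_one_of_dvd (Nat.Coprime.coprime_dvd_left h hm) (by norm_num)
    omega
  have h3 : ¬ 3 ∣ m := by
    intro h
    have := Nat.Coprime.eq_one_of_dvd (Nat.Coprime.coprime_dvd_left h hm) (by norm_num)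
    omega
  have hc : ∀ θ : ℝ, Complex.exp (θ * Complex.I) + Complex.exp (-(θ * Complex.I)) =
      ((2 * Real.cos θ : ℝ) : ℂ) := by
    intro θ
    have := Complex.two_cos (θ : ℂ)
    rw [← neg_mul]
    push_cast
    rw [this]
  have h1 : m % 6 = 1 ∨ m % 6 = 5 := by omega
  rcases h1 with h | h
  · obtain ⟨k, hk⟩ : ∃ k, m = 6 * k + 1 := ⟨m / 6, by omega⟩
    unfold ee
    rw [hk]
    have e1 : 2 * (Real.pi : ℂ) * Complex.I * ((6 * k + 1 : ℕ) : ℂ) * ((1 / 6 : ℝ) : ℂ) =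
        ((Real.pi / 3 : ℝ) : ℂ) * Complex.I + ((k : ℤ) : ℂ) * (2 * Real.pi * Complex.I) := by
      push_cast; ring
    have e2 : 2 * (Real.pi : ℂ) * Complex.I * ((6 * k + 1 : ℕ) : ℂ) * ((-(1 / 6) : ℝ) : ℂ) =
        -(((Real.pi / 3 : ℝ) : ℂ) * Complex.I) + ((-k : ℤ) : ℂ) * (2 * Real.pi * Complex.I) := by
      push_cast; ring
    rw [e1, e2, Complex.exp_add, Complex.exp_add, Complex.exp_int_mul_two_pi_mul_I,
      Complex.exp_int_mul_two_pi_mul_I, mul_one, mul_one, hc, Real.cos_pi_div_three]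
    norm_num
  · obtain ⟨k, hk⟩ : ∃ k, m = 6 * k + 5 := ⟨m / 6, by omega⟩
    unfold ee
    rw [hk]
    have e1 : 2 * (Real.pi : ℂ) * Complex.I * ((6 * k + 5 : ℕ) : ℂ) * ((1 / 6 : ℝ) : ℂ) =
        -(((Real.pi / 3 : ℝ) : ℂ) * Complex.I) + ((k + 1 : ℤ) : ℂ) * (2 * Real.pi * Complex.I) := by
      push_cast; ring
    have e2 : 2 * (Real.pi : ℂ) * Complex.I * ((6 * k + 5 : ℕ) : ℂ) * ((-(1 / 6) : ℝ) : ℂ) =
        (((Real.pi / 3 : ℝ) : ℂ) * Complex.I) + ((-(k + 1) : ℤ) : ℂ) * (2 * Real.pi * Complex.I) := by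
      push_cast; ring
    rw [e1, e2, Complex.exp_add, Complex.exp_add, Complex.exp_int_mul_two_pi_mul_I,
      Complex.exp_int_mul_two_pi_mul_I, mul_one, mul_one, add_comm, hc, Real.cos_pi_div_three]
    norm_num

lemma AA_add_int (D n : ℕ) (x : ℝ) (k : ℤ) : AA D n (x + k) = AA D n x := by
  rw [AA_def, AA_def]
  refine Finset.sum_congr rfl (fun m _ => ?_)
  rw [ee_add, ee_int, mul_one]

lemma FF_add_int (n : ℕ) (x : ℝ) (k : ℤ) : FF n (x + k) = FF n x := by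
  rw [FF_def, FF_def]
  refine Finset.sum_congr rfl (fun m _ => ?_)
  rw [ee_add, ee_int, mul_one]

lemma ee_neg (m : ℕ) (x : ℝ) : ee m (-x) = (starRingEnd ℂ) (ee m x) := by
  unfold ee
  rw [← Complex.exp_conj]
  congr 1
  rw [map_mul, map_mul, map_mul, map_mul, Complex.conj_I, Complex.conj_ofReal,
    Complex.conj_ofReal, Complex.conj_natCast, map_ofNat]
  push_cast; ring

lemma norm_AA_neg (D n : ℕ) (x : ℝ) : ‖AA D n (-x)‖ = ‖AA D n x‖ := by
  have : AA D n (-x) = (starRingEnd ℂ) (AA D n x) := by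
    rw [AA_def, AA_def, map_sum]
    refine Finset.sum_congr rfl (fun m _ => ?_)
    split_ifs
    · rw [map_mul, ee_neg]
      simp
    · simp
  rw [this, RCLike.norm_conj]

lemma norm_FF_neg (n : ℕ) (x : ℝ) : ‖FF n (-x)‖ = ‖FF n x‖ := by
  rw [← AA_one, ← AA_one, norm_AA_neg]

lemma coprime_two_of_six {m : ℕ} (h : m.Coprime 6) : m.Coprime 2 :=
  Nat.Coprime.coprime_dvd_right (by norm_num) h

lemma AA_two_half (n : ℕ) (x : ℝ) : AA 2 n (x + 1 / 2) = -AA 2 n x := by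
  rw [AA_def, AA_def, ← Finset.sum_neg_distrib]
  refine Finset.sum_congr rfl (fun m _ => ?_)
  by_cases h : m.Coprime 2
  · rw [if_pos h, if_pos h, ee_add, ee_half h]; ring
  · rw [if_neg h, if_neg h, neg_zero]

lemma AA_six_half (n : ℕ) (x : ℝ) : AA 6 n (x + 1 / 2) = -AA 6 n x := by
  rw [AA_def, AA_def, ← Finset.sum_neg_distrib]
  refine Finset.sum_congr rfl (fun m _ => ?_)
  by_cases h : m.Coprime 6
  · rw [if_pos h, if_pos h, ee_add, ee_half (coprime_two_of_six h)]; ring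
  · rw [if_neg h, if_neg h, neg_zero]

lemma AA_six_rec (n : ℕ) (x : ℝ) : AA 6 n x = AA 6 n (x + 1 / 6) + AA 6 n (x + -(1 / 6)) := by
  rw [AA_def, AA_def, AA_def, ← Finset.sum_add_distrib]
  refine Finset.sum_congr rfl (fun m _ => ?_)
  by_cases h : m.Coprime 6
  · rw [if_pos h, if_pos h, if_pos h, ee_add, ee_add]
    linear_combination (-((moebius m : ℤ) : ℂ) * ee m x) * ee_six h
  · rw [if_neg h, if_neg h, if_neg h, add_zero]

lemma AA_two_eq (n : ℕ) (x : ℝ) : AA 2 n x = FF n x + AA 2 (n / 2) (2 * x) := by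
  have h := AA_split (D := 1) Nat.prime_two (by norm_num) n x
  rw [one_mul, AA_one] at h
  exact_mod_cast h

lemma AA_six_eq (n : ℕ) (x : ℝ) : AA 6 n x = AA 2 n x + AA 6 (n / 3) (3 * x) := by
  have h := AA_split (D := 2) Nat.prime_three (by norm_num) n x
  norm_num at h
  exact h

lemma start_two (n : ℕ) (w : ℝ) :
    2 * AA 2 n (2 * w) = -(FF (2 * n) w + FF (2 * n) (w + 1 / 2)) := by
  have h1 := AA_two_eq (2 * n) w
  have h2 := AA_two_eq (2 * n) (w + 1 / 2)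
  rw [AA_two_half] at h2
  have h3 : 2 * n / 2 = n := by omega
  rw [h3] at h1 h2
  have h4 : 2 * (w + 1 / 2) = 2 * w + ((1 : ℤ) : ℝ) := by push_cast; ring
  rw [h4, AA_add_int] at h2
  linear_combination -h1 - h2

lemma start_three (n : ℕ) (x : ℝ) :
    3 * AA 6 n (3 * x) = -(AA 2 (3 * n) x - AA 2 (3 * n) (x + -(1 / 6)) -
      AA 2 (3 * n) (x + 1 / 6)) := by
  have h1 := AA_six_eq (3 * n) x
  have h2 := AA_six_eq (3 * n) (x + 1 / 6)
  have h3 := AA_six_eq (3 * n) (x + -(1 / 6))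
  have h0 := AA_six_rec (3 * n) x
  have h4 : 3 * n / 3 = n := by omega
  rw [h4] at h1 h2 h3
  have h5 : 3 * (x + 1 / 6) = 3 * x + 1 / 2 := by ring
  have h6 : 3 * (x + -(1 / 6)) = (3 * x + 1 / 2) + ((-1 : ℤ) : ℝ) := by push_cast; ring
  rw [h5, AA_six_half] at h2
  rw [h6, AA_add_int, AA_six_half] at h3
  linear_combination -h1 + h2 + h3 + h0

/-- hypothesis on the arc -/
def ArcBd (δ M : ℝ) (L : ℕ) : Prop :=
  ∀ R : ℕ, R ≤ L → ∀ y ∈ Set.Icc (1 / 4 - δ) (1 / 4 + δ), ‖FF R y‖ ≤ M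

variable {δ M : ℝ} {L : ℕ}

lemma bd_A_zero (h : ArcBd δ M L) {n : ℕ} (hn : 2 * n ≤ L) {x : ℝ} (hx : |x| ≤ 2 * δ) :
    ‖AA 2 n x‖ ≤ M := by
  have hx' := abs_le.mp hx
  have h1 := start_two n (1 / 4 + x / 2)
  have e1 : 2 * (1 / 4 + x / 2) = x + 1 / 2 := by ring
  rw [e1, AA_two_half] at h1
  have h2 := h (2 * n) hn (1 / 4 + x / 2) ⟨by linarith, by linarith⟩
  have h3 := h (2 * n) hn (1 / 4 - x / 2) ⟨by linarith, by linarith⟩
  have e2 : FF (2 * n) (1 / 4 + x / 2 + 1 / 2) = FF (2 * n) (-(1 / 4 - x / 2)) := by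
    rw [← FF_add_int (2 * n) (-(1 / 4 - x / 2)) 1]
    congr 1
    push_cast; ring
  have h4 : ‖FF (2 * n) (1 / 4 + x / 2 + 1 / 2)‖ ≤ M := by
    rw [e2, norm_FF_neg]; exact h3
  have h5 : 2 * AA 2 n x = FF (2 * n) (1 / 4 + x / 2) + FF (2 * n) (1 / 4 + x / 2 + 1 / 2) := by
    linear_combination -h1
  have h6 : ‖2 * AA 2 n x‖ ≤ M + M := by
    rw [h5]
    exact (norm_add_le _ _).trans (add_le_add h2 h4)
  rw [norm_mul, Complex.norm_ofNat] at h6
  linarith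

lemma bd_A_quarter (h : ArcBd δ M L) {n : ℕ} (hn : n ≤ L) {x : ℝ} (hx : |x| ≤ δ) :
    ‖AA 2 n (1 / 4 + x)‖ ≤ 2 * M := by
  have hx' := abs_le.mp hx
  rw [AA_two_eq]
  have h1 := h n hn (1 / 4 + x) ⟨by linarith, by linarith⟩
  have e1 : 2 * (1 / 4 + x) = 2 * x + 1 / 2 := by ring
  have h2 : ‖AA 2 (n / 2) (2 * (1 / 4 + x))‖ ≤ M := by
    rw [e1, AA_two_half, norm_neg]
    apply bd_A_zero h (by omega)
    rw [abs_mul]; norm_num; linarith
  refine (norm_add_le _ _).trans ?_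
  linarith

lemma bd_B_start (h : ArcBd δ M L) (hδ : δ ≤ 1 / 12) {n : ℕ} (hn : 6 * n ≤ L) {u : ℝ}
    (hu : |u| ≤ 2 * δ - 1 / 12) : ‖AA 6 n (1 / 4 + 3 * u)‖ ≤ 2 * M := by
  have hu' := abs_le.mp hu
  have h1 := start_three n (1 / 12 + u)
  have e1 : 3 * (1 / 12 + u) = 1 / 4 + 3 * u := by ring
  rw [e1] at h1
  have h2 : ‖AA 2 (3 * n) (1 / 12 + u)‖ ≤ M := by
    apply bd_A_zero h (by omega)
    rw [abs_le]; constructor <;> linarith
  have h3 : ‖AA 2 (3 * n) (1 / 12 + u + -(1 / 6))‖ ≤ M := by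
    apply bd_A_zero h (by omega)
    rw [abs_le]; constructor <;> linarith
  have h4 : ‖AA 2 (3 * n) (1 / 12 + u + 1 / 6)‖ ≤ 2 * M := by
    have : 1 / 12 + u + 1 / 6 = 1 / 4 + u := by ring
    rw [this]
    apply bd_A_quarter h (by omega)
    rw [abs_le]; constructor <;> linarith
  have h5 : ‖3 * AA 6 n (1 / 4 + 3 * u)‖ ≤ 4 * M := by
    rw [h1, norm_neg]
    refine (norm_sub_le _ _).trans ?_
    have := norm_sub_le (AA 2 (3 * n) (1 / 12 + u)) (AA 2 (3 * n) (1 / 12 + u + -(1 / 6)))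
    linarith
  rw [norm_mul, Complex.norm_ofNat] at h5
  have hM : 0 ≤ M := (norm_nonneg _).trans h2
  linarith

lemma bd_B_grow (h : ArcBd δ M L) {n : ℕ} (hn : 3 * n ≤ L) {K : ℝ} {v : ℝ} (hv : |v| ≤ δ)
    (hK : ‖AA 6 (3 * n) (1 / 4 + v)‖ ≤ K) : ‖AA 6 n (1 / 4 + 3 * v)‖ ≤ K + 2 * M := by
  have h1 := AA_six_eq (3 * n) (1 / 4 + v)
  have h4 : 3 * n / 3 = n := by omega
  have e1 : 3 * (1 / 4 + v) = 1 / 4 + 3 * v + 1 / 2 := by ring
  rw [h4, e1, AA_six_half] at h1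
  have h2 := bd_A_quarter h hn hv
  have h3 : AA 6 n (1 / 4 + 3 * v) = AA 2 (3 * n) (1 / 4 + v) - AA 6 (3 * n) (1 / 4 + v) := by
    linear_combination h1
  rw [h3]
  refine (norm_sub_le _ _).trans ?_
  linarith

lemma bd_B_iter (h : ArcBd δ M L) (hδ : δ ≤ 1 / 12) {ε : ℝ} (hε : ε = 2 * δ - 1 / 12) (k : ℕ) :
    ∀ n : ℕ, 6 * 3 ^ k * n ≤ L → ∀ v : ℝ, |v| ≤ 3 ^ (k + 1) * ε → |v| ≤ 3 * δ →
      ‖AA 6 n (1 / 4 + v)‖ ≤ 2 * M * (k + 1) := by
  induction k with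
  | zero =>
    intro n hn v hv _
    have h1 := bd_B_start h hδ (n := n) (u := v / 3) (by simpa using hn)
      (by rw [abs_div, ← hε]; norm_num at hv ⊢; linarith)
    rw [mul_div_cancel₀ v (by norm_num : (3:ℝ) ≠ 0)] at h1
    simpa using h1
  | succ k ih =>
    intro n hn v hv hv2
    have hv3 : |v / 3| ≤ δ := by rw [abs_div]; norm_num; linarith
    have h1 := ih (3 * n) (by rw [pow_succ] at hn; linarith) (v / 3)
      (by rw [abs_div]; norm_num; rw [div_le_iff₀ (by norm_num)]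
          calc |v| ≤ 3 ^ (k + 1 + 1) * ε := hv
            _ = _ := by ring)
      (by linarith [abs_nonneg (v / 3)])
    have h2 := bd_B_grow h (n := n) (by
      have : 3 * n ≤ 6 * 3 ^ (k + 1) * n := by
        have : 1 ≤ 3 ^ (k + 1) := Nat.one_le_pow _ _ (by norm_num)
        nlinarith
      omega) hv3 h1
    rw [mul_div_cancel₀ v (by norm_num : (3:ℝ) ≠ 0)] at h2
    push_cast
    linarith

theorem arc_bound (h : ArcBd δ M L) (hδ : δ ≤ 1 / 12) (hδ1 : 1 / 24 < δ) (hM : 0 ≤ M) {k : ℕ}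
    (hk : 3 * δ ≤ 3 ^ (k + 1) * (2 * δ - 1 / 12)) {n : ℕ} (hn : 18 * 3 ^ k * n ≤ L) (x : ℝ) :
    ‖FF n x‖ ≤ 4 * (M * (4 * k + 5)) := by
  have h3k : 1 ≤ 3 ^ k := Nat.one_le_pow _ _ (by norm_num)
  -- near 1/4
  have hq : ∀ m : ℕ, 6 * 3 ^ k * m ≤ L → ∀ v : ℝ, |v| ≤ 3 * δ →
      ‖AA 6 m (1 / 4 + v)‖ ≤ 2 * M * (k + 1) := by
    intro m hm v hv
    exact bd_B_iter h hδ rfl k m hm v (hv.trans hk) hv
  -- near 0
  have hz : ∀ m : ℕ, 6 * 3 ^ k * m ≤ L → ∀ y : ℝ, |y| ≤ 1 / 24 →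
      ‖AA 6 m y‖ ≤ 2 * (2 * M * (k + 1)) := by
    intro m hm y hy
    have hy' := abs_le.mp hy
    rw [AA_six_rec]
    have h1 := hq m hm (y - 1 / 12) (by rw [abs_le]; constructor <;> linarith)
    have h2 := hq m hm (-y - 1 / 12) (by rw [abs_le]; constructor <;> linarith)
    have e1 : 1 / 4 + (y - 1 / 12) = y + 1 / 6 := by ring
    have e2 : 1 / 4 + (-y - 1 / 12) = -(y + -(1 / 6)) := by ring
    rw [e1] at h1
    rw [e2, norm_AA_neg] at h2
    refine (norm_add_le _ _).trans ?_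
    linarith
  -- up to 1/8
  have he : ∀ m : ℕ, 18 * 3 ^ k * m ≤ L → ∀ z : ℝ, |z| ≤ 1 / 8 →
      ‖AA 6 m z‖ ≤ M * (4 * k + 5) := by
    intro m hm z hz'
    have hy : |z / 3| ≤ 1 / 24 := by rw [abs_div]; norm_num; linarith
    have h1 := hz (3 * m) (by linarith) (z / 3) hy
    have h2 := bd_A_zero h (n := 3 * m) (x := z / 3) (by nlinarith) (by linarith)
    have h3 := AA_six_eq (3 * m) (z / 3)
    have h4 : 3 * m / 3 = m := by omega
    rw [h4, mul_div_cancel₀ z (by norm_num : (3:ℝ) ≠ 0)] at h3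
    have h5 : AA 6 m z = AA 6 (3 * m) (z / 3) - AA 2 (3 * m) (z / 3) := by linear_combination -h3
    rw [h5]
    refine (norm_sub_le _ _).trans ?_
    linarith
  -- everywhere
  have hall : ∀ m : ℕ, 18 * 3 ^ k * m ≤ L → ∀ z : ℝ, ‖AA 6 m z‖ ≤ M * (4 * k + 5) := by
    intro m hm
    have hquart : ∀ v : ℝ, |v| ≤ 1 / 8 → ‖AA 6 m (1 / 4 + v)‖ ≤ M * (4 * k + 5) := by
      intro v hv
      have := hq m (by nlinarith) v (by linarith)
      have hk0 : (0 : ℝ) ≤ k := by positivity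
      nlinarith
    have hhalf : ∀ z : ℝ, ‖AA 6 m (z + 1 / 2)‖ = ‖AA 6 m z‖ := by
      intro z; rw [AA_six_half, norm_neg]
    have h01 : ∀ z : ℝ, 0 ≤ z → z ≤ 1 / 2 → ‖AA 6 m z‖ ≤ M * (4 * k + 5) := by
      intro z h0 h1
      by_cases h2 : z ≤ 1 / 8
      · exact he m hm z (by rw [abs_le]; constructor <;> linarith)
      by_cases h3 : z ≤ 3 / 8
      · have := hquart (z - 1 / 4) (by rw [abs_le]; constructor <;> linarith)
        rw [add_sub_cancel] at this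
        exact this
      · have h4 := he m hm (z - 1 / 2) (by rw [abs_le]; constructor <;> linarith)
        rw [← hhalf (z - 1 / 2)] at h4
        rw [sub_add_cancel] at h4
        exact h4
    intro z
    have hfr : AA 6 m z = AA 6 m (Int.fract z) := by
      rw [← AA_add_int 6 m (Int.fract z) ⌊z⌋, Int.fract_add_floor]
    rw [hfr]
    have hf0 := Int.fract_nonneg z
    have hf1 := Int.fract_lt_one z
    by_cases h2 : Int.fract z ≤ 1 / 2
    · exact h01 _ hf0 h2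
    · push Not at h2
      have h3 := h01 (Int.fract z - 1 / 2) (by linarith) (by linarith)
      rw [← hhalf, sub_add_cancel] at h3
      exact h3
  have hA2 : ∀ m : ℕ, 18 * 3 ^ k * m ≤ L → ∀ z : ℝ, ‖AA 2 m z‖ ≤ 2 * (M * (4 * k + 5)) := by
    intro m hm z
    have h1 := AA_six_eq m z
    have h5 : AA 2 m z = AA 6 m z - AA 6 (m / 3) (3 * z) := by linear_combination -h1
    rw [h5]
    refine (norm_sub_le _ _).trans ?_
    have h2 := hall m hm z
    have h3 := hall (m / 3) (by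
      have : m / 3 ≤ m := Nat.div_le_self _ _
      exact (Nat.mul_le_mul_left _ this).trans hm) (3 * z)
    linarith
  have h1 := AA_two_eq n x
  have h5 : FF n x = AA 2 n x - AA 2 (n / 2) (2 * x) := by linear_combination -h1
  rw [h5]
  refine (norm_sub_le _ _).trans ?_
  have h2 := hA2 n hn x
  have h3 := hA2 (n / 2) (by
    have : n / 2 ≤ n := Nat.div_le_self _ _
    exact (Nat.mul_le_mul_left _ this).trans hn) (2 * x)
  linarith

end Pool.Agent.H62
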