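import Pool.Agent.H62.Upper

/-!
Choice of the parameters.
-/

namespace Pool.Agent.H62

open Finset ArithmeticFunction

variable {N : ℕ} [NeZero N]

lemma rho_le_N (hN : (100 : ℝ) ≤ N) : rho (-Real.log (N / 4)) ≤ N := by
  have hlog : 0 ≤ Real.log (N / 4) := Real.log_nonneg (by linarith)
  have hlog2 : Real.log (N / 4) ≤ N / 4 - 1 := Real.log_le_sub_one_of_pos (by positivity)
  unfold rho
  rw [abs_neg, abs_of_nonneg hlog]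
  calc (1 + 2 * Real.log (N / 4)) ^ (1 / 4 : ℝ) ≤ (1 + 2 * Real.log (N / 4)) ^ (1 : ℝ) :=
        Real.rpow_le_rpow_of_exponent_le (by linarith) (by norm_num)
    _ = 1 + 2 * Real.log (N / 4) := Real.rpow_one _
    _ ≤ N := by linarith

omit [NeZero N] in
lemma err1 {C κ J c : ℝ} (hN : (100 : ℝ) ≤ N) (hC0 : 0 ≤ C) (hC : C ≤ N) (hκ0 : 0 ≤ κ)
    (hκ : κ ≤ N / 2) (hJ : 0 ≤ J) (hc : 0 < c) (hNJ : 2000 * J / c ≤ N) {r : ℝ} (hr0 : 0 ≤ r)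
    (hr : r ≤ N) :
    ((1 + κ) * 32 + 14 * ((1 + κ) * (64 * ((N ^ 2 : ℕ) * C))) * r) *
      (J * ((N : ℝ) ^ 8) ^ (-(3 / 4) : ℝ)) ≤ c / 2 := by
  have hN0 : (0 : ℝ) < N := by linarith
  have h1 : ((N : ℝ) ^ 8) ^ (-(3 / 4) : ℝ) = ((N : ℝ) ^ 6)⁻¹ := by
    rw [← Real.rpow_natCast, ← Real.rpow_mul hN0.le, ← Real.rpow_natCast, ← Real.rpow_neg hN0.le]
    norm_num
  rw [h1]
  have h2 : 1 + κ ≤ N := by linarith
  push_cast
  have h3 : ((1 + κ) * 32 + 14 * ((1 + κ) * (64 * ((N : ℝ) ^ 2 * C))) * r) ≤ 928 * (N : ℝ) ^ 5 := by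
    have e1 : (1 + κ) * 32 ≤ N * 32 := by gcongr
    have e2 : 14 * ((1 + κ) * (64 * ((N : ℝ) ^ 2 * C))) * r ≤
        14 * (N * (64 * ((N : ℝ) ^ 2 * N))) * N := by gcongr
    have e3 : (N : ℝ) * 32 ≤ 32 * (N : ℝ) ^ 5 := by
      have : (1 : ℝ) ≤ (N : ℝ) ^ 4 := one_le_pow₀ (by linarith)
      calc (N : ℝ) * 32 = 32 * (N * 1) := by ring
        _ ≤ 32 * (N * (N : ℝ) ^ 4) := by gcongr
        _ = _ := by ring
    calc _ ≤ N * 32 + 14 * (N * (64 * ((N : ℝ) ^ 2 * N))) * N := add_le_add e1 e2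
      _ ≤ 32 * (N : ℝ) ^ 5 + 896 * (N : ℝ) ^ 5 := by
          apply add_le_add e3 (le_of_eq _); ring
      _ = _ := by ring
  have h4 : J ≤ N * c / 2000 := by
    rw [div_le_iff₀ hc] at hNJ
    linarith
  calc ((1 + κ) * 32 + 14 * ((1 + κ) * (64 * ((N : ℝ) ^ 2 * C))) * r) * (J * ((N : ℝ) ^ 6)⁻¹)
      ≤ (928 * (N : ℝ) ^ 5) * ((N * c / 2000) * ((N : ℝ) ^ 6)⁻¹) := by gcongr
    _ = 928 / 2000 * c := by field_simp
    _ ≤ c / 2 := by linarith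

omit [NeZero N] in
lemma err2 {C c : ℝ} (hN : (100 : ℝ) ≤ N) (hC1 : 1 ≤ C) (hC : C ≤ N)
    (hc : 0 < c) (hNc : 10 ^ 18 / c ≤ N) {m : ℕ} (hm : Real.exp (5 * (N : ℝ) ^ 8) ≤ m) :
    (N ^ 2 : ℕ) * ((288 * (N ^ 2 : ℕ) * ((N : ℝ) ^ 8 + 5) ^ 2) *
      ((256 * MM (N ^ 2) ((N : ℝ) ^ 8) / c1 (N ^ 2) ((N ^ 2 : ℕ) * C) ((N : ℝ) ^ 8) ^ 2) *
        (Real.pi * (2 * Real.pi / m)))) ≤ c / 2 := by
  have hN0 : (0 : ℝ) < N := by linarith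
  have hT1 : (100 : ℝ) ≤ (N : ℝ) ^ 8 := by
    calc (100 : ℝ) ≤ N := hN
      _ = (N : ℝ) ^ 1 := (pow_one _).symm
      _ ≤ (N : ℝ) ^ 8 := pow_le_pow_right₀ (by linarith) (by norm_num)
  set T := (N : ℝ) ^ 8 with hT
  have hm0 : (0 : ℝ) < m := lt_of_lt_of_le (Real.exp_pos _) hm
  have hpi : Real.pi < 3.15 := Real.pi_lt_d2
  have hpi0 := Real.pi_pos
  unfold MM c1
  rw [sqrt_q]
  push_cast
  have e1 : (T + 5) ^ 2 ≤ 4 * T ^ 2 := by nlinarith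
  have e2 : 4 * (N : ℝ) ^ 2 * (1 + T) ≤ 8 * (N : ℝ) ^ 2 * T := by
    have : 0 < (N : ℝ) ^ 2 := by positivity
    nlinarith
  have hCK : (N : ℝ) ^ 2 * C ≤ (N : ℝ) ^ 3 := by
    calc (N : ℝ) ^ 2 * C ≤ (N : ℝ) ^ 2 * N := by gcongr
      _ = _ := by ring
  have hC0 : 0 < C := by linarith
  have e3 : (Real.exp (-(2 * T)) / (2800 * ((N : ℝ) ^ 2 * C) * N)) ^ 2 ≥
      (Real.exp (-(2 * T)) / (2800 * (N : ℝ) ^ 4)) ^ 2 := by
    apply pow_le_pow_left₀ (by positivity)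
    apply div_le_div_of_nonneg_left (Real.exp_pos _).le (by positivity)
    calc 2800 * ((N : ℝ) ^ 2 * C) * N ≤ 2800 * (N : ℝ) ^ 3 * N := by gcongr
      _ = 2800 * (N : ℝ) ^ 4 := by ring
  have e4 : Real.pi * (2 * Real.pi / m) ≤ 20 / Real.exp (5 * T) := by
    have : Real.pi * (2 * Real.pi / m) = 2 * Real.pi ^ 2 / m := by ring
    rw [this]
    apply div_le_div₀ (by norm_num) (by nlinarith) (Real.exp_pos _) hm
  have e5 : T ^ 6 / 720 ≤ Real.exp T := by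
    have := Real.pow_div_factorial_le_exp (x := T) (by positivity) 6
    simpa [Nat.factorial] using this
  have hx : 0 < (Real.exp (-(2 * T)) / (2800 * (N : ℝ) ^ 4)) ^ 2 := by positivity
  calc (N : ℝ) ^ 2 * ((288 * (N : ℝ) ^ 2 * (T + 5) ^ 2) *
      ((256 * (4 * (N : ℝ) ^ 2 * (1 + T)) / (Real.exp (-(2 * T)) /
        (2800 * ((N : ℝ) ^ 2 * C) * N)) ^ 2) * (Real.pi * (2 * Real.pi / m))))
      ≤ (N : ℝ) ^ 2 * ((288 * (N : ℝ) ^ 2 * (4 * T ^ 2)) *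
      ((256 * (8 * (N : ℝ) ^ 2 * T) / (Real.exp (-(2 * T)) /
        (2800 * (N : ℝ) ^ 4)) ^ 2) * (20 / Real.exp (5 * T)))) := by
        gcongr
    _ = (288 * 4 * 256 * 8 * 2800 ^ 2 * 20) * ((N : ℝ) ^ 14 * T ^ 3) *
        ((Real.exp (-(2 * T)) ^ 2)⁻¹ * (Real.exp (5 * T))⁻¹) := by
        field_simp
    _ = (288 * 4 * 256 * 8 * 2800 ^ 2 * 20) * ((N : ℝ) ^ 14 * T ^ 3) * (Real.exp T)⁻¹ := by
        congr 1
        rw [← Real.exp_nat_mul, ← Real.exp_neg, ← Real.exp_neg, ← Real.exp_neg, ← Real.exp_add]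
        congr 1
        push_cast; ring
    _ ≤ (288 * 4 * 256 * 8 * 2800 ^ 2 * 20) * ((N : ℝ) ^ 14 * T ^ 3) * (T ^ 6 / 720)⁻¹ := by
        gcongr
    _ = (288 * 4 * 256 * 8 * 2800 ^ 2 * 20 * 720) / (N : ℝ) ^ 10 := by
        rw [hT]
        field_simp
    _ ≤ c / 2 := by
        rw [div_le_iff₀ (by positivity)]
        have h1 : (10 : ℝ) ^ 18 ≤ c * N := by
          rw [div_le_iff₀ hc] at hNc; linarith
        have h2 : (N : ℝ) * 100 ^ 9 ≤ (N : ℝ) ^ 10 := by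
          calc (N : ℝ) * 100 ^ 9 ≤ N * (N : ℝ) ^ 9 := by gcongr
            _ = _ := by ring
        have h3 : c * (N * 100 ^ 9) ≤ c * (N : ℝ) ^ 10 := by gcongr
        nlinarith

omit [NeZero N] in
lemma err4 (hN : (10 : ℝ) ^ 11 ≤ N) {C g : ℝ} (hC0 : 0 ≤ C) (hC : C ≤ N) (hg0 : 0 ≤ g)
    (hg : g ≤ (N : ℝ) ^ 2) {u : ℝ} (hu : (N : ℝ) / 4 ≤ u) {n₀ : ℕ} (hn₀ : (n₀ : ℝ) ≤ g ^ 4 + 1) :
    64 * ((N ^ 2 : ℕ) * C) * ((n₀ : ℝ) + 1) ^ 2 ≤ Real.exp u / N := by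
  have hN0 : (0 : ℝ) < N := lt_of_lt_of_le (by positivity) hN
  have hN1 : (1 : ℝ) ≤ N := le_trans (by norm_num) hN
  rw [le_div_iff₀ hN0]
  have h1 : (n₀ : ℝ) + 1 ≤ 3 * (N : ℝ) ^ 8 := by
    have h2 : g ^ 4 ≤ ((N : ℝ) ^ 2) ^ 4 := pow_le_pow_left₀ hg0 hg 4
    have h3 : (1 : ℝ) ≤ (N : ℝ) ^ 8 := one_le_pow₀ hN1
    have h4 : ((N : ℝ) ^ 2) ^ 4 = (N : ℝ) ^ 8 := by ring
    rw [h4] at h2
    linarith
  have h5 : (u : ℝ) ^ 24 / Nat.factorial 24 ≤ Real.exp u := by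
    have hu0 : 0 ≤ u := by linarith [show (0:ℝ) < (N:ℝ) / 4 by positivity]
    exact Real.pow_div_factorial_le_exp u hu0 24
  have hfac : (Nat.factorial 24 : ℝ) ≤ 10 ^ 24 := by
    have : Nat.factorial 24 ≤ 10 ^ 24 := by decide
    exact_mod_cast this
  have h6 : ((N : ℝ) / 4) ^ 24 / 10 ^ 24 ≤ Real.exp u := by
    refine le_trans ?_ h5
    gcongr
  refine le_trans ?_ h6
  push_cast
  calc 64 * ((N : ℝ) ^ 2 * C) * ((n₀ : ℝ) + 1) ^ 2 * N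
      ≤ 64 * ((N : ℝ) ^ 2 * N) * (3 * (N : ℝ) ^ 8) ^ 2 * N := by gcongr
    _ = 576 * (N : ℝ) ^ 20 := by ring
    _ ≤ ((N : ℝ) / 4) ^ 24 / 10 ^ 24 := by
        rw [div_pow, div_div, le_div_iff₀ (by positivity)]
        have h7 : ((10 : ℝ) ^ 11) ^ 4 ≤ (N : ℝ) ^ 4 := pow_le_pow_left₀ (by positivity) hN 4
        calc 576 * (N : ℝ) ^ 20 * (4 ^ 24 * 10 ^ 24) = (N : ℝ) ^ 20 * (576 * (4 ^ 24 * 10 ^ 24)) := by ring
          _ ≤ (N : ℝ) ^ 20 * (((10 : ℝ) ^ 11) ^ 4) := by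
              gcongr
              norm_num
          _ ≤ (N : ℝ) ^ 20 * (N : ℝ) ^ 4 := by gcongr
          _ = _ := by ring

omit [NeZero N] in
lemma err5 (hN : (10 : ℝ) ^ 11 ≤ N) {m n : ℕ} (hm : (m : ℝ) ≤ Real.exp (5 * (N : ℝ) ^ 8) + 1)
    (hm0 : 0 < m)
    (hn : (n : ℝ) ≤ 288 * ((N ^ 2 : ℕ) : ℝ) ^ 2 * ((N : ℝ) ^ 8 + 5) ^ 2 + 1) :
    (N : ℝ) * (m : ℝ) ^ n ≤ Real.exp ((N : ℝ) ^ 30) := by
  have hN0 : (0 : ℝ) < N := lt_of_lt_of_le (by positivity) hN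
  have hN1 : (1 : ℝ) ≤ N := le_trans (by norm_num) hN
  have hT1 : (100 : ℝ) ≤ (N : ℝ) ^ 8 := by
    calc (100 : ℝ) ≤ N := le_trans (by norm_num) hN
      _ = (N : ℝ) ^ 1 := (pow_one _).symm
      _ ≤ (N : ℝ) ^ 8 := pow_le_pow_right₀ (by linarith) (by norm_num)
  have h1 : (m : ℝ) ≤ Real.exp (6 * (N : ℝ) ^ 8) := by
    refine hm.trans ?_
    have e1 : Real.exp (6 * (N : ℝ) ^ 8) = Real.exp (5 * (N : ℝ) ^ 8) * Real.exp ((N : ℝ) ^ 8) := by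
      rw [← Real.exp_add]; congr 1; ring
    have e2 : 1 ≤ Real.exp (5 * (N : ℝ) ^ 8) := Real.one_le_exp (by positivity)
    have e3 : (N : ℝ) ^ 8 + 1 ≤ Real.exp ((N : ℝ) ^ 8) := Real.add_one_le_exp _
    rw [e1]
    nlinarith
  have h2 : (n : ℝ) ≤ (N : ℝ) ^ 21 := by
    refine hn.trans ?_
    push_cast
    have e1 : ((N : ℝ) ^ 8 + 5) ^ 2 ≤ 4 * (N : ℝ) ^ 16 := by
      have : (N : ℝ) ^ 16 = ((N : ℝ) ^ 8) ^ 2 := by ring
      rw [this]; nlinarith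
    have e2 : (1 : ℝ) ≤ (N : ℝ) ^ 20 := one_le_pow₀ hN1
    calc 288 * ((N : ℝ) ^ 2) ^ 2 * ((N : ℝ) ^ 8 + 5) ^ 2 + 1
        ≤ 288 * ((N : ℝ) ^ 2) ^ 2 * (4 * (N : ℝ) ^ 16) + (N : ℝ) ^ 20 := by gcongr
      _ = 1153 * (N : ℝ) ^ 20 := by ring
      _ ≤ N * (N : ℝ) ^ 20 := by
          gcongr
          exact le_trans (by norm_num) hN
      _ = _ := by ring
  calc (N : ℝ) * (m : ℝ) ^ n ≤ Real.exp N * (Real.exp (6 * (N : ℝ) ^ 8)) ^ n := by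
        gcongr
        have := Real.add_one_le_exp (N : ℝ)
        linarith
    _ = Real.exp (N + n * (6 * (N : ℝ) ^ 8)) := by
        rw [← Real.exp_nat_mul, ← Real.exp_add]
    _ ≤ Real.exp ((N : ℝ) ^ 30) := by
        apply Real.exp_le_exp.mpr
        have e1 : (N : ℝ) ≤ (N : ℝ) ^ 29 := by
          calc (N : ℝ) = (N : ℝ) ^ 1 := (pow_one _).symm
            _ ≤ _ := pow_le_pow_right₀ hN1 (by norm_num)
        calc (N : ℝ) + n * (6 * (N : ℝ) ^ 8) ≤ (N : ℝ) ^ 29 + (N : ℝ) ^ 21 * (6 * (N : ℝ) ^ 8) := by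
              gcongr
          _ = 7 * (N : ℝ) ^ 29 := by ring
          _ ≤ N * (N : ℝ) ^ 29 := by
              gcongr
              exact le_trans (by norm_num) hN
          _ = _ := by ring

theorem key_final {C γ : ℝ} (hC1 : 1 ≤ C) (hγ : 0 ≤ γ)
    (hC : ∀ (R : ℕ) (x : ℝ), ‖FF R x‖ ≤ C * Real.sqrt R * (1 + Real.log R) ^ (1 / 4 : ℝ))
    (hsq : Squarefree N) (hodd : Odd N) {ℓ : ℕ} (hp : ℓ.Prime) (hℓ : ℓ ∣ N) (h3 : ℓ % 4 = 3)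
    (hsig : sig N ≤ 1 / 40) (hcP : cP N (1 / 4) ≤ N) (hN : (10 : ℝ) ^ 11 ≤ N) (hCN : C ≤ N)
    (hγN : γ ≤ N) (hN2 : 2000 * Jmom / cphi ≤ N) (hN3 : 10 ^ 18 / cphi ≤ N)
    {β : ℝ} (hβ : 0 ≤ β)
    (hF : ∀ n : ℕ, (n : ℝ) ≤ Real.exp (Real.exp ((N : ℝ) ^ 31)) → ∀ x : ℝ,
      ‖FF n x‖ ≤ β * Real.sqrt n + γ * (n : ℝ) ^ (1 / 4 : ℝ)) :
    kap N hsq / 40 ≤ 48 * (β * cP N (1 / 2)) + 51 := by
  have hN0 : (0 : ℝ) < N := lt_of_lt_of_le (by positivity) hN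
  have hN1 : (1 : ℝ) ≤ N := le_trans (by norm_num) hN
  have hN100 : (100 : ℝ) ≤ N := le_trans (by norm_num) hN
  have hN100' : 100 ≤ N := by exact_mod_cast hN100
  have hlog : 0 ≤ Real.log (N / 4) := Real.log_nonneg (by linarith)
  have hlog2 : Real.log (N / 4) ≤ N / 4 - 1 := Real.log_le_sub_one_of_pos (by positivity)
  set T : ℝ := (N : ℝ) ^ 8 with hT
  have hT0 : 0 < T := by positivity
  set m : ℕ := ⌈Real.exp (5 * T)⌉₊ with hm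
  have hm0 : 0 < m := Nat.ceil_pos.mpr (Real.exp_pos _)
  have hm1 : Real.exp (5 * T) ≤ m := Nat.le_ceil _
  have hm2 : (m : ℝ) ≤ Real.exp (5 * T) + 1 := (Nat.ceil_lt_add_one (Real.exp_pos _).le).le
  set n : ℕ := ⌈288 * ((N ^ 2 : ℕ) : ℝ) ^ 2 * (T + 5) ^ 2⌉₊ with hn
  have hn1 : 288 * ((N ^ 2 : ℕ) : ℝ) ^ 2 * (T + 5) ^ 2 ≤ n := Nat.le_ceil _
  have hn2 : (n : ℝ) ≤ 288 * ((N ^ 2 : ℕ) : ℝ) ^ 2 * (T + 5) ^ 2 + 1 :=
    (Nat.ceil_lt_add_one (by positivity)).le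
  obtain ⟨t₁, ht1, ht2, hmain⟩ := key_ineq hC1 hC hsq hodd hp hℓ h3 hsig hN100' hT0
    (S₁ := N) hN0 (by linarith) hm0 hn1
  have ht3 : t₁ ≤ Real.exp ((N : ℝ) ^ 30) := ht2.trans (err5 hN hm2 hm0 hn2)
  have hκ := kap_pos hsq hodd
  have hκ2 := kap_le hsq
  have hcphi := cphi_pos
  have hK : 1 ≤ ((N ^ 2 : ℕ) : ℝ) * C := by
    have : (1 : ℝ) ≤ ((N ^ 2 : ℕ) : ℝ) := by
      push_cast; nlinarith
    nlinarith
  obtain ⟨g1, g2, g3⟩ := growth_all hC hsq hodd hp hℓ h3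
  have hcP1 := one_le_cP N (e := 1 / 4) (by norm_num)
  have hcP2 := one_le_cP N (e := 1 / 2) (by norm_num)
  have hbound : ∀ u, t₁ / 2 ≤ u → u ≤ 3 * t₁ / 2 →
      ‖gg (N ^ 2) (b1 N hsq) (b2 N hsq) (kap N hsq) u‖ ≤ 48 * (β * cP N (1 / 2) + 1) + 2 := by
    intro u hu1 hu2
    have hu3 : (N : ℝ) / 4 ≤ u := by linarith
    set n₀ : ℕ := ⌈(γ * cP N (1 / 4)) ^ 4⌉₊ with hn₀
    have hγc : 0 ≤ γ * cP N (1 / 4) := by positivity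
    refine gg_upper hK hsq hodd hp hℓ h3 g1 hβ hγ (by linarith) (n₀ := n₀) (Nat.le_ceil _) ?_ ?_
    · apply err4 hN (by linarith) hCN hγc _ hu3 (Nat.ceil_lt_add_one (by positivity)).le
      calc γ * cP N (1 / 4) ≤ N * N := by gcongr
        _ = _ := by ring
    · intro k hk x
      apply hF k _ x
      refine hk.trans ?_
      have e1 : (Real.exp u / N) ^ 2 ≤ Real.exp (2 * u) := by
        rw [div_pow, ← Real.exp_nat_mul]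
        push_cast
        apply div_le_self (Real.exp_pos _).le
        nlinarith
      refine e1.trans (Real.exp_le_exp.mpr ?_)
      have e2 : 2 * u ≤ 3 * Real.exp ((N : ℝ) ^ 30) := by linarith
      refine e2.trans ?_
      have e3 : (3 : ℝ) ≤ Real.exp 2 := by
        have := Real.add_one_le_exp (2 : ℝ); linarith
      calc 3 * Real.exp ((N : ℝ) ^ 30) ≤ Real.exp 2 * Real.exp ((N : ℝ) ^ 30) := by gcongr
        _ = Real.exp (2 + (N : ℝ) ^ 30) := by rw [Real.exp_add]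
        _ ≤ Real.exp ((N : ℝ) ^ 31) := by
            apply Real.exp_le_exp.mpr
            have e4 : (1 : ℝ) ≤ (N : ℝ) ^ 30 := one_le_pow₀ hN1
            calc 2 + (N : ℝ) ^ 30 ≤ 3 * (N : ℝ) ^ 30 := by linarith
              _ ≤ N * (N : ℝ) ^ 30 := by gcongr; linarith
              _ = _ := by ring
  have h1 := hmain (48 * (β * cP N (1 / 2) + 1) + 2) (by positivity) hbound
  have h2 := err1 hN100 (by linarith) hCN hκ.le hκ2 Jmom_nonneg hcphi hN2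
    (rho_nonneg (-Real.log (N / 4))) (rho_le_N hN100)
  have h4 := err2 hN100 hC1 hCN hcphi hN3 hm1
  rw [← hT] at h2 h4
  have h5 : cphi * (kap N hsq / 40) ≤ cphi * (48 * (β * cP N (1 / 2)) + 51) := by
    calc cphi * (kap N hsq / 40) ≤ cphi * (48 * (β * cP N (1 / 2) + 1) + 2) + cphi / 2 + cphi / 2 := by
          linarith
      _ = _ := by ring
  exact le_of_mul_le_mul_left h5 hcphi

end Pool.Agent.H62
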