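import Mathlib.NumberTheory.Chebyshev
import Mathlib.NumberTheory.Primorial
import Pool.Agent.H62.Params

/-!
The modulus: a product of primes.
-/

namespace Pool.Agent.H62

open Finset

/-- primes in `(100, z]` -/
def Pz (z : ℕ) : Finset ℕ := (Finset.Icc 101 z).filter Nat.Prime

/-- their product -/
def Nz (z : ℕ) : ℕ := ∏ p ∈ Pz z, p

lemma mem_Pz {z p : ℕ} : p ∈ Pz z ↔ (101 ≤ p ∧ p ≤ z) ∧ p.Prime := by
  unfold Pz; rw [Finset.mem_filter, Finset.mem_Icc]

lemma primeFactors_Nz (z : ℕ) : (Nz z).primeFactors = Pz z :=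
  Nat.primeFactors_prod (fun _ hp => (mem_Pz.mp hp).2)

lemma Nz_ne_zero (z : ℕ) : Nz z ≠ 0 := by
  unfold Nz
  rw [Finset.prod_ne_zero_iff]
  intro p hp
  exact (mem_Pz.mp hp).2.ne_zero

lemma squarefree_prod_primes (s : Finset ℕ) (hs : ∀ p ∈ s, p.Prime) : Squarefree (∏ p ∈ s, p) := by
  classical
  induction s using Finset.induction_on with
  | empty => simp
  | insert p s hps ih =>
    have hs' : ∀ p ∈ s, p.Prime := fun p hp => hs p (Finset.mem_insert_of_mem hp)
    have hp := hs p (Finset.mem_insert_self p s)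
    rw [Finset.prod_insert hps, Nat.squarefree_mul]
    · exact ⟨hp.squarefree, ih hs'⟩
    · apply Nat.Coprime.prod_right
      intro r hr
      rw [Nat.coprime_primes hp (hs' r hr)]
      rintro rfl
      exact hps hr

lemma squarefree_Nz (z : ℕ) : Squarefree (Nz z) :=
  squarefree_prod_primes _ (fun _ hp => (mem_Pz.mp hp).2)

lemma odd_Nz (z : ℕ) : Odd (Nz z) := by
  rw [← Nat.not_even_iff_odd, even_iff_two_dvd]
  intro h
  have h1 : 2 ∈ (Nz z).primeFactors := Nat.mem_primeFactors.mpr ⟨Nat.prime_two, h, Nz_ne_zero z⟩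
  rw [primeFactors_Nz, mem_Pz] at h1
  omega

lemma dvd_Nz {z : ℕ} (hz : 103 ≤ z) : 103 ∣ Nz z := by
  apply Finset.dvd_prod_of_mem (fun p => p)
  rw [mem_Pz]
  exact ⟨⟨by norm_num, hz⟩, by norm_num⟩

lemma sig_Nz (z : ℕ) : sig (Nz z) ≤ 1 / 40 := by
  unfold sig
  rw [primeFactors_Nz]
  have h1 : ∑ p ∈ Pz z, 1 / (p : ℝ) ^ 2 ≤ ∑ p ∈ Finset.Ioc 100 (max 100 z), 1 / (p : ℝ) ^ 2 := by
    apply Finset.sum_le_sum_of_subset_of_nonneg
    · intro p hp
      rw [mem_Pz] at hp
      rw [Finset.mem_Ioc]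
      omega
    · intro p _ _; positivity
  have h2 := sum_Ioc_inv_sq_le_sub (α := ℝ) (k := 100) (n := max 100 z) (by norm_num)
    (le_max_left _ _)
  refine h1.trans ?_
  simp_rw [one_div]
  refine h2.trans ?_
  have h3 : (0:ℝ) ≤ ((max 100 z : ℕ) : ℝ)⁻¹ := by positivity
  have h4 : (((100 : ℕ) : ℝ))⁻¹ ≤ 1 / 40 := by norm_num
  linarith

lemma cP4_Nz (z : ℕ) : cP (Nz z) (1 / 4) ≤ Nz z := by
  unfold cP
  rw [primeFactors_Nz]
  have h : ((Nz z : ℕ) : ℝ) = ∏ p ∈ Pz z, (p : ℝ) := by unfold Nz; push_cast; rfl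
  rw [h]
  apply Finset.prod_le_prod
  · intro p hp
    have hp1 : (1 : ℝ) < p := by exact_mod_cast (mem_Pz.mp hp).2.one_lt
    have : (p : ℝ) ^ (-(1 / 4) : ℝ) < 1 := Real.rpow_lt_one_of_one_lt_of_neg hp1 (by norm_num)
    rw [inv_nonneg]; linarith
  · intro p hp
    have hp1 : (101 : ℝ) ≤ p := by exact_mod_cast (mem_Pz.mp hp).1.1
    have h2 : (p : ℝ) ^ (-(1 / 4) : ℝ) ≤ (16 : ℝ) ^ (-(1 / 4) : ℝ) :=
      Real.rpow_le_rpow_of_nonpos (by norm_num) (by linarith) (by norm_num)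
    have h3 : (16 : ℝ) ^ (-(1 / 4) : ℝ) = 1 / 2 := by
      rw [show (16 : ℝ) = 2 ^ (4 : ℝ) by
        rw [show (4 : ℝ) = ((4 : ℕ) : ℝ) by norm_num, Real.rpow_natCast]; norm_num,
        ← Real.rpow_mul (by norm_num), show (4 : ℝ) * (-(1 / 4)) = -1 by norm_num,
        Real.rpow_neg_one]
      norm_num
    rw [h3] at h2
    calc (1 - (p : ℝ) ^ (-(1 / 4) : ℝ))⁻¹ ≤ (1 / 2)⁻¹ := by
          apply inv_anti₀ (by norm_num)
          linarith
      _ = 2 := by norm_num
      _ ≤ (p : ℝ) := by linarith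

lemma cP2_Nz (z : ℕ) : cP (Nz z) (1 / 2) ≤ (10 / 9) ^ (Pz z).card := by
  unfold cP
  rw [primeFactors_Nz, ← Finset.prod_const]
  apply Finset.prod_le_prod
  · intro p hp
    have hp1 : (1 : ℝ) < p := by exact_mod_cast (mem_Pz.mp hp).2.one_lt
    have : (p : ℝ) ^ (-(1 / 2) : ℝ) < 1 := Real.rpow_lt_one_of_one_lt_of_neg hp1 (by norm_num)
    rw [inv_nonneg]; linarith
  · intro p hp
    have hp1 : (101 : ℝ) ≤ p := by exact_mod_cast (mem_Pz.mp hp).1.1
    have h2 : (p : ℝ) ^ (-(1 / 2) : ℝ) ≤ (100 : ℝ) ^ (-(1 / 2) : ℝ) :=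
      Real.rpow_le_rpow_of_nonpos (by norm_num) (by linarith) (by norm_num)
    have h3 : (100 : ℝ) ^ (-(1 / 2) : ℝ) = 1 / 10 := by
      rw [show (100 : ℝ) = 10 ^ (2 : ℝ) by
        rw [show (2 : ℝ) = ((2 : ℕ) : ℝ) by norm_num, Real.rpow_natCast]; norm_num,
        ← Real.rpow_mul (by norm_num), show (2 : ℝ) * (-(1 / 2)) = -1 by norm_num,
        Real.rpow_neg_one]
      norm_num
    rw [h3] at h2
    calc (1 - (p : ℝ) ^ (-(1 / 2) : ℝ))⁻¹ ≤ (9 / 10)⁻¹ := by
          apply inv_anti₀ (by norm_num)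
          linarith
      _ = 10 / 9 := by norm_num

lemma Nz_le (z : ℕ) : Nz z ≤ 4 ^ z := by
  have h1 : Nz z ∣ primorial z := by
    unfold Nz primorial
    apply Finset.prod_dvd_prod_of_subset
    intro p hp
    rw [mem_Pz] at hp
    rw [Finset.mem_filter, Finset.mem_range]
    exact ⟨by omega, hp.2⟩
  exact (Nat.le_of_dvd (primorial_pos z) h1).trans (primorial_le_four_pow z)

lemma Nz_ge (z : ℕ) : (Pz z).card ≤ Nz z := by
  have h1 : 2 ^ (Pz z).card ≤ Nz z := by
    unfold Nz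
    rw [← Finset.prod_const]
    apply Finset.prod_le_prod' 
    intro p hp
    exact (mem_Pz.mp hp).2.two_le
  exact (Nat.lt_two_pow_self).le.trans h1

lemma card_Pz (z : ℕ) : Nat.primeCounting z ≤ (Pz z).card + 101 := by
  rw [Nat.primeCounting, Nat.primeCounting', Nat.count_eq_card_filter_range]
  have h1 : (Finset.range (z + 1)).filter Nat.Prime ⊆ Pz z ∪ Finset.range 101 := by
    intro p hp
    rw [Finset.mem_filter, Finset.mem_range] at hp
    rw [Finset.mem_union, mem_Pz, Finset.mem_range]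
    by_cases h : p < 101
    · right; exact h
    · left; exact ⟨by omega, hp.2⟩
  refine (Finset.card_le_card h1).trans ((Finset.card_union_le _ _).trans ?_)
  simp

lemma exists_z (A : ℝ) : ∃ z : ℕ, 103 ≤ z ∧ A ≤ (z : ℝ) / (2 * Real.log z) ∧
    (z : ℝ) / (2 * Real.log z) ≤ (Pz z).card := by
  set A' : ℝ := max A 1000 with hA'
  have hA0 : 0 < A' := lt_of_lt_of_le (by norm_num) (le_max_right _ _)
  have hA1 : 1000 ≤ A' := le_max_right _ _
  have h1 := (Real.isLittleO_log_id_atTop.bound (c := 1 / (2 * A')) (by positivity))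
  have h2 := (tendsto_natCast_atTop_atTop (R := ℝ)).eventually h1
  have h3 := h2.and (Filter.eventually_ge_atTop 1000)
  obtain ⟨z, hz1, hz2⟩ := h3.exists
  have hz : (1000 : ℝ) ≤ z := by exact_mod_cast hz2
  have hlog : 0 < Real.log z := Real.log_pos (by linarith)
  rw [Real.norm_eq_abs, Real.norm_eq_abs, abs_of_pos hlog, id, abs_of_pos (by linarith)] at hz1
  have hz3 : Real.log z * (2 * A') ≤ z := by
    rw [div_mul_eq_mul_div, one_mul, le_div_iff₀ (by positivity)] at hz1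
    exact hz1
  refine ⟨z, by omega, ?_, ?_⟩
  · rw [le_div_iff₀ (by positivity)]
    have : A ≤ A' := le_max_left _ _
    nlinarith
  · have h4 := Chebyshev.pi_ge z
    have h5 : (Nat.primeCounting z : ℝ) ≤ (Pz z).card + 101 := by exact_mod_cast card_Pz z
    have h6 : (z : ℝ) / (2 * Real.log z) ≤ (z * Real.log 2 - Real.log (z + 1)) / Real.log z - 101 := by
      rw [div_sub' hlog.ne', div_le_div_iff₀ (by positivity) hlog]
      have h7 : Real.log (z + 1) ≤ 1 + Real.log z := by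
        calc Real.log (z + 1) ≤ Real.log (Real.exp 1 * z) := by
              apply Real.log_le_log (by positivity)
              have := Real.add_one_le_exp (1 : ℝ)
              nlinarith
          _ = 1 + Real.log z := by rw [Real.log_mul (Real.exp_ne_zero _) (by positivity), Real.log_exp]
      have h8 : 0.6931471803 < Real.log 2 := Real.log_two_gt_d9
      have h9 : Real.log z * 2000 ≤ z := by nlinarith
      have h10 : (z : ℝ) ≤ 2 * (z * Real.log 2 - Real.log (z + 1) - Real.log z * 101) := by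
        nlinarith
      nlinarith
    linarith

end Pool.Agent.H62
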