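import Pool.Agent.H62.Local
import Pool.Agent.H62.Primes
import Mathlib.NumberTheory.SumPrimeReciprocals
import Mathlib.RingTheory.Polynomial.Cyclotomic.Roots
import Mathlib.RingTheory.RootsOfUnity.Complex

/-!
The sup norm of the Moebius exponential sum is controlled on sets of small measure.
-/

namespace Pool.Agent.H62

open Finset ArithmeticFunction

lemma ee_div (D m j : ℕ) :
    ee m ((j : ℝ) / D) = (Complex.exp (2 * Real.pi * Complex.I / D)) ^ (m * j) := by
  unfold ee
  rw [← Complex.exp_nat_mul]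
  congr 1
  push_cast; ring

lemma sum_ee_shift {D : ℕ} (hD : 0 < D) (m : ℕ) :
    ∑ j ∈ Finset.range D, ee m ((j : ℝ) / D) = if D ∣ m then (D : ℂ) else 0 := by
  have hω := Complex.isPrimitiveRoot_exp D hD.ne'
  have h1 : ∀ j ∈ Finset.range D, ee m ((j : ℝ) / D) =
      ((Complex.exp (2 * Real.pi * Complex.I / D)) ^ m) ^ j := by
    intro j _
    rw [ee_div, pow_mul]
  rw [Finset.sum_congr rfl h1]
  by_cases h : D ∣ m
  · rw [if_pos h, (hω.pow_eq_one_iff_dvd m).mpr h]
    simp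
  · rw [if_neg h]
    have hne : (Complex.exp (2 * Real.pi * Complex.I / D)) ^ m ≠ 1 :=
      fun hc => h ((hω.pow_eq_one_iff_dvd m).mp hc)
    have h2 := geom_sum_eq hne D
    rw [h2, ← pow_mul, mul_comm m D, pow_mul, hω.pow_eq_one, one_pow, sub_self, zero_div]

lemma moebius_mul_ite (D m : ℕ) : (moebius (D * m) : ℤ) =
    if m.Coprime D then moebius D * moebius m else 0 := by
  by_cases h : m.Coprime D
  · rw [if_pos h]
    exact isMultiplicative_moebius.map_mul_of_coprime h.symm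
  · rw [if_neg h]
    apply moebius_eq_zero_of_not_squarefree
    intro hs
    exact h (Nat.squarefree_mul_iff.mp hs).1.symm

lemma sum_shift {D : ℕ} (hD : 0 < D) (n : ℕ) (x : ℝ) :
    ∑ j ∈ Finset.range D, FF (D * n) (x + (j : ℝ) / D) =
      D * (moebius D : ℤ) * AA D n (D * x) := by
  have h1 : ∑ j ∈ Finset.range D, FF (D * n) (x + (j : ℝ) / D) =
      ∑ m ∈ Finset.Icc 1 (D * n), if D ∣ m then (((moebius m : ℤ) : ℂ) * ee m x) * D else 0 := by
    simp_rw [FF_def]
    rw [Finset.sum_comm]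
    refine Finset.sum_congr rfl (fun m _ => ?_)
    have h2 : ∀ j ∈ Finset.range D, ((moebius m : ℤ) : ℂ) * ee m (x + (j : ℝ) / D) =
        (((moebius m : ℤ) : ℂ) * ee m x) * ee m ((j : ℝ) / D) := by
      intro j _
      rw [ee_add]; ring
    rw [Finset.sum_congr rfl h2, ← Finset.mul_sum, sum_ee_shift hD]
    split_ifs <;> simp
  rw [h1, ← Finset.sum_filter, AA_def, Finset.mul_sum]
  symm
  apply Finset.sum_bij (fun m _ => D * m)
  · intro m hm
    rw [Finset.mem_Icc] at hm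
    rw [Finset.mem_filter, Finset.mem_Icc]
    refine ⟨⟨?_, Nat.mul_le_mul_left _ hm.2⟩, dvd_mul_right _ _⟩
    exact Nat.mul_pos hD hm.1
  · intro a _ b _ hab
    exact Nat.eq_of_mul_eq_mul_left hD hab
  · intro b hb
    rw [Finset.mem_filter, Finset.mem_Icc] at hb
    obtain ⟨c, rfl⟩ := hb.2
    refine ⟨c, ?_, rfl⟩
    rw [Finset.mem_Icc]
    refine ⟨?_, Nat.le_of_mul_le_mul_left hb.1.2 hD⟩
    rcases Nat.eq_zero_or_pos c with h | h
    · exfalso
      rw [h] at hb
      omega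
    · exact h
  · intro m _
    rw [moebius_mul_ite]
    have he : ee (D * m) x = ee m (D * x) := by
      unfold ee
      congr 1
      push_cast; ring
    rw [he]
    by_cases h : m.Coprime D
    · rw [if_pos h, if_pos h]
      push_cast
      ring
    · rw [if_neg h, if_neg h]
      simp

lemma ee_cyclo {D : ℕ} (hD : 0 < D) {m : ℕ} (hm : m.Coprime D) :
    ∑ i ∈ Finset.range (D.totient + 1), (Polynomial.cyclotomic D ℂ).coeff i *
      ee m ((i : ℝ) / D) = 0 := by
  have hω := (Complex.isPrimitiveRoot_exp D hD.ne').pow_of_coprime m hm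
  have h1 := hω.isRoot_cyclotomic hD
  rw [Polynomial.IsRoot.def, Polynomial.eval_eq_sum_range, Polynomial.natDegree_cyclotomic] at h1
  rw [← h1]
  refine Finset.sum_congr rfl (fun i _ => ?_)
  rw [ee_div, pow_mul]

lemma AA_cyclo {D : ℕ} (hD : 0 < D) (n : ℕ) (y : ℝ) :
    ∑ i ∈ Finset.range (D.totient + 1), (Polynomial.cyclotomic D ℂ).coeff i *
      AA D n (y + (i : ℝ) / D) = 0 := by
  simp_rw [AA_def, Finset.mul_sum]
  rw [Finset.sum_comm]
  apply Finset.sum_eq_zero
  intro m _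
  by_cases h : m.Coprime D
  · simp_rw [if_pos h]
    have h2 : ∀ i ∈ Finset.range (D.totient + 1), (Polynomial.cyclotomic D ℂ).coeff i *
        (((moebius m : ℤ) : ℂ) * ee m (y + (i : ℝ) / D)) =
        (((moebius m : ℤ) : ℂ) * ee m y) * ((Polynomial.cyclotomic D ℂ).coeff i *
          ee m ((i : ℝ) / D)) := by
      intro i _
      rw [ee_add]; ring
    rw [Finset.sum_congr rfl h2, ← Finset.mul_sum, ee_cyclo hD h, mul_zero]
  · simp_rw [if_neg h]
    simp

/-- sum of the absolute values of the coefficients -/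
noncomputable def sc (D : ℕ) : ℝ :=
  1 + ∑ i ∈ Finset.range D.totient, ‖(Polynomial.cyclotomic D ℂ).coeff i‖

lemma one_le_sc (D : ℕ) : 1 ≤ sc D := by
  unfold sc
  have : 0 ≤ ∑ i ∈ Finset.range D.totient, ‖(Polynomial.cyclotomic D ℂ).coeff i‖ :=
    Finset.sum_nonneg (fun _ _ => norm_nonneg _)
  linarith

lemma AA_prop {D : ℕ} (hD : 0 < D) {n : ℕ} {M : ℝ} (hM : 0 ≤ M) {v : ℝ}
    (h : ∀ i < D.totient, ‖AA D n (v + (i : ℝ) / D)‖ ≤ M) :
    ∀ j : ℕ, ‖AA D n (v + (j : ℝ) / D)‖ ≤ sc D ^ j * M := by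
  intro j
  induction j using Nat.strong_induction_on with
  | _ j ih =>
    have hs := one_le_sc D
    by_cases hj : j < D.totient
    · refine (h j hj).trans ?_
      have : 1 ≤ sc D ^ j := one_le_pow₀ hs
      nlinarith
    · push Not at hj
      have hφ : 0 < D.totient := Nat.totient_pos.mpr hD
      obtain ⟨t, rfl⟩ : ∃ t, j = t + D.totient := ⟨j - D.totient, by omega⟩
      have hrec := AA_cyclo hD n (v + (t : ℝ) / D)
      rw [Finset.sum_range_succ] at hrec
      have hlead : (Polynomial.cyclotomic D ℂ).coeff D.totient = 1 := by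
        have := (Polynomial.cyclotomic.monic D ℂ).coeff_natDegree
        rwa [Polynomial.natDegree_cyclotomic] at this
      rw [hlead, one_mul] at hrec
      have e1 : v + (t : ℝ) / D + (D.totient : ℝ) / D = v + ((t + D.totient : ℕ) : ℝ) / D := by
        push_cast; ring
      rw [e1] at hrec
      have h2 : AA D n (v + ((t + D.totient : ℕ) : ℝ) / D) =
          -∑ i ∈ Finset.range D.totient, (Polynomial.cyclotomic D ℂ).coeff i *
            AA D n (v + (t : ℝ) / D + (i : ℝ) / D) := by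
        linear_combination hrec
      rw [h2, norm_neg]
      refine (norm_sum_le _ _).trans ?_
      have h3 : ∀ i ∈ Finset.range D.totient, ‖(Polynomial.cyclotomic D ℂ).coeff i *
            AA D n (v + (t : ℝ) / D + (i : ℝ) / D)‖ ≤
          ‖(Polynomial.cyclotomic D ℂ).coeff i‖ * (sc D ^ (t + D.totient - 1) * M) := by
        intro i hi
        rw [Finset.mem_range] at hi
        rw [norm_mul]
        apply mul_le_mul_of_nonneg_left _ (norm_nonneg _)
        have e2 : v + (t : ℝ) / D + (i : ℝ) / D = v + ((t + i : ℕ) : ℝ) / D := by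
          push_cast; ring
        rw [e2]
        refine (ih (t + i) (by omega)).trans ?_
        apply mul_le_mul_of_nonneg_right _ hM
        exact pow_le_pow_right₀ hs (by omega)
      refine (Finset.sum_le_sum h3).trans ?_
      rw [← Finset.sum_mul]
      have h4 : ∑ i ∈ Finset.range D.totient, ‖(Polynomial.cyclotomic D ℂ).coeff i‖ ≤ sc D := by
        unfold sc; linarith
      have h5 : sc D ^ (t + D.totient) = sc D * sc D ^ (t + D.totient - 1) := by
        rw [← pow_succ']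
        congr 1
        omega
      rw [h5, mul_assoc]
      apply mul_le_mul_of_nonneg_right h4
      positivity

/-- the set of small measure attached to `D` -/
def JJ (D : ℕ) : Set ℝ :=
  ⋃ j ∈ Finset.range D, Set.Ico ((j : ℝ) / D) ((j : ℝ) / D + (D.totient : ℝ) / D / D)

lemma mem_JJ {D : ℕ} {x : ℝ} {j : ℕ} (hj : j < D)
    (h : x ∈ Set.Ico ((j : ℝ) / D) ((j : ℝ) / D + (D.totient : ℝ) / D / D)) : x ∈ JJ D := by
  unfold JJ
  rw [Set.mem_iUnion₂]
  exact ⟨j, Finset.mem_range.mpr hj, h⟩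

lemma AA_all {D : ℕ} (hD : 0 < D) (hsq : Squarefree D) {n : ℕ} {M : ℝ}
    (h : ∀ y ∈ JJ D, ‖FF (D * n) y‖ ≤ M) (x : ℝ) : ‖AA D n x‖ ≤ sc D ^ D * M := by
  have hDr : (0 : ℝ) < D := by exact_mod_cast hD
  have hφ : 0 < D.totient := Nat.totient_pos.mpr hD
  have hM : 0 ≤ M := by
    refine (norm_nonneg _).trans (h 0 (mem_JJ (j := 0) hD ?_))
    rw [Set.mem_Ico]
    constructor
    · simp
    · have : (0 : ℝ) < D.totient := by exact_mod_cast hφ
      simp only [Nat.cast_zero, zero_div, zero_add]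
      positivity
  have hμ : ‖((moebius D : ℤ) : ℂ)‖ = 1 := by
    rcases moebius_ne_zero_iff_eq_or.mp (moebius_ne_zero_iff_squarefree.mpr hsq) with h | h
    · rw [h]; simp
    · rw [h]; simp
  -- start
  have hstart : ∀ y : ℝ, 0 ≤ y → y < (D.totient : ℝ) / D → ‖AA D n y‖ ≤ M := by
    intro y hy0 hy1
    have h1 := sum_shift hD n (y / D)
    rw [mul_div_cancel₀ y hDr.ne'] at h1
    have h2 : ‖∑ j ∈ Finset.range D, FF (D * n) (y / D + (j : ℝ) / D)‖ ≤ D * M := by
      refine (norm_sum_le _ _).trans ?_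
      have h3 : ∀ j ∈ Finset.range D, ‖FF (D * n) (y / D + (j : ℝ) / D)‖ ≤ M := by
        intro j hj
        apply h
        apply mem_JJ (Finset.mem_range.mp hj)
        rw [Set.mem_Ico]
        constructor
        · have : 0 ≤ y / D := by positivity
          linarith
        · have : y / D < (D.totient : ℝ) / D / D := by
            exact div_lt_div_of_pos_right hy1 hDr
          linarith
      refine (Finset.sum_le_sum h3).trans ?_
      rw [Finset.sum_const, Finset.card_range, nsmul_eq_mul]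
    rw [h1, norm_mul, norm_mul, hμ, Complex.norm_natCast, mul_one] at h2
    exact le_of_mul_le_mul_left h2 hDr
  -- reduce x
  set k : ℤ := ⌊D * x⌋ with hk
  set r : ℕ := (k % D).toNat with hr
  have hk0 : 0 ≤ k % D := Int.emod_nonneg _ (by exact_mod_cast hD.ne')
  have hk1 : k % D < D := Int.emod_lt_of_pos _ (by exact_mod_cast hD)
  have hrk : (r : ℤ) = k % D := Int.toNat_of_nonneg hk0
  have hrD : r < D := by omega
  set v : ℝ := Int.fract (D * x) / D with hv
  have hx : x = (v + (r : ℝ) / D) + ((k / D : ℤ) : ℝ) := by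
    have h1 : (D : ℝ) * x = k + Int.fract (D * x) := by
      rw [hk, Int.floor_add_fract]
    have h2 : (k : ℝ) = (r : ℝ) + (D : ℝ) * ((k / D : ℤ) : ℝ) := by
      have := Int.emod_add_mul_ediv k D
      rw [← hrk] at this
      exact_mod_cast this.symm
    have key : ∀ f kk q : ℝ, (D : ℝ) * x = kk + f → kk = (r : ℝ) + (D : ℝ) * q →
        x = f / D + (r : ℝ) / D + q := by
      intro f kk q e1 e2
      have e3 : x = ((D : ℝ) * x) / D := (mul_div_cancel_left₀ x hDr.ne').symm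
      rw [e1, e2] at e3
      rw [e3]
      field_simp
      ring
    exact key _ _ _ h1 h2
  rw [hx, AA_add_int]
  have hv0 : 0 ≤ v := div_nonneg (Int.fract_nonneg _) hDr.le
  have hv1 : v < 1 / D := div_lt_div_of_pos_right (Int.fract_lt_one _) hDr
  have h1 := AA_prop hD (n := n) hM (v := v) (fun i hi => by
    apply hstart
    · positivity
    · have : (i : ℝ) + 1 ≤ D.totient := by exact_mod_cast hi
      calc v + (i : ℝ) / D < 1 / D + (i : ℝ) / D := by linarith
        _ = ((i : ℝ) + 1) / D := by ring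
        _ ≤ (D.totient : ℝ) / D := by
          exact div_le_div_of_nonneg_right this hDr.le) r
  refine h1.trans ?_
  apply mul_le_mul_of_nonneg_right _ hM
  exact pow_le_pow_right₀ (one_le_sc D) hrD.le

lemma AA_to_FF (S : Finset ℕ) : (∀ p ∈ S, p.Prime) → ∀ {n : ℕ} {K : ℝ},
    (∀ m ≤ n, ∀ y : ℝ, ‖AA (∏ p ∈ S, p) m y‖ ≤ K) → ∀ m ≤ n, ∀ y : ℝ, ‖FF m y‖ ≤ 2 ^ S.card * K := by
  classical
  induction S using Finset.induction_on with
  | empty =>
    intro _ n K h m hm y
    have := h m hm y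
    rw [Finset.prod_empty, AA_one] at this
    simpa using this
  | insert p S hp ih =>
    intro hS n K h
    have hS' : ∀ q ∈ S, q.Prime := fun q hq => hS q (Finset.mem_insert_of_mem hq)
    have hpp := hS p (Finset.mem_insert_self p S)
    have hcop : (∏ q ∈ S, q).Coprime p := by
      apply Nat.Coprime.prod_left
      intro r hr
      rw [Nat.coprime_primes (hS' r hr) hpp]
      rintro rfl
      exact hp hr
    have h2 : ∀ m ≤ n, ∀ y : ℝ, ‖AA (∏ q ∈ S, q) m y‖ ≤ 2 * K := by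
      intro m hm y
      have h3 := AA_split hpp hcop m y
      rw [Finset.prod_insert hp, mul_comm p] at h
      have h4 := h m hm y
      have h5 := h (m / p) ((Nat.div_le_self _ _).trans hm) (p * y)
      have h6 : AA (∏ q ∈ S, q) m y = AA ((∏ q ∈ S, q) * p) m y -
          AA ((∏ q ∈ S, q) * p) (m / p) (p * y) := by
        linear_combination -h3
      rw [h6]
      refine (norm_sub_le _ _).trans ?_
      linarith
    intro m hm y
    have h7 := ih hS' h2 m hm y
    rw [Finset.card_insert_of_notMem hp, pow_succ]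
    linarith

lemma exists_primes {η : ℝ} (hη : 0 < η) : ∃ S : Finset ℕ, (∀ p ∈ S, p.Prime) ∧
    ((∏ p ∈ S, p).totient : ℝ) / ((∏ p ∈ S, p : ℕ) : ℝ) ≤ η := by
  classical
  have h1 := not_summable_one_div_on_primes
  rw [not_summable_iff_tendsto_nat_atTop_of_nonneg (fun n => by
    unfold Set.indicator
    split_ifs
    · positivity
    · rfl)] at h1
  obtain ⟨N, hN⟩ := (h1.eventually (Filter.eventually_ge_atTop (-Real.log η))).exists
  refine ⟨(Finset.range N).filter Nat.Prime, fun p hp => (Finset.mem_filter.mp hp).2, ?_⟩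
  set S := (Finset.range N).filter Nat.Prime with hS
  have hSp : ∀ p ∈ S, p.Prime := fun p hp => (Finset.mem_filter.mp hp).2
  have hD0 : (∏ p ∈ S, p) ≠ 0 := by
    rw [Finset.prod_ne_zero_iff]
    intro p hp
    exact (hSp p hp).ne_zero
  have h2 := Nat.totient_eq_mul_prod_factors (∏ p ∈ S, p)
  rw [Nat.primeFactors_prod hSp] at h2
  have h3 : ((∏ p ∈ S, p).totient : ℝ) = ((∏ p ∈ S, p : ℕ) : ℝ) * ∏ p ∈ S, (1 - (p : ℝ)⁻¹) := by
    have := congrArg (fun q : ℚ => (q : ℝ)) h2
    push_cast at this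
    push_cast
    exact this
  have hDr : (0 : ℝ) < ((∏ p ∈ S, p : ℕ) : ℝ) := by
    exact_mod_cast Nat.pos_of_ne_zero hD0
  rw [h3, mul_div_cancel_left₀ _ hDr.ne']
  have h4 : ∏ p ∈ S, (1 - (p : ℝ)⁻¹) ≤ ∏ p ∈ S, Real.exp (-(1 / (p : ℝ))) := by
    apply Finset.prod_le_prod
    · intro p hp
      have : (1 : ℝ) ≤ p := by exact_mod_cast (hSp p hp).one_lt.le
      have := inv_le_one_of_one_le₀ this
      linarith
    · intro p hp
      have := Real.add_one_le_exp (-(1 / (p : ℝ)))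
      rw [one_div] at this ⊢
      linarith
  refine h4.trans ?_
  rw [← Real.exp_sum, Finset.sum_neg_distrib]
  have h5 : ∑ p ∈ S, 1 / (p : ℝ) =
      ∑ i ∈ Finset.range N, Set.indicator {p : ℕ | p.Prime} (fun n => 1 / (n : ℝ)) i := by
    rw [hS, Finset.sum_filter]
    refine Finset.sum_congr rfl (fun i _ => ?_)
    simp [Set.indicator]
  rw [h5]
  calc Real.exp (-∑ i ∈ Finset.range N,
        Set.indicator {p : ℕ | p.Prime} (fun n => 1 / (n : ℝ)) i) ≤ Real.exp (Real.log η) := by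
        apply Real.exp_le_exp.mpr
        linarith
    _ = η := Real.exp_log hη

theorem small_set {η : ℝ} (hη : 0 < η) : ∃ (D : ℕ) (ℓ : ℝ), 0 < D ∧ 0 < ℓ ∧ D * ℓ ≤ η ∧
    ∃ C : ℕ, ∀ (n : ℕ) (M : ℝ),
      (∀ R ≤ C * n, ∀ j < D, ∀ y ∈ Set.Icc ((j : ℝ) / D) ((j : ℝ) / D + ℓ), ‖FF R y‖ ≤ M) →
        ∀ x : ℝ, ‖FF n x‖ ≤ C * M := by
  obtain ⟨S, hSp, hS⟩ := exists_primes hη
  set D := ∏ p ∈ S, p with hDdef
  have hD0 : D ≠ 0 := by
    rw [hDdef, Finset.prod_ne_zero_iff]
    intro p hp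
    exact (hSp p hp).ne_zero
  have hD : 0 < D := Nat.pos_of_ne_zero hD0
  have hDr : (0 : ℝ) < D := by exact_mod_cast hD
  have hφ : (0 : ℝ) < D.totient := by exact_mod_cast Nat.totient_pos.mpr hD
  have hsq : Squarefree D := squarefree_prod_primes S hSp
  have hℓ : 0 < (D.totient : ℝ) / D / D := by positivity
  refine ⟨D, (D.totient : ℝ) / D / D, hD, hℓ, ?_, ?_⟩
  · rw [mul_div_cancel₀ _ hDr.ne']
    exact hS
  obtain ⟨C₀, hC₀⟩ := exists_nat_ge (2 ^ S.card * sc D ^ D)
  refine ⟨max C₀ D, fun n M h x => ?_⟩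
  have hM : 0 ≤ M := by
    refine (norm_nonneg _).trans (h 0 (Nat.zero_le _) 0 hD 0 ?_)
    rw [Set.mem_Icc]
    constructor
    · simp
    · simp only [Nat.cast_zero, zero_div, zero_add]
      positivity
  have h1 : ∀ m ≤ n, ∀ y : ℝ, ‖AA D m y‖ ≤ sc D ^ D * M := by
    intro m hm y
    apply AA_all hD hsq
    intro z hz
    unfold JJ at hz
    rw [Set.mem_iUnion₂] at hz
    obtain ⟨j, hj, hz⟩ := hz
    apply h _ _ j (Finset.mem_range.mp hj) z ⟨hz.1, hz.2.le⟩
    calc D * m ≤ D * n := Nat.mul_le_mul_left _ hm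
      _ ≤ max C₀ D * n := Nat.mul_le_mul_right _ (le_max_right _ _)
  have h2 := AA_to_FF S hSp h1 n le_rfl x
  refine h2.trans ?_
  rw [← mul_assoc]
  apply mul_le_mul_of_nonneg_right _ hM
  refine hC₀.trans ?_
  exact_mod_cast le_max_left C₀ D

theorem arc_final {δ : ℝ} (hδ : 1 / 24 < δ) : ∃ C : ℕ, ∀ (n : ℕ) (M : ℝ),
    (∀ R ≤ C * n, ∀ y ∈ Set.Icc (1 / 4 - δ) (1 / 4 + δ), ‖FF R y‖ ≤ M) →
      ∀ x : ℝ, ‖FF n x‖ ≤ C * M := by
  set δ' := min δ (1 / 12) with hδ'
  have h1 : δ' ≤ 1 / 12 := min_le_right _ _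
  have h2 : 1 / 24 < δ' := lt_min hδ (by norm_num)
  have h3 : δ' ≤ δ := min_le_left _ _
  have hε : 0 < 2 * δ' - 1 / 12 := by linarith
  obtain ⟨k, hk⟩ := pow_unbounded_of_one_lt (3 * δ' / (2 * δ' - 1 / 12)) (by norm_num : (1:ℝ) < 3)
  have hk' : 3 * δ' ≤ 3 ^ (k + 1) * (2 * δ' - 1 / 12) := by
    rw [div_lt_iff₀ hε] at hk
    rw [pow_succ]
    have : 0 < (3:ℝ) ^ k * (2 * δ' - 1 / 12) := by positivity
    nlinarith
  refine ⟨max (18 * 3 ^ k) (16 * k + 20), fun n M h x => ?_⟩
  have hA : ArcBd δ' M (max (18 * 3 ^ k) (16 * k + 20) * n) := by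
    intro R hR y hy
    exact h R hR y ⟨by linarith [hy.1], by linarith [hy.2]⟩
  have hM : 0 ≤ M :=
    (norm_nonneg _).trans (h 0 (Nat.zero_le _) (1 / 4) ⟨by linarith, by linarith⟩)
  refine (arc_bound hA h1 h2 hM hk' (n := n) ?_ x).trans ?_
  · exact Nat.mul_le_mul_right _ (le_max_left _ _)
  · calc 4 * (M * (4 * k + 5)) = ((16 * k + 20 : ℕ) : ℝ) * M := by push_cast; ring
      _ ≤ _ := by
        apply mul_le_mul_of_nonneg_right _ hM
        exact_mod_cast le_max_right _ _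

/-- transfer of growth exponents -/
theorem exponent_transfer {P : ℝ → Prop} {C : ℕ}
    (h : ∀ (n : ℕ) (M : ℝ), (∀ R ≤ C * n, ∀ y, P y → ‖FF R y‖ ≤ M) → ∀ x : ℝ, ‖FF n x‖ ≤ C * M)
    {a : ℝ} (ha : 0 ≤ a) (hK : ∃ K : ℝ, ∀ R : ℕ, 1 ≤ R → ∀ y, P y → ‖FF R y‖ ≤ K * (R : ℝ) ^ a) :
    ∃ K : ℝ, ∀ R : ℕ, 1 ≤ R → ∀ x : ℝ, ‖FF R x‖ ≤ K * (R : ℝ) ^ a := by
  obtain ⟨K, hK⟩ := hK
  refine ⟨C * (max K 0 * (C : ℝ) ^ a), fun n hn x => ?_⟩
  have h1 := h n (max K 0 * ((C : ℝ) * n) ^ a) (fun R hR y hy => by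
    rcases Nat.eq_zero_or_pos R with h0 | h0
    · rw [h0]
      have : FF 0 y = 0 := by unfold FF; simp
      rw [this, norm_zero]
      positivity
    · refine (hK R h0 y hy).trans ?_
      apply mul_le_mul (le_max_left _ _) _ (by positivity) (le_max_right _ _)
      apply Real.rpow_le_rpow (by positivity) _ ha
      exact_mod_cast hR) x
  refine h1.trans (le_of_eq ?_)
  rw [Real.mul_rpow (by positivity) (by positivity)]
  ring

end Pool.Agent.H62
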