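import Pool.Agent.H62.Abel

/-!
Mellin / Laplace transform of `S b`.
-/

namespace Pool.Agent.H62

open Real Filter Topology MeasureTheory Set


lemma mellin_eq_integral_exp (f : ℝ → ℂ) (s : ℂ) :
    mellin f s = ∫ u : ℝ, Complex.exp (s * u) * f (Real.exp u) := by
  rw [mellin, ← Real.range_exp, ← image_univ,
    integral_image_eq_integral_abs_deriv_smul MeasurableSet.univ
      (fun x _ => (Real.hasDerivAt_exp x).hasDerivWithinAt) Real.exp_injective.injOn]
  rw [Measure.restrict_univ]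
  congr 1
  ext u
  rw [abs_of_pos (Real.exp_pos u), Complex.real_smul, smul_eq_mul, ← mul_assoc]
  congr 1
  rw [Complex.cpow_def_of_ne_zero (by simp), ← Complex.ofReal_log (Real.exp_pos u).le,
    Real.log_exp, Complex.ofReal_exp, ← Complex.exp_add]
  congr 1
  ring

/-- Mellin transform of `S b` in the region of absolute convergence. -/
theorem mellin_S {b : ℕ → ℂ} (hb0 : b 0 = 0) (hb : ∀ n, ‖b n‖ ≤ 1) {s : ℂ}
    (h1 : 1 < s.re) (h2 : s.re < 2) :
    mellin (S b) (-s) = Complex.Gammaℝ (2 - s) * LSeries b s := by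
  set a : ℕ → ℂ := fun n => 2 * b n / (n : ℂ) ^ 2 with ha
  set r : ℕ → ℝ := fun n => 1 / (n : ℝ) with hr
  set F : ℝ → ℂ := fun y => ∑' n : ℕ, (if r n = 0 then 0 else a n * rexp (-π * r n ^ 2 * y)) with hF
  have hs' : 0 < (2 - s).re := by simp; linarith
  have hna : ∀ n : ℕ, ‖a n‖ ≤ 2 * (1 / (n : ℝ) ^ 2) := by
    intro n
    simp only [ha, norm_div, norm_mul, norm_pow, Complex.norm_natCast, Complex.norm_ofNat]
    rw [mul_div_assoc]
    gcongr
    exact hb n
  have hsumF : ∀ y ∈ Ioi (0:ℝ), Summable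
      (fun n : ℕ => (if r n = 0 then (0:ℂ) else a n * rexp (-π * r n ^ 2 * y))) := by
    intro y hy
    refine Summable.of_norm_bounded
      (((Real.summable_one_div_nat_pow (p := 2)).mpr (by norm_num)).mul_left 2) (fun n => ?_)
    split_ifs with h
    · simp
    · rw [norm_mul, Complex.norm_real, Real.norm_eq_abs, abs_of_pos (Real.exp_pos _)]
      have he : Real.exp (-π * r n ^ 2 * y) ≤ 1 := by
        rw [Real.exp_le_one_iff]
        have : 0 ≤ π * (r n ^ 2 * y) := by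
          have := Real.pi_pos
          have hy' : 0 < y := hy
          positivity
        linarith
      calc ‖a n‖ * Real.exp (-π * r n ^ 2 * y) ≤ ‖a n‖ * 1 := by gcongr
        _ ≤ 2 * (1 / (n : ℝ) ^ 2) := by rw [mul_one]; exact hna n
  have hsum : Summable fun n : ℕ => ‖a n‖ / |r n| ^ (2 - s).re := by
    have h3 : Summable (fun n : ℕ => 2 * (1 / (n : ℝ) ^ s.re)) :=
      ((Real.summable_one_div_nat_rpow).mpr h1).mul_left 2
    refine Summable.of_nonneg_of_le (fun n => by positivity) (fun n => ?_) h3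
    rcases Nat.eq_zero_or_pos n with h0 | hn
    · subst h0; simp [ha, hb0]; positivity
    have hn' : (0:ℝ) < n := by exact_mod_cast hn
    have hrn : |r n| = (n:ℝ)⁻¹ := by simp [hr]
    rw [hrn, Real.inv_rpow hn'.le]
    calc ‖a n‖ / ((n:ℝ) ^ (2 - s).re)⁻¹ ≤ 2 * (1 / (n : ℝ) ^ 2) / ((n:ℝ) ^ (2 - s).re)⁻¹ := by
          gcongr; exact hna n
      _ = 2 * ((n:ℝ) ^ (2 - s).re / (n : ℝ) ^ (2:ℝ)) := by
          rw [Real.rpow_two]; field_simp
      _ = 2 * (1 / (n : ℝ) ^ s.re) := by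
          rw [← Real.rpow_sub hn']
          have : (2 - s).re - 2 = -s.re := by simp
          rw [this, Real.rpow_neg hn'.le, one_div]
  have hkey := hasSum_mellin_pi_mul_sq (a := a) (r := r) (F := F) (s := 2 - s) hs'
    (fun t ht => (hsumF t ht).hasSum) hsum
  -- relate `S b` and `F`
  have hSF : ∀ X ∈ Ioi (0:ℝ), S b X = ((X:ℂ) ^ (2:ℂ)) • F (X ^ (2:ℝ)) := by
    intro X hX
    have hX0 : (0:ℝ) < X := hX
    rw [smul_eq_mul, hF, ← tsum_mul_left]
    unfold S
    congr 1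
    ext n
    rcases Nat.eq_zero_or_pos n with h0 | hn
    · subst h0; simp [hr]
    have hn' : (n:ℝ) ≠ 0 := by exact_mod_cast hn.ne'
    have hrn : r n ≠ 0 := by simp [hr]; exact hn.ne'
    rw [if_neg hrn]
    simp only [ha, hr, om]
    rw [show ((2:ℂ)) = ((2:ℕ):ℂ) by norm_num, Complex.cpow_natCast, Real.rpow_two]
    push_cast
    have : (-(π * (X / n) ^ 2) : ℂ) = -π * (1 / n) ^ 2 * X ^ 2 := by
      field_simp
    rw [this]
    have hn'' : (n:ℂ) ≠ 0 := by exact_mod_cast hn.ne'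
    field_simp
  have e1 : mellin (S b) (-s) = mellin (fun X : ℝ => ((X:ℂ) ^ (2:ℂ)) • F (X ^ (2:ℝ))) (-s) := by
    unfold mellin
    refine setIntegral_congr_fun measurableSet_Ioi (fun X hX => ?_)
    simp only
    rw [hSF X hX]
  rw [e1, mellin_cpow_smul (fun X : ℝ => F (X ^ (2:ℝ))), mellin_comp_rpow]
  have e2 : (-s + 2) / ((2:ℝ):ℂ) = (2 - s) / 2 := by push_cast; ring
  rw [e2, ← hkey.tsum_eq, LSeries, ← tsum_mul_left]
  rw [← tsum_const_smul'' ]
  congr 1
  ext n
  rcases Nat.eq_zero_or_pos n with h0 | hn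
  · subst h0; simp [ha, hb0]
  have hn' : (n:ℂ) ≠ 0 := by exact_mod_cast hn.ne'
  rw [LSeries.term_of_ne_zero hn.ne']
  have hrn : |r n| = (n:ℝ)⁻¹ := by simp [hr]
  rw [hrn]
  simp only [ha]
  push_cast
  rw [Complex.inv_cpow _ _ (by rw [Complex.natCast_arg]; exact Real.pi_pos.ne),
    Complex.cpow_sub _ _ hn', show ((2:ℂ)) = ((2:ℕ):ℂ) by norm_num, Complex.cpow_natCast]
  rw [Complex.real_smul]
  push_cast
  have h4 : (n:ℂ) ^ s ≠ 0 := by
    rw [Ne, Complex.cpow_eq_zero_iff]; tauto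
  rw [abs_of_pos (by norm_num : (0:ℝ) < 2)]
  push_cast
  field_simp

end Pool.Agent.H62
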