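import Mathlib

/-!
Weight function `om v = 2 v^2 exp (-pi v^2)` and summation by parts for sums
`sum b n * om (X / n)`.
-/

namespace Pool.Agent.H62

open Real Finset

/-- The weight `om v = 2 v^2 exp (-pi v^2)`. -/
noncomputable def om (v : ℝ) : ℝ := 2 * v ^ 2 * Real.exp (-(π * v ^ 2))

lemma om_nonneg (v : ℝ) : 0 ≤ om v := by unfold om; positivity

@[simp] lemma om_zero : om 0 = 0 := by simp [om]

lemma om_le (v : ℝ) : om v ≤ 2 * v ^ 2 := by
  unfold om
  have h : Real.exp (-(π * v ^ 2)) ≤ 1 :=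
    Real.exp_le_one_iff.mpr (by nlinarith [Real.pi_pos, sq_nonneg v])
  nlinarith [sq_nonneg v]

lemma continuous_om : Continuous om := by unfold om; fun_prop

lemma hasDerivAt_om (v : ℝ) :
    HasDerivAt om (4 * v * (1 - π * v ^ 2) * Real.exp (-(π * v ^ 2))) v := by
  have h1 : HasDerivAt (fun v : ℝ => 2 * v ^ 2) (2 * (2 * v)) v := by
    have := (hasDerivAt_pow 2 v).const_mul 2
    simpa using this
  have h3 : HasDerivAt (fun v : ℝ => -(π * v ^ 2)) (-(π * (2 * v))) v := by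
    have h5 := ((hasDerivAt_pow 2 v).const_mul π).fun_neg
    simpa using h5
  have h4 := h1.fun_mul h3.exp
  exact h4.congr_deriv (by ring)

lemma abs_one_sub_mul_exp_le (x : ℝ) (hx : 0 ≤ x) : |1 - x| * Real.exp (-x) ≤ 1 := by
  have h1 : |1 - x| ≤ Real.exp x := by
    rw [abs_le]
    constructor
    · have := Real.add_one_le_exp x
      linarith
    · have := Real.add_one_le_exp x
      linarith
  calc |1 - x| * Real.exp (-x) ≤ Real.exp x * Real.exp (-x) := by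
        gcongr
    _ = 1 := by rw [← Real.exp_add]; simp

lemma om_deriv_bound1 (v : ℝ) (hv : 0 ≤ v) :
    |4 * v * (1 - π * v ^ 2) * Real.exp (-(π * v ^ 2))| ≤ 4 * v := by
  have h := abs_one_sub_mul_exp_le (π * v ^ 2) (by positivity)
  rw [abs_mul, abs_mul, abs_of_nonneg (by positivity : (0:ℝ) ≤ 4 * v),
    abs_of_pos (Real.exp_pos _)]
  calc 4 * v * |1 - π * v ^ 2| * Real.exp (-(π * v ^ 2))
      = 4 * v * (|1 - π * v ^ 2| * Real.exp (-(π * v ^ 2))) := by ring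
    _ ≤ 4 * v * 1 := by gcongr
    _ = 4 * v := by ring

lemma om_deriv_bound2 (v : ℝ) (hv : 1 ≤ v) :
    |4 * v * (1 - π * v ^ 2) * Real.exp (-(π * v ^ 2))| ≤ 4 / v ^ 2 := by
  have hv0 : 0 < v := by linarith
  rw [abs_mul, abs_mul, abs_of_nonneg (by positivity : (0:ℝ) ≤ 4 * v),
    abs_of_pos (Real.exp_pos _)]
  have h3 : (π * v ^ 2) ^ 3 / 6 ≤ Real.exp (π * v ^ 2) := by
    have := Real.pow_div_factorial_le_exp (x := π * v ^ 2) (by positivity) 3
    simpa [Nat.factorial] using this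
  have hpi3 : (3:ℝ) < π := Real.pi_gt_three
  have hpi4 : π < 3.15 := Real.pi_lt_d2
  have habs : |1 - π * v ^ 2| ≤ 1 + π * v ^ 2 := by
    rw [abs_le]; constructor <;> nlinarith [sq_nonneg v, Real.pi_pos]
  have hkey : 6 * (1 + π * v ^ 2) * v ^ 3 ≤ (π * v ^ 2) ^ 3 := by
    have h27 : (27:ℝ) ≤ π ^ 3 := by nlinarith [hpi3, sq_nonneg (π - 3), Real.pi_pos]
    have hv3 : v ^ 2 ≤ v ^ 3 := by nlinarith [sq_nonneg v]
    have hv3' : 1 ≤ v ^ 3 := by nlinarith [sq_nonneg v]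
    have h5 : 6 * (1 + π * v ^ 2) ≤ 27 * v ^ 3 := by nlinarith
    calc 6 * (1 + π * v ^ 2) * v ^ 3 ≤ 27 * v ^ 3 * v ^ 3 := by gcongr
      _ ≤ π ^ 3 * v ^ 3 * v ^ 3 := by gcongr
      _ = (π * v ^ 2) ^ 3 := by ring
  have hexp : Real.exp (-(π * v ^ 2)) ≤ 6 / (π * v ^ 2) ^ 3 := by
    rw [Real.exp_neg, inv_le_comm₀ (Real.exp_pos _) (by positivity)]
    calc (6 / (π * v ^ 2) ^ 3)⁻¹ = (π * v ^ 2) ^ 3 / 6 := by rw [inv_div]
      _ ≤ _ := h3
  calc 4 * v * |1 - π * v ^ 2| * Real.exp (-(π * v ^ 2))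
      ≤ 4 * v * (1 + π * v ^ 2) * (6 / (π * v ^ 2) ^ 3) := by gcongr
    _ ≤ 4 / v ^ 2 := by
        rw [mul_div_assoc', div_le_div_iff₀ (by positivity) (by positivity)]
        nlinarith [hkey]

lemma om_sub_le (a b C : ℝ) (hab : a ≤ b)
    (hC : ∀ v ∈ Set.Icc a b, |4 * v * (1 - π * v ^ 2) * Real.exp (-(π * v ^ 2))| ≤ C) :
    |om b - om a| ≤ C * (b - a) := by
  have h := (convex_Icc a b).norm_image_sub_le_of_norm_hasDerivWithin_le
    (f := om) (f' := fun v => 4 * v * (1 - π * v ^ 2) * Real.exp (-(π * v ^ 2))) (C := C)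
    (fun x _ => (hasDerivAt_om x).hasDerivWithinAt) (fun x hx => by simpa using hC x hx)
    (Set.left_mem_Icc.mpr hab) (Set.right_mem_Icc.mpr hab)
  rw [Real.norm_eq_abs, Real.norm_eq_abs, abs_of_nonneg (sub_nonneg.mpr hab)] at h
  exact h

/-- difference bound, general -/
lemma om_diff_le1 (X : ℝ) (hX : 0 ≤ X) (n : ℕ) (hn : 1 ≤ n) :
    |om (X / n) - om (X / (n + 1 : ℕ))| ≤ 4 * X ^ 2 / (n : ℝ) ^ 3 := by
  have hn' : (1:ℝ) ≤ n := by exact_mod_cast hn
  have hle : X / ((n + 1 : ℕ) : ℝ) ≤ X / n := by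
    push_cast
    gcongr
    linarith
  have h := om_sub_le (X / ((n + 1 : ℕ) : ℝ)) (X / n) (4 * (X / n)) hle (by
    intro v hv
    have hv0 : 0 ≤ v := le_trans (by positivity) hv.1
    refine (om_deriv_bound1 v hv0).trans ?_
    have := hv.2
    linarith)
  refine h.trans ?_
  have h2 : X / n - X / ((n + 1 : ℕ) : ℝ) ≤ X / (n : ℝ) ^ 2 := by
    push_cast
    rw [div_sub_div _ _ (by positivity) (by positivity)]
    rw [div_le_div_iff₀ (by positivity) (by positivity)]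
    nlinarith [mul_nonneg hX (by positivity : (0:ℝ) ≤ (n:ℝ) ^ 2)]
  calc 4 * (X / n) * (X / n - X / ((n + 1 : ℕ) : ℝ)) ≤ 4 * (X / n) * (X / (n : ℝ) ^ 2) := by
        gcongr
    _ = 4 * X ^ 2 / (n : ℝ) ^ 3 := by field_simp

lemma om_diff_le2 (X : ℝ) (n : ℕ) (hn : 1 ≤ n) (hnX : (n : ℝ) ≤ X) :
    |om (X / n) - om (X / (n + 1 : ℕ))| ≤ 32 / X := by
  have hn' : (1:ℝ) ≤ n := by exact_mod_cast hn
  have hX : 1 ≤ X := le_trans hn' hnX
  by_cases h1 : ((n + 1 : ℕ) : ℝ) ≤ X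
  · have hle : X / ((n + 1 : ℕ) : ℝ) ≤ X / n := by
      push_cast
      gcongr
      linarith
    have h := om_sub_le (X / ((n + 1 : ℕ) : ℝ)) (X / n) (4 * ((n + 1 : ℕ) : ℝ) ^ 2 / X ^ 2) hle (by
      intro v hv
      have hv1 : 1 ≤ v := by
        refine le_trans ?_ hv.1
        rw [le_div_iff₀ (by positivity)]
        linarith
      refine (om_deriv_bound2 v hv1).trans ?_
      have h3 : X / ((n + 1 : ℕ) : ℝ) ≤ v := hv.1
      calc 4 / v ^ 2 ≤ 4 / (X / ((n + 1 : ℕ) : ℝ)) ^ 2 := by gcongr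
        _ = 4 * ((n + 1 : ℕ) : ℝ) ^ 2 / X ^ 2 := by field_simp)
    refine h.trans ?_
    have h2 : X / n - X / ((n + 1 : ℕ) : ℝ) = X / (n * ((n + 1 : ℕ) : ℝ)) := by
      push_cast
      field_simp
      ring
    rw [h2]
    calc 4 * ((n + 1 : ℕ) : ℝ) ^ 2 / X ^ 2 * (X / (n * ((n + 1 : ℕ) : ℝ)))
        = 4 * ((n + 1 : ℕ) : ℝ) / (n * X) := by
          push_cast
          field_simp
      _ ≤ 32 / X := by
          rw [div_le_div_iff₀ (by positivity) (by positivity)]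
          push_cast
          nlinarith
  · push Not at h1
    refine (om_diff_le1 X (by linarith) n hn).trans ?_
    rw [div_le_div_iff₀ (by positivity) (by positivity)]
    push_cast at h1
    have h2 : X ≤ 2 * n := by linarith
    have h3 : X ^ 3 ≤ (2 * (n:ℝ)) ^ 3 := by gcongr
    nlinarith

/-- Abel summation, finite version. -/
lemma abel_finite (b : ℕ → ℂ) (hb : b 0 = 0) (w : ℕ → ℝ) (M : ℕ) :
    ∑ n ∈ range (M + 1), b n * (w n : ℂ) =
      ∑ n ∈ range (M + 1), (∑ k ∈ range (n + 1), b k) * ((w n - w (n + 1) : ℝ) : ℂ)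
        + (∑ k ∈ range (M + 1), b k) * (w (M + 1) : ℂ) := by
  induction M with
  | zero => simp [hb]
  | succ M ih =>
    rw [sum_range_succ, ih, sum_range_succ (n := M + 1)
      (f := fun n => (∑ k ∈ range (n + 1), b k) * ((w n - w (n + 1) : ℝ) : ℂ))]
    rw [sum_range_succ (n := M + 1) (f := fun k => b k)]
    push_cast
    ring

end Pool.Agent.H62
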