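import Pool.Agent.H62.Wc

/-!
The Fejer mean of `gfun chi` as a limit of integrals of `Wc chi` on both sides of the critical line.
-/

namespace Pool.Agent.H62

open Real Filter Topology MeasureTheory Set DirichletCharacter

lemma integrable_exp_neg_mul_abs {c : ℝ} (hc : 0 < c) :
    Integrable (fun u : ℝ => Real.exp (-c * |u|)) := by
  rw [← integrableOn_univ, ← Iic_union_Ioi (a := (0:ℝ)), integrableOn_union]
  constructor
  · refine (integrableOn_exp_mul_Iic hc 0).congr_fun (fun u hu => ?_) measurableSet_Iic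
    simp only
    rw [abs_of_nonpos hu]
    ring_nf
  · refine (integrableOn_exp_mul_Ioi (neg_neg_of_pos hc) 0).congr_fun (fun u hu => ?_)
      measurableSet_Ioi
    simp only
    rw [abs_of_pos hu]

/-- weight controlling the growth -/
noncomputable def rho (u : ℝ) : ℝ := (1 + 2 * |u|) ^ (1 / 4 : ℝ)

lemma one_le_rho (u : ℝ) : 1 ≤ rho u := one_le_growth_factor (abs_nonneg u)

lemma rho_nonneg (u : ℝ) : 0 ≤ rho u := le_trans zero_le_one (one_le_rho u)

lemma continuous_rho : Continuous rho := by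
  unfold rho
  refine Continuous.rpow_const (by fun_prop) (fun u => Or.inr (by norm_num))

lemma rho_add_le (u v : ℝ) : rho (u + v) ≤ rho u * rho v := by
  unfold rho
  rw [← Real.mul_rpow (by positivity) (by positivity)]
  apply Real.rpow_le_rpow (by positivity) _ (by norm_num)
  have := abs_add_le u v
  nlinarith [abs_nonneg u, abs_nonneg v, mul_nonneg (abs_nonneg u) (abs_nonneg v)]

lemma rho_neg (u : ℝ) : rho (-u) = rho u := by simp [rho]

lemma rho_le (v : ℝ) : rho v ≤ 2 * (1 + |v|) ^ (1 / 2 : ℝ) := by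
  unfold rho
  have h1 : (1 + 2 * |v|) ^ (1 / 4 : ℝ) ≤ (2 * (1 + |v|)) ^ (1 / 4 : ℝ) := by
    apply Real.rpow_le_rpow (by positivity) _ (by norm_num)
    linarith
  refine h1.trans ?_
  rw [Real.mul_rpow (by norm_num) (by positivity)]
  gcongr
  · calc (2:ℝ) ^ (1 / 4 : ℝ) ≤ 2 ^ (1 : ℝ) :=
        Real.rpow_le_rpow_of_exponent_le (by norm_num) (by norm_num)
      _ = 2 := Real.rpow_one _
  · linarith [abs_nonneg v]
  · norm_num

lemma hb_exp_bound {b : ℕ → ℂ} {K : ℝ} (hK : 1 ≤ K) (hg : Growth b K)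
    (h : ∀ n, ‖b n‖ ≤ 1) {L : ℝ} (hL : 1 ≤ L) {δ : ℝ} (h0 : 0 ≤ δ) (h1 : δ ≤ 1) (u : ℝ) :
    ‖Complex.exp (-δ * u) * hb b L u‖ ≤ 64 * K * rho u := by
  rw [norm_mul, Complex.norm_exp]
  have hre : (-(δ:ℂ) * u).re = -δ * u := by
    rw [← Complex.ofReal_neg, ← Complex.ofReal_mul, Complex.ofReal_re]
  rw [hre]
  rcases le_or_gt 0 u with hu | hu
  · have e1 : Real.exp (-δ * u) ≤ 1 := by
      rw [Real.exp_le_one_iff]; nlinarith
    have e2 := norm_hb_le_of_growth hK hg h hL hu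
    unfold rho
    rw [abs_of_nonneg hu]
    calc Real.exp (-δ * u) * ‖hb b L u‖ ≤ 1 * ‖hb b L u‖ := by gcongr
      _ ≤ _ := by rw [one_mul]; exact e2
  · have e1 : Real.exp (-δ * u) ≤ Real.exp (-u) := by
      apply Real.exp_le_exp.mpr; nlinarith
    have e2 := norm_hb_le_small h hL u
    have e3 : 4 * Real.exp (3 * u / 2) / L ≤ 4 * Real.exp (3 * u / 2) := by
      apply div_le_self (by positivity) hL
    have e4 := one_le_rho u
    calc Real.exp (-δ * u) * ‖hb b L u‖ ≤ Real.exp (-u) * (4 * Real.exp (3 * u / 2)) := by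
          gcongr; linarith
      _ = 4 * Real.exp (u / 2) := by
          rw [mul_left_comm, ← Real.exp_add]; congr 2; ring
      _ ≤ 4 * 1 := by
          gcongr
          rw [Real.exp_le_one_iff]; linarith
      _ ≤ 64 * K * rho u := by nlinarith

lemma hb_exp_integrable {b : ℕ → ℂ} {K : ℝ} (hK : 1 ≤ K) (hg : Growth b K)
    (h : ∀ n, ‖b n‖ ≤ 1) {L : ℝ} (hL : 1 ≤ L) {δ : ℝ} (h0 : 0 < δ) (h1 : δ ≤ 1) :
    Integrable (fun u : ℝ => Complex.exp (-δ * u) * hb b L u) := by
  have hc : 0 < δ / 2 := by linarith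
  refine ((integrable_exp_neg_mul_abs hc).const_mul (64 * K * (1 + 4 / δ))).mono'
    ?_ (ae_of_all _ fun u => ?_)
  · have := continuous_hb h L
    exact Continuous.aestronglyMeasurable (by fun_prop)
  · rw [norm_mul, Complex.norm_exp]
    have hre : (-(δ:ℂ) * u).re = -δ * u := by
      rw [← Complex.ofReal_neg, ← Complex.ofReal_mul, Complex.ofReal_re]
    rw [hre]
    have h4 : 1 ≤ 1 + 4 / δ := by
      have : 0 < 4 / δ := by positivity
      linarith
    rcases le_or_gt 0 u with hu | hu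
    · have e2 := norm_hb_le_of_growth hK hg h hL hu
      have e3 : (1 + 2 * u) ^ (1 / 4 : ℝ) ≤ (1 + 4 / δ) * Real.exp (δ / 2 * u) := by
        have e31 : (1 + 2 * u) ^ (1 / 4 : ℝ) ≤ (1 + 2 * u) ^ (1 : ℝ) :=
          Real.rpow_le_rpow_of_exponent_le (by linarith) (by norm_num)
        rw [Real.rpow_one] at e31
        have e32 : 1 ≤ Real.exp (δ / 2 * u) := Real.one_le_exp (by positivity)
        have e33 : δ / 2 * u ≤ Real.exp (δ / 2 * u) := by
          have := Real.add_one_le_exp (δ / 2 * u); linarith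
        have e34 : 2 * u ≤ 4 / δ * Real.exp (δ / 2 * u) := by
          rw [div_mul_eq_mul_div, le_div_iff₀ h0]
          nlinarith
        calc (1 + 2 * u) ^ (1 / 4 : ℝ) ≤ 1 + 2 * u := e31
          _ ≤ Real.exp (δ / 2 * u) + 4 / δ * Real.exp (δ / 2 * u) := by linarith
          _ = _ := by ring
      rw [abs_of_nonneg hu]
      calc Real.exp (-δ * u) * ‖hb b L u‖
          ≤ Real.exp (-δ * u) * (64 * K * ((1 + 4 / δ) * Real.exp (δ / 2 * u))) := by
            gcongr
            exact e2.trans (by gcongr)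
        _ = 64 * K * (1 + 4 / δ) * (Real.exp (-δ * u) * Real.exp (δ / 2 * u)) := by ring
        _ = 64 * K * (1 + 4 / δ) * Real.exp (-(δ / 2) * u) := by
            rw [← Real.exp_add]; congr 2; ring
    · have e2 := norm_hb_le_small h hL u
      have e3 : 4 * Real.exp (3 * u / 2) / L ≤ 4 * Real.exp (3 * u / 2) := by
        apply div_le_self (by positivity) hL
      rw [abs_of_neg hu]
      calc Real.exp (-δ * u) * ‖hb b L u‖ ≤ Real.exp (-δ * u) * (4 * Real.exp (3 * u / 2)) := by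
            gcongr; linarith
        _ = 4 * Real.exp ((3 / 2 - δ) * u) := by
            rw [mul_left_comm, ← Real.exp_add]; congr 2; ring
        _ ≤ 64 * K * (1 + 4 / δ) * Real.exp (-(δ / 2) * -u) := by
            have e5 : Real.exp ((3 / 2 - δ) * u) ≤ Real.exp (-(δ / 2) * -u) := by
              apply Real.exp_le_exp.mpr; nlinarith
            have e6 : (4:ℝ) ≤ 64 * K * (1 + 4 / δ) := by nlinarith
            have e7 := Real.exp_pos ((3 / 2 - δ) * u)
            nlinarith [mul_le_mul e6 e5 e7.le (by linarith)]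

lemma fej_le_pow {T : ℝ} (hT : 0 < T) (v : ℝ) :
    fej T v ≤ (4 * T + 8 / T) * (1 + |v|) ^ (-2 : ℝ) := by
  have hp : 0 < 1 + |v| := by positivity
  rw [Real.rpow_neg hp.le, Real.rpow_two, ← div_eq_mul_inv, le_div_iff₀ (by positivity)]
  have h0 := fej_nonneg hT v
  have h8 : 0 < 8 / T := by positivity
  by_cases h : |v| ≤ 1
  · have h1 := fej_le_T hT v
    have h2 : (1 + |v|) ^ 2 ≤ 4 := by nlinarith [abs_nonneg v]
    calc fej T v * (1 + |v|) ^ 2 ≤ T * 4 := by gcongr
      _ ≤ _ := by linarith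
  · push Not at h
    have hv : v ≠ 0 := by
      rintro rfl
      norm_num at h
    have h1 := fej_le_inv hT hv
    have h2 : (1 + |v|) ^ 2 ≤ 4 * v ^ 2 := by
      rw [← sq_abs v]; nlinarith
    calc fej T v * (1 + |v|) ^ 2 ≤ 2 / (T * v ^ 2) * (4 * v ^ 2) := by gcongr
      _ = 8 / T := by field_simp; norm_num
      _ ≤ _ := by linarith

lemma integrable_fej_rho {T : ℝ} (hT : 0 < T) : Integrable (fun v : ℝ => fej T v * rho v) := by
  have h1 : Integrable (fun v : ℝ => (1 + ‖v‖) ^ (-(3 / 2) : ℝ)) :=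
    integrable_one_add_norm (by simp; norm_num)
  refine (h1.const_mul ((4 * T + 8 / T) * 2)).mono'
    ((continuous_fej hT).mul continuous_rho).aestronglyMeasurable (ae_of_all _ fun v => ?_)
  rw [Real.norm_eq_abs, abs_of_nonneg (mul_nonneg (fej_nonneg hT v) (rho_nonneg v)),
    Real.norm_eq_abs]
  have hp : 0 < 1 + |v| := by positivity
  calc fej T v * rho v ≤ ((4 * T + 8 / T) * (1 + |v|) ^ (-2 : ℝ)) * (2 * (1 + |v|) ^ (1 / 2 : ℝ)) :=
        mul_le_mul (fej_le_pow hT v) (rho_le v) (rho_nonneg v) (by positivity)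
    _ = (4 * T + 8 / T) * 2 * ((1 + |v|) ^ (-2 : ℝ) * (1 + |v|) ^ (1 / 2 : ℝ)) := by ring
    _ = (4 * T + 8 / T) * 2 * (1 + |v|) ^ (-(3 / 2) : ℝ) := by
        rw [← Real.rpow_add hp]; norm_num

lemma integrable_fej_rho_shift {T : ℝ} (hT : 0 < T) (t : ℝ) :
    Integrable (fun u : ℝ => fej T (t - u) * rho u) := by
  have h1 := ((integrable_fej_rho hT).comp_sub_left t).mul_const (rho t)
  refine h1.mono' ?_ (ae_of_all _ fun u => ?_)
  · have := continuous_fej hT
    have := continuous_rho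
    exact Continuous.aestronglyMeasurable (by fun_prop)
  · rw [Real.norm_eq_abs, abs_of_nonneg (mul_nonneg (fej_nonneg hT _) (rho_nonneg _))]
    have h2 := rho_add_le t (-(t - u))
    rw [rho_neg] at h2
    have h3 : t + -(t - u) = u := by ring
    rw [h3] at h2
    calc fej T (t - u) * rho u ≤ fej T (t - u) * (rho t * rho (t - u)) := by
          gcongr; exact fej_nonneg hT _
      _ = fej T (t - u) * rho (t - u) * rho t := by ring

variable {q : ℕ} [NeZero q]

/-- two sided function attached to `chi` -/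
noncomputable def gfun (χ : DirichletCharacter ℂ q) (u : ℝ) : ℂ :=
  hb (bchi χ) (Real.sqrt q) u - rootNumber χ⁻¹ * hb (bchi χ⁻¹) (Real.sqrt q) (-u)

/-- Fejer mean -/
noncomputable def PT (χ : DirichletCharacter ℂ q) (T t : ℝ) : ℂ :=
  ∫ u : ℝ, (fej T (t - u) : ℂ) * gfun χ u

lemma one_le_sqrt_q : 1 ≤ Real.sqrt (q : ℝ) := by
  rw [Real.one_le_sqrt]
  exact_mod_cast Nat.one_le_iff_ne_zero.mpr (NeZero.ne q)

lemma measurable_Wc {χ : DirichletCharacter ℂ q} (hχ : χ ≠ 1) : Measurable (Wc χ) := by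
  unfold Wc
  have h1 : Measurable (LFunction χ) := (differentiable_LFunction hχ).continuous.measurable
  have h2 : Measurable (fun s : ℂ => (Complex.Gammaℝ s)⁻¹) :=
    Complex.differentiable_Gammaℝ_inv.continuous.measurable
  have h3 : Measurable Complex.Gammaℝ := by
    have h30 : Complex.Gammaℝ = fun s => ((Complex.Gammaℝ s)⁻¹)⁻¹ := by ext; simp
    rw [h30]
    exact h2.inv
  have h4 : Measurable (fun z : ℂ => Complex.Gammaℝ (3 / 2 - z)) := h3.comp (by fun_prop)
  have h5 : Measurable (fun z : ℂ => LFunction χ (1 / 2 + z)) := h1.comp (by fun_prop)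
  have h6 : Measurable (fun z : ℂ => Complex.exp (-z * Real.log (Real.sqrt q))) := by fun_prop
  exact (h6.mul h4).div h5

omit [NeZero q] in
lemma norm_exp_I_mul (τ t : ℝ) : ‖Complex.exp (Complex.I * τ * t)‖ = 1 := by
  have : Complex.I * τ * t = ((τ * t : ℝ) : ℂ) * Complex.I := by push_cast; ring
  rw [this, Complex.norm_exp_ofReal_mul_I]

lemma norm_laplace_le {h : ℝ → ℂ} (δ τ : ℝ) :
    ‖∫ u : ℝ, Complex.exp (-(δ + Complex.I * τ) * u) * h u‖ ≤
      ∫ u : ℝ, ‖Complex.exp (-δ * u) * h u‖ := by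
  refine (norm_integral_le_integral_norm _).trans (le_of_eq ?_)
  congr 1
  ext u
  rw [norm_mul, norm_mul, Complex.norm_exp, Complex.norm_exp]
  congr 2
  simp

lemma PT_aux {χ : DirichletCharacter ℂ q} (hp : χ.IsPrimitive) (ho : χ.Odd) {K : ℝ} (hK : 1 ≤ K)
    (hg : Growth (bchi χ) K) (hg' : Growth (bchi χ⁻¹) K) {T : ℝ} (hT : 0 < T) (t : ℝ)
    {δ : ℝ} (h0 : 0 < δ) (h1 : δ ≤ 1) :
    (∫ u : ℝ, (fej T (t - u) : ℂ) *
        (Complex.exp (-δ * u) * hb (bchi χ) (Real.sqrt q) u)) -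
      rootNumber χ⁻¹ * (∫ u : ℝ, (fej T (t - u) : ℂ) *
        (Complex.exp (δ * u) * hb (bchi χ⁻¹) (Real.sqrt q) (-u))) =
      (1 / 2) * ∫ τ : ℝ, (tri T τ : ℂ) * Complex.exp (Complex.I * τ * t) *
        (Wc χ (δ + Complex.I * τ) - Wc χ (-δ + Complex.I * τ)) := by
  have hi := hb_exp_integrable hK hg (norm_bchi_le χ) (one_le_sqrt_q (q := q)) h0 h1
  have hi' := hb_exp_integrable hK hg' (norm_bchi_le χ⁻¹) (one_le_sqrt_q (q := q)) h0 h1
  have e1 := fej_conv hT t (hb (bchi χ) (Real.sqrt q)) δ hi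
  have e2 := fej_conv hT (-t) (hb (bchi χ⁻¹) (Real.sqrt q)) δ hi'
  have e3 : (∫ u : ℝ, (fej T (t - u) : ℂ) *
        (Complex.exp (δ * u) * hb (bchi χ⁻¹) (Real.sqrt q) (-u))) =
      ∫ u : ℝ, (fej T (-t - u) : ℂ) *
        (Complex.exp (-δ * u) * hb (bchi χ⁻¹) (Real.sqrt q) u) := by
    rw [← integral_neg_eq_self]
    congr 1
    ext u
    have : fej T (t - -u) = fej T (-t - u) := by
      rw [← fej_neg]; congr 1; ring
    rw [this, neg_neg]
    congr 3
    push_cast
    ring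
  have hW1 : ∀ τ : ℝ, (∫ u : ℝ, Complex.exp (-(δ + Complex.I * τ) * u) *
      hb (bchi χ) (Real.sqrt q) u) = Wc χ (δ + Complex.I * τ) := by
    intro τ
    exact laplace_bchi (odd_ne_one ho) (by linarith) hg (by simpa using h0)
      (by simp; linarith)
  have hW2 : ∀ τ : ℝ, rootNumber χ⁻¹ * (∫ u : ℝ, Complex.exp (-(δ + Complex.I * τ) * u) *
      hb (bchi χ⁻¹) (Real.sqrt q) u) = Wc χ (-δ + Complex.I * (-τ : ℝ)) := by
    intro τ
    rw [laplace_bchi (odd_ne_one (odd_inv ho)) (by linarith) hg' (by simpa using h0)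
      (by simp; linarith)]
    rw [Wc_fe hp ho (z := -δ + Complex.I * (-τ : ℝ)) (by simp; linarith) (by simp; linarith)]
    congr 2
    push_cast
    ring
  rw [e1, e3, e2]
  simp_rw [hW1]
  have e4 : rootNumber χ⁻¹ * ((1 / 2) * ∫ τ : ℝ, (tri T τ : ℂ) *
      Complex.exp (Complex.I * τ * ((-t : ℝ) : ℂ)) *
        ∫ u : ℝ, Complex.exp (-(δ + Complex.I * τ) * u) * hb (bchi χ⁻¹) (Real.sqrt q) u) =
      (1 / 2) * ∫ τ : ℝ, (tri T τ : ℂ) * Complex.exp (Complex.I * τ * t) *
        Wc χ (-δ + Complex.I * τ) := by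
    rw [mul_left_comm, ← integral_const_mul]
    congr 1
    rw [← integral_neg_eq_self]
    congr 1
    ext τ
    have := hW2 (-τ)
    rw [neg_neg] at this
    rw [mul_left_comm, this, tri_neg]
    congr 3
    push_cast
    ring
  rw [e4, ← mul_sub]
  congr 1
  rw [← integral_sub]
  · congr 1
    ext τ
    ring
  · have hb1 : Integrable (fun τ : ℝ => ((tri T τ : ℝ) : ℂ)) := (integrable_tri hT).ofReal
    have hmeas : Measurable (fun τ : ℝ => Complex.exp (Complex.I * τ * t) *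
        Wc χ (δ + Complex.I * τ)) := by
      have := (measurable_Wc (odd_ne_one ho)).comp
        (show Measurable (fun τ : ℝ => (δ : ℂ) + Complex.I * τ) by fun_prop)
      exact (show Measurable (fun τ : ℝ => Complex.exp (Complex.I * τ * t)) by fun_prop).mul this
    have := hb1.mul_bdd (c := ∫ u : ℝ, ‖Complex.exp (-δ * u) * hb (bchi χ) (Real.sqrt q) u‖)
      hmeas.aestronglyMeasurable (ae_of_all _ fun τ => by
        rw [norm_mul, norm_exp_I_mul, one_mul, ← hW1]
        exact norm_laplace_le δ τ)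
    refine this.congr (ae_of_all _ fun τ => ?_)
    simp only
    ring
  · have hb1 : Integrable (fun τ : ℝ => ((tri T τ : ℝ) : ℂ)) := (integrable_tri hT).ofReal
    have hmeas : Measurable (fun τ : ℝ => Complex.exp (Complex.I * τ * t) *
        Wc χ (-δ + Complex.I * τ)) := by
      have := (measurable_Wc (odd_ne_one ho)).comp
        (show Measurable (fun τ : ℝ => -(δ : ℂ) + Complex.I * τ) by fun_prop)
      exact (show Measurable (fun τ : ℝ => Complex.exp (Complex.I * τ * t)) by fun_prop).mul this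
    have := hb1.mul_bdd (c := ‖rootNumber χ⁻¹‖ *
        ∫ u : ℝ, ‖Complex.exp (-δ * u) * hb (bchi χ⁻¹) (Real.sqrt q) u‖)
      hmeas.aestronglyMeasurable (ae_of_all _ fun τ => by
        have h5 := hW2 (-τ)
        rw [neg_neg] at h5
        rw [norm_mul, norm_exp_I_mul, one_mul, ← h5, norm_mul]
        gcongr
        have := norm_laplace_le (h := hb (bchi χ⁻¹) (Real.sqrt q)) δ (-τ)
        exact this)
    refine this.congr (ae_of_all _ fun τ => ?_)
    simp only
    ring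

lemma tendsto_fej_exp {b : ℕ → ℂ} {K : ℝ} (hK : 1 ≤ K) (hg : Growth b K)
    (h : ∀ n, ‖b n‖ ≤ 1) {L : ℝ} (hL : 1 ≤ L) {T : ℝ} (hT : 0 < T) (t : ℝ) :
    Tendsto (fun δ : ℝ => ∫ u : ℝ, (fej T (t - u) : ℂ) * (Complex.exp (-δ * u) * hb b L u))
      (𝓝[>] 0) (𝓝 (∫ u : ℝ, (fej T (t - u) : ℂ) * hb b L u)) := by
  have hev : ∀ᶠ δ : ℝ in 𝓝[>] 0, 0 ≤ δ ∧ δ ≤ 1 := by
    have h1 : ∀ᶠ δ : ℝ in 𝓝[>] 0, δ ∈ Ioo (0:ℝ) 1 := Ioo_mem_nhdsGT one_pos
    filter_upwards [h1] with δ hδ
    exact ⟨hδ.1.le, hδ.2.le⟩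
  apply tendsto_integral_filter_of_dominated_convergence
    (fun u => 64 * K * (fej T (t - u) * rho u))
  · filter_upwards with δ
    have := continuous_fej hT
    have := continuous_hb h L
    exact Continuous.aestronglyMeasurable (by fun_prop)
  · filter_upwards [hev] with δ hδ
    refine ae_of_all _ fun u => ?_
    rw [norm_mul, Complex.norm_real, Real.norm_eq_abs, abs_of_nonneg (fej_nonneg hT _)]
    have := hb_exp_bound hK hg h hL hδ.1 hδ.2 u
    calc fej T (t - u) * ‖Complex.exp (-δ * u) * hb b L u‖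
        ≤ fej T (t - u) * (64 * K * rho u) := by gcongr; exact fej_nonneg hT _
      _ = _ := by ring
  · exact (integrable_fej_rho_shift hT t).const_mul _
  · refine ae_of_all _ fun u => ?_
    refine tendsto_const_nhds.mul ?_
    have : Tendsto (fun δ : ℝ => Complex.exp (-(δ:ℂ) * u) * hb b L u) (𝓝 0)
        (𝓝 (Complex.exp (-((0:ℝ):ℂ) * u) * hb b L u)) := by
      apply Continuous.tendsto
      fun_prop
    simp only [Complex.ofReal_zero, neg_zero, zero_mul, Complex.exp_zero, one_mul] at this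
    exact this.mono_left nhdsWithin_le_nhds

lemma integrable_fej_hb {b : ℕ → ℂ} {K : ℝ} (hK : 1 ≤ K) (hg : Growth b K)
    (h : ∀ n, ‖b n‖ ≤ 1) {L : ℝ} (hL : 1 ≤ L) {T : ℝ} (hT : 0 < T) (t : ℝ) :
    Integrable (fun u : ℝ => (fej T (t - u) : ℂ) * hb b L u) := by
  refine ((integrable_fej_rho_shift hT t).const_mul (64 * K)).mono' ?_ (ae_of_all _ fun u => ?_)
  · have := continuous_fej hT
    have := continuous_hb h L
    exact Continuous.aestronglyMeasurable (by fun_prop)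
  · rw [norm_mul, Complex.norm_real, Real.norm_eq_abs, abs_of_nonneg (fej_nonneg hT _)]
    have := hb_exp_bound hK hg h hL (le_refl 0) zero_le_one u
    simp only [Complex.ofReal_zero, neg_zero, zero_mul, Complex.exp_zero, one_mul] at this
    calc fej T (t - u) * ‖hb b L u‖ ≤ fej T (t - u) * (64 * K * rho u) := by
          gcongr; exact fej_nonneg hT _
      _ = _ := by ring

/-- The Fejer mean of `gfun chi` is the limit of integrals of `Wc chi`. -/
theorem PT_tendsto {χ : DirichletCharacter ℂ q} (hp : χ.IsPrimitive) (ho : χ.Odd) {K : ℝ}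
    (hK : 1 ≤ K) (hg : Growth (bchi χ) K) (hg' : Growth (bchi χ⁻¹) K) {T : ℝ} (hT : 0 < T)
    (t : ℝ) :
    Tendsto (fun δ : ℝ => (1 / 2) * ∫ τ : ℝ, (tri T τ : ℂ) * Complex.exp (Complex.I * τ * t) *
        (Wc χ (δ + Complex.I * τ) - Wc χ (-δ + Complex.I * τ))) (𝓝[>] 0) (𝓝 (PT χ T t)) := by
  have h1 := tendsto_fej_exp hK hg (norm_bchi_le χ) (one_le_sqrt_q (q := q)) hT t
  have h2 := tendsto_fej_exp hK hg' (norm_bchi_le χ⁻¹) (one_le_sqrt_q (q := q)) hT (-t)
  have hflip : ∀ f : ℝ → ℂ, (∫ u : ℝ, (fej T (-t - u) : ℂ) * f u) =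
      ∫ u : ℝ, (fej T (t - u) : ℂ) * f (-u) := by
    intro f
    rw [← integral_neg_eq_self]
    congr 1
    ext u
    congr 2
    rw [← fej_neg]; congr 1; ring
  have h3 : Tendsto (fun δ : ℝ => (∫ u : ℝ, (fej T (t - u) : ℂ) *
        (Complex.exp (δ * u) * hb (bchi χ⁻¹) (Real.sqrt q) (-u)))) (𝓝[>] 0)
        (𝓝 (∫ u : ℝ, (fej T (t - u) : ℂ) * hb (bchi χ⁻¹) (Real.sqrt q) (-u))) := by
    rw [← hflip (hb (bchi χ⁻¹) (Real.sqrt q))]
    refine h2.congr (fun δ => ?_)
    rw [hflip (fun u => Complex.exp (-δ * u) * hb (bchi χ⁻¹) (Real.sqrt q) u)]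
    congr 1
    ext u
    congr 3
    push_cast
    ring
  have h4 := h1.sub (h3.const_mul (rootNumber χ⁻¹))
  have h5 : PT χ T t = (∫ u : ℝ, (fej T (t - u) : ℂ) * hb (bchi χ) (Real.sqrt q) u) -
      rootNumber χ⁻¹ * (∫ u : ℝ, (fej T (t - u) : ℂ) * hb (bchi χ⁻¹) (Real.sqrt q) (-u)) := by
    unfold PT gfun
    rw [← integral_const_mul, ← integral_sub]
    · congr 1
      ext u
      ring
    · exact integrable_fej_hb hK hg (norm_bchi_le χ) (one_le_sqrt_q (q := q)) hT t
    · apply Integrable.const_mul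
      have := (integrable_fej_hb hK hg' (norm_bchi_le χ⁻¹) (one_le_sqrt_q (q := q)) hT (-t)).comp_neg
      refine this.congr (ae_of_all _ fun u => ?_)
      simp only
      congr 2
      rw [← fej_neg]; congr 1; ring
  rw [h5]
  refine h4.congr' ?_
  have hev : ∀ᶠ δ : ℝ in 𝓝[>] 0, δ ∈ Ioo (0:ℝ) 1 := Ioo_mem_nhdsGT one_pos
  filter_upwards [hev] with δ hδ
  exact PT_aux hp ho hK hg hg' hT t hδ.1 hδ.2.le

end Pool.Agent.H62
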