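import Pool.Agent.H62.Lbound
import Mathlib.Analysis.Complex.AbsMax
import Mathlib.Analysis.Complex.RemovableSingularity

/-!
Counting zeros of Dirichlet L-functions on segments of the critical line.
-/

namespace Pool.Agent.H62

open Real Filter Topology Set DirichletCharacter

/-- Jensen type inequality, by induction on the number of zeros. -/
theorem jensen_finset {r R : ℝ} (hr : 0 < r) (hrR : r < R) (Z : Finset ℂ) :
    ∀ (f : ℂ → ℂ) (M : ℝ), Differentiable ℂ f → (∀ z, ‖z‖ = R → ‖f z‖ ≤ M) →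
      (∀ a ∈ Z, ‖a‖ ≤ r ∧ f a = 0) → ‖f 0‖ * (R / r) ^ Z.card ≤ M := by
  have hR : 0 < R := by linarith
  classical
  induction Z using Finset.induction_on with
  | empty =>
    intro f M hf hM _
    rw [Finset.card_empty, pow_zero, mul_one]
    have hb : Bornology.IsBounded (Metric.ball (0:ℂ) R) := Metric.isBounded_ball
    refine Complex.norm_le_of_forall_mem_frontier_norm_le hb hf.diffContOnCl ?_
      (subset_closure (Metric.mem_ball_self hR))
    intro z hz
    rw [frontier_ball _ hR.ne', mem_sphere_zero_iff_norm] at hz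
    exact hM z hz
  | insert a Z ha ih =>
    intro f M hf hM hZ
    have hZa := hZ a (Finset.mem_insert_self a Z)
    by_cases h0 : a = 0
    · have : f 0 = 0 := by have h := hZa.2; rwa [h0] at h
      rw [this, norm_zero, zero_mul]
      exact (norm_nonneg _).trans (hM R (by simp [abs_of_pos hR]))
    have ha0 : 0 < ‖a‖ := norm_pos_iff.mpr h0
    set g : ℂ → ℂ := fun z => dslope f a z * ((R ^ 2 - (starRingEnd ℂ) a * z) / R) with hg
    have hgd : Differentiable ℂ g := by
      have h1 : Differentiable ℂ (dslope f a) := by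
        rw [← differentiableOn_univ, Complex.differentiableOn_dslope univ_mem,
          differentiableOn_univ]
        exact hf
      fun_prop
    have hgM : ∀ z, ‖z‖ = R → ‖g z‖ ≤ M := by
      intro z hz
      have hza : z ≠ a := by
        rintro rfl
        linarith [hZa.1]
      have hzan : 0 < ‖z - a‖ := norm_pos_iff.mpr (sub_ne_zero.mpr hza)
      have key : ‖(R : ℂ) ^ 2 - (starRingEnd ℂ) a * z‖ = R * ‖z - a‖ := by
        have e1 : ((R : ℂ) ^ 2) = (starRingEnd ℂ) z * z := by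
          rw [mul_comm, Complex.mul_conj, Complex.normSq_eq_norm_sq, hz]
          push_cast; ring
        rw [e1, ← sub_mul, ← map_sub, norm_mul, Complex.norm_conj, hz, mul_comm]
      rw [hg]
      simp only
      rw [dslope_of_ne _ hza, slope_def_field, hZa.2, sub_zero, norm_mul, norm_div, norm_div, key,
        Complex.norm_real, Real.norm_eq_abs, abs_of_pos hR]
      refine le_trans (le_of_eq ?_) (hM z hz)
      field_simp
    have hgZ : ∀ b ∈ Z, ‖b‖ ≤ r ∧ g b = 0 := by
      intro b hb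
      have h1 := hZ b (Finset.mem_insert_of_mem hb)
      refine ⟨h1.1, ?_⟩
      have hba : b ≠ a := by
        rintro rfl; exact ha hb
      rw [hg]
      simp only
      rw [dslope_of_ne _ hba, slope_def_field, hZa.2, h1.2]
      simp
    have h2 := ih g M hgd hgM hgZ
    have h3 : ‖f 0‖ * (R / r) ≤ ‖g 0‖ := by
      rw [hg]
      simp only
      rw [dslope_of_ne _ (Ne.symm h0), slope_def_field, hZa.2, mul_zero, sub_zero, sub_zero,
        zero_sub, norm_mul, norm_div, norm_neg, norm_div, norm_pow, Complex.norm_real,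
        Real.norm_eq_abs, abs_of_pos hR]
      have e1 : ‖f 0‖ / ‖a‖ * (R ^ 2 / R) = ‖f 0‖ * (R / ‖a‖) := by
        field_simp
      rw [e1]
      gcongr
      exact hZa.1
    rw [Finset.card_insert_of_notMem ha, pow_succ]
    calc ‖f 0‖ * ((R / r) ^ Z.card * (R / r)) = (‖f 0‖ * (R / r)) * (R / r) ^ Z.card := by ring
      _ ≤ ‖g 0‖ * (R / r) ^ Z.card := by
          apply mul_le_mul_of_nonneg_right h3
          positivity
      _ ≤ M := h2

variable {q : ℕ} [NeZero q]

/-- zeros on a unit segment of the critical line. -/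
lemma zeros_unit {χ : DirichletCharacter ℂ q} (hχ : χ ≠ 1) (τ₀ : ℝ) (Z : Finset ℝ)
    (hZ : ∀ γ ∈ Z, |γ - τ₀| ≤ 1 / 2 ∧ LFunction χ (1 / 2 + Complex.I * γ) = 0) :
    (1 / 3 : ℝ) * (35 / 32) ^ Z.card ≤ (4 + |τ₀|) * (4 * q) := by
  classical
  set f : ℂ → ℂ := fun w => LFunction χ (2 + Complex.I * τ₀ + w) with hf
  have hfd : Differentiable ℂ f := by
    have := differentiable_LFunction hχ
    exact this.comp (differentiable_id.const_add _)
  set Z' : Finset ℂ := Z.image (fun γ : ℝ => -(3 / 2 : ℂ) + Complex.I * (γ - τ₀)) with hZ'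
  have hcard : Z'.card = Z.card := by
    rw [hZ']
    apply Finset.card_image_of_injective
    intro a b hab
    have := congrArg Complex.im hab
    simpa using this
  have hR : ∀ z : ℂ, ‖z‖ = 7 / 4 → ‖f z‖ ≤ (4 + |τ₀|) * (4 * q) := by
    intro z hz
    have h1 : |z.re| ≤ 7 / 4 := (Complex.abs_re_le_norm z).trans hz.le
    have h2 := (abs_le.mp h1).1
    have hre : 1 / 4 ≤ (2 + Complex.I * τ₀ + z).re := by
      simp; linarith
    rw [hf]
    simp only
    refine (norm_LFunction_le hχ (by linarith)).trans ?_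
    have hn : ‖2 + Complex.I * τ₀ + z‖ ≤ 4 + |τ₀| := by
      calc ‖2 + Complex.I * τ₀ + z‖ ≤ ‖(2:ℂ)‖ + ‖Complex.I * τ₀‖ + ‖z‖ := norm_add₃_le
        _ ≤ _ := by
            rw [norm_mul, Complex.norm_I, one_mul, Complex.norm_real, Real.norm_eq_abs, hz,
              Complex.norm_ofNat]
            linarith
    have hq0 : (0 : ℝ) < q := by exact_mod_cast Nat.pos_of_ne_zero (NeZero.ne q)
    have h5 : (q : ℝ) / (2 + Complex.I * τ₀ + z).re ≤ 4 * q := by
      rw [div_le_iff₀ (by linarith)]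
      nlinarith
    gcongr
  have hz2 : ∀ a ∈ Z', ‖a‖ ≤ 8 / 5 ∧ f a = 0 := by
    intro a ha
    rw [hZ', Finset.mem_image] at ha
    obtain ⟨γ, hγ, rfl⟩ := ha
    have h1 := hZ γ hγ
    constructor
    · have h3 : ‖-(3 / 2 : ℂ) + Complex.I * (γ - τ₀)‖ ^ 2 ≤ (8 / 5) ^ 2 := by
        rw [← Complex.normSq_eq_norm_sq, Complex.normSq_apply]
        have h4 := abs_le.mp h1.1
        simp
        nlinarith
      exact le_of_sq_le_sq h3 (by norm_num)
    · rw [hf]
      simp only
      rw [← h1.2]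
      congr 1
      ring
  have h := jensen_finset (r := 8 / 5) (R := 7 / 4) (by norm_num) (by norm_num) Z' f _ hfd hR hz2
  rw [hcard] at h
  have h0 : 1 / 3 ≤ ‖f 0‖ := by
    rw [hf]
    simp only
    apply norm_LFunction_two_ge
    simp
  have e : (7 / 4 / (8 / 5) : ℝ) = 35 / 32 := by norm_num
  rw [e] at h
  refine le_trans ?_ h
  gcongr

/-- Polynomial bound for the number of zeros up to height `T` on the critical line. -/
theorem zeros_card {χ : DirichletCharacter ℂ q} (hχ : χ ≠ 1) {T : ℝ} (hT : 0 ≤ T) (Z : Finset ℝ)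
    (hZ : ∀ γ ∈ Z, |γ| ≤ T ∧ LFunction χ (1 / 2 + Complex.I * γ) = 0) :
    (Z.card : ℝ) ≤ 288 * q * (T + 5) ^ 2 := by
  classical
  have hq1 : (1 : ℝ) ≤ q := by exact_mod_cast Nat.one_le_iff_ne_zero.mpr (NeZero.ne q)
  set n₀ : ℕ := ⌊144 * (q : ℝ) * (T + 5)⌋₊ with hn₀
  have hfib : ∀ a ∈ Z.image (fun γ : ℝ => round γ),
      (Z.filter (fun γ : ℝ => round γ = a)).card ≤ n₀ := by
    intro j hj
    rw [Finset.mem_image] at hj
    obtain ⟨γ₀, hγ₀, hjγ⟩ := hj
    have hj2 : |(j : ℝ)| ≤ T + 1 := by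
      have e1 := abs_sub_round γ₀
      rw [hjγ] at e1
      have e2 := (hZ γ₀ hγ₀).1
      have e3 : |(j : ℝ)| ≤ |γ₀ - j| + |γ₀| := by
        have := abs_sub_abs_le_abs_sub (j : ℝ) γ₀
        rw [abs_sub_comm] at this
        linarith
      linarith
    have h1 := zeros_unit hχ (j : ℝ) (Z.filter (fun γ : ℝ => round γ = j)) (by
      intro γ hγ
      rw [Finset.mem_filter] at hγ
      refine ⟨?_, (hZ γ hγ.1).2⟩
      have := abs_sub_round γ
      rw [hγ.2] at this
      exact this)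
    set n := (Z.filter (fun γ : ℝ => round γ = j)).card with hn
    have h2 : ((35 / 32 : ℝ)) ^ n ≤ 12 * q * (T + 5) := by
      have : (4 + |(j : ℝ)|) * (4 * q) ≤ (T + 5) * (4 * q) :=
        mul_le_mul_of_nonneg_right (by linarith) (by positivity)
      linarith
    have h3 : (n : ℝ) * Real.log (35 / 32) ≤ Real.log (12 * q * (T + 5)) := by
      rw [← Real.log_pow]
      exact Real.log_le_log (by positivity) h2
    have h4 : (1 / 12 : ℝ) ≤ Real.log (35 / 32) := by
      have := Real.one_sub_inv_le_log_of_pos (x := 35 / 32) (by norm_num)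
      norm_num at this ⊢
      linarith
    have h5 : Real.log (12 * q * (T + 5)) ≤ 12 * q * (T + 5) := by
      have := Real.log_le_sub_one_of_pos (x := 12 * q * (T + 5)) (by positivity)
      linarith
    rw [hn₀]
    apply Nat.le_floor
    have h6 : (n : ℝ) * (1 / 12) ≤ (n : ℝ) * Real.log (35 / 32) := by gcongr
    linarith
  have h1 := Finset.card_le_mul_card_image Z n₀ hfib
  set m : ℕ := ⌊T + 1⌋₊ with hm
  have himg : (Z.image (fun γ : ℝ => round γ)) ⊆ Finset.Icc (-(m : ℤ)) m := by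
    intro j hj
    rw [Finset.mem_image] at hj
    obtain ⟨γ₀, hγ₀, hjγ⟩ := hj
    have hj2 : |(j : ℝ)| ≤ T + 1 := by
      have e1 := abs_sub_round γ₀
      rw [hjγ] at e1
      have e2 := (hZ γ₀ hγ₀).1
      have e3 : |(j : ℝ)| ≤ |γ₀ - j| + |γ₀| := by
        have := abs_sub_abs_le_abs_sub (j : ℝ) γ₀
        rw [abs_sub_comm] at this
        linarith
      linarith
    have hj3 : j.natAbs ≤ m := by
      rw [hm]
      apply Nat.le_floor
      rw [Nat.cast_natAbs]
      exact_mod_cast hj2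
    rw [Finset.mem_Icc]
    omega
  have h2 := Finset.card_le_card himg
  rw [Int.card_Icc] at h2
  have h3 : (Z.image (fun γ : ℝ => round γ)).card ≤ 2 * m + 1 := by omega
  have h4 : Z.card ≤ n₀ * (2 * m + 1) := h1.trans (Nat.mul_le_mul_left _ h3)
  have h5 : (n₀ : ℝ) ≤ 144 * q * (T + 5) := Nat.floor_le (by positivity)
  have h6 : (m : ℝ) ≤ T + 1 := Nat.floor_le (by positivity)
  calc (Z.card : ℝ) ≤ n₀ * (2 * m + 1) := by exact_mod_cast h4
    _ ≤ (144 * q * (T + 5)) * (2 * (T + 5)) := by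
        gcongr
        linarith
    _ = _ := by ring

lemma zeros_finite {χ : DirichletCharacter ℂ q} (hχ : χ ≠ 1) (T : ℝ) :
    {γ : ℝ | |γ| ≤ T ∧ LFunction χ (1 / 2 + Complex.I * γ) = 0}.Finite := by
  by_contra h
  have hinf : {γ : ℝ | |γ| ≤ T ∧ LFunction χ (1 / 2 + Complex.I * γ) = 0}.Infinite := h
  obtain ⟨γ₀, hγ₀⟩ := hinf.nonempty
  have hT : 0 ≤ T := (abs_nonneg γ₀).trans hγ₀.1
  obtain ⟨Z, hZ1, hZ2⟩ := hinf.exists_subset_card_eq (⌊288 * q * (T + 5) ^ 2⌋₊ + 1)
  have h1 := zeros_card hχ hT Z (fun γ hγ => hZ1 hγ)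
  rw [hZ2] at h1
  have h2 := Nat.lt_floor_add_one (288 * q * (T + 5) ^ 2)
  push_cast at h1
  linarith

/-- The set of ordinates of zeros on the critical line up to height `T`. -/
noncomputable def ZT (χ : DirichletCharacter ℂ q) (T : ℝ) : Finset ℝ :=
  open Classical in
  if h : {γ : ℝ | |γ| ≤ T ∧ LFunction χ (1 / 2 + Complex.I * γ) = 0}.Finite then h.toFinset else ∅

lemma mem_ZT {χ : DirichletCharacter ℂ q} (hχ : χ ≠ 1) {T γ : ℝ} :
    γ ∈ ZT χ T ↔ |γ| ≤ T ∧ LFunction χ (1 / 2 + Complex.I * γ) = 0 := by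
  unfold ZT
  rw [dif_pos (zeros_finite hχ T), Set.Finite.mem_toFinset]
  rfl

lemma card_ZT {χ : DirichletCharacter ℂ q} (hχ : χ ≠ 1) {T : ℝ} (hT : 0 ≤ T) :
    ((ZT χ T).card : ℝ) ≤ 288 * q * (T + 5) ^ 2 :=
  zeros_card hχ hT _ (fun _ h => (mem_ZT hχ).mp h)

end Pool.Agent.H62
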