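import Pool.Agent.H62.WBound
import Pool.Agent.H62.ZeroCount

/-!
The Fejer mean is a trigonometric polynomial.
-/

namespace Pool.Agent.H62

open Real Filter Topology MeasureTheory Set DirichletCharacter

variable {q : ℕ} [NeZero q]

/-- numerator of `Wc` -/
noncomputable def Gc (q : ℕ) (z : ℂ) : ℂ :=
  Complex.exp (-z * Real.log (Real.sqrt q)) * Complex.Gammaℝ (3 / 2 - z)

/-- residues of `Wc` -/
noncomputable def rc (χ : DirichletCharacter ℂ q) (γ : ℝ) : ℂ :=
  Gc q (Complex.I * γ) / deriv (fun z : ℂ => LFunction χ (1 / 2 + z)) (Complex.I * γ)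

omit [NeZero q] in
lemma differentiableAt_Gc {z : ℂ} (hz : z.re < 3 / 2) : DifferentiableAt ℂ (Gc q) z := by
  unfold Gc
  refine DifferentiableAt.mul (by fun_prop) ?_
  have h30 : Complex.Gammaℝ = fun s => ((Complex.Gammaℝ s)⁻¹)⁻¹ := by ext; simp
  have h1 : DifferentiableAt ℂ Complex.Gammaℝ (3 / 2 - z) := by
    rw [h30]
    apply DifferentiableAt.inv
    · exact Complex.differentiable_Gammaℝ_inv _
    · apply inv_ne_zero
      apply Complex.Gammaℝ_ne_zero_of_re_pos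
      simp; linarith
  exact h1.comp z (by fun_prop)

lemma norm_rc_le {χ : DirichletCharacter ℂ q} (hχ : χ ≠ 1) {K : ℝ} (hK : 1 ≤ K)
    (hg : Growth (bchi χ) K) {γ T : ℝ} (hγ : γ ∈ ZT χ T) :
    ‖rc χ γ‖ ≤ 256 * MM q T / c1 q K T ^ 2 := by
  rw [mem_ZT hχ] at hγ
  have h1 := norm_deriv_ge hχ hK hg hγ.1 hγ.2
  have hc0 : 0 < c1 q K T := c1_pos hK T
  have hq0 : (1 : ℝ) ≤ q := by exact_mod_cast Nat.one_le_iff_ne_zero.mpr (NeZero.ne q)
  have hT0 : 0 ≤ T := (abs_nonneg γ).trans hγ.1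
  have hM1 : 1 ≤ MM q T := by
    rw [MM]
    nlinarith
  have hG : ‖Gc q (Complex.I * γ)‖ ≤ 2 := by
    unfold Gc
    rw [norm_mul, Complex.norm_exp]
    have hre : (-(Complex.I * (γ : ℂ)) * (Real.log (Real.sqrt q) : ℝ)).re = 0 := by
      rw [Complex.re_mul_ofReal]; simp
    rw [hre, Real.exp_zero, one_mul]
    apply norm_Gammaℝ_le
    simp
  unfold rc
  rw [norm_div]
  have h2 : 0 < c1 q K T ^ 2 / (128 * MM q T) := by positivity
  calc ‖Gc q (Complex.I * γ)‖ / ‖deriv (fun z : ℂ => LFunction χ (1 / 2 + z)) (Complex.I * γ)‖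
      ≤ 2 / (c1 q K T ^ 2 / (128 * MM q T)) := by gcongr
    _ = _ := by field_simp; norm_num

theorem PT_eq {χ : DirichletCharacter ℂ q} (hp : χ.IsPrimitive) (ho : χ.Odd) {K : ℝ}
    (hK : 1 ≤ K) (hg : Growth (bchi χ) K) (hg' : Growth (bchi χ⁻¹) K) {T : ℝ} (hT : 0 < T)
    (t : ℝ) :
    PT χ T t = ∑ γ ∈ ZT χ T, rc χ γ * (π * ((tri T γ : ℂ) * Complex.exp (Complex.I * γ * t))) := by
  have hχ : χ ≠ 1 := odd_ne_one ho
  set f : ℂ → ℂ := fun z : ℂ => LFunction χ (1 / 2 + z) with hf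
  have hfd : Differentiable ℂ f := by
    have := differentiable_LFunction hχ
    exact this.comp (differentiable_id.const_add _)
  have hWf : ∀ z, Wc χ z = Gc q z / f z := fun z => rfl
  have hpd : ∀ γ ∈ ZT χ T, ContinuousAt (dslope (fun z => Gc q z / dslope f (Complex.I * γ) z)
      (Complex.I * γ)) (Complex.I * γ) ∧
      ∀ᶠ z in 𝓝[≠] (Complex.I * (γ : ℂ)), Gc q z / f z =
        (Gc q (Complex.I * γ) / deriv f (Complex.I * γ)) / (z - Complex.I * γ) +
        dslope (fun z => Gc q z / dslope f (Complex.I * γ) z) (Complex.I * γ) z := by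
    intro γ hγ
    have hγ2 := (mem_ZT hχ).mp hγ
    apply polar_decomp hfd
    · have hopen : IsOpen {z : ℂ | z.re < 3 / 2} := isOpen_lt Complex.continuous_re continuous_const
      have hmem : Complex.I * (γ : ℂ) ∈ {z : ℂ | z.re < 3 / 2} := by simp
      filter_upwards [hopen.mem_nhds hmem] with z hz
      exact differentiableAt_Gc hz
    · exact hγ2.2
    · intro h0
      have h1 := norm_deriv_ge hχ hK hg hγ2.1 hγ2.2
      rw [← hf] at h1
      rw [h0, norm_zero] at h1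
      have hc0 : 0 < c1 q K T := c1_pos hK T
      have hq0 : (1 : ℝ) ≤ q := by exact_mod_cast Nat.one_le_iff_ne_zero.mpr (NeZero.ne q)
      have hM1 : 1 ≤ MM q T := by
        rw [MM]
        nlinarith
      have : 0 < c1 q K T ^ 2 / (128 * MM q T) := by positivity
      linarith
  have hlim := tri_limit (W := Wc χ) (Z := ZT χ T) (r := rc χ)
    (F := fun γ => dslope (fun z => Gc q z / dslope f (Complex.I * γ) z) (Complex.I * γ))
    hT (fun γ hγ => (hpd γ hγ).1) (fun γ hγ => (hpd γ hγ).2) ?_ t ?_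
  · have h1 := PT_tendsto hp ho hK hg hg' hT t
    have h2 := hlim.const_mul (1 / 2 : ℂ)
    have h3 := tendsto_nhds_unique h1 h2
    rw [h3, Finset.mul_sum]
    refine Finset.sum_congr rfl (fun γ _ => ?_)
    ring
  · intro τ hτ hτZ
    have hτ' : |τ| ≤ T := by
      rw [abs_le]; exact hτ
    have hne : f (Complex.I * τ) ≠ 0 := by
      intro h
      exact hτZ ((mem_ZT hχ).mpr ⟨hτ', h⟩)
    have hG : DifferentiableAt ℂ (Gc q) (Complex.I * τ) := differentiableAt_Gc (by simp)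
    exact hG.continuousAt.div (hfd _).continuousAt hne
  · have hev : ∀ᶠ δ : ℝ in 𝓝[>] 0, δ ∈ Ioo (0:ℝ) 1 := Ioo_mem_nhdsGT one_pos
    filter_upwards [hev] with δ hδ
    have hm := measurable_Wc hχ
    have hb : ∀ τ : ℝ, ‖Wc χ (-δ + Complex.I * τ)‖ ≤
        ‖rootNumber χ⁻¹‖ * (700 * K * δ ^ (-(5 / 4) : ℝ)) := by
      intro τ
      rw [Wc_fe hp ho (by simp; linarith [hδ.2]) (by simp; linarith [hδ.1]), norm_mul]
      have e : -(-(δ : ℂ) + Complex.I * τ) = (δ : ℂ) + Complex.I * ((-τ : ℝ) : ℂ) := by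
        push_cast; ring
      rw [e]
      gcongr
      exact norm_Wc_le (odd_ne_one (odd_inv ho)) hK hg' hδ.1 hδ.2.le (-τ)
    refine ((integrable_tri hT).mul_const (700 * K * δ ^ (-(5 / 4) : ℝ) +
      ‖rootNumber χ⁻¹‖ * (700 * K * δ ^ (-(5 / 4) : ℝ)))).mono' ?_ (ae_of_all _ fun τ => ?_)
    · have h1 := (continuous_tri T).measurable
      have h2 : Measurable (fun τ : ℝ => Wc χ (δ + Complex.I * τ)) :=
        hm.comp (by fun_prop)
      have h3 : Measurable (fun τ : ℝ => Wc χ (-δ + Complex.I * τ)) :=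
        hm.comp (by fun_prop)
      exact Measurable.aestronglyMeasurable (by fun_prop)
    · rw [norm_mul, norm_mul, norm_exp_I_mul, mul_one, Complex.norm_real, Real.norm_eq_abs,
        abs_of_nonneg (tri_nonneg T τ)]
      apply mul_le_mul_of_nonneg_left _ (tri_nonneg T τ)
      refine (norm_sub_le _ _).trans ?_
      exact add_le_add (norm_Wc_le hχ hK hg hδ.1 hδ.2.le τ) (hb τ)

end Pool.Agent.H62
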