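import Pool.Agent.H62.Fejer

/-!
Poisson kernel limit and boundary values of a function with simple poles on a vertical line.
-/

namespace Pool.Agent.H62

open Real Filter Topology MeasureTheory Set

lemma poisson_subst (ψ : ℝ → ℂ) (γ : ℝ) {δ : ℝ} (hδ : 0 < δ) :
    ∫ τ : ℝ, ψ τ * ((2 * δ / (δ ^ 2 + (τ - γ) ^ 2) : ℝ) : ℂ) =
      ∫ x : ℝ, ψ (γ + δ * x) * ((2 * (1 + x ^ 2)⁻¹ : ℝ) : ℂ) := by
  have h1 : ∀ x : ℝ, ψ (γ + δ * x) * ((2 * (1 + x ^ 2)⁻¹ : ℝ) : ℂ) =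
      (δ : ℂ) * (fun y : ℝ => ψ (γ + y) * ((2 * δ / (δ ^ 2 + y ^ 2) : ℝ) : ℂ)) (δ * x) := by
    intro x
    simp only
    have h2 : δ * (2 * δ / (δ ^ 2 + (δ * x) ^ 2)) = 2 * (1 + x ^ 2)⁻¹ := by
      have : 0 < 1 + x ^ 2 := by positivity
      field_simp
      try ring
    rw [← h2]
    push_cast
    ring
  simp_rw [h1]
  rw [integral_const_mul, Measure.integral_comp_mul_left
    (fun y : ℝ => ψ (γ + y) * ((2 * δ / (δ ^ 2 + y ^ 2) : ℝ) : ℂ)) δ, abs_of_pos (inv_pos.mpr hδ),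
    Complex.real_smul, ← mul_assoc, ← Complex.ofReal_mul, mul_inv_cancel₀ hδ.ne',
    Complex.ofReal_one, one_mul]
  rw [← integral_add_left_eq_self (fun τ : ℝ => ψ τ * ((2 * δ / (δ ^ 2 + (τ - γ) ^ 2) : ℝ) : ℂ)) γ]
  congr 1
  ext y
  congr 3
  ring

theorem poisson_tendsto {ψ : ℝ → ℂ} (hc : Continuous ψ) {C : ℝ} (hb : ∀ τ, ‖ψ τ‖ ≤ C) (γ : ℝ) :
    Tendsto (fun δ : ℝ => ∫ τ : ℝ, ψ τ * ((2 * δ / (δ ^ 2 + (τ - γ) ^ 2) : ℝ) : ℂ))
      (𝓝[>] 0) (𝓝 (2 * π * ψ γ)) := by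
  have h1 : Tendsto (fun δ : ℝ => ∫ x : ℝ, ψ (γ + δ * x) * ((2 * (1 + x ^ 2)⁻¹ : ℝ) : ℂ))
      (𝓝[>] 0) (𝓝 (∫ x : ℝ, ψ γ * ((2 * (1 + x ^ 2)⁻¹ : ℝ) : ℂ))) := by
    have hcont : Continuous (fun x : ℝ => ((2 * (1 + x ^ 2)⁻¹ : ℝ) : ℂ)) := by
      apply Complex.continuous_ofReal.comp
      refine continuous_const.mul (Continuous.inv₀ (by fun_prop) (fun x => by positivity))
    apply tendsto_integral_filter_of_dominated_convergence
      (fun x : ℝ => C * (2 * (1 + x ^ 2)⁻¹))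
    · filter_upwards with δ
      exact Continuous.aestronglyMeasurable (by fun_prop)
    · filter_upwards with δ
      refine ae_of_all _ fun x => ?_
      rw [norm_mul, Complex.norm_real, Real.norm_eq_abs, abs_of_nonneg (by positivity)]
      gcongr
      exact hb _
    · exact (integrable_inv_one_add_sq.const_mul _).const_mul _
    · refine ae_of_all _ fun x => ?_
      refine Tendsto.mul_const _ ?_
      have h2 : Tendsto (fun δ : ℝ => ψ (γ + δ * x)) (𝓝 0) (𝓝 (ψ (γ + 0 * x))) := by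
        apply Continuous.tendsto
        fun_prop
      rw [zero_mul, add_zero] at h2
      exact h2.mono_left nhdsWithin_le_nhds
  have h3 : ∫ x : ℝ, ψ γ * ((2 * (1 + x ^ 2)⁻¹ : ℝ) : ℂ) = 2 * π * ψ γ := by
    rw [integral_const_mul, integral_complex_ofReal, integral_const_mul,
      integral_univ_inv_one_add_sq]
    push_cast
    ring
  rw [h3] at h1
  refine h1.congr' ?_
  filter_upwards [self_mem_nhdsWithin] with δ hδ
  exact (poisson_subst ψ γ hδ).symm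

/-- difference of the two boundary values of a simple pole -/
lemma pole_diff {δ : ℝ} (hδ : 0 < δ) (τ γ : ℝ) (r : ℂ) :
    r / ((δ : ℂ) + Complex.I * τ - Complex.I * γ) - r / (-(δ : ℂ) + Complex.I * τ - Complex.I * γ) =
      r * ((2 * δ / (δ ^ 2 + (τ - γ) ^ 2) : ℝ) : ℂ) := by
  have h1 : (δ : ℂ) + Complex.I * τ - Complex.I * γ ≠ 0 := by
    intro h
    have := congrArg Complex.re h
    simp at this
    exact hδ.ne' this
  have h2 : -(δ : ℂ) + Complex.I * τ - Complex.I * γ ≠ 0 := by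
    intro h
    have := congrArg Complex.re h
    simp at this
    exact hδ.ne' this
  have h3 : (δ : ℂ) ^ 2 + (τ - γ) ^ 2 ≠ 0 := by
    have : 0 < δ ^ 2 + (τ - γ) ^ 2 := by positivity
    exact_mod_cast this.ne'
  push_cast
  rw [div_sub_div _ _ h1 h2, ← mul_div_assoc, div_eq_div_iff (mul_ne_zero h1 h2) h3]
  have hI : Complex.I ^ 2 = -1 := Complex.I_sq
  linear_combination (-2 * r * (δ:ℂ) * (τ - γ) ^ 2) * hI

end Pool.Agent.H62
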