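import Pool.Agent.H62.Poisson
import Mathlib.Analysis.Complex.RemovableSingularity
import Mathlib.Analysis.Complex.Schwarz

/-!
Boundary values of a function with simple poles on the imaginary axis.
-/

namespace Pool.Agent.H62

open Real Filter Topology MeasureTheory Set

/-- regular part -/
noncomputable def Hreg (W : ℂ → ℂ) (Z : Finset ℝ) (r : ℝ → ℂ) (F : ℝ → ℂ → ℂ) (z : ℂ) : ℂ :=
  (open Classical in if z.re = 0 ∧ z.im ∈ Z then F z.im z else W z) -
    ∑ γ ∈ Z, r γ / (z - Complex.I * γ)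

lemma Hreg_of_re {W : ℂ → ℂ} {Z : Finset ℝ} {r : ℝ → ℂ} {F : ℝ → ℂ → ℂ} {z : ℂ}
    (hz : z.re ≠ 0) : Hreg W Z r F z = W z - ∑ γ ∈ Z, r γ / (z - Complex.I * γ) := by
  unfold Hreg
  rw [if_neg (fun h => hz h.1)]

lemma I_mul_inj {a b : ℝ} : Complex.I * (a : ℂ) = Complex.I * b ↔ a = b := by
  constructor
  · intro h
    have := congrArg Complex.im h
    simpa using this
  · rintro rfl; rfl

lemma continuousAt_Hreg {W : ℂ → ℂ} {T : ℝ} {Z : Finset ℝ} {r : ℝ → ℂ} {F : ℝ → ℂ → ℂ}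
    (hZc : ∀ γ ∈ Z, ContinuousAt (F γ) (Complex.I * γ))
    (hZ : ∀ γ ∈ Z, ∀ᶠ z in 𝓝[≠] (Complex.I * (γ : ℂ)), W z = r γ / (z - Complex.I * γ) + F γ z)
    (hW : ∀ τ ∈ Icc (-T) T, τ ∉ Z → ContinuousAt W (Complex.I * τ))
    {τ : ℝ} (hτ : τ ∈ Icc (-T) T) :
    ContinuousAt (Hreg W Z r F) (Complex.I * τ) := by
  classical
  -- other points of Z stay away
  have hfin : ∀ s : Finset ℝ, τ ∉ s → ∀ᶠ z in 𝓝 (Complex.I * (τ : ℂ)), ¬ (z.re = 0 ∧ z.im ∈ s) := by
    intro s hs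
    have hc : ∀ᶠ z in 𝓝 (Complex.I * (τ : ℂ)), z.im ∉ s := by
      have h1 : IsClosed (↑s : Set ℝ) := s.finite_toSet.isClosed
      have h2 : IsOpen (Complex.im ⁻¹' (↑s : Set ℝ)ᶜ) :=
        h1.isOpen_compl.preimage Complex.continuous_im
      have h3 := h2.mem_nhds (x := Complex.I * (τ : ℂ)) (by simpa using hs)
      filter_upwards [h3] with z hz
      simpa using hz
    filter_upwards [hc] with z hz h
    exact hz h.2
  have hsum : ∀ s : Finset ℝ, τ ∉ s →
      ContinuousAt (fun z : ℂ => ∑ γ ∈ s, r γ / (z - Complex.I * γ)) (Complex.I * τ) := by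
    intro s hs
    refine tendsto_finsetSum _ (fun γ hγ => ?_)
    apply ContinuousAt.div continuousAt_const (by fun_prop)
    rw [sub_ne_zero, Ne, I_mul_inj]
    rintro rfl
    exact hs hγ
  by_cases h : τ ∈ Z
  · have h1 : Hreg W Z r F =ᶠ[𝓝 (Complex.I * (τ : ℂ))]
        fun z => F τ z - ∑ γ ∈ Z.erase τ, r γ / (z - Complex.I * γ) := by
      have h2 := hZ τ h
      rw [eventually_nhdsWithin_iff] at h2
      filter_upwards [h2, hfin (Z.erase τ) (by simp)] with z hz1 hz2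
      unfold Hreg
      rw [← Finset.add_sum_erase Z _ h]
      by_cases hz : z = Complex.I * τ
      · rw [if_pos (by rw [hz]; simp [h])]
        have : z.im = τ := by rw [hz]; simp
        rw [this, hz]
        simp
      · have hnot : ¬ (z.re = 0 ∧ z.im ∈ Z) := by
          rintro ⟨h3, h4⟩
          by_cases h5 : z.im = τ
          · apply hz
            apply Complex.ext
            · simpa using h3
            · simpa using h5
          · exact hz2 ⟨h3, Finset.mem_erase.mpr ⟨h5, h4⟩⟩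
        rw [if_neg hnot, hz1 hz]
        ring
    exact ((hZc τ h).sub (hsum _ (by simp))).congr h1.symm
  · have h1 : Hreg W Z r F =ᶠ[𝓝 (Complex.I * (τ : ℂ))]
        fun z => W z - ∑ γ ∈ Z, r γ / (z - Complex.I * γ) := by
      filter_upwards [hfin Z h] with z hz
      unfold Hreg
      rw [if_neg hz]
    exact ((hW τ hτ h).sub (hsum Z h)).congr h1.symm

lemma Hreg_uniform {W : ℂ → ℂ} {T : ℝ} {Z : Finset ℝ} {r : ℝ → ℂ} {F : ℝ → ℂ → ℂ}
    (hZc : ∀ γ ∈ Z, ContinuousAt (F γ) (Complex.I * γ))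
    (hZ : ∀ γ ∈ Z, ∀ᶠ z in 𝓝[≠] (Complex.I * (γ : ℂ)), W z = r γ / (z - Complex.I * γ) + F γ z)
    (hW : ∀ τ ∈ Icc (-T) T, τ ∉ Z → ContinuousAt W (Complex.I * τ)) {ε : ℝ} (hε : 0 < ε) :
    ∀ᶠ δ : ℝ in 𝓝 0, ∀ τ ∈ Icc (-T) T,
      ‖Hreg W Z r F (δ + Complex.I * τ) - Hreg W Z r F (Complex.I * τ)‖ < ε := by
  refine isCompact_Icc.eventually_forall_of_forall_eventually
    (P := fun (δ : ℝ) (τ : ℝ) =>
      ‖Hreg W Z r F (δ + Complex.I * τ) - Hreg W Z r F (Complex.I * τ)‖ < ε) (fun τ₀ hτ₀ => ?_)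
  have hc := continuousAt_Hreg hZc hZ hW hτ₀
  have h1 : Tendsto (fun p : ℝ × ℝ => ((p.1 : ℂ) + Complex.I * p.2)) (𝓝 (0, τ₀))
      (𝓝 (Complex.I * τ₀)) := by
    have : Continuous (fun p : ℝ × ℝ => ((p.1 : ℂ) + Complex.I * p.2)) := by fun_prop
    have h := this.tendsto (0, τ₀)
    simpa using h
  have h2 : Tendsto (fun p : ℝ × ℝ => (Complex.I * (p.2 : ℂ))) (𝓝 (0, τ₀))
      (𝓝 (Complex.I * τ₀)) := by
    have : Continuous (fun p : ℝ × ℝ => (Complex.I * (p.2 : ℂ))) := by fun_prop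
    have h := this.tendsto (0, τ₀)
    simpa using h
  have h3 := (hc.tendsto.comp h1).sub (hc.tendsto.comp h2)
  rw [sub_self] at h3
  have h4 := h3.norm
  rw [norm_zero] at h4
  filter_upwards [h4.eventually_lt_const hε] with p hp
  simpa using hp

theorem tri_limit {W : ℂ → ℂ} {T : ℝ} (hT : 0 < T) {Z : Finset ℝ} {r : ℝ → ℂ} {F : ℝ → ℂ → ℂ}
    (hZc : ∀ γ ∈ Z, ContinuousAt (F γ) (Complex.I * γ))
    (hZ : ∀ γ ∈ Z, ∀ᶠ z in 𝓝[≠] (Complex.I * (γ : ℂ)), W z = r γ / (z - Complex.I * γ) + F γ z)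
    (hW : ∀ τ ∈ Icc (-T) T, τ ∉ Z → ContinuousAt W (Complex.I * τ)) (t : ℝ)
    (hint : ∀ᶠ δ : ℝ in 𝓝[>] 0, Integrable (fun τ : ℝ =>
      (tri T τ : ℂ) * Complex.exp (Complex.I * τ * t) *
        (W (δ + Complex.I * τ) - W (-δ + Complex.I * τ)))) :
    Tendsto (fun δ : ℝ => ∫ τ : ℝ, (tri T τ : ℂ) * Complex.exp (Complex.I * τ * t) *
        (W (δ + Complex.I * τ) - W (-δ + Complex.I * τ))) (𝓝[>] 0)
      (𝓝 (∑ γ ∈ Z, r γ * (2 * π * ((tri T γ : ℂ) * Complex.exp (Complex.I * γ * t))))) := by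
  set ψ : ℝ → ℂ := fun τ => (tri T τ : ℂ) * Complex.exp (Complex.I * τ * t) with hψ
  have hψc : Continuous ψ := by
    have := continuous_tri T
    fun_prop
  have hexp : ∀ τ : ℝ, ‖Complex.exp (Complex.I * τ * t)‖ = 1 := by
    intro τ
    have : Complex.I * τ * t = ((τ * t : ℝ) : ℂ) * Complex.I := by push_cast; ring
    rw [this, Complex.norm_exp_ofReal_mul_I]
  have hψn : ∀ τ, ‖ψ τ‖ = tri T τ := by
    intro τ
    rw [hψ]
    simp only
    rw [norm_mul, hexp, mul_one, Complex.norm_real, Real.norm_eq_abs,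
      abs_of_nonneg (tri_nonneg T τ)]
  have hψb : ∀ τ, ‖ψ τ‖ ≤ 1 := fun τ => (hψn τ).trans_le (tri_le_one hT τ)
  have hpole : Tendsto (fun δ : ℝ => ∑ γ ∈ Z, r γ * ∫ τ : ℝ, ψ τ *
      ((2 * δ / (δ ^ 2 + (τ - γ) ^ 2) : ℝ) : ℂ)) (𝓝[>] 0)
      (𝓝 (∑ γ ∈ Z, r γ * (2 * π * ψ γ))) := by
    refine tendsto_finsetSum _ (fun γ _ => ?_)
    exact (poisson_tendsto hψc hψb γ).const_mul _
  -- difference tends to zero
  have hdiff : Tendsto (fun δ : ℝ => (∫ τ : ℝ, ψ τ *
        (W (δ + Complex.I * τ) - W (-δ + Complex.I * τ))) -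
        ∑ γ ∈ Z, r γ * ∫ τ : ℝ, ψ τ * ((2 * δ / (δ ^ 2 + (τ - γ) ^ 2) : ℝ) : ℂ)) (𝓝[>] 0)
        (𝓝 0) := by
    rw [Metric.tendsto_nhds]
    intro ε hε
    have hI : 0 ≤ ∫ τ, tri T τ := integral_nonneg (tri_nonneg T)
    set I0 := ∫ τ, tri T τ with hI0
    set ε' := ε / (4 * (I0 + 1)) with hε'
    have hε'0 : 0 < ε' := by positivity
    have hu := Hreg_uniform (r := r) (F := F) hZc hZ hW hε'0
    have hu1 : ∀ᶠ δ : ℝ in 𝓝[>] 0, ∀ τ ∈ Icc (-T) T,
        ‖Hreg W Z r F (δ + Complex.I * τ) - Hreg W Z r F (Complex.I * τ)‖ < ε' :=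
      hu.filter_mono nhdsWithin_le_nhds
    have hu2 : ∀ᶠ δ : ℝ in 𝓝[>] 0, ∀ τ ∈ Icc (-T) T,
        ‖Hreg W Z r F (-δ + Complex.I * τ) - Hreg W Z r F (Complex.I * τ)‖ < ε' := by
      have hneg : Tendsto (fun δ : ℝ => -δ) (𝓝[>] 0) (𝓝 0) := by
        have : Tendsto (fun δ : ℝ => -δ) (𝓝 0) (𝓝 (-0)) := continuous_neg.tendsto 0
        rw [neg_zero] at this
        exact this.mono_left nhdsWithin_le_nhds
      have := hneg.eventually hu
      filter_upwards [this] with δ hδ τ hτ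
      have h := hδ τ hτ
      push_cast at h
      exact h
    filter_upwards [hint, hu1, hu2, self_mem_nhdsWithin] with δ hδint hδ1 hδ2 hδ0
    have hδ0' : (0:ℝ) < δ := hδ0
    rw [dist_zero_right]
    have hker : ∀ γ : ℝ, Integrable (fun τ : ℝ => ψ τ *
        ((2 * δ / (δ ^ 2 + (τ - γ) ^ 2) : ℝ) : ℂ)) := by
      intro γ
      apply Continuous.integrable_of_hasCompactSupport
      · refine hψc.mul (Complex.continuous_ofReal.comp ?_)
        refine Continuous.div (by fun_prop) (by fun_prop) (fun τ => by positivity)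
      · apply HasCompactSupport.mul_right
        apply HasCompactSupport.of_support_subset_isCompact (isCompact_Icc (a := -T) (b := T))
        intro x hx
        by_contra h
        apply hx
        rw [← norm_eq_zero, hψn]
        apply tri_eq_zero hT
        rw [mem_Icc, ← abs_le] at h
        push Not at h
        exact h.le
    have hrw : (∫ τ : ℝ, ψ τ * (W (δ + Complex.I * τ) - W (-δ + Complex.I * τ))) -
        ∑ γ ∈ Z, r γ * ∫ τ : ℝ, ψ τ * ((2 * δ / (δ ^ 2 + (τ - γ) ^ 2) : ℝ) : ℂ) =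
        ∫ τ : ℝ, ψ τ * (Hreg W Z r F (δ + Complex.I * τ) - Hreg W Z r F (-δ + Complex.I * τ)) := by
      simp_rw [← integral_const_mul]
      rw [← integral_finsetSum _ (fun γ _ => (hker γ).const_mul _), ← integral_sub hδint
        (integrable_finsetSum _ (fun γ _ => (hker γ).const_mul _))]
      congr 1
      ext τ
      rw [Hreg_of_re (by simp; exact hδ0'.ne'), Hreg_of_re (by simp; exact hδ0'.ne')]
      have : ∀ γ ∈ Z, r γ * (ψ τ * ((2 * δ / (δ ^ 2 + (τ - γ) ^ 2) : ℝ) : ℂ)) =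
          ψ τ * (r γ / ((δ : ℂ) + Complex.I * τ - Complex.I * γ) -
            r γ / (-(δ : ℂ) + Complex.I * τ - Complex.I * γ)) := by
        intro γ _
        rw [pole_diff hδ0' τ γ (r γ)]
        ring
      rw [Finset.sum_congr rfl this, ← Finset.mul_sum, Finset.sum_sub_distrib]
      ring
    rw [hrw]
    have hbound : ‖∫ τ : ℝ, ψ τ * (Hreg W Z r F (δ + Complex.I * τ) -
        Hreg W Z r F (-δ + Complex.I * τ))‖ ≤ ∫ τ : ℝ, tri T τ * (2 * ε') := by
      apply norm_integral_le_of_norm_le ((integrable_tri hT).mul_const _)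
      refine ae_of_all _ fun τ => ?_
      rw [norm_mul, hψn]
      by_cases hτ : τ ∈ Icc (-T) T
      · apply mul_le_mul_of_nonneg_left _ (tri_nonneg T τ)
        have e1 := hδ1 τ hτ
        have e2 := hδ2 τ hτ
        calc ‖Hreg W Z r F (δ + Complex.I * τ) - Hreg W Z r F (-δ + Complex.I * τ)‖
            = ‖(Hreg W Z r F (δ + Complex.I * τ) - Hreg W Z r F (Complex.I * τ)) -
              (Hreg W Z r F (-δ + Complex.I * τ) - Hreg W Z r F (Complex.I * τ))‖ := by
              congr 1; ring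
          _ ≤ _ := norm_sub_le _ _
          _ ≤ 2 * ε' := by linarith
      · rw [mem_Icc, ← abs_le] at hτ
        push Not at hτ
        rw [tri_eq_zero hT hτ.le]
        simp
    refine hbound.trans_lt ?_
    rw [integral_mul_const, ← hI0, hε']
    rw [show I0 * (2 * (ε / (4 * (I0 + 1)))) = ε * (I0 / (2 * (I0 + 1))) by field_simp; ring]
    have : I0 / (2 * (I0 + 1)) < 1 := by
      rw [div_lt_one (by positivity)]
      linarith
    nlinarith
  have := hdiff.add hpole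
  rw [zero_add] at this
  refine this.congr (fun δ => ?_)
  simp only [sub_add_cancel, hψ]

/-- polar decomposition of `G / f` at a simple zero of `f`. -/
theorem polar_decomp {f G : ℂ → ℂ} {a : ℂ} (hf : Differentiable ℂ f) (hG : ∀ᶠ z in 𝓝 a, DifferentiableAt ℂ G z)
    (h0 : f a = 0) (h1 : deriv f a ≠ 0) :
    ContinuousAt (dslope (fun z => G z / dslope f a z) a) a ∧
      ∀ᶠ z in 𝓝[≠] a, G z / f z = (G a / deriv f a) / (z - a) +
        dslope (fun z => G z / dslope f a z) a z := by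
  have hD : Differentiable ℂ (dslope f a) := by
    rw [← differentiableOn_univ, Complex.differentiableOn_dslope univ_mem, differentiableOn_univ]
    exact hf
  have hDa : dslope f a a ≠ 0 := by rw [dslope_same]; exact h1
  constructor
  · rw [continuousAt_dslope_same]
    exact (hG.self_of_nhds).div (hD a) hDa
  · rw [eventually_nhdsWithin_iff]
    have hne : ∀ᶠ z in 𝓝 a, dslope f a z ≠ 0 := (hD a).continuousAt.eventually_ne hDa
    filter_upwards [hne] with z hz hza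
    have hza' : z ≠ a := hza
    have hzs : z - a ≠ 0 := sub_ne_zero.mpr hza'
    rw [dslope_of_ne _ hza', slope_def_field, dslope_same]
    have hfz : f z = (z - a) * dslope f a z := by
      rw [dslope_of_ne _ hza', slope_def_field, h0, sub_zero]
      field_simp
    rw [hfz]
    field_simp
    ring

end Pool.Agent.H62
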