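import Pool.Agent.H62.Coef

/-!
From the exponential sums over all integers to sums over coprime integers and to periodic weights.
-/

namespace Pool.Agent.H62

open Finset ArithmeticFunction

/-- The Moebius exponential sum. -/
noncomputable def FF (R : ℕ) (x : ℝ) : ℂ :=
  ∑ n ∈ Finset.Icc 1 R, ((moebius n : ℤ) : ℂ) * Complex.exp (2 * Real.pi * Complex.I * n * x)

/-- The exponential sum over integers coprime to `D`. -/
noncomputable def AA (D R : ℕ) (x : ℝ) : ℂ :=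
  ∑ n ∈ Finset.Icc 1 R, if n.Coprime D then
    ((moebius n : ℤ) : ℂ) * Complex.exp (2 * Real.pi * Complex.I * n * x) else 0

lemma AA_one (R : ℕ) (x : ℝ) : AA 1 R x = FF R x := by
  unfold AA FF
  simp

lemma AA_zero (D : ℕ) (x : ℝ) : AA D 0 x = 0 := by
  unfold AA; simp

lemma AA_split {D ℓ : ℕ} (hℓ : ℓ.Prime) (hD : D.Coprime ℓ) (n : ℕ) (x : ℝ) :
    AA (D * ℓ) n x = AA D n x + AA (D * ℓ) (n / ℓ) (ℓ * x) := by
  have h1 : AA D n x = AA (D * ℓ) n x + ∑ m ∈ (Finset.Icc 1 n).filter (fun m => ℓ ∣ m),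
      (if m.Coprime D then
        ((moebius m : ℤ) : ℂ) * Complex.exp (2 * Real.pi * Complex.I * m * x) else 0) := by
    unfold AA
    rw [← Finset.sum_filter_add_sum_filter_not (Finset.Icc 1 n) (fun m => ℓ ∣ m)
      (fun m => if m.Coprime D then
        ((moebius m : ℤ) : ℂ) * Complex.exp (2 * Real.pi * Complex.I * m * x) else 0), add_comm]
    congr 1
    rw [Finset.sum_filter]
    refine Finset.sum_congr rfl (fun m _ => ?_)
    by_cases h : ℓ ∣ m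
    · have : ¬ m.Coprime (D * ℓ) := by
        intro hc
        have := Nat.Coprime.coprime_mul_left_right hc
        exact hℓ.one_lt.ne' (Nat.eq_one_of_dvd_coprimes this h dvd_rfl)
      rw [if_neg (not_not.mpr h), if_neg this]
    · rw [if_pos h]
      have : m.Coprime (D * ℓ) ↔ m.Coprime D := by
        rw [Nat.coprime_mul_iff_right]
        exact and_iff_left ((Nat.coprime_comm.mp ((hℓ.coprime_iff_not_dvd).mpr h)))
      by_cases hc : m.Coprime D
      · rw [if_pos hc, if_pos (this.mpr hc)]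
      · rw [if_neg hc, if_neg (fun h => hc (this.mp h))]
  have h2 : ∑ m ∈ (Finset.Icc 1 n).filter (fun m => ℓ ∣ m),
      (if m.Coprime D then
        ((moebius m : ℤ) : ℂ) * Complex.exp (2 * Real.pi * Complex.I * m * x) else 0) =
      - AA (D * ℓ) (n / ℓ) (ℓ * x) := by
    unfold AA
    rw [← Finset.sum_neg_distrib]
    symm
    apply Finset.sum_bij (fun m _ => ℓ * m)
    · intro m hm
      rw [Finset.mem_Icc] at hm
      rw [Finset.mem_filter, Finset.mem_Icc]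
      refine ⟨⟨Nat.one_le_iff_ne_zero.mpr (mul_ne_zero hℓ.ne_zero (by omega)), ?_⟩, Dvd.intro _ rfl⟩
      calc ℓ * m ≤ ℓ * (n / ℓ) := Nat.mul_le_mul_left _ hm.2
        _ ≤ n := Nat.mul_div_le n ℓ
    · intro a _ b _ h
      exact Nat.eq_of_mul_eq_mul_left hℓ.pos h
    · intro m hm
      rw [Finset.mem_filter, Finset.mem_Icc] at hm
      obtain ⟨k, rfl⟩ := hm.2
      refine ⟨k, ?_, rfl⟩
      rw [Finset.mem_Icc]
      constructor
      · by_contra h
        have : k = 0 := by omega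
        subst this
        simp at hm
      · rw [Nat.le_div_iff_mul_le hℓ.pos, mul_comm]; exact hm.1.2
    · intro m _
      have hco : (ℓ * m).Coprime D ↔ m.Coprime D := by
        rw [Nat.coprime_mul_iff_left]
        exact and_iff_right (Nat.coprime_comm.mp hD)
      by_cases hd : ℓ ∣ m
      · have h3 : ¬ m.Coprime (D * ℓ) := by
          intro hc
          have := Nat.Coprime.coprime_mul_left_right hc
          exact hℓ.one_lt.ne' (Nat.eq_one_of_dvd_coprimes this hd dvd_rfl)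
        have h4 : moebius (ℓ * m) = 0 := by
          apply moebius_eq_zero_of_not_squarefree
          intro hsq
          obtain ⟨k, rfl⟩ := hd
          have := hsq ℓ ⟨k, by ring⟩
          exact hℓ.one_lt.ne' (Nat.isUnit_iff.mp this)
        rw [if_neg h3, h4]
        simp
      · have hc1 : Nat.Coprime ℓ m := (hℓ.coprime_iff_not_dvd).mpr hd
        have h5 : m.Coprime (D * ℓ) ↔ m.Coprime D := by
          rw [Nat.coprime_mul_iff_right]
          exact and_iff_left hc1.symm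
        have h4 : moebius (ℓ * m) = - moebius m := by
          rw [isMultiplicative_moebius.map_mul_of_coprime hc1, moebius_apply_prime hℓ]
          ring
        by_cases hc : m.Coprime D
        · rw [if_pos (h5.mpr hc), if_pos (hco.mpr hc), h4]
          push_cast
          rw [neg_mul]
          congr 3
          ring
        · rw [if_neg (fun h => hc (h5.mp h)), if_neg (fun h => hc (hco.mp h)), neg_zero]
  rw [h1, h2]
  ring

lemma AA_step {D ℓ nmax : ℕ} (hℓ : ℓ.Prime) (hD : D.Coprime ℓ) {β γ : ℝ} (hβ : 0 ≤ β) (hγ : 0 ≤ γ)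
    (h : ∀ n : ℕ, n ≤ nmax → ∀ x : ℝ, ‖AA D n x‖ ≤ β * Real.sqrt n + γ * (n : ℝ) ^ (1 / 4 : ℝ)) :
    ∀ n : ℕ, n ≤ nmax → ∀ x : ℝ, ‖AA (D * ℓ) n x‖ ≤
      (β * (1 - (ℓ : ℝ) ^ (-(1 / 2) : ℝ))⁻¹) * Real.sqrt n +
      (γ * (1 - (ℓ : ℝ) ^ (-(1 / 4) : ℝ))⁻¹) * (n : ℝ) ^ (1 / 4 : ℝ) := by
  have hℓ1 : (1 : ℝ) < ℓ := by exact_mod_cast hℓ.one_lt
  have hℓ0 : (0 : ℝ) < ℓ := by linarith
  have ha : (ℓ : ℝ) ^ (-(1 / 2) : ℝ) < 1 := Real.rpow_lt_one_of_one_lt_of_neg hℓ1 (by norm_num)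
  have hb : (ℓ : ℝ) ^ (-(1 / 4) : ℝ) < 1 := Real.rpow_lt_one_of_one_lt_of_neg hℓ1 (by norm_num)
  set a := (ℓ : ℝ) ^ (-(1 / 2) : ℝ) with hadef
  set b := (ℓ : ℝ) ^ (-(1 / 4) : ℝ) with hbdef
  have ha0 : 0 < 1 - a := by linarith
  have hb0 : 0 < 1 - b := by linarith
  intro n
  induction n using Nat.strong_induction_on with
  | _ n ih =>
    intro hn x
    rcases Nat.eq_zero_or_pos n with h0 | hpos
    · subst h0
      rw [AA_zero, norm_zero]
      positivity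
    rw [AA_split hℓ hD]
    have h1 := h n hn x
    have hlt : n / ℓ < n := Nat.div_lt_self hpos hℓ.one_lt
    have h2 := ih (n / ℓ) hlt (hlt.le.trans hn) (ℓ * x)
    have hdiv : ((n / ℓ : ℕ) : ℝ) ≤ (n : ℝ) / ℓ := Nat.cast_div_le
    have h3 : Real.sqrt ((n / ℓ : ℕ) : ℝ) ≤ a * Real.sqrt n := by
      calc Real.sqrt ((n / ℓ : ℕ) : ℝ) ≤ Real.sqrt ((n : ℝ) / ℓ) := Real.sqrt_le_sqrt hdiv
        _ = a * Real.sqrt n := by
            rw [Real.sqrt_div (by positivity), hadef, Real.rpow_neg hℓ0.le, ← Real.sqrt_eq_rpow]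
            ring
    have h4 : ((n / ℓ : ℕ) : ℝ) ^ (1 / 4 : ℝ) ≤ b * (n : ℝ) ^ (1 / 4 : ℝ) := by
      calc ((n / ℓ : ℕ) : ℝ) ^ (1 / 4 : ℝ) ≤ ((n : ℝ) / ℓ) ^ (1 / 4 : ℝ) :=
            Real.rpow_le_rpow (by positivity) hdiv (by norm_num)
        _ = b * (n : ℝ) ^ (1 / 4 : ℝ) := by
            rw [Real.div_rpow (by positivity) hℓ0.le, hbdef, Real.rpow_neg hℓ0.le]
            ring
    have e1 : β * (1 - a)⁻¹ = β + β * (1 - a)⁻¹ * a := by field_simp; ring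
    have e2 : γ * (1 - b)⁻¹ = γ + γ * (1 - b)⁻¹ * b := by field_simp; ring
    calc ‖AA D n x + AA (D * ℓ) (n / ℓ) (ℓ * x)‖ ≤ _ := norm_add_le _ _
      _ ≤ (β * Real.sqrt n + γ * (n : ℝ) ^ (1 / 4 : ℝ)) +
          ((β * (1 - a)⁻¹) * Real.sqrt ((n / ℓ : ℕ) : ℝ) +
          (γ * (1 - b)⁻¹) * ((n / ℓ : ℕ) : ℝ) ^ (1 / 4 : ℝ)) := add_le_add h1 h2
      _ ≤ (β * Real.sqrt n + γ * (n : ℝ) ^ (1 / 4 : ℝ)) +
          ((β * (1 - a)⁻¹) * (a * Real.sqrt n) +
          (γ * (1 - b)⁻¹) * (b * (n : ℝ) ^ (1 / 4 : ℝ))) := by gcongr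
      _ = (β + β * (1 - a)⁻¹ * a) * Real.sqrt n +
          (γ + γ * (1 - b)⁻¹ * b) * (n : ℝ) ^ (1 / 4 : ℝ) := by ring
      _ = _ := by rw [← e1, ← e2]

theorem AA_bound {nmax : ℕ} {β γ : ℝ} (hβ : 0 ≤ β) (hγ : 0 ≤ γ)
    (h : ∀ n : ℕ, n ≤ nmax → ∀ x : ℝ, ‖FF n x‖ ≤ β * Real.sqrt n + γ * (n : ℝ) ^ (1 / 4 : ℝ))
    (s : Finset ℕ) (hs : ∀ ℓ ∈ s, ℓ.Prime) :
    ∀ n : ℕ, n ≤ nmax → ∀ x : ℝ, ‖AA (∏ ℓ ∈ s, ℓ) n x‖ ≤
      (β * ∏ ℓ ∈ s, (1 - (ℓ : ℝ) ^ (-(1 / 2) : ℝ))⁻¹) * Real.sqrt n +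
      (γ * ∏ ℓ ∈ s, (1 - (ℓ : ℝ) ^ (-(1 / 4) : ℝ))⁻¹) * (n : ℝ) ^ (1 / 4 : ℝ) := by
  classical
  induction s using Finset.induction_on with
  | empty =>
    intro n hn x
    rw [Finset.prod_empty, Finset.prod_empty, Finset.prod_empty, mul_one, mul_one, AA_one]
    exact h n hn x
  | insert ℓ s hℓs ih =>
    have hs' : ∀ p ∈ s, p.Prime := fun p hp => hs p (Finset.mem_insert_of_mem hp)
    have hℓ := hs ℓ (Finset.mem_insert_self ℓ s)
    have hco : (∏ p ∈ s, p).Coprime ℓ := by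
      apply Nat.Coprime.prod_left
      intro p hp
      rw [Nat.coprime_primes (hs' p hp) hℓ]
      rintro rfl
      exact hℓs hp
    have hpos : ∀ p ∈ s, ∀ e : ℝ, 0 < e → 0 ≤ (1 - (p : ℝ) ^ (-e))⁻¹ := by
      intro p hp e he
      have hp1 : (1 : ℝ) < p := by exact_mod_cast (hs' p hp).one_lt
      have : (p : ℝ) ^ (-e) < 1 := Real.rpow_lt_one_of_one_lt_of_neg hp1 (by linarith)
      rw [inv_nonneg]; linarith
    have h1 := AA_step hℓ hco
      (mul_nonneg hβ (Finset.prod_nonneg (fun p hp => hpos p hp (1 / 2) (by norm_num))))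
      (mul_nonneg hγ (Finset.prod_nonneg (fun p hp => hpos p hp (1 / 4) (by norm_num))))
      (ih hs')
    rw [Finset.prod_insert hℓs, Finset.prod_insert hℓs, Finset.prod_insert hℓs]
    intro n hn x
    have h2 := h1 n hn x
    rw [mul_comm ℓ]
    refine h2.trans (le_of_eq ?_)
    ring

/-- Sums with the test function. -/
theorem kf_sum_le {N : ℕ} [NeZero N] (a : ZMod (N ^ 2)) (n : ℕ) {B : ℝ}
    (hB : ∀ x : ℝ, ‖AA N n x‖ ≤ B) :
    ‖∑ m ∈ Finset.range (n + 1), ((moebius m : ℤ) : ℂ) * kf N a (m : ZMod (N ^ 2))‖ ≤ B := by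
  have hN : ((N ^ 2 : ℕ) : ℂ) ≠ 0 := by exact_mod_cast NeZero.ne (N ^ 2)
  have h0 : ∑ m ∈ Finset.range (n + 1), ((moebius m : ℤ) : ℂ) * kf N a (m : ZMod (N ^ 2)) =
      ∑ m ∈ Finset.Icc 1 n, ((moebius m : ℤ) : ℂ) * kf N a (m : ZMod (N ^ 2)) := by
    rw [Finset.sum_range_eq_add_Ico _ (Nat.succ_pos n)]
    simp
    rfl
  have hterm : ∀ m : ℕ, ((moebius m : ℤ) : ℂ) * kf N a (m : ZMod (N ^ 2)) =
      ((if m.Coprime N then ((moebius m : ℤ) : ℂ) *
        Complex.exp (2 * Real.pi * Complex.I * m * (((a.val : ℝ) / (N ^ 2 : ℕ) : ℝ) : ℂ)) else 0) -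
      (if m.Coprime N then ((moebius m : ℤ) : ℂ) *
        Complex.exp (2 * Real.pi * Complex.I * m * ((-((a.val : ℝ) / (N ^ 2 : ℕ)) : ℝ) : ℂ)) else 0)) /
        (2 * Complex.I) := by
    intro m
    have hiff : IsUnit (m : ZMod (N ^ 2)) ↔ m.Coprime N := by
      rw [ZMod.isUnit_iff_coprime, Nat.coprime_pow_right_iff (by norm_num)]
    have e1 : a * (m : ZMod (N ^ 2)) = (((a.val * m : ℕ) : ℤ) : ZMod (N ^ 2)) := by
      push_cast
      rw [ZMod.natCast_zmod_val]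
    have e2 : -(a * (m : ZMod (N ^ 2))) = ((-((a.val * m : ℕ) : ℤ) : ℤ) : ZMod (N ^ 2)) := by
      rw [e1]; push_cast; ring
    by_cases hc : m.Coprime N
    · unfold kf
      rw [if_pos (hiff.mpr hc), if_pos hc, if_pos hc, e2, e1, ZMod.stdAddChar_coe,
        ZMod.stdAddChar_coe]
      have e3 : (2 * Real.pi * Complex.I * (((a.val * m : ℕ) : ℤ) : ℂ) / ((N ^ 2 : ℕ) : ℂ)) =
          2 * Real.pi * Complex.I * m * (((a.val : ℝ) / (N ^ 2 : ℕ) : ℝ) : ℂ) := by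
        push_cast; ring
      have e4 : (2 * Real.pi * Complex.I * ((-((a.val * m : ℕ) : ℤ) : ℤ) : ℂ) / ((N ^ 2 : ℕ) : ℂ)) =
          2 * Real.pi * Complex.I * m * ((-((a.val : ℝ) / (N ^ 2 : ℕ)) : ℝ) : ℂ) := by
        push_cast; ring
      rw [e3, e4]
      ring
    · unfold kf
      rw [if_neg (fun h => hc (hiff.mp h)), if_neg hc, if_neg hc]
      simp
  rw [h0]
  simp_rw [hterm]
  rw [← Finset.sum_div, Finset.sum_sub_distrib, norm_div, norm_mul, Complex.norm_I,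
    Complex.norm_ofNat, mul_one]
  have h1 := hB ((a.val : ℝ) / (N ^ 2 : ℕ))
  have h2 := hB (-((a.val : ℝ) / (N ^ 2 : ℕ)))
  unfold AA at h1 h2
  have h3 := norm_sub_le (∑ m ∈ Finset.Icc 1 n, (if m.Coprime N then ((moebius m : ℤ) : ℂ) *
        Complex.exp (2 * Real.pi * Complex.I * m * (((a.val : ℝ) / (N ^ 2 : ℕ) : ℝ) : ℂ)) else 0))
      (∑ m ∈ Finset.Icc 1 n, (if m.Coprime N then ((moebius m : ℤ) : ℂ) *
        Complex.exp (2 * Real.pi * Complex.I * m * ((-((a.val : ℝ) / (N ^ 2 : ℕ)) : ℝ) : ℂ)) else 0))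
  linarith

/-- Growth for all periodic weights. -/
theorem growth_periodic {q : ℕ} [NeZero q] {C : ℝ}
    (hC : ∀ (R : ℕ) (x : ℝ), ‖FF R x‖ ≤ C * Real.sqrt R * (1 + Real.log R) ^ (1 / 4 : ℝ))
    (k : ZMod q → ℂ) (hk : ∀ x, ‖k x‖ ≤ 1) :
    Growth (fun n : ℕ => k n * ((moebius n : ℤ) : ℂ)) (q * C) := by
  classical
  intro n
  have hq : (q : ℂ) ≠ 0 := by exact_mod_cast NeZero.ne q
  have hq0 : (0 : ℝ) < q := by exact_mod_cast Nat.pos_of_ne_zero (NeZero.ne q)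
  set kh : ZMod q → ℂ := fun h => (q : ℂ)⁻¹ * ∑ x : ZMod q, k x * ZMod.stdAddChar (-(h * x)) with hkh
  have hkh1 : ∀ h, ‖kh h‖ ≤ 1 := by
    intro h
    rw [hkh]
    simp only
    rw [norm_mul, norm_inv, Complex.norm_natCast, inv_mul_le_iff₀ hq0, mul_one]
    refine (norm_sum_le _ _).trans ?_
    calc ∑ x : ZMod q, ‖k x * ZMod.stdAddChar (-(h * x))‖ ≤ ∑ _x : ZMod q, (1 : ℝ) := by
          apply Finset.sum_le_sum
          intro x _
          rw [norm_mul, norm_stdAddChar, mul_one]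
          exact hk x
      _ = q := by simp
  have hinv : ∀ y : ZMod q, k y = ∑ h : ZMod q, kh h * ZMod.stdAddChar (h * y) := by
    intro y
    rw [hkh]
    have h1 : ∀ h : ZMod q, ((q : ℂ)⁻¹ * ∑ x : ZMod q, k x * ZMod.stdAddChar (-(h * x))) *
        ZMod.stdAddChar (h * y) = (q : ℂ)⁻¹ * ∑ x : ZMod q, k x *
          ZMod.stdAddChar (h * (y - x)) := by
      intro h
      rw [mul_assoc, Finset.sum_mul]
      congr 1
      refine Finset.sum_congr rfl (fun x _ => ?_)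
      rw [mul_assoc, ← AddChar.map_add_eq_mul]
      congr 2
      ring
    simp_rw [h1]
    rw [← Finset.mul_sum, Finset.sum_comm]
    simp_rw [← Finset.mul_sum, AddChar.sum_mulShift _ (ZMod.isPrimitive_stdAddChar q)]
    rw [Finset.sum_eq_single y]
    · simp
      field_simp
    · intro x _ hx
      rw [if_neg (sub_ne_zero.mpr (Ne.symm hx))]
      simp
    · intro h; exact absurd (Finset.mem_univ y) h
  have h0 : ∑ m ∈ Finset.range (n + 1), k (m : ZMod q) * ((moebius m : ℤ) : ℂ) =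
      ∑ h : ZMod q, kh h * FF n ((h.val : ℝ) / q) := by
    have e0 : ∑ m ∈ Finset.range (n + 1), k (m : ZMod q) * ((moebius m : ℤ) : ℂ) =
        ∑ m ∈ Finset.Icc 1 n, k (m : ZMod q) * ((moebius m : ℤ) : ℂ) := by
      rw [Finset.sum_range_eq_add_Ico _ (Nat.succ_pos n)]
      simp
      rfl
    rw [e0]
    unfold FF
    simp_rw [Finset.mul_sum]
    rw [Finset.sum_comm]
    refine Finset.sum_congr rfl (fun m _ => ?_)
    rw [hinv (m : ZMod q), Finset.sum_mul]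
    refine Finset.sum_congr rfl (fun h _ => ?_)
    have e1 : h * (m : ZMod q) = (((h.val * m : ℕ) : ℤ) : ZMod q) := by
      push_cast
      rw [ZMod.natCast_zmod_val]
    rw [e1, ZMod.stdAddChar_coe]
    have e3 : (2 * Real.pi * Complex.I * (((h.val * m : ℕ) : ℤ) : ℂ) / (q : ℂ)) =
          2 * Real.pi * Complex.I * m * (((h.val : ℝ) / q : ℝ) : ℂ) := by
        push_cast; ring
    rw [e3]
    ring
  rw [h0]
  refine (norm_sum_le _ _).trans ?_
  calc ∑ h : ZMod q, ‖kh h * FF n ((h.val : ℝ) / q)‖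
      ≤ ∑ _h : ZMod q, (C * Real.sqrt n * (1 + Real.log n) ^ (1 / 4 : ℝ)) := by
        apply Finset.sum_le_sum
        intro h _
        rw [norm_mul]
        calc ‖kh h‖ * ‖FF n ((h.val : ℝ) / q)‖ ≤ 1 * ‖FF n ((h.val : ℝ) / q)‖ := by
              gcongr; exact hkh1 h
          _ ≤ _ := by rw [one_mul]; exact hC _ _
    _ = _ := by simp; ring

end Pool.Agent.H62
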