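import Pool.Agent.H62.Key

/-!
Upper bound for the dual function in terms of the exponential sums.
-/

namespace Pool.Agent.H62

open Finset ArithmeticFunction

variable {N : ℕ} [NeZero N]

/-- sieve constant -/
noncomputable def cP (N : ℕ) (e : ℝ) : ℝ := ∏ ℓ ∈ N.primeFactors, (1 - (ℓ : ℝ) ^ (-e))⁻¹

lemma one_le_cP (N : ℕ) {e : ℝ} (he : 0 < e) : 1 ≤ cP N e := by
  unfold cP
  have h : ∏ _ℓ ∈ N.primeFactors, (1 : ℝ) ≤ ∏ ℓ ∈ N.primeFactors, (1 - (ℓ : ℝ) ^ (-e))⁻¹ := by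
    apply Finset.prod_le_prod (fun _ _ => zero_le_one)
    intro ℓ hℓ
    have hp1 : (1 : ℝ) < ℓ := by exact_mod_cast (Nat.prime_of_mem_primeFactors hℓ).one_lt
    have : (ℓ : ℝ) ^ (-e) < 1 := Real.rpow_lt_one_of_one_lt_of_neg hp1 (by linarith)
    have h0 : 0 < (ℓ : ℝ) ^ (-e) := by positivity
    rw [one_le_inv₀ (by linarith)]
    linarith
  simpa using h

theorem gg_upper {K : ℝ} (hK : 1 ≤ K) (hsq : Squarefree N) (hodd : Odd N) {ℓ : ℕ} (hp : ℓ.Prime)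
    (hℓ : ℓ ∣ N) (h3 : ℓ % 4 = 3) (hg : Growth (b1 N hsq) K)
    {u β γ : ℝ} (hβ : 0 ≤ β) (hγ : 0 ≤ γ) (hu : 1 ≤ u) {n₀ : ℕ}
    (hn₀ : (γ * cP N (1 / 4)) ^ 4 ≤ n₀) (hX : 64 * K * (n₀ + 1) ^ 2 ≤ Real.exp u / N)
    (hF : ∀ n : ℕ, (n : ℝ) ≤ (Real.exp u / N) ^ 2 → ∀ x : ℝ,
      ‖FF n x‖ ≤ β * Real.sqrt n + γ * (n : ℝ) ^ (1 / 4 : ℝ)) :
    ‖gg (N ^ 2) (b1 N hsq) (b2 N hsq) (kap N hsq) u‖ ≤ 48 * (β * cP N (1 / 2) + 1) + 2 := by
  have hN1 : (1 : ℝ) ≤ N := by exact_mod_cast Nat.one_le_iff_ne_zero.mpr (NeZero.ne N)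
  have hN : (0 : ℝ) < N := by linarith
  set X := Real.exp u / N with hXdef
  have hc2 := one_le_cP N (e := 1 / 2) (by norm_num)
  have hc4 := one_le_cP N (e := 1 / 4) (by norm_num)
  have hn0 : (0 : ℝ) ≤ n₀ := by positivity
  have hn1 : (1 : ℝ) ≤ ((n₀ : ℝ) + 1) ^ 2 := by nlinarith
  have hXge : 64 * K ≤ X := by
    refine le_trans ?_ hX
    nlinarith
  have hX1 : 1 ≤ X := by linarith
  have hX0 : 0 < X := by linarith
  have hn₀X : (n₀ : ℝ) ≤ X := by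
    refine le_trans ?_ hX
    nlinarith
  -- first part
  have hsum : ∀ n : ℕ, n₀ ≤ n → (n : ℝ) ≤ X ^ 2 →
      ‖∑ k ∈ range (n + 1), b1 N hsq k‖ ≤ (β * cP N (1 / 2) + 1) * Real.sqrt n := by
    intro n hn hnX
    have hnmax : n ≤ ⌊X ^ 2⌋₊ := Nat.le_floor hnX
    have hAA := AA_bound (nmax := ⌊X ^ 2⌋₊) hβ hγ (fun k hk x => hF k
      ((Nat.cast_le.mpr hk).trans (Nat.floor_le (by positivity))) x) N.primeFactors
      (fun p hp => Nat.prime_of_mem_primeFactors hp) n hnmax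
    rw [Nat.prod_primeFactors_of_squarefree hsq] at hAA
    have h1 := kf_sum_le ((y0 N hsq : ZMod (N ^ 2)) ^ 2) n hAA
    have h2 : ∑ k ∈ range (n + 1), b1 N hsq k = ∑ m ∈ Finset.range (n + 1),
        ((moebius m : ℤ) : ℂ) * kf N ((y0 N hsq : ZMod (N ^ 2)) ^ 2) (m : ZMod (N ^ 2)) :=
      Finset.sum_congr rfl (fun k _ => by unfold b1; ring)
    rw [h2]
    refine h1.trans ?_
    have h4 : γ * cP N (1 / 4) ≤ (n : ℝ) ^ (1 / 4 : ℝ) := by
      have h5 : (γ * cP N (1 / 4)) ^ 4 ≤ n := hn₀.trans (by exact_mod_cast hn)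
      have h6 : 0 ≤ γ * cP N (1 / 4) := by positivity
      calc γ * cP N (1 / 4) = ((γ * cP N (1 / 4)) ^ 4) ^ (1 / 4 : ℝ) := by
            rw [← Real.rpow_natCast, ← Real.rpow_mul h6]; norm_num
        _ ≤ _ := Real.rpow_le_rpow (by positivity) h5 (by norm_num)
    have h7 : (n : ℝ) ^ (1 / 4 : ℝ) * (n : ℝ) ^ (1 / 4 : ℝ) = Real.sqrt n := by
      rw [Real.sqrt_eq_rpow, ← Real.rpow_add_of_nonneg (by positivity) (by norm_num) (by norm_num)]
      norm_num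
    have h8 : 0 ≤ (n : ℝ) ^ (1 / 4 : ℝ) := by positivity
    have h9 : (γ * cP N (1 / 4)) * (n : ℝ) ^ (1 / 4 : ℝ) ≤ Real.sqrt n := by
      rw [← h7]
      gcongr
    change (β * cP N (1 / 2)) * Real.sqrt n + (γ * cP N (1 / 4)) * (n : ℝ) ^ (1 / 4 : ℝ) ≤ _
    linarith
  have hab := abel_bound (b := b1 N hsq) (hg.b_zero) (norm_b1_le hsq) (K := K)
    (β := β * cP N (1 / 2) + 1) (X := X) (n₀ := n₀) (by linarith) (by positivity) hX1 hn₀X
    (hg.h1 (by linarith)) hsum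
  have hsX : 0 < Real.sqrt X := Real.sqrt_pos.mpr hX0
  have hsX1 : 1 ≤ Real.sqrt X := by rw [Real.one_le_sqrt]; exact hX1
  have hfac := factor_eq hN u
  rw [← hXdef] at hfac
  have hA : ‖hb (b1 N hsq) N u‖ ≤ 48 * (β * cP N (1 / 2) + 1) + 1 := by
    rw [norm_hb, ← hXdef]
    have hfac0 : 0 ≤ Real.sqrt N * Real.exp (-u / 2) := by positivity
    have hfle : Real.sqrt N * Real.exp (-u / 2) ≤ 1 := by
      nlinarith
    have e1 : 32 * K * (n₀ : ℝ) ^ 2 / X ≤ 1 / 2 := by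
      rw [div_le_iff₀ hX0]; nlinarith
    have e2 : 16 * K / Real.sqrt X ≤ 16 * K / Real.sqrt X := le_refl _
    have e3 : Real.sqrt N * Real.exp (-u / 2) * (16 * K / Real.sqrt X) ≤ 1 / 4 := by
      have e4 : Real.sqrt N * Real.exp (-u / 2) = 1 / Real.sqrt X := by
        rw [eq_div_iff hsX.ne']; exact hfac
      have e5 : 1 / Real.sqrt X * (16 * K / Real.sqrt X) = 16 * K / X := by
        rw [div_mul_div_comm, one_mul, Real.mul_self_sqrt hX0.le]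
      rw [e4, e5, div_le_iff₀ hX0]
      linarith
    calc Real.sqrt N * Real.exp (-u / 2) * ‖S (b1 N hsq) X‖
        ≤ Real.sqrt N * Real.exp (-u / 2) * (48 * (β * cP N (1 / 2) + 1) * Real.sqrt X +
            32 * K * (n₀ : ℝ) ^ 2 / X + 16 * K / Real.sqrt X) := by gcongr
      _ = 48 * (β * cP N (1 / 2) + 1) * (Real.sqrt N * Real.exp (-u / 2) * Real.sqrt X) +
          Real.sqrt N * Real.exp (-u / 2) * (32 * K * (n₀ : ℝ) ^ 2 / X) +
          Real.sqrt N * Real.exp (-u / 2) * (16 * K / Real.sqrt X) := by ring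
      _ ≤ 48 * (β * cP N (1 / 2) + 1) * 1 + 1 * (1 / 2) + 1 / 4 := by
          rw [hfac]
          have : Real.sqrt N * Real.exp (-u / 2) * (32 * K * (n₀ : ℝ) ^ 2 / X) ≤ 1 * (1 / 2) := by
            apply mul_le_mul hfle e1 (by positivity) (by norm_num)
          linarith
      _ ≤ _ := by linarith
  have hB : kap N hsq * ‖hb (b2 N hsq) N (-u)‖ ≤ 1 := by
    have h1 := norm_hb_le_small (norm_b2_le hsq hodd hp hℓ h3) hN1 (-u)
    have h2 := kap_le hsq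
    have h4 := kap_pos hsq hodd
    have h5 : Real.exp (3 * -u / 2) ≤ 1 / 2 := by
      have h6 : Real.exp (3 * -u / 2) ≤ Real.exp (-1) := Real.exp_le_exp.mpr (by linarith)
      have h7 : Real.exp (-1) ≤ 1 / 2 := by
        rw [Real.exp_neg, inv_le_comm₀ (Real.exp_pos _) (by norm_num)]
        have := Real.add_one_le_exp (1 : ℝ)
        norm_num
        linarith
      linarith
    calc kap N hsq * ‖hb (b2 N hsq) N (-u)‖ ≤ (N / 2) * (4 * Real.exp (3 * -u / 2) / N) := by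
          gcongr
      _ = 2 * Real.exp (3 * -u / 2) := by field_simp; ring
      _ ≤ 1 := by linarith
  unfold gg
  rw [sqrt_q]
  refine (norm_sub_le _ _).trans ?_
  rw [norm_mul, Complex.norm_real, Real.norm_eq_abs, abs_of_pos (kap_pos hsq hodd)]
  linarith

end Pool.Agent.H62
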