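import Pool.Agent.H62.PT
import Pool.Agent.H62.Gam
import Pool.Agent.H62.Lbound
import Pool.Agent.H62.Poles

/-!
Quantitative bounds: upper bound for `Wc`, lower bound for `L` to the right of the critical line,
lower bound for the derivative at the zeros.
-/

namespace Pool.Agent.H62

open Real Filter Topology MeasureTheory Set DirichletCharacter

variable {q : ℕ} [NeZero q]

lemma integral_hb_le {b : ℕ → ℂ} {K : ℝ} (hK : 1 ≤ K) (hg : Growth b K)
    (h : ∀ n, ‖b n‖ ≤ 1) {L : ℝ} (hL : 1 ≤ L) {δ : ℝ} (h0 : 0 < δ) (h1 : δ ≤ 1) :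
    ∫ u : ℝ, ‖Complex.exp (-δ * u) * hb b L u‖ ≤ 700 * K * δ ^ (-(5 / 4) : ℝ) := by
  have hc : 0 < δ / 2 := by linarith
  have hδ4 : 1 ≤ δ ^ (-(1 / 4) : ℝ) := by
    apply Real.one_le_rpow_of_pos_of_le_one_of_nonpos h0 h1 (by norm_num)
  have hmaj : ∀ u : ℝ, ‖Complex.exp (-δ * u) * hb b L u‖ ≤
      (64 * K * (8 / 3) * δ ^ (-(1 / 4) : ℝ)) * Real.exp (-(δ / 2) * |u|) := by
    intro u
    rw [norm_mul, Complex.norm_exp]
    have hre : (-(δ:ℂ) * u).re = -δ * u := by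
      rw [← Complex.ofReal_neg, ← Complex.ofReal_mul, Complex.ofReal_re]
    rw [hre]
    rcases le_or_gt 0 u with hu | hu
    · have e2 := norm_hb_le_of_growth hK hg h hL hu
      have e3 : (1 + 2 * u) ^ (1 / 4 : ℝ) ≤
          (8 / 3) * δ ^ (-(1 / 4) : ℝ) * Real.exp (δ / 2 * u) := by
        have e31 : (1 + 2 * u) ≤ (3 / δ) * (1 + δ * u) := by
          rw [div_mul_eq_mul_div, le_div_iff₀ h0]
          nlinarith [mul_nonneg h0.le hu]
        have e32 : (1 + 2 * u) ^ (1 / 4 : ℝ) ≤ ((3 / δ) * (1 + δ * u)) ^ (1 / 4 : ℝ) :=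
          Real.rpow_le_rpow (by linarith) e31 (by norm_num)
        rw [Real.mul_rpow (by positivity) (by positivity), Real.div_rpow (by norm_num) h0.le] at e32
        have e33 : (3 : ℝ) ^ (1 / 4 : ℝ) ≤ 4 / 3 := by
          have : (3 : ℝ) ≤ (4 / 3) ^ (4 : ℝ) := by
            rw [show (4 : ℝ) = ((4 : ℕ) : ℝ) by norm_num, Real.rpow_natCast]; norm_num
          calc (3 : ℝ) ^ (1 / 4 : ℝ) ≤ ((4 / 3) ^ (4 : ℝ)) ^ (1 / 4 : ℝ) :=
                Real.rpow_le_rpow (by norm_num) this (by norm_num)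
            _ = 4 / 3 := by rw [← Real.rpow_mul (by norm_num)]; norm_num
        have e34 : (1 + δ * u) ^ (1 / 4 : ℝ) ≤ 2 * Real.exp (δ / 2 * u) := by
          have e5 : (1 + δ * u) ^ (1 / 4 : ℝ) ≤ (1 + δ * u) ^ (1 : ℝ) :=
            Real.rpow_le_rpow_of_exponent_le (by nlinarith) (by norm_num)
          rw [Real.rpow_one] at e5
          have e6 := Real.add_one_le_exp (δ / 2 * u)
          nlinarith
        have e35 : 0 ≤ (1 + δ * u) ^ (1 / 4 : ℝ) := by positivity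
        have e36 : (3 : ℝ) ^ (1 / 4 : ℝ) / δ ^ (1 / 4 : ℝ) ≤ 4 / 3 * δ ^ (-(1 / 4) : ℝ) := by
          rw [Real.rpow_neg h0.le, ← div_eq_mul_inv]
          gcongr
        calc (1 + 2 * u) ^ (1 / 4 : ℝ)
            ≤ (3 : ℝ) ^ (1 / 4 : ℝ) / δ ^ (1 / 4 : ℝ) * (1 + δ * u) ^ (1 / 4 : ℝ) := e32
          _ ≤ (4 / 3 * δ ^ (-(1 / 4) : ℝ)) * (2 * Real.exp (δ / 2 * u)) := by gcongr
          _ = _ := by ring
      rw [abs_of_nonneg hu]
      calc Real.exp (-δ * u) * ‖hb b L u‖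
          ≤ Real.exp (-δ * u) * (64 * K * ((8 / 3) * δ ^ (-(1 / 4) : ℝ) *
              Real.exp (δ / 2 * u))) := by
            gcongr
            exact e2.trans (by gcongr)
        _ = 64 * K * (8 / 3) * δ ^ (-(1 / 4) : ℝ) *
              (Real.exp (-δ * u) * Real.exp (δ / 2 * u)) := by ring
        _ = 64 * K * (8 / 3) * δ ^ (-(1 / 4) : ℝ) * Real.exp (-(δ / 2) * u) := by
            rw [← Real.exp_add]; congr 2; ring
    · have e2 := norm_hb_le_small h hL u
      have e3 : 4 * Real.exp (3 * u / 2) / L ≤ 4 * Real.exp (3 * u / 2) := by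
        apply div_le_self (by positivity) hL
      rw [abs_of_neg hu]
      calc Real.exp (-δ * u) * ‖hb b L u‖ ≤ Real.exp (-δ * u) * (4 * Real.exp (3 * u / 2)) := by
            gcongr; linarith
        _ = 4 * Real.exp ((3 / 2 - δ) * u) := by
            rw [mul_left_comm, ← Real.exp_add]; congr 2; ring
        _ ≤ 64 * K * (8 / 3) * δ ^ (-(1 / 4) : ℝ) * Real.exp (-(δ / 2) * -u) := by
            have e5 : Real.exp ((3 / 2 - δ) * u) ≤ Real.exp (-(δ / 2) * -u) := by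
              apply Real.exp_le_exp.mpr; nlinarith
            have e6 : (4:ℝ) ≤ 64 * K * (8 / 3) * δ ^ (-(1 / 4) : ℝ) := by nlinarith
            have e7 := Real.exp_pos ((3 / 2 - δ) * u)
            exact mul_le_mul e6 e5 e7.le (by linarith)
  calc ∫ u : ℝ, ‖Complex.exp (-δ * u) * hb b L u‖
      ≤ ∫ u : ℝ, (64 * K * (8 / 3) * δ ^ (-(1 / 4) : ℝ)) * Real.exp (-(δ / 2) * |u|) := by
        apply integral_mono (hb_exp_integrable hK hg h hL h0 h1).norm
          ((integrable_exp_neg_mul_abs hc).const_mul _)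
        exact hmaj
    _ = (64 * K * (8 / 3) * δ ^ (-(1 / 4) : ℝ)) * (2 / (δ / 2)) := by
        rw [integral_const_mul, integral_exp_neg_mul_abs hc]
    _ = (2048 / 3) * K * (δ ^ (-(1 / 4) : ℝ) * δ ^ (-1 : ℝ)) := by
        rw [Real.rpow_neg_one]
        field_simp
        ring
    _ = (2048 / 3) * K * δ ^ (-(5 / 4) : ℝ) := by
        rw [← Real.rpow_add h0]; norm_num
    _ ≤ _ := by
        have : 0 ≤ δ ^ (-(5 / 4) : ℝ) := by positivity
        apply mul_le_mul_of_nonneg_right _ this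
        linarith

lemma norm_Wc_le {χ : DirichletCharacter ℂ q} (hχ : χ ≠ 1) {K : ℝ} (hK : 1 ≤ K)
    (hg : Growth (bchi χ) K) {δ : ℝ} (h0 : 0 < δ) (h1 : δ ≤ 1) (τ : ℝ) :
    ‖Wc χ (δ + Complex.I * τ)‖ ≤ 700 * K * δ ^ (-(5 / 4) : ℝ) := by
  have hre : ((δ : ℂ) + Complex.I * τ).re = δ := by simp
  rw [← laplace_bchi hχ (by linarith) hg (by rw [hre]; exact h0) (by rw [hre]; linarith)]
  exact (norm_laplace_le δ τ).trans
    (integral_hb_le hK hg (norm_bchi_le χ) (one_le_sqrt_q (q := q)) h0 h1)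

/-- the constant in the lower bound for `L` -/
noncomputable def c1 (q : ℕ) (K T : ℝ) : ℝ := Real.exp (-(2 * T)) / (2800 * K * Real.sqrt q)

lemma c1_pos {K : ℝ} (hK : 1 ≤ K) (T : ℝ) : 0 < c1 q K T := by
  unfold c1
  have := one_le_sqrt_q (q := q)
  positivity

lemma norm_LFunction_ge {χ : DirichletCharacter ℂ q} (hχ : χ ≠ 1) {K : ℝ} (hK : 1 ≤ K)
    (hg : Growth (bchi χ) K) {δ : ℝ} (h0 : 0 < δ) (h1 : δ ≤ 1) {τ T : ℝ} (hτ : |τ| ≤ T) :
    c1 q K T * δ ^ (5 / 4 : ℝ) ≤ ‖LFunction χ (1 / 2 + (δ + Complex.I * τ))‖ := by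
  have hW := norm_Wc_le hχ hK hg h0 h1 τ
  unfold Wc at hW
  have hq1 := one_le_sqrt_q (q := q)
  have hre : ((δ : ℂ) + Complex.I * τ).re = δ := by simp
  have him : ((δ : ℂ) + Complex.I * τ).im = τ := by simp
  have hL0 : LFunction χ (1 / 2 + (δ + Complex.I * τ)) ≠ 0 := by
    apply LFunction_ne_zero_of_growth hχ (by linarith) hg
    · simp; exact h0
    · simp; linarith
  have hLn : 0 < ‖LFunction χ (1 / 2 + (δ + Complex.I * τ))‖ := norm_pos_iff.mpr hL0
  rw [norm_div, norm_mul, div_le_iff₀ hLn, Complex.norm_exp] at hW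
  have hre2 : (-((δ : ℂ) + Complex.I * τ) * (Real.log (Real.sqrt q) : ℝ)).re =
      -(δ * Real.log (Real.sqrt q)) := by
    rw [Complex.re_mul_ofReal, Complex.neg_re, hre]; ring
  rw [hre2] at hW
  have hG := norm_Gammaℝ_ge (z := (δ : ℂ) + Complex.I * τ) (by rw [hre]; exact h0.le)
    (by rw [hre]; exact h1)
  rw [him] at hG
  have hE : (Real.sqrt q)⁻¹ ≤ Real.exp (-(δ * Real.log (Real.sqrt q))) := by
    have hlog : 0 ≤ Real.log (Real.sqrt q) := Real.log_nonneg hq1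
    rw [← Real.exp_log (by linarith : (0:ℝ) < Real.sqrt q), ← Real.exp_neg, Real.log_exp]
    apply Real.exp_le_exp.mpr
    nlinarith
  have hT2 : Real.exp (-(2 * T)) ≤ Real.exp (-(2 * |τ|)) := by
    apply Real.exp_le_exp.mpr; linarith
  have hmul : δ ^ (-(5 / 4) : ℝ) * δ ^ (5 / 4 : ℝ) = 1 := by
    rw [← Real.rpow_add h0]; norm_num
  have hδp : 0 < δ ^ (5 / 4 : ℝ) := by positivity
  have h5 : (Real.sqrt q)⁻¹ * (1 / 4 * Real.exp (-(2 * T))) ≤
      700 * K * δ ^ (-(5 / 4) : ℝ) * ‖LFunction χ (1 / 2 + (δ + Complex.I * τ))‖ := by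
    refine le_trans ?_ hW
    gcongr
    refine le_trans ?_ hG
    gcongr
  have h6 := mul_le_mul_of_nonneg_right h5 hδp.le
  have h7 : 700 * K * δ ^ (-(5 / 4) : ℝ) * ‖LFunction χ (1 / 2 + (δ + Complex.I * τ))‖ *
      δ ^ (5 / 4 : ℝ) = 700 * K * ‖LFunction χ (1 / 2 + (δ + Complex.I * τ))‖ := by
    calc _ = 700 * K * ‖LFunction χ (1 / 2 + (δ + Complex.I * τ))‖ *
          (δ ^ (-(5 / 4) : ℝ) * δ ^ (5 / 4 : ℝ)) := by ring
      _ = _ := by rw [hmul, mul_one]
  rw [h7] at h6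
  have hK0 : 0 < K := by linarith
  have hs0 : 0 < Real.sqrt q := by linarith
  unfold c1
  have h8 : Real.exp (-(2 * T)) / (2800 * K * Real.sqrt q) * δ ^ (5 / 4 : ℝ) =
      ((Real.sqrt q)⁻¹ * (1 / 4 * Real.exp (-(2 * T))) * δ ^ (5 / 4 : ℝ)) / (700 * K) := by
    field_simp
    ring
  rw [h8, div_le_iff₀ (by positivity)]
  linarith

/-- bound for `L(1/2 + z)` near the critical line -/
noncomputable def MM (q : ℕ) (T : ℝ) : ℝ := 4 * q * (1 + T)

lemma norm_LFunction_near {χ : DirichletCharacter ℂ q} (hχ : χ ≠ 1) {γ T : ℝ} (hγ : |γ| ≤ T)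
    {z : ℂ} (hz : z ∈ Metric.ball (Complex.I * (γ : ℂ)) (1 / 4)) :
    ‖LFunction χ (1 / 2 + z)‖ ≤ MM q T := by
  rw [Metric.mem_ball, dist_eq_norm] at hz
  have h1 : |z.re| < 1 / 4 := by
    have := Complex.abs_re_le_norm (z - Complex.I * γ)
    simp at this
    linarith
  have h2 := abs_lt.mp h1
  have hre : 1 / 4 ≤ (1 / 2 + z).re := by simp; linarith
  have hn : ‖1 / 2 + z‖ ≤ 1 + T := by
    calc ‖1 / 2 + z‖ = ‖(1 / 2 : ℂ) + Complex.I * γ + (z - Complex.I * γ)‖ := by congr 1; ring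
      _ ≤ ‖(1 / 2 : ℂ) + Complex.I * γ‖ + ‖z - Complex.I * γ‖ := norm_add_le _ _
      _ ≤ ‖(1 / 2 : ℂ)‖ + ‖Complex.I * γ‖ + ‖z - Complex.I * γ‖ := by
          gcongr; exact norm_add_le _ _
      _ ≤ 1 / 2 + |γ| + 1 / 4 := by
          have e1 : ‖(1 / 2 : ℂ)‖ = 1 / 2 := by norm_num
          have e2 : ‖Complex.I * (γ : ℂ)‖ = |γ| := by
            rw [norm_mul, Complex.norm_I, one_mul, Complex.norm_real, Real.norm_eq_abs]
          rw [e1, e2]
          linarith
      _ ≤ 1 + T := by linarith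
  have hq0 : (0 : ℝ) < q := by exact_mod_cast Nat.pos_of_ne_zero (NeZero.ne q)
  have hT0 : 0 ≤ T := (abs_nonneg γ).trans hγ
  refine (norm_LFunction_le hχ (by linarith)).trans ?_
  have h5 : (q : ℝ) / (1 / 2 + z).re ≤ 4 * q := by
    rw [div_le_iff₀ (by linarith)]
    nlinarith
  calc ‖1 / 2 + z‖ * (q / (1 / 2 + z).re) ≤ (1 + T) * (4 * q) := by gcongr
    _ = MM q T := by unfold MM; ring

lemma c1_le (hq : 1 ≤ Real.sqrt (q : ℝ)) {K : ℝ} (hK : 1 ≤ K) {T : ℝ} (hT : 0 ≤ T) :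
    c1 q K T ≤ 1 := by
  unfold c1
  rw [div_le_one (by positivity)]
  have h1 : Real.exp (-(2 * T)) ≤ 1 := by rw [Real.exp_le_one_iff]; linarith
  nlinarith [mul_le_mul hK hq (by norm_num) (by linarith)]

/-- the zeros on the critical line are simple, quantitatively. -/
theorem norm_deriv_ge {χ : DirichletCharacter ℂ q} (hχ : χ ≠ 1) {K : ℝ} (hK : 1 ≤ K)
    (hg : Growth (bchi χ) K) {γ T : ℝ} (hγ : |γ| ≤ T)
    (hz : LFunction χ (1 / 2 + Complex.I * γ) = 0) :
    c1 q K T ^ 2 / (128 * MM q T) ≤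
      ‖deriv (fun z : ℂ => LFunction χ (1 / 2 + z)) (Complex.I * γ)‖ := by
  set f : ℂ → ℂ := fun z : ℂ => LFunction χ (1 / 2 + z) with hf
  set a : ℂ := Complex.I * γ with ha
  set M := MM q T with hM
  set c := c1 q K T with hc
  have hq1 := one_le_sqrt_q (q := q)
  have hq0 : (1 : ℝ) ≤ q := by exact_mod_cast Nat.one_le_iff_ne_zero.mpr (NeZero.ne q)
  have hT0 : 0 ≤ T := (abs_nonneg γ).trans hγ
  have hM1 : 1 ≤ M := by
    rw [hM, MM]
    nlinarith
  have hc0 : 0 < c := c1_pos hK T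
  have hc1 : c ≤ 1 := c1_le hq1 hK hT0
  have hfd : Differentiable ℂ f := by
    have := differentiable_LFunction hχ
    exact this.comp (differentiable_id.const_add _)
  have hfa : f a = 0 := hz
  have hmaps : MapsTo f (Metric.ball a (1 / 4)) (Metric.closedBall (f a) M) := by
    intro z hz
    rw [Metric.mem_closedBall, hfa, dist_zero_right]
    exact norm_LFunction_near hχ hγ hz
  have hDb : ∀ z ∈ Metric.ball a (1 / 4), ‖dslope f a z‖ ≤ 4 * M := by
    intro z hz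
    have := Complex.norm_dslope_le_div_of_mapsTo_ball hfd.differentiableOn hmaps hz
    linarith
  have hDd : Differentiable ℂ (dslope f a) := by
    rw [← differentiableOn_univ, Complex.differentiableOn_dslope univ_mem, differentiableOn_univ]
    exact hfd
  have hmem : a ∈ Metric.ball a (1 / 4) := Metric.mem_ball_self (by norm_num)
  have hmaps2 : MapsTo (dslope f a) (Metric.ball a (1 / 4))
      (Metric.closedBall (dslope f a a) (8 * M)) := by
    intro z hz
    rw [Metric.mem_closedBall, dist_eq_norm]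
    have e1 := hDb z hz
    have e2 := hDb a hmem
    have e3 := norm_sub_le (dslope f a z) (dslope f a a)
    linarith
  set x := c / (64 * M) with hx
  have hx0 : 0 < x := by positivity
  have hx1 : x ≤ 1 / 64 := by
    rw [hx, div_le_div_iff₀ (by positivity) (by norm_num)]
    nlinarith
  set δ := x ^ 2 with hδ
  have hδ0 : 0 < δ := by positivity
  have hδ4 : δ < 1 / 4 := by
    rw [hδ]; nlinarith
  set z : ℂ := a + δ with hzdef
  have hzb : z ∈ Metric.ball a (1 / 4) := by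
    rw [Metric.mem_ball, dist_eq_norm, hzdef, add_sub_cancel_left, Complex.norm_real,
      Real.norm_eq_abs, abs_of_pos hδ0]
    exact hδ4
  have hdist := Complex.dist_le_div_mul_dist_of_mapsTo_ball hDd.differentiableOn hmaps2 hzb
  have hza : z ≠ a := by
    intro h
    rw [hzdef] at h
    have : (δ : ℂ) = 0 := by simpa using h
    exact hδ0.ne' (by exact_mod_cast this)
  have hdzz : dist z a = δ := by
    rw [dist_eq_norm, hzdef, add_sub_cancel_left, Complex.norm_real,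
      Real.norm_eq_abs, abs_of_pos hδ0]
  rw [hdzz, dist_eq_norm] at hdist
  have hlow := norm_LFunction_ge hχ hK hg hδ0 (by linarith) hγ
  have hfz : f z = LFunction χ (1 / 2 + (δ + Complex.I * γ)) := by
    rw [hf, hzdef, ha]
    simp only
    congr 1; ring
  rw [← hfz] at hlow
  have hDz : ‖dslope f a z‖ * δ = ‖f z‖ := by
    rw [dslope_of_ne _ hza, slope_def_field, hfa, sub_zero, norm_div, ← dist_eq_norm z a, hdzz]
    field_simp
  have hxp : x ≤ δ ^ (1 / 4 : ℝ) := by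
    have e1 : δ ^ (1 / 4 : ℝ) = x ^ (1 / 2 : ℝ) := by
      rw [hδ, ← Real.rpow_natCast, ← Real.rpow_mul hx0.le]; norm_num
    rw [e1]
    calc x = x ^ (1 : ℝ) := (Real.rpow_one x).symm
      _ ≤ x ^ (1 / 2 : ℝ) := Real.rpow_le_rpow_of_exponent_ge hx0 (by linarith) (by norm_num)
  have hpow : δ ^ (5 / 4 : ℝ) = δ ^ (1 / 4 : ℝ) * δ := by
    conv_rhs => rw [← Real.rpow_one δ]
    rw [← Real.rpow_mul hδ0.le, ← Real.rpow_add hδ0]
    norm_num
  have h6 : c * x ≤ ‖dslope f a z‖ := by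
    have e1 : c * (x * δ) ≤ ‖dslope f a z‖ * δ := by
      rw [hDz]
      refine le_trans ?_ hlow
      rw [hpow]
      gcongr
    have e2 : c * x * δ ≤ ‖dslope f a z‖ * δ := by linarith
    exact le_of_mul_le_mul_right e2 hδ0
  have h7 : ‖dslope f a z‖ - ‖dslope f a a‖ ≤ ‖dslope f a z - dslope f a a‖ := norm_sub_norm_le _ _
  rw [dslope_same] at h7 hdist
  have h8 : c * x - 32 * M * δ ≤ ‖deriv f a‖ := by
    have : 8 * M / (1 / 4) * δ = 32 * M * δ := by ring
    linarith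
  refine le_trans (le_of_eq ?_) h8
  rw [hδ, hx]
  field_simp
  ring

end Pool.Agent.H62
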