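import Pool.Agent.H62.Cont
import Pool.Agent.H62.Fejer

/-!
The function `Wc chi z`, its functional equation and its representation as a Laplace transform.
-/

namespace Pool.Agent.H62

open Real Filter Topology MeasureTheory Set DirichletCharacter

variable {q : ℕ} [NeZero q]

/-- `q ^ (-z/2) * Gammaℝ (3/2 - z) / L (1/2 + z, chi)`. -/
noncomputable def Wc (χ : DirichletCharacter ℂ q) (z : ℂ) : ℂ :=
  Complex.exp (-z * Real.log (Real.sqrt q)) * Complex.Gammaℝ (3 / 2 - z) /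
    LFunction χ (1 / 2 + z)

lemma rootNumber_ne_zero {χ : DirichletCharacter ℂ q} (hχ : IsPrimitive χ) (hχ1 : χ ≠ 1) :
    rootNumber χ ≠ 0 := by
  intro h
  have h1 := IsPrimitive.completedLFunction_one_sub hχ (-1)
  rw [h, mul_zero, zero_mul] at h1
  have h2 : (1 : ℂ) - (-1) = 2 := by norm_num
  rw [h2] at h1
  have h3 := LFunction_eq_completed_div_gammaFactor χ 2 (Or.inl (by norm_num))
  rw [h1, zero_div] at h3
  exact LFunction_ne_zero_of_one_le_re χ (Or.inl hχ1) (by norm_num) h3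

omit [NeZero q] in
lemma odd_inv {χ : DirichletCharacter ℂ q} (h : χ.Odd) : (χ⁻¹).Odd := by
  unfold DirichletCharacter.Odd at *
  rw [MulChar.inv_apply_eq_inv', h]
  norm_num

omit [NeZero q] in
lemma isPrimitive_inv {χ : DirichletCharacter ℂ q} (h : χ.IsPrimitive) : (χ⁻¹).IsPrimitive := by
  rw [isPrimitive_def] at *
  rw [conductor_inv, h]

omit [NeZero q] in
lemma odd_ne_one {χ : DirichletCharacter ℂ q} (h : χ.Odd) : χ ≠ 1 := by
  rintro rfl
  unfold DirichletCharacter.Odd at h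
  rw [MulChar.one_apply (isUnit_one.neg)] at h
  norm_num at h

lemma Wc_fe {χ : DirichletCharacter ℂ q} (hp : χ.IsPrimitive) (ho : χ.Odd) {z : ℂ}
    (h1 : -(3 / 2) < z.re) (h2 : z.re < 3 / 2) :
    Wc χ z = rootNumber χ⁻¹ * Wc χ⁻¹ (-z) := by
  have hε := rootNumber_ne_zero (isPrimitive_inv hp) (odd_ne_one (odd_inv ho))
  have hfe := IsPrimitive.completedLFunction_one_sub (isPrimitive_inv hp) (1 / 2 + z)
  rw [inv_inv] at hfe
  have hL1 : LFunction χ (1 / 2 + z) = completedLFunction χ (1 / 2 + z) /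
      Complex.Gammaℝ (3 / 2 + z) := by
    rw [LFunction_eq_completed_div_gammaFactor χ _ (Or.inr ?_), ho.gammaFactor_def]
    · congr 2; ring
    · rintro rfl
      exact odd_ne_one ho (level_one χ)
  have hL2 : LFunction χ⁻¹ (1 / 2 + -z) = completedLFunction χ⁻¹ (1 - (1 / 2 + z)) /
      Complex.Gammaℝ (3 / 2 - z) := by
    rw [LFunction_eq_completed_div_gammaFactor χ⁻¹ _ (Or.inr ?_), (odd_inv ho).gammaFactor_def]
    · congr 2 <;> ring
    · rintro rfl
      exact odd_ne_one ho (level_one χ)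
  have hG1 : Complex.Gammaℝ (3 / 2 + z) ≠ 0 :=
    Complex.Gammaℝ_ne_zero_of_re_pos (by simp; linarith)
  have hG2 : Complex.Gammaℝ (3 / 2 - z) ≠ 0 :=
    Complex.Gammaℝ_ne_zero_of_re_pos (by simp; linarith)
  have hq : (q : ℝ) ≠ 0 := by exact_mod_cast NeZero.ne q
  have hq0 : (0:ℝ) < q := by exact_mod_cast Nat.pos_of_ne_zero (NeZero.ne q)
  have hlog : Real.log (Real.sqrt q) = Real.log q / 2 := by
    rw [Real.log_sqrt hq0.le]
  have hqz : (q : ℂ) ^ (1 / 2 + z - 1 / 2) = Complex.exp (z * Real.log (Real.sqrt q)) *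
      Complex.exp (z * Real.log (Real.sqrt q)) := by
    rw [← Complex.exp_add, Complex.cpow_def_of_ne_zero (by exact_mod_cast NeZero.ne q), hlog,
      ← Complex.natCast_log]
    congr 1
    push_cast
    ring
  unfold Wc
  rw [hL1, hL2, hfe, hqz]
  have e1 : Complex.exp (-z * Real.log (Real.sqrt q)) =
      (Complex.exp (z * Real.log (Real.sqrt q)))⁻¹ := by
    rw [← Complex.exp_neg]; congr 1; ring
  rw [e1, neg_neg]
  have e2 : Complex.exp (z * Real.log (Real.sqrt q)) ≠ 0 := Complex.exp_ne_zero _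
  have e3 : (3 / 2 - -z : ℂ) = 3 / 2 + z := by ring
  rw [e3]
  by_cases hC : completedLFunction χ (1 / 2 + z) = 0
  · rw [hC]; simp
  field_simp

/-- Laplace transform of `hb (bchi chi)`. -/
theorem laplace_bchi {χ : DirichletCharacter ℂ q} (hχ : χ ≠ 1) {K : ℝ} (hK : 0 ≤ K)
    (hg : Growth (bchi χ) K) {z : ℂ} (h1 : 0 < z.re) (h2 : z.re < 3 / 2) :
    ∫ t : ℝ, Complex.exp (-z * t) * hb (bchi χ) (Real.sqrt q) t = Wc χ z := by
  have hq0 : (0:ℝ) < q := by exact_mod_cast Nat.pos_of_ne_zero (NeZero.ne q)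
  rw [laplace_hb _ (Real.sqrt_pos.mpr hq0)]
  have hs1 : 1 / 2 < (1 / 2 + z).re := by simp; linarith
  have hs2 : (1 / 2 + z).re < 2 := by simp; linarith
  have h3 := mellin_mul_LFunction hχ hK hg hs1 hs2
  have h4 := LFunction_ne_zero_of_growth hχ hK hg hs1 hs2
  unfold Wc
  rw [mul_div_assoc, eq_comm]
  congr 1
  rw [div_eq_iff h4, h3]
  congr 1
  ring

end Pool.Agent.H62
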