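import Pool.Agent.H62.Kloost
import Mathlib.Analysis.Real.Pi.Bounds

/-!
The special Kloosterman sum is large.
-/

namespace Pool.Agent.H62

open Finset ZMod

variable {N : ℕ} [NeZero N]

/-- signed sums -/
def yy (N : ℕ) (A : Finset ℕ) : ℤ :=
  ∑ ℓ ∈ N.primeFactors, (if ℓ ∈ A then -1 else 1) * ((N / ℓ : ℕ) : ℤ) ^ 2

omit [NeZero N] in
lemma dvd_div_of_ne {ℓ ℓ' : ℕ} (h : ℓ ∈ N.primeFactors) (h' : ℓ' ∈ N.primeFactors)
    (hne : ℓ ≠ ℓ') : ℓ ∣ N / ℓ' := by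
  have hp := Nat.prime_of_mem_primeFactors h
  have hp' := Nat.prime_of_mem_primeFactors h'
  have hd := Nat.dvd_of_mem_primeFactors h
  have hd' := Nat.dvd_of_mem_primeFactors h'
  have hco : Nat.Coprime ℓ ℓ' := (Nat.coprime_primes hp hp').mpr hne
  have h1 : ℓ ∣ ℓ' * (N / ℓ') := by rw [Nat.mul_div_cancel' hd']; exact hd
  exact hco.dvd_of_dvd_mul_left h1

omit [NeZero N] in
lemma yy_red {ℓ : ℕ} (h : ℓ ∈ N.primeFactors) (A : Finset ℕ) :
    ((yy N A : ℤ) : ZMod ℓ) = (if ℓ ∈ A then -1 else 1) * ((N / ℓ : ℕ) : ZMod ℓ) ^ 2 := by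
  unfold yy
  simp only [Int.cast_sum, Int.cast_mul, Int.cast_pow, Int.cast_natCast, Int.cast_ite, Int.cast_neg,
    Int.cast_one]
  rw [Finset.sum_eq_single ℓ]
  · intro ℓ' h' hne
    have h1 : ((N / ℓ' : ℕ) : ZMod ℓ) = 0 := by
      rw [ZMod.natCast_eq_zero_iff]
      exact dvd_div_of_ne h h' (Ne.symm hne)
    rw [h1]; simp
  · intro h'; exact absurd h h'

lemma div_ne_zero_mod (hsq : Squarefree N) {ℓ : ℕ} (h : ℓ ∈ N.primeFactors) :
    ((N / ℓ : ℕ) : ZMod ℓ) ≠ 0 := by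
  rw [Ne, ZMod.natCast_eq_zero_iff]
  intro h1
  have hp := Nat.prime_of_mem_primeFactors h
  have hd := Nat.dvd_of_mem_primeFactors h
  have h2 : ℓ * ℓ ∣ N := by
    have := Nat.mul_dvd_mul_left ℓ h1
    rwa [Nat.mul_div_cancel' hd] at this
  have := hsq ℓ h2
  exact hp.one_lt.ne' (Nat.isUnit_iff.mp this)

lemma f_mul {ℓ ℓ' : ℕ} (h : ℓ ∈ N.primeFactors) (h' : ℓ' ∈ N.primeFactors) (hne : ℓ ≠ ℓ') :
    ((N / ℓ : ℕ) : ZMod (N ^ 2)) * ((N / ℓ' : ℕ) : ZMod (N ^ 2)) *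
    (((N / ℓ : ℕ) : ZMod (N ^ 2)) * ((N / ℓ' : ℕ) : ZMod (N ^ 2))) = 0 := by
  obtain ⟨m, hm⟩ := dvd_div_of_ne h h' hne
  have hd := Nat.dvd_of_mem_primeFactors h
  have h1 : (N / ℓ) * (N / ℓ') = N * m := by
    rw [hm, ← mul_assoc, Nat.div_mul_cancel hd]
  rw [← Nat.cast_mul, h1, Nat.cast_mul]
  have := N_sq (N := N)
  linear_combination (m : ZMod (N ^ 2)) ^ 2 * this

lemma yy_sq (A : Finset ℕ) : ((yy N A : ℤ) : ZMod (N ^ 2)) ^ 2 =
    ∑ ℓ ∈ N.primeFactors, ((N / ℓ : ℕ) : ZMod (N ^ 2)) ^ 4 := by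
  unfold yy
  simp only [Int.cast_sum, Int.cast_mul, Int.cast_pow, Int.cast_natCast, Int.cast_ite, Int.cast_neg,
    Int.cast_one]
  have hsq2 : ∀ z : ZMod (N ^ 2), z ^ 2 = z * z := fun z => sq z
  rw [hsq2, Finset.sum_mul_sum]
  refine Finset.sum_congr rfl (fun ℓ h => ?_)
  rw [Finset.sum_eq_single ℓ]
  · split_ifs <;> ring
  · intro ℓ' h' hne
    have := f_mul h h' (Ne.symm hne)
    set a := ((N / ℓ : ℕ) : ZMod (N ^ 2))
    set b := ((N / ℓ' : ℕ) : ZMod (N ^ 2))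
    linear_combination ((if ℓ ∈ A then -1 else 1) * (if ℓ' ∈ A then -1 else 1)) * this
  · intro h'; exact absurd h h'

lemma dvd_sq_of_mem {ℓ : ℕ} (h : ℓ ∈ N.primeFactors) : ℓ ∣ N ^ 2 :=
  dvd_pow (Nat.dvd_of_mem_primeFactors h) two_ne_zero

lemma isUnit_of_red {x : ZMod (N ^ 2)}
    (h : ∀ ℓ, (hℓ : ℓ ∈ N.primeFactors) → red (dvd_sq_of_mem hℓ) x ≠ 0) : IsUnit x := by
  obtain ⟨m, rfl⟩ : ∃ m : ℕ, x = (m : ZMod (N ^ 2)) := ⟨x.val, (ZMod.natCast_zmod_val x).symm⟩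
  rw [ZMod.isUnit_iff_coprime]
  by_contra hco
  obtain ⟨p, hp, h1, h2⟩ := Nat.Prime.not_coprime_iff_dvd.mp hco
  have h3 : p ∣ N := hp.dvd_of_dvd_pow h2
  have h4 : p ∈ N.primeFactors := Nat.mem_primeFactors.mpr ⟨hp, h3, NeZero.ne N⟩
  apply h p h4
  unfold red
  rw [map_natCast, ZMod.natCast_eq_zero_iff]
  exact h1

lemma two_ne_zero_mod (hodd : Odd N) {ℓ : ℕ} (h : ℓ ∈ N.primeFactors) : (2 : ZMod ℓ) ≠ 0 := by
  have hp := Nat.prime_of_mem_primeFactors h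
  have hd := Nat.dvd_of_mem_primeFactors h
  intro h2
  have h3 : ((2 : ℕ) : ZMod ℓ) = 0 := by exact_mod_cast h2
  rw [ZMod.natCast_eq_zero_iff] at h3
  have h4 : ℓ = 2 := (Nat.prime_dvd_prime_iff_eq hp Nat.prime_two).mp h3
  rw [h4] at hd
  exact (Nat.not_even_iff_odd.mpr hodd) (even_iff_two_dvd.mpr hd)

lemma sign_ne_zero_mod {ℓ : ℕ} (h : ℓ ∈ N.primeFactors) (A : Finset ℕ) :
    ((if ℓ ∈ A then -1 else 1 : ZMod ℓ)) ≠ 0 := by
  have : Fact ℓ.Prime := ⟨Nat.prime_of_mem_primeFactors h⟩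
  split_ifs
  · exact neg_ne_zero.mpr one_ne_zero
  · exact one_ne_zero

lemma red_yy {ℓ : ℕ} (h : ℓ ∈ N.primeFactors) (A : Finset ℕ) :
    red (dvd_sq_of_mem h) ((yy N A : ℤ) : ZMod (N ^ 2)) =
      (if ℓ ∈ A then -1 else 1) * ((N / ℓ : ℕ) : ZMod ℓ) ^ 2 := by
  rw [← yy_red h A]
  unfold red
  rw [map_intCast]

lemma red_yy_ne (hsq : Squarefree N) {ℓ : ℕ} (h : ℓ ∈ N.primeFactors) (A : Finset ℕ) :
    red (dvd_sq_of_mem h) ((yy N A : ℤ) : ZMod (N ^ 2)) ≠ 0 := by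
  have : Fact ℓ.Prime := ⟨Nat.prime_of_mem_primeFactors h⟩
  rw [red_yy h]
  exact mul_ne_zero (sign_ne_zero_mod h A) (pow_ne_zero 2 (div_ne_zero_mod hsq h))

lemma isUnit_yy (hsq : Squarefree N) (A : Finset ℕ) : IsUnit ((yy N A : ℤ) : ZMod (N ^ 2)) :=
  isUnit_of_red (fun _ h => red_yy_ne hsq h A)

/-- the unit `y₀` -/
noncomputable def y0 (N : ℕ) [NeZero N] (hsq : Squarefree N) : (ZMod (N ^ 2))ˣ :=
  (isUnit_yy hsq ∅).unit

lemma y0_val (hsq : Squarefree N) : ((y0 N hsq : (ZMod (N ^ 2))ˣ) : ZMod (N ^ 2)) =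
    ((yy N ∅ : ℤ) : ZMod (N ^ 2)) := rfl

lemma sq_eq_zero_of_N_mul {z : ZMod (N ^ 2)} (hz : (N : ZMod (N ^ 2)) * z = 0) : z ^ 2 = 0 := by
  obtain ⟨m, rfl⟩ : ∃ m : ℕ, z = (m : ZMod (N ^ 2)) := ⟨z.val, (ZMod.natCast_zmod_val z).symm⟩
  rw [← Nat.cast_mul, ZMod.natCast_eq_zero_iff, sq] at hz
  obtain ⟨k, rfl⟩ : N ∣ m := Nat.dvd_of_mul_dvd_mul_left (Nat.pos_of_ne_zero (NeZero.ne N)) hz
  push_cast
  have := N_sq (N := N)
  linear_combination (k : ZMod (N ^ 2)) ^ 2 * this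

theorem exists_A (hsq : Squarefree N) (hodd : Odd N) {x : (ZMod (N ^ 2))ˣ}
    (hx : x ∈ Xs N ((y0 N hsq : ZMod (N ^ 2)) ^ 2)) :
    ∃ A : Finset ℕ, (x : ZMod (N ^ 2)) + (y0 N hsq : ZMod (N ^ 2)) ^ 2 *
      ((x⁻¹ : (ZMod (N ^ 2))ˣ) : ZMod (N ^ 2)) = 2 * ((yy N A : ℤ) : ZMod (N ^ 2)) := by
  classical
  rw [mem_Xs] at hx
  set A : Finset ℕ := N.primeFactors.filter
    (fun ℓ => (ZMod.cast (x : ZMod (N ^ 2)) : ZMod ℓ) ≠ ((yy N ∅ : ℤ) : ZMod ℓ)) with hA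
  refine ⟨A, ?_⟩
  set Y := ((yy N A : ℤ) : ZMod (N ^ 2)) with hY
  set y := (y0 N hsq : ZMod (N ^ 2)) with hy
  set X := (x : ZMod (N ^ 2)) with hX
  set X' := ((x⁻¹ : (ZMod (N ^ 2))ˣ) : ZMod (N ^ 2)) with hX'
  have hXX : X * X' = 1 := Units.mul_inv x
  have hred : ∀ ℓ, (hℓ : ℓ ∈ N.primeFactors) → red (dvd_sq_of_mem hℓ) X = red (dvd_sq_of_mem hℓ) Y ∧
      (red (dvd_sq_of_mem hℓ) y) ^ 2 = (red (dvd_sq_of_mem hℓ) X) ^ 2 := by
    intro ℓ hℓ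
    have : Fact ℓ.Prime := ⟨Nat.prime_of_mem_primeFactors hℓ⟩
    have e1 := red_of_N_mul (Nat.dvd_of_mem_primeFactors hℓ) hx
    rw [map_sub, map_pow, map_pow, sub_eq_zero] at e1
    refine ⟨?_, e1.symm⟩
    have e2 := red_yy hℓ (∅ : Finset ℕ)
    rw [if_neg (by simp), one_mul] at e2
    have e3 := red_yy hℓ A
    rw [hY, e3]
    by_cases hm : ℓ ∈ A
    · rw [if_pos hm, ← e2]
      rw [hA, Finset.mem_filter] at hm
      have e4 : red (dvd_sq_of_mem hℓ) X ≠ red (dvd_sq_of_mem hℓ) ((yy N ∅ : ℤ) : ZMod (N ^ 2)) := by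
        have h5 := hm.2
        unfold red
        rw [map_intCast, ZMod.castHom_apply]
        exact h5
      have e5 := sq_eq_sq_iff_eq_or_eq_neg.mp e1
      rcases e5 with h | h
      · exact absurd h e4
      · rw [h, hy, y0_val]; ring
    · rw [if_neg hm, one_mul, ← e2]
      rw [hA, Finset.mem_filter] at hm
      push Not at hm
      have h5 := hm hℓ
      unfold red
      rw [map_intCast, ZMod.castHom_apply]
      exact h5
  have h1 : (X + y ^ 2 * X') ^ 2 = (2 * Y) ^ 2 := by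
    have e1 := sq_eq_zero_of_N_mul hx
    have e2 : Y ^ 2 = y ^ 2 := by
      rw [hY, yy_sq, hy, y0_val, yy_sq]
    have e3 : (X - y ^ 2 * X') ^ 2 = 0 := by
      have : X - y ^ 2 * X' = X' * (X ^ 2 - y ^ 2) := by
        linear_combination (-X) * hXX
      rw [this, mul_pow, e1, mul_zero]
    linear_combination e3 + 4 * y ^ 2 * hXX - 4 * e2
  have hu : IsUnit (X + y ^ 2 * X' + 2 * Y) := by
    apply isUnit_of_red
    intro ℓ hℓ
    have : Fact ℓ.Prime := ⟨Nat.prime_of_mem_primeFactors hℓ⟩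
    obtain ⟨r1, r2⟩ := hred ℓ hℓ
    have h2 := two_ne_zero_mod hodd hℓ
    set r := red (dvd_sq_of_mem hℓ)
    rw [map_add, map_add, map_mul, map_mul, map_pow, r2, ← r1]
    have r3 : r X * r X' = 1 := by rw [← map_mul, hXX, map_one]
    have r4 : r 2 = 2 := map_ofNat r 2
    have r5 : r X + r X ^ 2 * r X' + r 2 * r X = 2 * 2 * r X := by
      rw [r4]
      linear_combination (r X) * r3
    rw [r5]
    have r6 : r X ≠ 0 := left_ne_zero_of_mul_eq_one r3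
    exact mul_ne_zero (mul_ne_zero h2 h2) r6
  have h3 : (X + y ^ 2 * X' + 2 * Y) * (X + y ^ 2 * X' - 2 * Y) = 0 := by
    linear_combination h1
  exact sub_eq_zero.mp ((hu.mul_right_eq_zero).mp h3)

/-- the sum of `1/ℓ²` over the prime factors -/
noncomputable def sig (N : ℕ) : ℝ := ∑ ℓ ∈ N.primeFactors, 1 / (ℓ : ℝ) ^ 2

lemma yy_abs_le (A : Finset ℕ) : |((yy N A : ℤ) : ℝ)| ≤ (N : ℝ) ^ 2 * sig N := by
  unfold yy sig
  simp only [Int.cast_sum, Int.cast_mul, Int.cast_pow, Int.cast_natCast, Int.cast_ite, Int.cast_neg,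
    Int.cast_one]
  rw [Finset.mul_sum]
  refine (Finset.abs_sum_le_sum_abs _ _).trans (Finset.sum_le_sum (fun ℓ h => ?_))
  have hd := Nat.dvd_of_mem_primeFactors h
  have hp := Nat.prime_of_mem_primeFactors h
  have hp0 : (ℓ : ℝ) ≠ 0 := by exact_mod_cast hp.ne_zero
  rw [abs_mul, Nat.cast_div hd hp0]
  have h1 : |(if ℓ ∈ A then -1 else 1 : ℝ)| = 1 := by split_ifs <;> simp
  rw [h1, one_mul, abs_of_nonneg (by positivity), div_pow]
  apply le_of_eq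
  ring

lemma re_stdAddChar (j : ℤ) : (stdAddChar ((2 * (j : ZMod (N ^ 2)))) : ℂ).re =
    Real.cos (4 * Real.pi * ((j : ℝ) / (N : ℝ) ^ 2)) := by
  have h1 : (2 * (j : ZMod (N ^ 2))) = ((2 * j : ℤ) : ZMod (N ^ 2)) := by push_cast; ring
  rw [h1, stdAddChar_coe]
  have h2 : (2 * (Real.pi : ℂ) * Complex.I * ((2 * j : ℤ) : ℂ) / ((N ^ 2 : ℕ) : ℂ)) =
      ((4 * Real.pi * ((j : ℝ) / (N : ℝ) ^ 2) : ℝ) : ℂ) * Complex.I := by
    push_cast; ring
  rw [h2, Complex.exp_ofReal_mul_I_re]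

theorem K1_re_ge (hsq : Squarefree N) (hodd : Odd N) :
    (1 - (4 * Real.pi * sig N) ^ 2 / 2) * (Xs N ((y0 N hsq : ZMod (N ^ 2)) ^ 2)).card ≤
      (K1 N ((y0 N hsq : ZMod (N ^ 2)) ^ 2)).re := by
  rw [K1_eq, Complex.re_sum]
  have h1 : ∀ x ∈ Xs N ((y0 N hsq : ZMod (N ^ 2)) ^ 2), (1 - (4 * Real.pi * sig N) ^ 2 / 2) ≤
      (stdAddChar ((x : ZMod (N ^ 2)) + (y0 N hsq : ZMod (N ^ 2)) ^ 2 *
        ((x⁻¹ : (ZMod (N ^ 2))ˣ) : ZMod (N ^ 2))) : ℂ).re := by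
    intro x hx
    obtain ⟨A, hA⟩ := exists_A hsq hodd hx
    rw [hA, re_stdAddChar]
    refine le_trans ?_ (Real.one_sub_sq_div_two_le_cos)
    have hN : (0 : ℝ) < (N : ℝ) ^ 2 := by
      have : (0 : ℝ) < N := by exact_mod_cast Nat.pos_of_ne_zero (NeZero.ne N)
      positivity
    have h2 : |4 * Real.pi * (((yy N A : ℤ) : ℝ) / (N : ℝ) ^ 2)| ≤ 4 * Real.pi * sig N := by
      rw [abs_mul, abs_of_pos (by positivity : (0:ℝ) < 4 * Real.pi), abs_div, abs_of_pos hN]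
      gcongr
      rw [div_le_iff₀ hN, mul_comm]
      exact yy_abs_le A
    have h3 : (4 * Real.pi * (((yy N A : ℤ) : ℝ) / (N : ℝ) ^ 2)) ^ 2 ≤ (4 * Real.pi * sig N) ^ 2 :=
      sq_le_sq' (by have := neg_abs_le (4 * Real.pi * (((yy N A : ℤ) : ℝ) / (N : ℝ) ^ 2)); linarith)
        ((le_abs_self _).trans h2)
    linarith
  calc _ = ∑ x ∈ Xs N ((y0 N hsq : ZMod (N ^ 2)) ^ 2), (1 - (4 * Real.pi * sig N) ^ 2 / 2) := by
        rw [Finset.sum_const, nsmul_eq_mul]; ring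
    _ ≤ _ := Finset.sum_le_sum h1

/-- lower bound for the number of solutions -/
theorem card_Xs_ge (hsq : Squarefree N) (hodd : Odd N) :
    2 ^ N.primeFactors.card * N ≤ (Xs N ((y0 N hsq : ZMod (N ^ 2)) ^ 2)).card := by
  classical
  set F : Finset ℕ × ℕ → (ZMod (N ^ 2))ˣ := fun p =>
    if h : IsUnit (((yy N p.1 : ℤ) : ZMod (N ^ 2)) + N * p.2) then h.unit else 1 with hF
  have hunit : ∀ (A : Finset ℕ) (t : ℕ), IsUnit (((yy N A : ℤ) : ZMod (N ^ 2)) + N * t) := by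
    intro A t
    apply isUnit_of_red
    intro ℓ hℓ
    rw [map_add, map_mul]
    have : red (dvd_sq_of_mem hℓ) (N : ZMod (N ^ 2)) = 0 := by
      unfold red
      rw [map_natCast, ZMod.natCast_eq_zero_iff]
      exact Nat.dvd_of_mem_primeFactors hℓ
    rw [this, zero_mul, add_zero]
    exact red_yy_ne hsq hℓ A
  have hFv : ∀ p, ((F p : (ZMod (N ^ 2))ˣ) : ZMod (N ^ 2)) =
      ((yy N p.1 : ℤ) : ZMod (N ^ 2)) + N * p.2 := by
    intro p
    rw [hF]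
    simp only
    rw [dif_pos (hunit p.1 p.2), IsUnit.unit_spec]
  have hcard : (N.primeFactors.powerset ×ˢ range N).card = 2 ^ N.primeFactors.card * N := by
    rw [Finset.card_product, Finset.card_powerset, Finset.card_range]
  rw [← hcard]
  apply Finset.card_le_card_of_injOn F
  · intro p _
    rw [Finset.mem_coe, mem_Xs, hFv, y0_val]
    have e1 := yy_sq (N := N) p.1
    have e2 := yy_sq (N := N) (∅ : Finset ℕ)
    have e3 := N_sq (N := N)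
    linear_combination (N : ZMod (N ^ 2)) * e1 - (N : ZMod (N ^ 2)) * e2 +
      (2 * ((yy N p.1 : ℤ) : ZMod (N ^ 2)) * p.2 + (N : ZMod (N ^ 2)) * (p.2 : ZMod (N ^ 2)) ^ 2) * e3
  · rintro ⟨A, t⟩ hA ⟨B, s⟩ hB hAB
    rw [Finset.mem_coe, Finset.mem_product, Finset.mem_powerset, Finset.mem_range] at hA hB
    simp only at hA hB
    have h1 := congrArg (fun u : (ZMod (N ^ 2))ˣ => (u : ZMod (N ^ 2))) hAB
    simp only [hFv] at h1
    have hAB' : A = B := by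
      ext ℓ
      by_cases hℓ : ℓ ∈ N.primeFactors
      · have : Fact ℓ.Prime := ⟨Nat.prime_of_mem_primeFactors hℓ⟩
        have h2 := congrArg (red (dvd_sq_of_mem hℓ)) h1
        have hN0 : red (dvd_sq_of_mem hℓ) (N : ZMod (N ^ 2)) = 0 := by
          unfold red
          rw [map_natCast, ZMod.natCast_eq_zero_iff]
          exact Nat.dvd_of_mem_primeFactors hℓ
        rw [map_add, map_add, map_mul, map_mul, hN0, zero_mul, zero_mul, add_zero, add_zero,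
          red_yy hℓ, red_yy hℓ] at h2
        have h3 := mul_right_cancel₀ (pow_ne_zero 2 (div_ne_zero_mod hsq hℓ)) h2
        have h4 := two_ne_zero_mod hodd hℓ
        by_cases ha : ℓ ∈ A <;> by_cases hb : ℓ ∈ B
        · simp [ha, hb]
        · rw [if_pos ha, if_neg hb] at h3
          exfalso; apply h4; linear_combination -h3
        · rw [if_neg ha, if_pos hb] at h3
          exfalso; apply h4; linear_combination h3
        · simp [ha, hb]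
      · constructor
        · intro h; exact absurd (hA.1 h) hℓ
        · intro h; exact absurd (hB.1 h) hℓ
    subst hAB'
    have h2 : ((N * t : ℕ) : ZMod (N ^ 2)) = ((N * s : ℕ) : ZMod (N ^ 2)) := by
      push_cast
      linear_combination h1
    rw [ZMod.natCast_eq_natCast_iff] at h2
    have hN0 : 0 < N := Nat.pos_of_ne_zero (NeZero.ne N)
    have h3 : N * t = N * s := by
      apply Nat.ModEq.eq_of_lt_of_lt h2
      · rw [sq]; exact Nat.mul_lt_mul_of_pos_left hA.2 hN0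
      · rw [sq]; exact Nat.mul_lt_mul_of_pos_left hB.2 hN0
    have h4 : t = s := Nat.eq_of_mul_eq_mul_left hN0 h3
    rw [h4]

end Pool.Agent.H62
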